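import Pool.Agent.HilbPts.Chain

set_option autoImplicit false
set_option linter.all false

namespace Pool.Agent.HilbPts

variable {k : Type*} [Field k]

/-- Expanded quadratic function. -/
def pp4F (c : k) (a : Fin 4 → k) (B : Fin 4 → Fin 4 → k) (x0 x1 x2 x3 : k) : k :=
  c +
    a 0 * x0 +
    a 1 * x1 +
    a 2 * x2 +
    a 3 * x3 +
    B 0 0 * (x0 * x0) +
    B 1 1 * (x1 * x1) +
    B 2 2 * (x2 * x2) +
    B 3 3 * (x3 * x3) +
    2 * B 0 1 * (x0 * x1) +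
    2 * B 0 2 * (x0 * x2) +
    2 * B 0 3 * (x0 * x3) +
    2 * B 1 2 * (x1 * x2) +
    2 * B 1 3 * (x1 * x3) +
    2 * B 2 3 * (x2 * x3)

theorem pp4F_eq (c : k) (a : Fin 4 → k) (B : Fin 4 → Fin 4 → k) (hB : ∀ i j, B i j = B j i)
    (x : Fin 4 → k) {x0 x1 x2 x3 : k} (h0 : x 0 = x0) (h1 : x 1 = x1) (h2 : x 2 = x2) (h3 : x 3 = x3) :
    qrep c a B x = pp4F c a B x0 x1 x2 x3 := by
  subst h0 h1 h2 h3
  simp only [qrep, Fin.sum_univ_four, pp4F]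
  rw [hB 1 0, hB 2 0, hB 3 0, hB 2 1, hB 3 1, hB 3 2]
  ring

/-- Points. -/
def pp4P (k : Type*) [Field k] : Fin 9 → Fin 4 → k :=
  ![![0, 0, 0, 0],
    ![0, 0, 0, 1],
    ![0, 0, 1, 0],
    ![0, 1, 0, 0],
    ![0, 1, 0, 1],
    ![0, 1, 1, 0],
    ![1, 0, 0, 0],
    ![1, 0, 0, 1],
    ![1, 0, 1, 0]]

/-- Integral points. -/
def pp4Z : Fin 9 → Fin 4 → ℤ :=
  ![![0, 0, 0, 0],
    ![0, 0, 0, 1],
    ![0, 0, 1, 0],
    ![0, 1, 0, 0],
    ![0, 1, 0, 1],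
    ![0, 1, 1, 0],
    ![1, 0, 0, 0],
    ![1, 0, 0, 1],
    ![1, 0, 1, 0]]

theorem pp4_inX [CharZero k] (l : Fin 9) : InX (va k) (vb k) 1 1 (pp4P k l) := by
  have h1 : ∀ s, pp4P k s = fun i => ((pp4Z s i : ℤ) : k) := by
    intro s
    funext m
    revert m
    have h2 : ∀ (a : ℤ) (b : k) (p : a = 0 ∧ b = 0 ∨ a = 1 ∧ b = 1), b = (a : k) := by
      rintro a b (⟨rfl, rfl⟩ | ⟨rfl, rfl⟩) <;> simp
    intro m
    exact h2 _ _ (by fin_cases s <;> fin_cases m <;> first | exact Or.inl ⟨rfl, rfl⟩ | exact Or.inr ⟨rfl, rfl⟩)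
  rw [h1]
  have h3 : ∀ l, (∀ i, pp4Z l i = 0 ∨ pp4Z l i = 1) ∧
      (1 - ∑ i : Fin 4, (vZ i).1 * pp4Z l i = 0 ∨ 1 - ∑ i : Fin 4, (vZ i).1 * pp4Z l i = 1) ∧
      (1 - ∑ i : Fin 4, (vZ i).2 * pp4Z l i = 0 ∨ 1 - ∑ i : Fin 4, (vZ i).2 * pp4Z l i = 1) := by decide +kernel
  have := inX_cast (k := k) 1 1 (pp4Z l) (h3 l)
  simpa using this

theorem pp4_sum (F : Fin 9 → k) : ∑ l, F l = F 0 + F 1 + F 2 + F 3 + F 4 + F 5 + F 6 + F 7 + F 8 := by
  simp only [Fin.sum_univ_succ, Fin.sum_univ_zero, add_zero]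
  simp only [← add_assoc]
  rfl

theorem pp4_quad [CharZero k] (f : (Fin 4 → k) → k) (hf : IsQuad f) (hz : ∀ l, f (pp4P k l) = 0) :
    ∃ (uA uB : k) (u : Fin 4 → k), ∀ x,
      f x = uA * (AA (va k) 1 x * AA (va k) 1 x - AA (va k) 1 x) + uB * (AA (vb k) 1 x * AA (vb k) 1 x - AA (vb k) 1 x) +
        ∑ i, u i * (x i * x i - x i) := by
  obtain ⟨c, a, B, hB, hq⟩ := hf.exists_symm
  have h0 : pp4F c a B 0 0 0 0 = 0 := ((pp4F_eq c a B hB (pp4P k 0) rfl rfl rfl rfl).symm.trans ((hq _).symm.trans (hz 0)))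
  have h1 : pp4F c a B 0 0 0 1 = 0 := ((pp4F_eq c a B hB (pp4P k 1) rfl rfl rfl rfl).symm.trans ((hq _).symm.trans (hz 1)))
  have h2 : pp4F c a B 0 0 1 0 = 0 := ((pp4F_eq c a B hB (pp4P k 2) rfl rfl rfl rfl).symm.trans ((hq _).symm.trans (hz 2)))
  have h3 : pp4F c a B 0 1 0 0 = 0 := ((pp4F_eq c a B hB (pp4P k 3) rfl rfl rfl rfl).symm.trans ((hq _).symm.trans (hz 3)))
  have h4 : pp4F c a B 0 1 0 1 = 0 := ((pp4F_eq c a B hB (pp4P k 4) rfl rfl rfl rfl).symm.trans ((hq _).symm.trans (hz 4)))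
  have h5 : pp4F c a B 0 1 1 0 = 0 := ((pp4F_eq c a B hB (pp4P k 5) rfl rfl rfl rfl).symm.trans ((hq _).symm.trans (hz 5)))
  have h6 : pp4F c a B 1 0 0 0 = 0 := ((pp4F_eq c a B hB (pp4P k 6) rfl rfl rfl rfl).symm.trans ((hq _).symm.trans (hz 6)))
  have h7 : pp4F c a B 1 0 0 1 = 0 := ((pp4F_eq c a B hB (pp4P k 7) rfl rfl rfl rfl).symm.trans ((hq _).symm.trans (hz 7)))
  have h8 : pp4F c a B 1 0 1 0 = 0 := ((pp4F_eq c a B hB (pp4P k 8) rfl rfl rfl rfl).symm.trans ((hq _).symm.trans (hz 8)))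
  simp only [pp4F] at h0 h1 h2 h3 h4 h5 h6 h7 h8
  have ec : c = 0 * B 0 1 + 0 * B 2 3 := by
    linear_combination 1 * h0
  have e0 : a 0 + B 0 0 = 0 * B 0 1 + 0 * B 2 3 := by
    linear_combination (-1) * h0 + 1 * h6
  have e1 : a 1 + B 1 1 = 0 * B 0 1 + 0 * B 2 3 := by
    linear_combination (-1) * h0 + 1 * h3
  have e2 : a 2 + B 2 2 = 0 * B 0 1 + 0 * B 2 3 := by
    linear_combination (-1) * h0 + 1 * h2
  have e3 : a 3 + B 3 3 = 0 * B 0 1 + 0 * B 2 3 := by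
    linear_combination (-1) * h0 + 1 * h1
  have e02 : 2 * B 0 2 = 0 * B 0 1 + 0 * B 2 3 := by
    linear_combination 1 * h0 + (-1) * h2 + (-1) * h6 + 1 * h8
  have e03 : 2 * B 0 3 = 0 * B 0 1 + 0 * B 2 3 := by
    linear_combination 1 * h0 + (-1) * h1 + (-1) * h6 + 1 * h7
  have e12 : 2 * B 1 2 = 0 * B 0 1 + 0 * B 2 3 := by
    linear_combination 1 * h0 + (-1) * h2 + (-1) * h3 + 1 * h5
  have e13 : 2 * B 1 3 = 0 * B 0 1 + 0 * B 2 3 := by
    linear_combination 1 * h0 + (-1) * h1 + (-1) * h3 + 1 * h4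
  refine ⟨B 0 1, B 2 3, fun i => B i i - B 0 1 * (va k i * va k i) - B 2 3 * (vb k i * vb k i), fun x => ?_⟩
  rw [hq]
  simp only [qrep, AA, Fin.sum_univ_four, va, vb, vZ, Fin.isValue, Fin.coe_ofNat_eq_mod, Nat.reduceMod]
  push_cast
  linear_combination ec + e0 * x 0 + e1 * x 1 + e2 * x 2 + e3 * x 3 + e02 * x 0 * x 2 + e03 * x 0 * x 3 + e12 * x 1 * x 2 + e13 * x 1 * x 3 + hB 1 0 * (x 0 * x 1) + hB 2 0 * (x 0 * x 2) + hB 3 0 * (x 0 * x 3) + hB 2 1 * (x 1 * x 2) + hB 3 1 * (x 1 * x 3) + hB 3 2 * (x 2 * x 3)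

theorem pp4_indep [CharZero k] (μ : Fin 9 → k) (hμ : ∀ f, IsQuad f → ∑ l, μ l * f (pp4P k l) = 0) : μ = 0 := by
  have hX : ∀ i : Fin 4, IsAff (fun x : Fin 4 → k => x i) := fun i =>
    ⟨0, Pi.single i 1, fun x => by simp [Pi.single_apply]⟩
  have g0 : μ 0 + μ 1 + μ 2 + μ 3 + μ 4 + μ 5 + μ 6 + μ 7 + μ 8 = 0 := by
    have := hμ _ (IsQuad.const 1)
    rw [pp4_sum] at this
    simp [pp4P] at this
    exact this
  have g1 : μ 6 + μ 7 + μ 8 = 0 := by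
    have := hμ _ (hX 0).isQuad
    rw [pp4_sum] at this
    simp [pp4P] at this
    exact this
  have g2 : μ 3 + μ 4 + μ 5 = 0 := by
    have := hμ _ (hX 1).isQuad
    rw [pp4_sum] at this
    simp [pp4P] at this
    exact this
  have g3 : μ 2 + μ 5 + μ 8 = 0 := by
    have := hμ _ (hX 2).isQuad
    rw [pp4_sum] at this
    simp [pp4P] at this
    exact this
  have g4 : μ 1 + μ 4 + μ 7 = 0 := by
    have := hμ _ (hX 3).isQuad
    rw [pp4_sum] at this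
    simp [pp4P] at this
    exact this
  have g5 : μ 8 = 0 := by
    have := hμ _ ((hX 0).mul (hX 2))
    rw [pp4_sum] at this
    simp [pp4P] at this
    exact this
  have g6 : μ 7 = 0 := by
    have := hμ _ ((hX 0).mul (hX 3))
    rw [pp4_sum] at this
    simp [pp4P] at this
    exact this
  have g7 : μ 5 = 0 := by
    have := hμ _ ((hX 1).mul (hX 2))
    rw [pp4_sum] at this
    simp [pp4P] at this
    exact this
  have g8 : μ 4 = 0 := by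
    have := hμ _ ((hX 1).mul (hX 3))
    rw [pp4_sum] at this
    simp [pp4P] at this
    exact this
  funext j
  fin_cases j
  · change μ 0 = 0
    linear_combination 1 * g0 + (-1) * g1 + (-1) * g2 + (-1) * g3 + (-1) * g4 + 1 * g5 + 1 * g6 + 1 * g7 + 1 * g8
  · change μ 1 = 0
    linear_combination 1 * g4 + (-1) * g6 + (-1) * g8
  · change μ 2 = 0
    linear_combination 1 * g3 + (-1) * g5 + (-1) * g7
  · change μ 3 = 0
    linear_combination 1 * g2 + (-1) * g7 + (-1) * g8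
  · change μ 4 = 0
    linear_combination 1 * g8
  · change μ 5 = 0
    linear_combination 1 * g7
  · change μ 6 = 0
    linear_combination 1 * g1 + (-1) * g5 + (-1) * g6
  · change μ 7 = 0
    linear_combination 1 * g6
  · change μ 8 = 0
    linear_combination 1 * g5

theorem pp4 [CharZero k] : PP (va k) (vb k) 4 1 1 :=
  ⟨Fin 9, inferInstance, pp4P k, by simp [Nat.choose], pp4_inX, pp4_quad, pp4_indep⟩

end Pool.Agent.HilbPts
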