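import Pool.Agent.HilbPts.Chain

set_option autoImplicit false

namespace Pool.Agent.HilbPts

variable {k : Type*} [Field k]


theorem ne6_02 [CharZero k] : NE (va k) (vb k) 6 0 2 := by
  refine ⟨![0, 0, 0, 1, 0, 0], fun i => ?_, ?_, ?_⟩
  · fin_cases i <;> simp
  · simp [AA, Fin.sum_univ_succ, va, vZ] <;> norm_num
  · simp [AA, Fin.sum_univ_succ, vb, vZ] <;> norm_num

theorem ne6_44 [CharZero k] : NE (va k) (vb k) 6 4 4 := by
  refine ⟨![0, 1, 0, 1, 1, 1], fun i => ?_, ?_, ?_⟩
  · fin_cases i <;> simp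
  · simp [AA, Fin.sum_univ_succ, va, vZ] <;> norm_num
  · simp [AA, Fin.sum_univ_succ, vb, vZ] <;> norm_num

theorem ne6_13 [CharZero k] : NE (va k) (vb k) 6 1 3 := by
  refine ⟨![0, 0, 0, 1, 0, 1], fun i => ?_, ?_, ?_⟩
  · fin_cases i <;> simp
  · simp [AA, Fin.sum_univ_succ, va, vZ] <;> norm_num
  · simp [AA, Fin.sum_univ_succ, vb, vZ] <;> norm_num

theorem ne6_03 [CharZero k] : NE (va k) (vb k) 6 0 3 := by
  refine ⟨![0, 0, 1, 1, 0, 0], fun i => ?_, ?_, ?_⟩
  · fin_cases i <;> simp
  · simp [AA, Fin.sum_univ_succ, va, vZ] <;> norm_num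
  · simp [AA, Fin.sum_univ_succ, vb, vZ] <;> norm_num

theorem ne6_34 [CharZero k] : NE (va k) (vb k) 6 3 4 := by
  refine ⟨![0, 0, 0, 1, 1, 1], fun i => ?_, ?_, ?_⟩
  · fin_cases i <;> simp
  · simp [AA, Fin.sum_univ_succ, va, vZ] <;> norm_num
  · simp [AA, Fin.sum_univ_succ, vb, vZ] <;> norm_num

theorem ne6_33 [CharZero k] : NE (va k) (vb k) 6 3 3 := by
  refine ⟨![0, 0, 0, 0, 1, 1], fun i => ?_, ?_, ?_⟩
  · fin_cases i <;> simp
  · simp [AA, Fin.sum_univ_succ, va, vZ] <;> norm_num
  · simp [AA, Fin.sum_univ_succ, vb, vZ] <;> norm_num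

theorem fr6_23 [CharZero k] : Fr (va k) (vb k) 6 2 3 := by
  refine ⟨Fin 7, inferInstance, (![![0, 0, 0, 1, 1, 0],
    ![0, 0, 1, 0, 1, 0],
    ![0, 0, 1, 0, 1, 1],
    ![0, 0, 1, 1, 1, 0],
    ![0, 1, 1, 1, 1, 0],
    ![1, 0, 1, 1, 0, 0],
    ![1, 0, 1, 1, 1, 0]] :
    Fin 7 → Fin 6 → k), by simp, ?_, ?_, ?_⟩
  · intro j
    refine ⟨fun i => ?_, ?_, ?_⟩
    · fin_cases j <;> fin_cases i <;> simp
    · fin_cases j <;> simp [AA, Fin.sum_univ_succ, va, vZ] <;> norm_num
    · fin_cases j <;> simp [AA, Fin.sum_univ_succ, vb, vZ] <;> norm_num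
  · intro c a h
    have h0 := h 0
    have h1 := h 1
    have h2 := h 2
    have h3 := h 3
    have h4 := h 4
    have h5 := h 5
    have h6 := h 6
    simp [Fin.sum_univ_succ] at h0 h1 h2 h3 h4 h5 h6
    have hc : c = 0 := by linear_combination 1 * h0 + 1 * h1 + (-1) * h3 + 1 * h5 + (-1) * h6
    refine ⟨hc, ?_⟩
    funext i
    fin_cases i
    · change a 0 = 0
      linear_combination (-1) * h3 + 1 * h6
    · change a 1 = 0
      linear_combination (-1) * h3 + 1 * h4
    · change a 2 = 0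
      linear_combination (-1) * h0 + 1 * h3
    · change a 3 = 0
      linear_combination (-1) * h1 + 1 * h3
    · change a 4 = 0
      linear_combination (-1) * h5 + 1 * h6
    · change a 5 = 0
      linear_combination (-1) * h1 + 1 * h2
  · intro μ h0 h
    simp [Fin.sum_univ_succ] at h0
    have g0 := h 0
    have g1 := h 1
    have g2 := h 2
    have g3 := h 3
    have g4 := h 4
    have g5 := h 5
    simp [Fin.sum_univ_succ] at g0 g1 g2 g3 g4 g5
    funext j
    fin_cases j
    · change μ 0 = 0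
      linear_combination 1 * h0 + (-1) * g2
    · change μ 1 = 0
      linear_combination 1 * h0 + (-1) * g3 + (-1) * g5
    · change μ 2 = 0
      linear_combination 1 * g5
    · change μ 3 = 0
      linear_combination (-1) * h0 + (-1) * g0 + (-1) * g1 + 1 * g2 + 1 * g3
    · change μ 4 = 0
      linear_combination 1 * g1
    · change μ 5 = 0
      linear_combination 1 * h0 + (-1) * g4
    · change μ 6 = 0
      linear_combination (-1) * h0 + 1 * g0 + 1 * g4

theorem fr6_13 [CharZero k] : Fr (va k) (vb k) 6 1 3 := by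
  refine ⟨Fin 7, inferInstance, (![![0, 0, 0, 1, 0, 1],
    ![0, 0, 1, 0, 0, 1],
    ![0, 0, 1, 1, 0, 0],
    ![0, 0, 1, 1, 0, 1],
    ![0, 0, 1, 1, 1, 0],
    ![0, 1, 1, 1, 0, 0],
    ![1, 0, 1, 1, 0, 0]] :
    Fin 7 → Fin 6 → k), by simp, ?_, ?_, ?_⟩
  · intro j
    refine ⟨fun i => ?_, ?_, ?_⟩
    · fin_cases j <;> fin_cases i <;> simp
    · fin_cases j <;> simp [AA, Fin.sum_univ_succ, va, vZ] <;> norm_num
    · fin_cases j <;> simp [AA, Fin.sum_univ_succ, vb, vZ] <;> norm_num
  · intro c a h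
    have h0 := h 0
    have h1 := h 1
    have h2 := h 2
    have h3 := h 3
    have h4 := h 4
    have h5 := h 5
    have h6 := h 6
    simp [Fin.sum_univ_succ] at h0 h1 h2 h3 h4 h5 h6
    have hc : c = 0 := by linear_combination 1 * h0 + 1 * h1 + 1 * h2 + (-2) * h3
    refine ⟨hc, ?_⟩
    funext i
    fin_cases i
    · change a 0 = 0
      linear_combination (-1) * h2 + 1 * h6
    · change a 1 = 0
      linear_combination (-1) * h2 + 1 * h5
    · change a 2 = 0
      linear_combination (-1) * h0 + 1 * h3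
    · change a 3 = 0
      linear_combination (-1) * h1 + 1 * h3
    · change a 4 = 0
      linear_combination (-1) * h2 + 1 * h4
    · change a 5 = 0
      linear_combination (-1) * h2 + 1 * h3
  · intro μ h0 h
    simp [Fin.sum_univ_succ] at h0
    have g0 := h 0
    have g1 := h 1
    have g2 := h 2
    have g3 := h 3
    have g4 := h 4
    have g5 := h 5
    simp [Fin.sum_univ_succ] at g0 g1 g2 g3 g4 g5
    funext j
    fin_cases j
    · change μ 0 = 0
      linear_combination 1 * h0 + (-1) * g2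
    · change μ 1 = 0
      linear_combination 1 * h0 + (-1) * g3
    · change μ 2 = 0
      linear_combination 1 * h0 + (-1) * g0 + (-1) * g1 + (-1) * g4 + (-1) * g5
    · change μ 3 = 0
      linear_combination (-2) * h0 + 1 * g2 + 1 * g3 + 1 * g5
    · change μ 4 = 0
      linear_combination 1 * g4
    · change μ 5 = 0
      linear_combination 1 * g1
    · change μ 6 = 0
      linear_combination 1 * g0

theorem fr6_44 [CharZero k] : Fr (va k) (vb k) 6 4 4 := by
  refine ⟨Fin 7, inferInstance, (![![0, 1, 0, 1, 1, 1],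
    ![0, 1, 1, 1, 1, 1],
    ![1, 0, 1, 0, 1, 1],
    ![1, 1, 1, 0, 1, 1],
    ![1, 1, 1, 1, 0, 1],
    ![1, 1, 1, 1, 1, 0],
    ![1, 1, 1, 1, 1, 1]] :
    Fin 7 → Fin 6 → k), by simp, ?_, ?_, ?_⟩
  · intro j
    refine ⟨fun i => ?_, ?_, ?_⟩
    · fin_cases j <;> fin_cases i <;> simp
    · fin_cases j <;> simp [AA, Fin.sum_univ_succ, va, vZ] <;> norm_num
    · fin_cases j <;> simp [AA, Fin.sum_univ_succ, vb, vZ] <;> norm_num
  · intro c a h
    have h0 := h 0
    have h1 := h 1
    have h2 := h 2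
    have h3 := h 3
    have h4 := h 4
    have h5 := h 5
    have h6 := h 6
    simp [Fin.sum_univ_succ] at h0 h1 h2 h3 h4 h5 h6
    have hc : c = 0 := by linear_combination 1 * h0 + 1 * h2 + 1 * h4 + 1 * h5 + (-3) * h6
    refine ⟨hc, ?_⟩
    funext i
    fin_cases i
    · change a 0 = 0
      linear_combination (-1) * h1 + 1 * h6
    · change a 1 = 0
      linear_combination (-1) * h2 + 1 * h3
    · change a 2 = 0
      linear_combination (-1) * h0 + 1 * h1
    · change a 3 = 0
      linear_combination (-1) * h3 + 1 * h6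
    · change a 4 = 0
      linear_combination (-1) * h4 + 1 * h6
    · change a 5 = 0
      linear_combination (-1) * h5 + 1 * h6
  · intro μ h0 h
    simp [Fin.sum_univ_succ] at h0
    have g0 := h 0
    have g1 := h 1
    have g2 := h 2
    have g3 := h 3
    have g4 := h 4
    have g5 := h 5
    simp [Fin.sum_univ_succ] at g0 g1 g2 g3 g4 g5
    funext j
    fin_cases j
    · change μ 0 = 0
      linear_combination 1 * h0 + (-1) * g2
    · change μ 1 = 0
      linear_combination (-1) * g0 + 1 * g2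
    · change μ 2 = 0
      linear_combination 1 * h0 + (-1) * g1
    · change μ 3 = 0
      linear_combination 1 * g1 + (-1) * g3
    · change μ 4 = 0
      linear_combination 1 * h0 + (-1) * g4
    · change μ 5 = 0
      linear_combination 1 * h0 + (-1) * g5
    · change μ 6 = 0
      linear_combination (-3) * h0 + 1 * g0 + 1 * g3 + 1 * g4 + 1 * g5

end Pool.Agent.HilbPts
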