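import Pool.Agent.HilbPts.Chain

set_option autoImplicit false
set_option linter.all false

namespace Pool.Agent.HilbPts

variable {k : Type*} [Field k]

/-- Expanded quadratic function. -/
def pp6F (c : k) (a : Fin 6 → k) (B : Fin 6 → Fin 6 → k) (x0 x1 x2 x3 x4 x5 : k) : k :=
  c +
    a 0 * x0 +
    a 1 * x1 +
    a 2 * x2 +
    a 3 * x3 +
    a 4 * x4 +
    a 5 * x5 +
    B 0 0 * (x0 * x0) +
    B 1 1 * (x1 * x1) +
    B 2 2 * (x2 * x2) +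
    B 3 3 * (x3 * x3) +
    B 4 4 * (x4 * x4) +
    B 5 5 * (x5 * x5) +
    2 * B 0 1 * (x0 * x1) +
    2 * B 0 2 * (x0 * x2) +
    2 * B 0 3 * (x0 * x3) +
    2 * B 0 4 * (x0 * x4) +
    2 * B 0 5 * (x0 * x5) +
    2 * B 1 2 * (x1 * x2) +
    2 * B 1 3 * (x1 * x3) +
    2 * B 1 4 * (x1 * x4) +
    2 * B 1 5 * (x1 * x5) +
    2 * B 2 3 * (x2 * x3) +
    2 * B 2 4 * (x2 * x4) +
    2 * B 2 5 * (x2 * x5) +
    2 * B 3 4 * (x3 * x4) +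
    2 * B 3 5 * (x3 * x5) +
    2 * B 4 5 * (x4 * x5)

theorem pp6F_eq (c : k) (a : Fin 6 → k) (B : Fin 6 → Fin 6 → k) (hB : ∀ i j, B i j = B j i)
    (x : Fin 6 → k) {x0 x1 x2 x3 x4 x5 : k} (h0 : x 0 = x0) (h1 : x 1 = x1) (h2 : x 2 = x2) (h3 : x 3 = x3) (h4 : x 4 = x4) (h5 : x 5 = x5) :
    qrep c a B x = pp6F c a B x0 x1 x2 x3 x4 x5 := by
  subst h0 h1 h2 h3 h4 h5
  simp only [qrep, Fin.sum_univ_six, pp6F]
  rw [hB 1 0, hB 2 0, hB 3 0, hB 4 0, hB 5 0, hB 2 1, hB 3 1, hB 4 1, hB 5 1, hB 3 2, hB 4 2, hB 5 2, hB 4 3, hB 5 3, hB 5 4]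
  ring

/-- Points. -/
def pp6P (k : Type*) [Field k] : Fin 20 → Fin 6 → k :=
  ![![0, 0, 0, 0, 1, 1],
    ![0, 0, 0, 1, 0, 1],
    ![0, 0, 0, 1, 1, 0],
    ![0, 0, 0, 1, 1, 1],
    ![0, 0, 1, 0, 0, 1],
    ![0, 0, 1, 0, 1, 0],
    ![0, 0, 1, 0, 1, 1],
    ![0, 0, 1, 1, 0, 1],
    ![0, 0, 1, 1, 1, 0],
    ![0, 1, 0, 1, 0, 1],
    ![0, 1, 1, 0, 0, 1],
    ![0, 1, 1, 1, 0, 0],
    ![0, 1, 1, 1, 0, 1],
    ![0, 1, 1, 1, 1, 0],
    ![1, 0, 0, 1, 1, 0],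
    ![1, 0, 1, 0, 1, 0],
    ![1, 0, 1, 1, 0, 0],
    ![1, 0, 1, 1, 0, 1],
    ![1, 0, 1, 1, 1, 0],
    ![1, 1, 1, 1, 0, 0]]

/-- Integral points. -/
def pp6Z : Fin 20 → Fin 6 → ℤ :=
  ![![0, 0, 0, 0, 1, 1],
    ![0, 0, 0, 1, 0, 1],
    ![0, 0, 0, 1, 1, 0],
    ![0, 0, 0, 1, 1, 1],
    ![0, 0, 1, 0, 0, 1],
    ![0, 0, 1, 0, 1, 0],
    ![0, 0, 1, 0, 1, 1],
    ![0, 0, 1, 1, 0, 1],
    ![0, 0, 1, 1, 1, 0],
    ![0, 1, 0, 1, 0, 1],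
    ![0, 1, 1, 0, 0, 1],
    ![0, 1, 1, 1, 0, 0],
    ![0, 1, 1, 1, 0, 1],
    ![0, 1, 1, 1, 1, 0],
    ![1, 0, 0, 1, 1, 0],
    ![1, 0, 1, 0, 1, 0],
    ![1, 0, 1, 1, 0, 0],
    ![1, 0, 1, 1, 0, 1],
    ![1, 0, 1, 1, 1, 0],
    ![1, 1, 1, 1, 0, 0]]

theorem pp6_inX [CharZero k] (l : Fin 20) : InX (va k) (vb k) 2 3 (pp6P k l) := by
  have h1 : ∀ s, pp6P k s = fun i => ((pp6Z s i : ℤ) : k) := by
    intro s
    funext m
    revert m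
    have h2 : ∀ (a : ℤ) (b : k) (p : a = 0 ∧ b = 0 ∨ a = 1 ∧ b = 1), b = (a : k) := by
      rintro a b (⟨rfl, rfl⟩ | ⟨rfl, rfl⟩) <;> simp
    intro m
    exact h2 _ _ (by fin_cases s <;> fin_cases m <;> first | exact Or.inl ⟨rfl, rfl⟩ | exact Or.inr ⟨rfl, rfl⟩)
  rw [h1]
  have h3 : ∀ l, (∀ i, pp6Z l i = 0 ∨ pp6Z l i = 1) ∧
      (2 - ∑ i : Fin 6, (vZ i).1 * pp6Z l i = 0 ∨ 2 - ∑ i : Fin 6, (vZ i).1 * pp6Z l i = 1) ∧
      (3 - ∑ i : Fin 6, (vZ i).2 * pp6Z l i = 0 ∨ 3 - ∑ i : Fin 6, (vZ i).2 * pp6Z l i = 1) := by decide +kernel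
  have := inX_cast (k := k) 2 3 (pp6Z l) (h3 l)
  simpa using this

theorem pp6_sum (F : Fin 20 → k) : ∑ l, F l = F 0 + F 1 + F 2 + F 3 + F 4 + F 5 + F 6 + F 7 + F 8 + F 9 + F 10 + F 11 + F 12 + F 13 + F 14 + F 15 + F 16 + F 17 + F 18 + F 19 := by
  simp only [Fin.sum_univ_succ, Fin.sum_univ_zero, add_zero]
  simp only [← add_assoc]
  rfl

theorem pp6_quad [CharZero k] (f : (Fin 6 → k) → k) (hf : IsQuad f) (hz : ∀ l, f (pp6P k l) = 0) :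
    ∃ (uA uB : k) (u : Fin 6 → k), ∀ x,
      f x = uA * (AA (va k) 2 x * AA (va k) 2 x - AA (va k) 2 x) + uB * (AA (vb k) 3 x * AA (vb k) 3 x - AA (vb k) 3 x) +
        ∑ i, u i * (x i * x i - x i) := by
  obtain ⟨c, a, B, hB, hq⟩ := hf.exists_symm
  have h0 : pp6F c a B 0 0 0 0 1 1 = 0 := ((pp6F_eq c a B hB (pp6P k 0) rfl rfl rfl rfl rfl rfl).symm.trans ((hq _).symm.trans (hz 0)))
  have h1 : pp6F c a B 0 0 0 1 0 1 = 0 := ((pp6F_eq c a B hB (pp6P k 1) rfl rfl rfl rfl rfl rfl).symm.trans ((hq _).symm.trans (hz 1)))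
  have h2 : pp6F c a B 0 0 0 1 1 0 = 0 := ((pp6F_eq c a B hB (pp6P k 2) rfl rfl rfl rfl rfl rfl).symm.trans ((hq _).symm.trans (hz 2)))
  have h3 : pp6F c a B 0 0 0 1 1 1 = 0 := ((pp6F_eq c a B hB (pp6P k 3) rfl rfl rfl rfl rfl rfl).symm.trans ((hq _).symm.trans (hz 3)))
  have h4 : pp6F c a B 0 0 1 0 0 1 = 0 := ((pp6F_eq c a B hB (pp6P k 4) rfl rfl rfl rfl rfl rfl).symm.trans ((hq _).symm.trans (hz 4)))
  have h5 : pp6F c a B 0 0 1 0 1 0 = 0 := ((pp6F_eq c a B hB (pp6P k 5) rfl rfl rfl rfl rfl rfl).symm.trans ((hq _).symm.trans (hz 5)))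
  have h6 : pp6F c a B 0 0 1 0 1 1 = 0 := ((pp6F_eq c a B hB (pp6P k 6) rfl rfl rfl rfl rfl rfl).symm.trans ((hq _).symm.trans (hz 6)))
  have h7 : pp6F c a B 0 0 1 1 0 1 = 0 := ((pp6F_eq c a B hB (pp6P k 7) rfl rfl rfl rfl rfl rfl).symm.trans ((hq _).symm.trans (hz 7)))
  have h8 : pp6F c a B 0 0 1 1 1 0 = 0 := ((pp6F_eq c a B hB (pp6P k 8) rfl rfl rfl rfl rfl rfl).symm.trans ((hq _).symm.trans (hz 8)))
  have h9 : pp6F c a B 0 1 0 1 0 1 = 0 := ((pp6F_eq c a B hB (pp6P k 9) rfl rfl rfl rfl rfl rfl).symm.trans ((hq _).symm.trans (hz 9)))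
  have h10 : pp6F c a B 0 1 1 0 0 1 = 0 := ((pp6F_eq c a B hB (pp6P k 10) rfl rfl rfl rfl rfl rfl).symm.trans ((hq _).symm.trans (hz 10)))
  have h11 : pp6F c a B 0 1 1 1 0 0 = 0 := ((pp6F_eq c a B hB (pp6P k 11) rfl rfl rfl rfl rfl rfl).symm.trans ((hq _).symm.trans (hz 11)))
  have h12 : pp6F c a B 0 1 1 1 0 1 = 0 := ((pp6F_eq c a B hB (pp6P k 12) rfl rfl rfl rfl rfl rfl).symm.trans ((hq _).symm.trans (hz 12)))
  have h13 : pp6F c a B 0 1 1 1 1 0 = 0 := ((pp6F_eq c a B hB (pp6P k 13) rfl rfl rfl rfl rfl rfl).symm.trans ((hq _).symm.trans (hz 13)))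
  have h14 : pp6F c a B 1 0 0 1 1 0 = 0 := ((pp6F_eq c a B hB (pp6P k 14) rfl rfl rfl rfl rfl rfl).symm.trans ((hq _).symm.trans (hz 14)))
  have h15 : pp6F c a B 1 0 1 0 1 0 = 0 := ((pp6F_eq c a B hB (pp6P k 15) rfl rfl rfl rfl rfl rfl).symm.trans ((hq _).symm.trans (hz 15)))
  have h16 : pp6F c a B 1 0 1 1 0 0 = 0 := ((pp6F_eq c a B hB (pp6P k 16) rfl rfl rfl rfl rfl rfl).symm.trans ((hq _).symm.trans (hz 16)))
  have h17 : pp6F c a B 1 0 1 1 0 1 = 0 := ((pp6F_eq c a B hB (pp6P k 17) rfl rfl rfl rfl rfl rfl).symm.trans ((hq _).symm.trans (hz 17)))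
  have h18 : pp6F c a B 1 0 1 1 1 0 = 0 := ((pp6F_eq c a B hB (pp6P k 18) rfl rfl rfl rfl rfl rfl).symm.trans ((hq _).symm.trans (hz 18)))
  have h19 : pp6F c a B 1 1 1 1 0 0 = 0 := ((pp6F_eq c a B hB (pp6P k 19) rfl rfl rfl rfl rfl rfl).symm.trans ((hq _).symm.trans (hz 19)))
  simp only [pp6F] at h0 h1 h2 h3 h4 h5 h6 h7 h8 h9 h10 h11 h12 h13 h14 h15 h16 h17 h18 h19
  have ec : c = 2 * B 0 1 + 6 * B 2 3 := by
    linear_combination (-2) * h0 + 1 * h1 + 1 * h2 + 1 * h3 + 1 * h4 + 1 * h5 + 1 * h6 + (-2) * h7 + (-2) * h8 + 1 * h11 + 1 * h16 + (-1) * h19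
  have e0 : a 0 + B 0 0 = (-2) * B 0 1 + 0 * B 2 3 := by
    linear_combination (-1) * h2 + (-1) * h5 + 2 * h8 + (-1) * h11 + 1 * h14 + 1 * h15 + (-2) * h18 + 1 * h19
  have e1 : a 1 + B 1 1 = (-2) * B 0 1 + 0 * B 2 3 := by
    linear_combination (-1) * h1 + (-1) * h4 + 2 * h7 + 1 * h9 + 1 * h10 + (-2) * h12 + (-1) * h16 + 1 * h19
  have e2 : a 2 + B 2 2 = 0 * B 0 1 + (-4) * B 2 3 := by
    linear_combination 1 * h0 + (-1) * h1 + (-1) * h2 + (-1) * h6 + 1 * h7 + 1 * h8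
  have e3 : a 3 + B 3 3 = 0 * B 0 1 + (-4) * B 2 3 := by
    linear_combination 1 * h0 + (-1) * h3 + (-1) * h4 + (-1) * h5 + 1 * h7 + 1 * h8
  have e4 : a 4 + B 4 4 = (-2) * B 0 1 + (-4) * B 2 3 := by
    linear_combination 2 * h0 + (-1) * h1 + (-1) * h3 + (-1) * h4 + (-1) * h6 + 2 * h7 + 1 * h8 + (-1) * h11 + (-1) * h16 + 1 * h19
  have e5 : a 5 + B 5 5 = (-2) * B 0 1 + (-4) * B 2 3 := by
    linear_combination 2 * h0 + (-1) * h2 + (-1) * h3 + (-1) * h5 + (-1) * h6 + 1 * h7 + 2 * h8 + (-1) * h11 + (-1) * h16 + 1 * h19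
  have e02 : 2 * B 0 2 = 0 * B 0 1 + 0 * B 2 3 := by
    linear_combination 1 * h2 + (-1) * h8 + (-1) * h14 + 1 * h18
  have e03 : 2 * B 0 3 = 0 * B 0 1 + 0 * B 2 3 := by
    linear_combination 1 * h5 + (-1) * h8 + (-1) * h15 + 1 * h18
  have e04 : 2 * B 0 4 = 2 * B 0 1 + 0 * B 2 3 := by
    linear_combination (-1) * h8 + 1 * h11 + 1 * h18 + (-1) * h19
  have e05 : 2 * B 0 5 = 2 * B 0 1 + 0 * B 2 3 := by
    linear_combination (-1) * h7 + 1 * h11 + 1 * h17 + (-1) * h19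
  have e12 : 2 * B 1 2 = 0 * B 0 1 + 0 * B 2 3 := by
    linear_combination 1 * h1 + (-1) * h7 + (-1) * h9 + 1 * h12
  have e13 : 2 * B 1 3 = 0 * B 0 1 + 0 * B 2 3 := by
    linear_combination 1 * h4 + (-1) * h7 + (-1) * h10 + 1 * h12
  have e14 : 2 * B 1 4 = 2 * B 0 1 + 0 * B 2 3 := by
    linear_combination (-1) * h8 + 1 * h13 + 1 * h16 + (-1) * h19
  have e15 : 2 * B 1 5 = 2 * B 0 1 + 0 * B 2 3 := by
    linear_combination (-1) * h7 + 1 * h12 + 1 * h16 + (-1) * h19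
  have e24 : 2 * B 2 4 = 0 * B 0 1 + 2 * B 2 3 := by
    linear_combination (-1) * h0 + 1 * h1 + 1 * h6 + (-1) * h7
  have e25 : 2 * B 2 5 = 0 * B 0 1 + 2 * B 2 3 := by
    linear_combination (-1) * h0 + 1 * h2 + 1 * h6 + (-1) * h8
  have e34 : 2 * B 3 4 = 0 * B 0 1 + 2 * B 2 3 := by
    linear_combination (-1) * h0 + 1 * h3 + 1 * h4 + (-1) * h7
  have e35 : 2 * B 3 5 = 0 * B 0 1 + 2 * B 2 3 := by
    linear_combination (-1) * h0 + 1 * h3 + 1 * h5 + (-1) * h8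
  have e45 : 2 * B 4 5 = 2 * B 0 1 + 2 * B 2 3 := by
    linear_combination (-1) * h0 + 1 * h3 + 1 * h6 + (-1) * h7 + (-1) * h8 + 1 * h11 + 1 * h16 + (-1) * h19
  refine ⟨B 0 1, B 2 3, fun i => B i i - B 0 1 * (va k i * va k i) - B 2 3 * (vb k i * vb k i), fun x => ?_⟩
  rw [hq]
  simp only [qrep, AA, Fin.sum_univ_six, va, vb, vZ, Fin.isValue, Fin.coe_ofNat_eq_mod, Nat.reduceMod]
  push_cast
  linear_combination ec + e0 * x 0 + e1 * x 1 + e2 * x 2 + e3 * x 3 + e4 * x 4 + e5 * x 5 + e02 * x 0 * x 2 + e03 * x 0 * x 3 + e04 * x 0 * x 4 + e05 * x 0 * x 5 + e12 * x 1 * x 2 + e13 * x 1 * x 3 + e14 * x 1 * x 4 + e15 * x 1 * x 5 + e24 * x 2 * x 4 + e25 * x 2 * x 5 + e34 * x 3 * x 4 + e35 * x 3 * x 5 + e45 * x 4 * x 5 + hB 1 0 * (x 0 * x 1) + hB 2 0 * (x 0 * x 2) + hB 3 0 * (x 0 * x 3) + hB 4 0 * (x 0 * x 4) + hB 5 0 * (x 0 * x 5) + hB 2 1 * (x 1 * x 2) + hB 3 1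 * (x 1 * x 3) + hB 4 1 * (x 1 * x 4) + hB 5 1 * (x 1 * x 5) + hB 3 2 * (x 2 * x 3) + hB 4 2 * (x 2 * x 4) + hB 5 2 * (x 2 * x 5) + hB 4 3 * (x 3 * x 4) + hB 5 3 * (x 3 * x 5) + hB 5 4 * (x 4 * x 5)

theorem pp6_indep [CharZero k] (μ : Fin 20 → k) (hμ : ∀ f, IsQuad f → ∑ l, μ l * f (pp6P k l) = 0) : μ = 0 := by
  have hX : ∀ i : Fin 6, IsAff (fun x : Fin 6 → k => x i) := fun i =>
    ⟨0, Pi.single i 1, fun x => by simp [Pi.single_apply]⟩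
  have g0 : μ 0 + μ 1 + μ 2 + μ 3 + μ 4 + μ 5 + μ 6 + μ 7 + μ 8 + μ 9 + μ 10 + μ 11 + μ 12 + μ 13 + μ 14 + μ 15 + μ 16 + μ 17 + μ 18 + μ 19 = 0 := by
    have := hμ _ (IsQuad.const 1)
    rw [pp6_sum] at this
    simp [pp6P] at this
    exact this
  have g1 : μ 14 + μ 15 + μ 16 + μ 17 + μ 18 + μ 19 = 0 := by
    have := hμ _ (hX 0).isQuad
    rw [pp6_sum] at this
    simp [pp6P] at this
    exact this
  have g2 : μ 9 + μ 10 + μ 11 + μ 12 + μ 13 + μ 19 = 0 := by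
    have := hμ _ (hX 1).isQuad
    rw [pp6_sum] at this
    simp [pp6P] at this
    exact this
  have g3 : μ 4 + μ 5 + μ 6 + μ 7 + μ 8 + μ 10 + μ 11 + μ 12 + μ 13 + μ 15 + μ 16 + μ 17 + μ 18 + μ 19 = 0 := by
    have := hμ _ (hX 2).isQuad
    rw [pp6_sum] at this
    simp [pp6P] at this
    exact this
  have g4 : μ 1 + μ 2 + μ 3 + μ 7 + μ 8 + μ 9 + μ 11 + μ 12 + μ 13 + μ 14 + μ 16 + μ 17 + μ 18 + μ 19 = 0 := by
    have := hμ _ (hX 3).isQuad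
    rw [pp6_sum] at this
    simp [pp6P] at this
    exact this
  have g5 : μ 0 + μ 2 + μ 3 + μ 5 + μ 6 + μ 8 + μ 13 + μ 14 + μ 15 + μ 18 = 0 := by
    have := hμ _ (hX 4).isQuad
    rw [pp6_sum] at this
    simp [pp6P] at this
    exact this
  have g6 : μ 0 + μ 1 + μ 3 + μ 4 + μ 6 + μ 7 + μ 9 + μ 10 + μ 12 + μ 17 = 0 := by
    have := hμ _ (hX 5).isQuad
    rw [pp6_sum] at this
    simp [pp6P] at this
    exact this
  have g7 : μ 15 + μ 16 + μ 17 + μ 18 + μ 19 = 0 := by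
    have := hμ _ ((hX 0).mul (hX 2))
    rw [pp6_sum] at this
    simp [pp6P] at this
    exact this
  have g8 : μ 14 + μ 16 + μ 17 + μ 18 + μ 19 = 0 := by
    have := hμ _ ((hX 0).mul (hX 3))
    rw [pp6_sum] at this
    simp [pp6P] at this
    exact this
  have g9 : μ 14 + μ 15 + μ 18 = 0 := by
    have := hμ _ ((hX 0).mul (hX 4))
    rw [pp6_sum] at this
    simp [pp6P] at this
    exact this
  have g10 : μ 17 = 0 := by
    have := hμ _ ((hX 0).mul (hX 5))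
    rw [pp6_sum] at this
    simp [pp6P] at this
    exact this
  have g11 : μ 10 + μ 11 + μ 12 + μ 13 + μ 19 = 0 := by
    have := hμ _ ((hX 1).mul (hX 2))
    rw [pp6_sum] at this
    simp [pp6P] at this
    exact this
  have g12 : μ 9 + μ 11 + μ 12 + μ 13 + μ 19 = 0 := by
    have := hμ _ ((hX 1).mul (hX 3))
    rw [pp6_sum] at this
    simp [pp6P] at this
    exact this
  have g13 : μ 13 = 0 := by
    have := hμ _ ((hX 1).mul (hX 4))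
    rw [pp6_sum] at this
    simp [pp6P] at this
    exact this
  have g14 : μ 9 + μ 10 + μ 12 = 0 := by
    have := hμ _ ((hX 1).mul (hX 5))
    rw [pp6_sum] at this
    simp [pp6P] at this
    exact this
  have g15 : μ 5 + μ 6 + μ 8 + μ 13 + μ 15 + μ 18 = 0 := by
    have := hμ _ ((hX 2).mul (hX 4))
    rw [pp6_sum] at this
    simp [pp6P] at this
    exact this
  have g16 : μ 4 + μ 6 + μ 7 + μ 10 + μ 12 + μ 17 = 0 := by
    have := hμ _ ((hX 2).mul (hX 5))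
    rw [pp6_sum] at this
    simp [pp6P] at this
    exact this
  have g17 : μ 2 + μ 3 + μ 8 + μ 13 + μ 14 + μ 18 = 0 := by
    have := hμ _ ((hX 3).mul (hX 4))
    rw [pp6_sum] at this
    simp [pp6P] at this
    exact this
  have g18 : μ 1 + μ 3 + μ 7 + μ 9 + μ 12 + μ 17 = 0 := by
    have := hμ _ ((hX 3).mul (hX 5))
    rw [pp6_sum] at this
    simp [pp6P] at this
    exact this
  have g19 : μ 0 + μ 3 + μ 6 = 0 := by
    have := hμ _ ((hX 4).mul (hX 5))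
    rw [pp6_sum] at this
    simp [pp6P] at this
    exact this
  funext j
  fin_cases j
  · change μ 0 = 0
    linear_combination (-2) * g0 + 1 * g3 + 1 * g4 + 2 * g5 + 2 * g6 + (-1) * g15 + (-1) * g16 + (-1) * g17 + (-1) * g18 + (-1) * g19
  · change μ 1 = 0
    linear_combination 1 * g0 + (-1) * g2 + (-1) * g3 + (-1) * g5 + 1 * g11 + 1 * g15
  · change μ 2 = 0
    linear_combination 1 * g0 + (-1) * g1 + (-1) * g3 + (-1) * g6 + 1 * g7 + 1 * g16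
  · change μ 3 = 0
    linear_combination 1 * g0 + (-1) * g4 + (-1) * g5 + (-1) * g6 + 1 * g17 + 1 * g18 + 1 * g19
  · change μ 4 = 0
    linear_combination 1 * g0 + (-1) * g2 + (-1) * g4 + (-1) * g5 + 1 * g12 + 1 * g17
  · change μ 5 = 0
    linear_combination 1 * g0 + (-1) * g1 + (-1) * g4 + (-1) * g6 + 1 * g8 + 1 * g18
  · change μ 6 = 0
    linear_combination 1 * g0 + (-1) * g3 + (-1) * g5 + (-1) * g6 + 1 * g15 + 1 * g16 + 1 * g19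
  · change μ 7 = 0
    linear_combination (-2) * g0 + 2 * g2 + 1 * g3 + 1 * g4 + 2 * g5 + 1 * g6 + (-1) * g10 + (-1) * g11 + (-1) * g12 + (-1) * g14 + (-1) * g15 + (-1) * g17 + (-1) * g19
  · change μ 8 = 0
    linear_combination (-2) * g0 + 2 * g1 + 1 * g3 + 1 * g4 + 1 * g5 + 2 * g6 + (-1) * g7 + (-1) * g8 + (-1) * g9 + (-1) * g13 + (-1) * g16 + (-1) * g18 + (-1) * g19
  · change μ 9 = 0
    linear_combination 1 * g2 + (-1) * g11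
  · change μ 10 = 0
    linear_combination 1 * g2 + (-1) * g12
  · change μ 11 = 0
    linear_combination 1 * g0 + (-1) * g1 + (-1) * g5 + (-1) * g6 + 1 * g9 + 1 * g10 + 1 * g19
  · change μ 12 = 0
    linear_combination (-2) * g2 + 1 * g11 + 1 * g12 + 1 * g14
  · change μ 13 = 0
    linear_combination 1 * g13
  · change μ 14 = 0
    linear_combination 1 * g1 + (-1) * g7
  · change μ 15 = 0
    linear_combination 1 * g1 + (-1) * g8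
  · change μ 16 = 0
    linear_combination 1 * g0 + (-1) * g2 + (-1) * g5 + (-1) * g6 + 1 * g13 + 1 * g14 + 1 * g19
  · change μ 17 = 0
    linear_combination 1 * g10
  · change μ 18 = 0
    linear_combination (-2) * g1 + 1 * g7 + 1 * g8 + 1 * g9
  · change μ 19 = 0
    linear_combination (-1) * g0 + 1 * g1 + 1 * g2 + 1 * g5 + 1 * g6 + (-1) * g9 + (-1) * g10 + (-1) * g13 + (-1) * g14 + (-1) * g19

theorem pp6 [CharZero k] : PP (va k) (vb k) 6 2 3 :=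
  ⟨Fin 20, inferInstance, pp6P k, by simp [Nat.choose], pp6_inX, pp6_quad, pp6_indep⟩

end Pool.Agent.HilbPts
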