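import Pool.Agent.HilbPts.Defs

set_option autoImplicit false

namespace Pool.Agent.HilbPts

open MvPolynomial TopologicalSpace Topology Matrix

variable {n d : ℕ} {k : Type*} [Field k]

theorem isClosed_zariski_iff {σ : Type*} (Z : Set (σ → k)) :
    IsClosed[zariski σ k] Z ↔
      ∃ P : Set (MvPolynomial σ k), Z = {x | ∀ p ∈ P, MvPolynomial.eval x p = 0} := by
  unfold zariski
  rw [← @isOpen_compl_iff]
  change Zᶜᶜ ∈ _ ↔ _
  rw [compl_compl]
  rfl

theorem noetherian_zariski (σ : Type*) [Finite σ] : @NoetherianSpace (σ → k) (zariski σ k) := by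
  let _ : TopologicalSpace (σ → k) := zariski σ k
  let f : (σ → k) → PrimeSpectrum (MvPolynomial σ k) := fun x => pointToPoint (k := k) (K := k) x
  have hf : Topology.IsInducing f := by
    refine ⟨?_⟩
    refine TopologicalSpace.ext_isClosed fun Z => ?_
    rw [isClosed_induced_iff]
    constructor
    · intro h
      obtain ⟨P, rfl⟩ := (isClosed_zariski_iff Z).1 h
      refine ⟨PrimeSpectrum.zeroLocus P, PrimeSpectrum.isClosed_zeroLocus P, ?_⟩
      ext x
      simp [f, pointToPoint, PrimeSpectrum.zeroLocus, Set.subset_def, aeval_eq_eval]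
    · rintro ⟨t, ht, rfl⟩
      obtain ⟨P, rfl⟩ := (PrimeSpectrum.isClosed_iff_zeroLocus t).1 ht
      refine (isClosed_zariski_iff _).2 ⟨P, ?_⟩
      ext x
      simp [f, pointToPoint, PrimeSpectrum.zeroLocus, Set.subset_def, aeval_eq_eval]
  exact hf.noetherianSpace

theorem toHilb_surjective : Function.Surjective (Pres.toHilb : Pres n d k → Hilb n d k) := by
  rintro ⟨I, ⟨e⟩⟩
  exact ⟨⟨I, e⟩, rfl⟩

instance : NoetherianSpace (Hilb n d k) := by
  let _ : TopologicalSpace ((Fin n × Fin d × Fin d) ⊕ Fin d → k) :=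
    zariski ((Fin n × Fin d × Fin d) ⊕ Fin d) k
  have : NoetherianSpace ((Fin n × Fin d × Fin d) ⊕ Fin d → k) := noetherian_zariski _
  let _ : TopologicalSpace (Pres n d k) :=
    TopologicalSpace.induced Pres.coord (zariski ((Fin n × Fin d × Fin d) ⊕ Fin d) k)
  have h1 : NoetherianSpace (Pres n d k) :=
    Topology.IsInducing.noetherianSpace (i := Pres.coord) ⟨rfl⟩
  exact noetherianSpace_of_surjective (Pres.toHilb : Pres n d k → Hilb n d k)
    continuous_coinduced_rng toHilb_surjective

/-- A set in the Hilbert scheme is closed iff in all presentations it is cut out by a fixed set of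
polynomials in the coordinates. -/
theorem isClosed_hilb_iff (F : Set (Hilb n d k)) :
    IsClosed F ↔ ∃ S : Set (MvPolynomial ((Fin n × Fin d × Fin d) ⊕ Fin d) k),
      ∀ P : Pres n d k, P.toHilb ∈ F ↔ ∀ p ∈ S, eval P.coord p = 0 := by
  let _ : TopologicalSpace ((Fin n × Fin d × Fin d) ⊕ Fin d → k) :=
    zariski ((Fin n × Fin d × Fin d) ⊕ Fin d) k
  rw [isClosed_coinduced, isClosed_induced_iff]
  constructor
  · rintro ⟨Z, hZ, hF⟩
    obtain ⟨S, rfl⟩ := (isClosed_zariski_iff Z).1 hZ
    refine ⟨S, fun P => ?_⟩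
    have := Set.ext_iff.1 hF P
    simp only [Set.mem_preimage, Set.mem_ofPred_eq] at this
    rw [this]
  · rintro ⟨S, hS⟩
    refine ⟨{x | ∀ p ∈ S, eval x p = 0}, (isClosed_zariski_iff _).2 ⟨S, rfl⟩, ?_⟩
    ext P
    simp only [Set.mem_preimage, Set.mem_ofPred_eq]
    rw [hS]

theorem mk_smul (I : Ideal (MvPolynomial (Fin n) k)) (c : k) (f : MvPolynomial (Fin n) k) :
    Ideal.Quotient.mk I (c • f) = c • Ideal.Quotient.mk I f :=
  map_smul (Ideal.Quotient.mkₐ k I) c f

/-- The matrix of multiplication by `x_i` in a presentation. -/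
noncomputable def Pres.mat (P : Pres n d k) (i : Fin n) : Matrix (Fin d) (Fin d) k :=
  Matrix.of fun a b => P.coord (Sum.inl (i, a, b))

theorem Pres.basis_mul (P : Pres n d k) (i : Fin n) (y : MvPolynomial (Fin n) k ⧸ P.ideal) :
    P.basis (Ideal.Quotient.mk _ (X i) * y) = P.mat i *ᵥ P.basis y := by
  have hy : y = ∑ b, P.basis y b • P.basis.symm (Pi.single b 1) := by
    apply P.basis.injective
    rw [map_sum]
    simp only [map_smul, LinearEquiv.apply_symm_apply]
    funext a
    simp [Finset.sum_apply, Pi.single_apply]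
  conv_lhs => rw [hy]
  rw [Finset.mul_sum, map_sum]
  funext a
  simp only [mul_smul_comm, map_smul, Finset.sum_apply, Pi.smul_apply, smul_eq_mul, Matrix.mulVec,
    dotProduct, Pres.mat, Matrix.of_apply, Pres.coord]
  exact Finset.sum_congr rfl fun b _ => mul_comm _ _

theorem finrank_quot (P : Pres n d k) :
    Module.finrank k (MvPolynomial (Fin n) k ⧸ P.ideal) = d := by
  rw [P.basis.finrank_eq]; simp

end Pool.Agent.HilbPts
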