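import Pool.Agent.HilbPts.General

set_option autoImplicit false

namespace Pool.Agent.HilbPts

open MvPolynomial Matrix

variable {n r : ℕ} {k : Type*} [Field k]

/-- Configurations of points with binary affine functions satisfy the infinitesimal criterion. -/
theorem VC_subset_of_binary [CharZero k] {ι V : Type*} [Fintype ι] [Fintype V] {s : ℕ}
    (hcard : Fintype.card ι = 1 + n + r) (P : ι → Fin n → k)
    (y0 : V → k) (Y : V → Fin n → k) (y : V → (Fin n → k) → k)
    (hy : ∀ c x, y c x = y0 c + ∑ i, Y c i * x i)
    (h1 : ∀ l c, y c (P l) = 0 ∨ y c (P l) = 1)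
    (h2 : ∀ f, IsQuad f → (∀ l, f (P l) = 0) → ∃ u : V → k, ∀ x,
      f x = ∑ c, u c * (y c x * y c x - y c x))
    (h3 : ∀ u : V → k, IsAff (fun x => ∑ c, u c * (y c x * y c x - y c x)) → u = 0)
    (v : V → Fin s → k)
    (h4 : ∀ u : V → k, (∀ i, ∑ c, u c * Y c i = 0) → ∃ L : Fin s → k, ∀ c, u c = ∑ t, L t * v c t)
    (h5 : ∀ μ : ι → k, (∀ f, IsQuad f → ∑ l, μ l * f (P l) = 0) → μ = 0)
    (cr : Fin n → V) (hcr : ∀ i x, y (cr i) x = x i)
    (hmom : ∀ L : ι → Fin s → k, (∀ c, ∑ t, (∑ l, y c (P l) * L l t) * v c t = 0) →
      (∀ c, ∑ t, (∑ l, L l t) * v c t = 0) →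
      (∀ c c', ∑ t, (2 * ∑ l, y c (P l) * y c' (P l) * L l t - ∑ l, y c' (P l) * L l t) *
        v c t = 0) →
      (∀ t, ∑ l, L l t = 0) ∧ (∀ c t, ∑ l, y c (P l) * L l t = 0) ∧
        ∀ c c' t, ∑ l, y c (P l) * y c' (P l) * L l t = 0) :
    VC n (1 + n + r) k ⊆ Smoothable n (1 + n + r) k := by
  classical
  have hinj : Function.Injective P := by
    intro a b hab
    by_contra hne
    have := h5 (Pi.single a 1 - Pi.single b 1) (by
      intro f _
      simp [sub_mul, Finset.sum_sub_distrib, Pi.single_apply, hab])
    have h6 := congrFun this a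
    simp [hne] at h6
  have haff : ∀ f, IsAff f → (∀ l, f (P l) = 0) → ∀ x, f x = 0 := by
    intro f hf h0 x
    obtain ⟨u, hu⟩ := h2 f hf.isQuad h0
    have : u = 0 := h3 u (by
      have : (fun x => ∑ c, u c * (y c x * y c x - y c x)) = f := funext fun x => (hu x).symm
      rw [this]
      exact hf)
    rw [hu, this]
    simp
  refine VC_subset_of_DC hcard P hinj ?_ ?_
  · intro c a h
    have h7 := haff (fun x => c + ∑ i, a i * x i) ⟨c, a, fun x => rfl⟩ h
    have hc : c = 0 := by simpa using h7 0
    refine ⟨hc, ?_⟩
    funext i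
    have := h7 (Pi.single i 1)
    simpa [hc, Pi.single_apply] using this
  · intro ξ hq hv hs h0 hP
    have hch : ∀ l, ∃ u : V → k, ∀ x, ξ l x = ∑ c, u c * (y c x * y c x - y c x) :=
      fun l => h2 (ξ l) (hq l) (hv l)
    choose u hu using hch
    -- sign
    have hε : ∀ l c, (2 * y c (P l) - 1) * (2 * y c (P l) - 1) = 1 := by
      intro l c
      rcases h1 l c with h | h <;> rw [h] <;> ring
    have hyε : ∀ l c, y c (P l) * (2 * y c (P l) - 1) = y c (P l) := by
      intro l c
      rcases h1 l c with h | h <;> rw [h] <;> ring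
    -- gradient condition
    have hgrad : ∀ l, ∃ L : Fin s → k, ∀ c, u l c * (2 * y c (P l) - 1) = ∑ t, L t * v c t := by
      intro l
      refine h4 _ fun i => ?_
      have h8 := hs l (Pi.single i 1)
      rw [hu, hu, ← sub_eq_zero, ← Finset.sum_sub_distrib] at h8
      have h9 : ∀ c, u l c * (y c (P l + Pi.single i 1) * y c (P l + Pi.single i 1) -
          y c (P l + Pi.single i 1)) - u l c * (y c (P l - Pi.single i 1) *
          y c (P l - Pi.single i 1) - y c (P l - Pi.single i 1)) =
          2 * (u l c * (2 * y c (P l) - 1) * Y c i) := by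
        intro c
        have e1 : y c (P l + Pi.single i 1) = y c (P l) + Y c i := by
          rw [hy, hy]
          simp only [Pi.add_apply, mul_add, Finset.sum_add_distrib]
          simp [Pi.single_apply]
          ring
        have e2 : y c (P l - Pi.single i 1) = y c (P l) - Y c i := by
          rw [hy, hy]
          simp only [Pi.sub_apply, mul_sub, Finset.sum_sub_distrib]
          simp [Pi.single_apply]
          ring
        rw [e1, e2]
        ring
      simp only [h9, ← Finset.mul_sum] at h8
      exact (mul_eq_zero.1 h8).resolve_left two_ne_zero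
    choose L hL using hgrad
    have huL : ∀ l c, u l c = (2 * y c (P l) - 1) * ∑ t, L l t * v c t := by
      intro l c
      rw [← hL, mul_comm (u l c), ← mul_assoc, hε, one_mul]
    -- linear relations
    have hE0 : ∀ c, ∑ l, u l c = 0 := by
      have := h3 (fun c => ∑ l, u l c) (by
        have h10 : (fun x => ∑ c, (∑ l, u l c) * (y c x * y c x - y c x)) = fun _ => 0 := by
          funext x
          rw [← h0 x]
          simp only [hu, Finset.sum_mul]
          rw [Finset.sum_comm]
        rw [h10]
        exact IsAff.const 0)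
      exact congrFun this
    have hEi : ∀ i c, ∑ l, P l i * u l c = 0 := by
      intro i
      have := h3 (fun c => ∑ l, P l i * u l c) (by
        have h10 : (fun x => ∑ c, (∑ l, P l i * u l c) * (y c x * y c x - y c x)) =
            fun _ => 0 := by
          funext x
          rw [← hP x i]
          simp only [hu, Finset.sum_mul, Finset.mul_sum]
          rw [Finset.sum_comm]
          exact Finset.sum_congr rfl fun l _ => Finset.sum_congr rfl fun c _ => by ring
        rw [h10]
        exact IsAff.const 0)
      exact congrFun this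
    have hEy : ∀ c' c, ∑ l, y c' (P l) * u l c = 0 := by
      intro c' c
      simp only [hy, add_mul, Finset.sum_add_distrib, ← Finset.mul_sum, hE0, mul_zero, zero_add,
        Finset.sum_mul]
      rw [Finset.sum_comm]
      refine Finset.sum_eq_zero fun i _ => ?_
      have := hEi i c
      simp only [mul_assoc, ← Finset.mul_sum]
      rw [this, mul_zero]
    have hswap : ∀ (w : ι → k) (c : V), ∑ t, (∑ l, w l * L l t) * v c t =
        ∑ l, w l * ∑ t, L l t * v c t := by
      intro w c
      simp only [Finset.sum_mul, Finset.mul_sum]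
      rw [Finset.sum_comm]
      exact Finset.sum_congr rfl fun l _ => Finset.sum_congr rfl fun t _ => by ring
    have hm1 : ∀ c, ∑ t, (∑ l, y c (P l) * L l t) * v c t = 0 := by
      intro c
      rw [hswap fun l => y c (P l), ← hEy c c]
      refine Finset.sum_congr rfl fun l _ => ?_
      rw [huL, ← mul_assoc, hyε]
    have hm2 : ∀ c c', ∑ t, (2 * ∑ l, y c (P l) * y c' (P l) * L l t -
        ∑ l, y c' (P l) * L l t) * v c t = 0 := by
      intro c c'
      have e3 : ∀ t, (2 * ∑ l, y c (P l) * y c' (P l) * L l t - ∑ l, y c' (P l) * L l t) =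
          ∑ l, (y c' (P l) * (2 * y c (P l) - 1)) * L l t := by
        intro t
        rw [Finset.mul_sum, ← Finset.sum_sub_distrib]
        exact Finset.sum_congr rfl fun l _ => by ring
      simp only [e3]
      rw [hswap fun l => y c' (P l) * (2 * y c (P l) - 1), ← hEy c' c]
      refine Finset.sum_congr rfl fun l _ => ?_
      rw [huL, mul_assoc]
    have hm0 : ∀ c, ∑ t, (∑ l, L l t) * v c t = 0 := by
      intro c
      have e4 : ∀ t, ∑ l, L l t = 2 * ∑ l, y c (P l) * L l t - ∑ l, (2 * y c (P l) - 1) * L l t := by
        intro t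
        rw [Finset.mul_sum, ← Finset.sum_sub_distrib]
        exact Finset.sum_congr rfl fun l _ => by ring
      have e4' : ∑ t, (∑ l, L l t) * v c t = 2 * ∑ t, (∑ l, y c (P l) * L l t) * v c t -
          ∑ t, (∑ l, (2 * y c (P l) - 1) * L l t) * v c t := by
        rw [Finset.mul_sum, ← Finset.sum_sub_distrib]
        exact Finset.sum_congr rfl fun t _ => by rw [e4 t]; ring
      rw [e4', hm1, mul_zero, zero_sub, neg_eq_zero]
      have := hswap (fun l => 2 * y c (P l) - 1) c
      rw [this, ← hE0 c]
      exact Finset.sum_congr rfl fun l _ => by rw [huL]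
    obtain ⟨z0, z1, z2⟩ := hmom L hm1 hm0 hm2
    have hL0 : ∀ t, (fun l => L l t) = 0 := by
      intro t
      refine h5 _ ?_
      rintro f ⟨c, a, B, hf⟩
      have e5 : ∀ i, ∑ l, P l i * L l t = 0 := by
        intro i
        have := z1 (cr i) t
        simpa only [hcr] using this
      have e6 : ∀ i j, ∑ l, P l i * P l j * L l t = 0 := by
        intro i j
        have := z2 (cr i) (cr j) t
        simpa only [hcr] using this
      have e7 : ∑ l, L l t * f (P l) = c * ∑ l, L l t + ∑ i, a i * ∑ l, P l i * L l t +
          ∑ i, ∑ j, B i j * ∑ l, P l i * P l j * L l t := by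
        simp only [hf, mul_add, Finset.sum_add_distrib, Finset.mul_sum]
        congr 1
        · congr 1
          · exact Finset.sum_congr rfl fun l _ => by ring
          · rw [Finset.sum_comm]
            exact Finset.sum_congr rfl fun i _ => Finset.sum_congr rfl fun l _ => by ring
        · rw [Finset.sum_comm]
          refine Finset.sum_congr rfl fun i _ => ?_
          rw [Finset.sum_comm]
          exact Finset.sum_congr rfl fun j _ => Finset.sum_congr rfl fun l _ => by ring
      rw [e7, z0]
      simp [e5, e6]
    intro l x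
    rw [hu]
    refine Finset.sum_eq_zero fun c _ => ?_
    have : u l c = 0 := by
      rw [huL]
      have : ∀ t, L l t = 0 := fun t => congrFun (hL0 t) l
      simp [this]
    rw [this, zero_mul]

end Pool.Agent.HilbPts
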