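import Pool.Agent.HilbPts.QRep

set_option autoImplicit false

namespace Pool.Agent.HilbPts

variable {n r : ℕ} {k : Type*} [Field k]

/-- The special affine function. -/
def AA (α : ℕ → k) (z : k) {n : ℕ} (x : Fin n → k) : k := z - ∑ i : Fin n, α i * x i

/-- Binary points. -/
def InX (α β : ℕ → k) (z1 z2 : k) {n : ℕ} (x : Fin n → k) : Prop :=
  (∀ i, x i = 0 ∨ x i = 1) ∧ (AA α z1 x = 0 ∨ AA α z1 x = 1) ∧ (AA β z2 x = 0 ∨ AA β z2 x = 1)

theorem AA_snoc (α : ℕ → k) (z : k) (x : Fin n → k) (τ : k) :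
    AA α z (Fin.snoc x τ : Fin (n + 1) → k) = AA α z x - α n * τ := by
  simp only [AA, Fin.sum_univ_castSucc, Fin.snoc_castSucc, Fin.snoc_last, Fin.val_castSucc,
    Fin.val_last]
  ring

theorem AA_sub (α : ℕ → k) (z w : k) (x : Fin n → k) : AA α (z - w) x = AA α z x - w := by
  simp only [AA]; ring

theorem InX_snoc_zero {α β : ℕ → k} {z1 z2 : k} {x : Fin n → k} (h : InX α β z1 z2 x) :
    InX α β z1 z2 (Fin.snoc x 0 : Fin (n + 1) → k) := by
  refine ⟨fun i => ?_, ?_, ?_⟩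
  · refine Fin.lastCases ?_ (fun j => ?_) i
    · left; simp
    · simpa using h.1 j
  · rw [AA_snoc, mul_zero, sub_zero]; exact h.2.1
  · rw [AA_snoc, mul_zero, sub_zero]; exact h.2.2

theorem InX_snoc_one {α β : ℕ → k} {z1 z2 : k} {x : Fin n → k}
    (h : InX α β (z1 - α n) (z2 - β n) x) :
    InX α β z1 z2 (Fin.snoc x 1 : Fin (n + 1) → k) := by
  refine ⟨fun i => ?_, ?_, ?_⟩
  · refine Fin.lastCases ?_ (fun j => ?_) i
    · right; simp
    · simpa using h.1 j
  · rw [AA_snoc, mul_one, ← AA_sub]; exact h.2.1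
  · rw [AA_snoc, mul_one, ← AA_sub]; exact h.2.2

/-- There is a binary point. -/
def NE (α β : ℕ → k) (n : ℕ) (z1 z2 : k) : Prop := ∃ x : Fin n → k, InX α β z1 z2 x

theorem NE.zero {α β : ℕ → k} {z1 z2 : k} (h : NE α β n z1 z2) : NE α β (n + 1) z1 z2 := by
  obtain ⟨x, hx⟩ := h
  exact ⟨_, InX_snoc_zero hx⟩

theorem NE.one {α β : ℕ → k} {z1 z2 : k} (h : NE α β n (z1 - α n) (z2 - β n)) :
    NE α β (n + 1) z1 z2 := by
  obtain ⟨x, hx⟩ := h
  exact ⟨_, InX_snoc_one hx⟩

theorem NE.mono {α β : ℕ → k} {z1 z2 : k} (h : NE α β n z1 z2) {m : ℕ} (hm : n ≤ m) :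
    NE α β m z1 z2 := by
  induction m, hm using Nat.le_induction with
  | base => exact h
  | succ m _ ih => exact ih.zero

/-- Affine frames of binary points. -/
def Fr (α β : ℕ → k) (n : ℕ) (z1 z2 : k) : Prop :=
  ∃ (ι : Type) (_ : Fintype ι) (R : ι → Fin n → k), Fintype.card ι = n + 1 ∧
    (∀ j, InX α β z1 z2 (R j)) ∧
    (∀ (c : k) (a : Fin n → k), (∀ j, c + ∑ i, a i * R j i = 0) → c = 0 ∧ a = 0) ∧
    (∀ μ : ι → k, ∑ j, μ j = 0 → (∀ i, ∑ j, μ j * R j i = 0) → μ = 0)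

theorem Fr.ne {α β : ℕ → k} {z1 z2 : k} (h : Fr α β n z1 z2) : NE α β n z1 z2 := by
  obtain ⟨ι, _, R, hc, hR, -, -⟩ := h
  have : 0 < Fintype.card ι := by lia
  obtain ⟨j⟩ := Fintype.card_pos_iff.1 this
  exact ⟨_, hR j⟩

/-- Extending a frame of one slice by a point of the other slice. -/
theorem Fr.succ_aux {α β : ℕ → k} {z1 z2 : k} {ι : Type} [Fintype ι] (R : ι → Fin n → k)
    (hc : Fintype.card ι = n + 1)
    (hR1 : ∀ (c : k) (a : Fin n → k), (∀ j, c + ∑ i, a i * R j i = 0) → c = 0 ∧ a = 0)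
    (hR2 : ∀ μ : ι → k, ∑ j, μ j = 0 → (∀ i, ∑ j, μ j * R j i = 0) → μ = 0)
    (τ σ : k) (hτσ : τ ≠ σ) (x : Fin n → k)
    (h1 : ∀ j, InX α β z1 z2 (Fin.snoc (R j) τ : Fin (n + 1) → k))
    (h2 : InX α β z1 z2 (Fin.snoc x σ : Fin (n + 1) → k)) : Fr α β (n + 1) z1 z2 := by
  refine ⟨Option ι, inferInstance, fun o => match o with
    | none => Fin.snoc x σ
    | some j => Fin.snoc (R j) τ, ?_, ?_, ?_, ?_⟩
  · rw [Fintype.card_option, hc]
  · intro j
    rcases j with _ | j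
    · exact h2
    · exact h1 j
  · intro c a h
    have hs : ∀ j, (c + a (Fin.last n) * τ) + ∑ i, a (Fin.castSucc i) * R j i = 0 := by
      intro j
      have := h (some j)
      simp only [Fin.sum_univ_castSucc, Fin.snoc_castSucc, Fin.snoc_last] at this
      linear_combination this
    obtain ⟨g1, g2⟩ := hR1 _ _ hs
    have hn := h none
    simp only [Fin.sum_univ_castSucc, Fin.snoc_castSucc, Fin.snoc_last] at hn
    have g3 : ∀ i, a (Fin.castSucc i) = 0 := fun i => congrFun g2 i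
    simp only [g3, zero_mul, Finset.sum_const_zero, zero_add] at hn
    have g4 : a (Fin.last n) = 0 := by
      have : a (Fin.last n) * (τ - σ) = 0 := by linear_combination g1 - hn
      exact (mul_eq_zero.1 this).resolve_right (sub_ne_zero.2 hτσ)
    refine ⟨?_, ?_⟩
    · rw [g4] at hn; simpa using hn
    · funext i
      refine Fin.lastCases g4 (fun j => g3 j) i
  · intro μ hμ0 hμ
    rw [Fintype.sum_option] at hμ0
    have hlast := hμ (Fin.last n)
    rw [Fintype.sum_option] at hlast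
    simp only [Fin.snoc_last, ← Finset.sum_mul] at hlast
    have g1 : μ none = 0 := by
      have : μ none * (τ - σ) = 0 := by linear_combination τ * hμ0 - hlast
      exact (mul_eq_zero.1 this).resolve_right (sub_ne_zero.2 hτσ)
    rw [g1, zero_add] at hμ0
    have g2 := hR2 (fun j => μ (some j)) hμ0 (by
      intro i
      have := hμ (Fin.castSucc i)
      rw [Fintype.sum_option, g1] at this
      simpa only [Fin.snoc_castSucc, zero_mul, zero_add] using this)
    funext o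
    rcases o with _ | j
    · exact g1
    · exact congrFun g2 j

theorem Fr.succ {α β : ℕ → k} {z1 z2 : k} (h : Fr α β n z1 z2)
    (h' : NE α β n (z1 - α n) (z2 - β n)) : Fr α β (n + 1) z1 z2 := by
  obtain ⟨ι, _, R, hc, hR, hR1, hR2⟩ := h
  obtain ⟨x, hx⟩ := h'
  exact Fr.succ_aux R hc hR1 hR2 0 1 zero_ne_one x (fun j => InX_snoc_zero (hR j))
    (InX_snoc_one hx)

theorem Fr.succ' {α β : ℕ → k} {z1 z2 : k} (h : Fr α β n (z1 - α n) (z2 - β n))
    (h' : NE α β n z1 z2) : Fr α β (n + 1) z1 z2 := by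
  obtain ⟨ι, _, R, hc, hR, hR1, hR2⟩ := h
  obtain ⟨x, hx⟩ := h'
  exact Fr.succ_aux R hc hR1 hR2 1 0 one_ne_zero x (fun j => InX_snoc_one (hR j))
    (InX_snoc_zero hx)

/-- Interpolating sets of binary points. -/
def PP (α β : ℕ → k) (n : ℕ) (z1 z2 : k) : Prop :=
  ∃ (ι : Type) (_ : Fintype ι) (P : ι → Fin n → k),
    Fintype.card ι + (n + 2) = (n + 2).choose 2 ∧ (∀ l, InX α β z1 z2 (P l)) ∧
    (∀ f, IsQuad f → (∀ l, f (P l) = 0) → ∃ (uA uB : k) (u : Fin n → k), ∀ x,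
      f x = uA * (AA α z1 x * AA α z1 x - AA α z1 x) + uB * (AA β z2 x * AA β z2 x - AA β z2 x) +
        ∑ i, u i * (x i * x i - x i)) ∧
    (∀ μ : ι → k, (∀ f, IsQuad f → ∑ l, μ l * f (P l) = 0) → μ = 0)

theorem IsQuad.snoc_split {f : (Fin (n + 1) → k) → k} (hf : IsQuad f) :
    ∃ (g : (Fin n → k) → k) (c : k) (a : Fin n → k) (b : k), IsQuad g ∧
      ∀ (x : Fin n → k) (τ : k), f (Fin.snoc x τ) = g x + τ * (c + ∑ i, a i * x i) +
        b * (τ * τ - τ) := by
  obtain ⟨c, a, B, h⟩ := hf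
  refine ⟨fun x => c + ∑ i, a (Fin.castSucc i) * x i +
    ∑ i, ∑ j, B (Fin.castSucc i) (Fin.castSucc j) * (x i * x j), a (Fin.last n) +
      B (Fin.last n) (Fin.last n),
    fun i => B (Fin.castSucc i) (Fin.last n) + B (Fin.last n) (Fin.castSucc i),
    B (Fin.last n) (Fin.last n), ⟨_, _, _, fun x => rfl⟩, fun x τ => ?_⟩
  rw [h]
  simp only [Fin.sum_univ_castSucc, Fin.snoc_castSucc, Fin.snoc_last, add_mul,
    Finset.sum_add_distrib]
  have e1 : ∑ i, B (Fin.castSucc i) (Fin.last n) * (x i * τ) =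
      τ * ∑ i, B (Fin.castSucc i) (Fin.last n) * x i := by
    rw [Finset.mul_sum]; exact Finset.sum_congr rfl fun i _ => by ring
  have e2 : ∑ i, B (Fin.last n) (Fin.castSucc i) * (τ * x i) =
      τ * ∑ i, B (Fin.last n) (Fin.castSucc i) * x i := by
    rw [Finset.mul_sum]; exact Finset.sum_congr rfl fun i _ => by ring
  rw [e1, e2]
  ring

theorem isQuad_init {g : (Fin n → k) → k} (hg : IsQuad g) :
    IsQuad fun x : Fin (n + 1) → k => g (fun i => x (Fin.castSucc i)) :=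
  hg.comp (fun x i => x (Fin.castSucc i)) fun i =>
    ⟨0, Pi.single (Fin.castSucc i) 1, fun x => by simp [Pi.single_apply]⟩

theorem PP.succ {α β : ℕ → k} {z1 z2 : k} (h : PP α β n z1 z2)
    (h' : Fr α β n (z1 - α n) (z2 - β n)) : PP α β (n + 1) z1 z2 := by
  obtain ⟨ι, _, P, hc, hP, hP1, hP2⟩ := h
  obtain ⟨κ, _, R, hd, hR, hR1, hR2⟩ := h'
  refine ⟨ι ⊕ κ, inferInstance, Sum.elim (fun l => Fin.snoc (P l) 0) (fun j => Fin.snoc (R j) 1),
    ?_, ?_, ?_, ?_⟩
  · rw [Fintype.card_sum, hd]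
    have : (n + 1 + 2).choose 2 = (n + 2) + (n + 2).choose 2 := by
      rw [show n + 1 + 2 = (n + 2) + 1 from rfl, Nat.choose_succ_succ' (n + 2) 1,
        Nat.choose_one_right]
    lia
  · rintro (l | j)
    · exact InX_snoc_zero (hP l)
    · exact InX_snoc_one (hR j)
  · intro f hf hv
    obtain ⟨g, c, a, b, hg, hsp⟩ := hf.snoc_split
    obtain ⟨uA, uB, u, hu⟩ := hP1 g hg (by
      intro l
      have := hv (Sum.inl l)
      simp only [Sum.elim_inl] at this
      rw [hsp] at this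
      simpa using this)
    -- the remaining affine function
    have haff : ∀ (x : Fin n → k) (τ : k), f (Fin.snoc x τ) =
        uA * (AA α z1 (Fin.snoc x τ : Fin (n + 1) → k) * AA α z1 (Fin.snoc x τ : Fin (n + 1) → k) -
          AA α z1 (Fin.snoc x τ : Fin (n + 1) → k)) +
        uB * (AA β z2 (Fin.snoc x τ : Fin (n + 1) → k) * AA β z2 (Fin.snoc x τ : Fin (n + 1) → k) -
          AA β z2 (Fin.snoc x τ : Fin (n + 1) → k)) +
        ∑ i, u i * (x i * x i - x i) + (b - uA * (α n * α n) - uB * (β n * β n)) * (τ * τ - τ) +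
        τ * ((c + uA * (2 * α n * z1 - α n - α n * α n) + uB * (2 * β n * z2 - β n - β n * β n)) +
          ∑ i : Fin n, (a i - 2 * uA * α n * α i - 2 * uB * β n * β i) * x i) := by
      intro x τ
      have e1 : ∑ i : Fin n, (a i - 2 * uA * α n * α i - 2 * uB * β n * β i) * x i =
          ∑ i, a i * x i - 2 * uA * α n * (z1 - AA α z1 x) - 2 * uB * β n * (z2 - AA β z2 x) := by
        simp only [AA, sub_sub_cancel, sub_mul, Finset.sum_sub_distrib, Finset.mul_sum, mul_assoc]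
      rw [hsp, hu, e1, AA_snoc, AA_snoc]
      ring
    obtain ⟨g1, g2⟩ := hR1 (c + uA * (2 * α n * z1 - α n - α n * α n) +
      uB * (2 * β n * z2 - β n - β n * β n))
      (fun i : Fin n => a i - 2 * uA * α n * α i - 2 * uB * β n * β i) (fun j => by
      have h0 := hv (Sum.inr j)
      simp only [Sum.elim_inr] at h0
      rw [haff] at h0
      have hx := InX_snoc_one (hR j)
      have q1 : AA α z1 (Fin.snoc (R j) 1 : Fin (n + 1) → k) *
          AA α z1 (Fin.snoc (R j) 1 : Fin (n + 1) → k) -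
          AA α z1 (Fin.snoc (R j) 1 : Fin (n + 1) → k) = 0 := by
        rcases hx.2.1 with h | h <;> rw [h] <;> ring
      have q2 : AA β z2 (Fin.snoc (R j) 1 : Fin (n + 1) → k) *
          AA β z2 (Fin.snoc (R j) 1 : Fin (n + 1) → k) -
          AA β z2 (Fin.snoc (R j) 1 : Fin (n + 1) → k) = 0 := by
        rcases hx.2.2 with h | h <;> rw [h] <;> ring
      have q3 : ∑ i, u i * (R j i * R j i - R j i) = 0 := by
        refine Finset.sum_eq_zero fun i _ => ?_
        rcases (hR j).1 i with h | h <;> rw [h] <;> ring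
      rw [q1, q2, q3] at h0
      linear_combination h0)
    refine ⟨uA, uB, Fin.snoc u (b - uA * (α n * α n) - uB * (β n * β n)), fun x => ?_⟩
    have hx : x = Fin.snoc (fun i => x (Fin.castSucc i)) (x (Fin.last n)) :=
      (Fin.snoc_init_self x).symm
    have h5 := haff (fun i => x (Fin.castSucc i)) (x (Fin.last n))
    rw [← hx] at h5
    rw [h5, g1]
    have g3 : ∀ i : Fin n, a i - 2 * uA * α n * α i - 2 * uB * β n * β i = 0 :=
      fun i => congrFun g2 i
    simp only [g3, zero_mul, Finset.sum_const_zero, Fin.sum_univ_castSucc, Fin.snoc_castSucc,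
      Fin.snoc_last]
    ring
  · intro μ hμ
    have hν : (fun j => μ (Sum.inr j)) = 0 := by
      refine hR2 _ ?_ ?_
      · have := hμ (fun x => x (Fin.last n)) (IsAff.isQuad
          ⟨0, Pi.single (Fin.last n) 1, fun x => by simp [Pi.single_apply]⟩)
        rw [Fintype.sum_sum_type] at this
        simpa using this
      · intro i
        have := hμ (fun x => x (Fin.last n) * x (Fin.castSucc i)) (IsAff.mul
          ⟨0, Pi.single (Fin.last n) 1, fun x => by simp [Pi.single_apply]⟩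
          ⟨0, Pi.single (Fin.castSucc i) 1, fun x => by simp [Pi.single_apply]⟩)
        rw [Fintype.sum_sum_type] at this
        simpa using this
    have hμ' : (fun l => μ (Sum.inl l)) = 0 := by
      refine hP2 _ fun g hg => ?_
      have := hμ _ (isQuad_init hg)
      rw [Fintype.sum_sum_type] at this
      have h6 : ∀ j, μ (Sum.inr j) = 0 := fun j => congrFun hν j
      simpa [h6] using this
    funext s
    rcases s with l | j
    · exact congrFun hμ' l
    · exact congrFun hν j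

/-- The sequence of integer vectors. -/
def vZ : ℕ → ℤ × ℤ
  | 0 => (1, 0)
  | 1 => (1, 0)
  | 2 => (0, 1)
  | 3 => (0, 1)
  | 4 => (1, 1)
  | 5 => (1, 1)
  | 6 => (-2, -1)
  | 7 => (2, 1)
  | 8 => (-2, -1)
  | (i + 9) => if i % 2 = 0 then (((i / 2 : ℕ) : ℤ) + 3, 1) else (-(((i / 2 : ℕ) : ℤ) + 3), -1)

theorem vZ_even (j : ℕ) : vZ (2 * j + 9) = ((j : ℤ) + 3, 1) := by
  have h1 : 2 * j % 2 = 0 := by lia
  have h2 : 2 * j / 2 = j := by lia
  simp only [vZ, h1, h2, if_true]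

theorem vZ_odd (j : ℕ) : vZ (2 * j + 10) = (-((j : ℤ) + 3), -1) := by
  have h1 : ¬ (2 * j + 1) % 2 = 0 := by lia
  have h2 : (2 * j + 1) / 2 = j := by lia
  change (if (2 * j + 1) % 2 = 0 then _ else _) = _
  rw [if_neg h1, h2]

/-- The first coordinates. -/
def va (k : Type*) [Field k] (i : ℕ) : k := ((vZ i).1 : k)

/-- The second coordinates. -/
def vb (k : Type*) [Field k] (i : ℕ) : k := ((vZ i).2 : k)

theorem inX_cast (z1 z2 : ℤ) (x : Fin n → ℤ) (h : (∀ i, x i = 0 ∨ x i = 1) ∧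
    (z1 - ∑ i : Fin n, (vZ i).1 * x i = 0 ∨ z1 - ∑ i : Fin n, (vZ i).1 * x i = 1) ∧
    (z2 - ∑ i : Fin n, (vZ i).2 * x i = 0 ∨ z2 - ∑ i : Fin n, (vZ i).2 * x i = 1)) :
    InX (va k) (vb k) (z1 : k) (z2 : k) (fun i => ((x i : ℤ) : k)) := by
  obtain ⟨h1, h2, h3⟩ := h
  have e1 : AA (va k) (z1 : k) (fun i => ((x i : ℤ) : k)) =
      ((z1 - ∑ i : Fin n, (vZ i).1 * x i : ℤ) : k) := by
    simp [AA, va]
  have e2 : AA (vb k) (z2 : k) (fun i => ((x i : ℤ) : k)) =
      ((z2 - ∑ i : Fin n, (vZ i).2 * x i : ℤ) : k) := by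
    simp [AA, vb]
  refine ⟨fun i => ?_, ?_, ?_⟩
  · rcases h1 i with h | h <;> simp [h]
  · rw [e1]
    rcases h2 with h | h <;> simp [h]
  · rw [e2]
    rcases h3 with h | h <;> simp [h]

theorem NE.via {z1 z2 w1 w2 : k} (i : ℕ) (h : NE (va k) (vb k) 6 w1 w2) (hi : 6 ≤ i) {m : ℕ}
    (hm : i < m) (h1 : z1 = w1 + va k i) (h2 : z2 = w2 + vb k i) : NE (va k) (vb k) m z1 z2 := by
  have h3 : NE (va k) (vb k) i (z1 - va k i) (z2 - vb k i) := by
    rw [h1, h2, add_sub_cancel_right, add_sub_cancel_right]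
    exact h.mono hi
  exact h3.one.mono hm

end Pool.Agent.HilbPts
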