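import Pool.Agent.HilbPts.Base6a
import Pool.Agent.HilbPts.Base6b
import Pool.Agent.HilbPts.Base4

set_option autoImplicit false

namespace Pool.Agent.HilbPts

variable {n r : ℕ} {k : Type*} [Field k]

theorem va_even (j : ℕ) : va k (2 * j + 9) = (j : k) + 3 := by
  rw [va, vZ_even]; push_cast; ring

theorem vb_even (j : ℕ) : vb k (2 * j + 9) = 1 := by
  rw [vb, vZ_even]; push_cast; ring

theorem va_odd (j : ℕ) : va k (2 * j + 10) = -((j : k) + 3) := by
  rw [va, vZ_odd]; push_cast; ring

theorem vb_odd (j : ℕ) : vb k (2 * j + 10) = -1 := by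
  rw [vb, vZ_odd]; push_cast; ring

theorem va6 : va k 6 = -2 := by simp [va, vZ]
theorem vb6 : vb k 6 = -1 := by simp [vb, vZ]
theorem va7 : va k 7 = 2 := by simp [va, vZ]
theorem vb7 : vb k 7 = 1 := by simp [vb, vZ]
theorem va8 : va k 8 = -2 := by simp [va, vZ]
theorem vb8 : vb k 8 = -1 := by simp [vb, vZ]

theorem idx_cases (n : ℕ) (hn : 6 ≤ n) :
    n = 6 ∨ n = 7 ∨ n = 8 ∨ (∃ j, n = 2 * j + 9) ∨ ∃ j, n = 2 * j + 10 := by
  by_cases h : n < 9
  · lia
  · rcases Nat.even_or_odd' n with ⟨m, hm | hm⟩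
    · right; right; right; right
      exact ⟨m - 5, by lia⟩
    · right; right; right; left
      exact ⟨m - 4, by lia⟩

/-- Point existence near `(-1 - j, 2)`. -/
theorem ne_neg [CharZero k] (j : ℕ) : NE (va k) (vb k) (2 * j + 8) (-1 - (j : k)) 2 := by
  rcases j with _ | _ | j
  · refine NE.via 6 ne6_13 le_rfl (by lia) ?_ ?_
    · rw [va6]; push_cast; ring
    · rw [vb6]; ring
  · refine NE.via 6 ne6_03 le_rfl (by lia) ?_ ?_
    · rw [va6]; push_cast; ring
    · rw [vb6]; ring
  · refine NE.via (2 * j + 10) ne6_03 (by lia) (by lia) ?_ ?_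
    · rw [va_odd]; push_cast; ring
    · rw [vb_odd]; ring

theorem fr13 [CharZero k] (n : ℕ) (hn : 6 ≤ n) : Fr (va k) (vb k) n 1 3 := by
  induction n, hn using Nat.le_induction with
  | base => exact fr6_13
  | succ n hn ih =>
    refine ih.succ ?_
    rcases idx_cases n hn with rfl | rfl | rfl | ⟨j, rfl⟩ | ⟨j, rfl⟩
    · rw [va6, vb6]
      have := ne6_34 (k := k)
      convert this using 1 <;> norm_num
    · rw [va7, vb7]
      refine NE.via 6 ne6_13 le_rfl (by lia) ?_ ?_
      · rw [va6]; ring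
      · rw [vb6]; ring
    · rw [va8, vb8]
      have := (ne6_34 (k := k)).mono (show 6 ≤ 8 by lia)
      convert this using 1 <;> norm_num
    · rw [va_even, vb_even]
      rcases j with _ | j
      · refine NE.via 6 ne6_03 le_rfl (by lia) ?_ ?_
        · rw [va6]; push_cast; ring
        · rw [vb6]; ring
      · refine NE.via (2 * j + 10) ne6_03 (by lia) (by lia) ?_ ?_
        · rw [va_odd]; push_cast; ring
        · rw [vb_odd]; ring
    · rw [va_odd, vb_odd]
      refine NE.via (2 * j + 9) ne6_13 (by lia) (by lia) ?_ ?_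
      · rw [va_even]; ring
      · rw [vb_even]; ring

theorem frX [CharZero k] (n : ℕ) (hn : 6 ≤ n) (h : Fr (va k) (vb k) n 2 3) :
    Fr (va k) (vb k) (n + 1) (2 - va k (n + 1)) (3 - vb k (n + 1)) := by
  rcases idx_cases (n + 1) (by lia) with h1 | h1 | h1 | ⟨j, h1⟩ | ⟨j, h1⟩
  · lia
  · obtain rfl : n = 6 := by lia
    refine Fr.succ' ?_ ?_
    · rw [va7, vb7, va6, vb6]
      convert h using 1 <;> norm_num
    · rw [va7, vb7]
      have := ne6_02 (k := k)
      convert this using 1 <;> norm_num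
  · obtain rfl : n = 7 := by lia
    refine Fr.succ' ?_ ?_
    · rw [va8, vb8, va7, vb7]
      convert h using 1 <;> norm_num
    · rw [va8, vb8]
      have := (ne6_44 (k := k)).mono (show 6 ≤ 7 by lia)
      convert this using 1 <;> norm_num
  · obtain rfl : n = 2 * j + 8 := by lia
    have e1 : va k (2 * j + 8 + 1) = (j : k) + 3 := va_even j
    have e2 : vb k (2 * j + 8 + 1) = 1 := vb_even j
    refine Fr.succ' ?_ ?_
    · rw [e1, e2]
      have := fr13 (k := k) (2 * j + 8) (by lia)
      rcases j with _ | j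
      · convert this using 1
        · change 2 - ((0 : ℕ) + 3 : k) - va k 8 = 1
          rw [va8]; push_cast; ring
        · change (3 - 1 : k) - vb k 8 = 3
          rw [vb8]; ring
      · convert this using 1
        · change 2 - (((j + 1 : ℕ) : k) + 3) - va k (2 * j + 10) = 1
          rw [va_odd]; push_cast; ring
        · change (3 - 1 : k) - vb k (2 * j + 10) = 3
          rw [vb_odd]; ring
    · rw [e1, e2]
      have := ne_neg (k := k) j
      convert this using 1 <;> ring
  · obtain rfl : n = 2 * j + 9 := by lia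
    have e1 : va k (2 * j + 9 + 1) = -((j : k) + 3) := va_odd j
    have e2 : vb k (2 * j + 9 + 1) = -1 := vb_odd j
    refine Fr.succ' ?_ ?_
    · rw [e1, e2, va_even, vb_even]
      convert h using 1 <;> ring
    · rw [e1, e2]
      rcases j with _ | j
      · refine NE.via 7 ne6_33 (by lia) (by lia) ?_ ?_
        · rw [va7]; push_cast; ring
        · rw [vb7]; ring
      · refine NE.via (2 * j + 9) ne6_33 (by lia) (by lia) ?_ ?_
        · rw [va_even]; push_cast; ring
        · rw [vb_even]; ring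

theorem chain_all [CharZero k] (n : ℕ) (hn : 6 ≤ n) :
    Fr (va k) (vb k) n 2 3 ∧ Fr (va k) (vb k) n (2 - va k n) (3 - vb k n) ∧
      PP (va k) (vb k) n 2 3 := by
  induction n, hn using Nat.le_induction with
  | base =>
    refine ⟨fr6_23, ?_, pp6⟩
    rw [va6, vb6]
    have := fr6_44 (k := k)
    convert this using 1 <;> norm_num
  | succ n hn ih =>
    obtain ⟨h1, h2, h3⟩ := ih
    exact ⟨h1.succ h2.ne, frX n hn h1, h3.succ h2⟩

end Pool.Agent.HilbPts
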