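import Mathlib

set_option autoImplicit false

namespace Pool.Agent.HilbPts

variable {k : Type*} [Field k]

theorem fin3_pigeon (a b c d : Fin 3) (h1 : a ≠ b) (h2 : c ≠ a) (h3 : c ≠ b) (h4 : d ≠ a)
    (h5 : d ≠ b) : c = d := by
  revert a b c d
  decide

theorem ne_zero_of_parallel {a0 a1 b0 b1 : k} (h : a0 * b1 = a1 * b0) (ha : a0 ≠ 0)
    (hb : ¬ (b0 = 0 ∧ b1 = 0)) : b0 ≠ 0 := by
  intro h0
  rw [h0, mul_zero] at h
  exact hb ⟨h0, (mul_eq_zero.1 h).resolve_left ha⟩

/-- The moment equations for two linear relations have only the zero solution. -/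
theorem moments_zero [CharZero k] {V : Type*} [Fintype V] [DecidableEq V] (v : V → Fin 2 → k)
    (z M0 : Fin 2 → k) (M1 : V → Fin 2 → k) (M2 : V → V → Fin 2 → k)
    (hsymm : ∀ c c' t, M2 c c' t = M2 c' c t) (hdiag : ∀ c t, M2 c c t = M1 c t)
    (r1 : ∀ s t, ∑ c, v c s * M1 c t = z s * M0 t)
    (r2 : ∀ c' s t, ∑ c, v c s * M2 c c' t = z s * M1 c' t)
    (e0 : ∀ c, ∑ t, M0 t * v c t = 0) (e1 : ∀ c, ∑ t, M1 c t * v c t = 0)
    (e2 : ∀ c c', ∑ t, (2 * M2 c c' t - M1 c' t) * v c t = 0)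
    (cA cB : V) (hA : v cA 0 = 1 ∧ v cA 1 = 0) (hB : v cB 0 = 0 ∧ v cB 1 = 1)
    (hζ : ∀ c', (2 * z 0 - ∑ c, v c 0) * v c' 1 - (2 * z 1 - ∑ c, v c 1) * v c' 0 ≠ 0)
    (σ : V → ℕ) (ρ : V → Fin 3) (hσ : ∀ c c', v c 0 * v c' 1 = v c 1 * v c' 0 → σ c = σ c')
    (hρ : ∀ c c', σ c = σ c' → ρ c = ρ c' → c = c') :
    (∀ t, M0 t = 0) ∧ (∀ c t, M1 c t = 0) ∧ ∀ c c' t, M2 c c' t = 0 := by
  have hv : ∀ c, ¬ (v c 0 = 0 ∧ v c 1 = 0) := by
    intro c hc
    apply hζ c
    rw [hc.1, hc.2]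
    ring
  simp only [Fin.sum_univ_two] at e0 e1 e2
  have hM0 : ∀ t, M0 t = 0 := by
    intro t
    have a1 := e0 cA
    have a2 := e0 cB
    rw [hA.1, hA.2] at a1
    rw [hB.1, hB.2] at a2
    fin_cases t
    · simpa using a1
    · simpa using a2
  -- the skew part
  have hΔ : ∀ c c' t, (v c 0 * v c' 1 - v c 1 * v c' 0) *
      (2 * M2 c c' t - M1 c t - M1 c' t) = 0 := by
    intro c c' t
    have b1 := e2 c c'
    have b2 := e2 c' c
    have b3 := e1 c
    have b4 := e1 c'
    rw [hsymm c' c 0, hsymm c' c 1] at b2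
    fin_cases t
    · simp only [Fin.zero_eta]
      linear_combination (v c' 1) * b1 - (v c' 1) * b3 - (v c 1) * b2 + (v c 1) * b4
    · simp only [Fin.mk_one]
      linear_combination (v c 0) * b2 - (v c 0) * b4 - (v c' 0) * b1 + (v c' 0) * b3
  have hM1 : ∀ c' t, M1 c' t = 0 := by
    intro c' t
    have s1 : ∑ c, (v c 0 * v c' 1 - v c 1 * v c' 0) * (2 * M2 c c' t - M1 c t - M1 c' t) = 0 :=
      Finset.sum_eq_zero fun c _ => hΔ c c' t
    have s2 : ∑ c, (v c 0 * v c' 1 - v c 1 * v c' 0) * (2 * M2 c c' t - M1 c t - M1 c' t) =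
        v c' 1 * (2 * ∑ c, v c 0 * M2 c c' t - ∑ c, v c 0 * M1 c t - (∑ c, v c 0) * M1 c' t) -
        v c' 0 * (2 * ∑ c, v c 1 * M2 c c' t - ∑ c, v c 1 * M1 c t -
          (∑ c, v c 1) * M1 c' t) := by
      simp only [Finset.mul_sum, Finset.sum_mul, ← Finset.sum_sub_distrib]
      exact Finset.sum_congr rfl fun c _ => by ring
    rw [s2, r1, r1, r2, r2, hM0] at s1
    have s3 : ((2 * z 0 - ∑ c, v c 0) * v c' 1 - (2 * z 1 - ∑ c, v c 1) * v c' 0) * M1 c' t = 0 := by
      linear_combination s1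
    exact (mul_eq_zero.1 s3).resolve_left (hζ c')
  refine ⟨hM0, hM1, ?_⟩
  have hskew : ∀ c c' t, v c 0 * v c' 1 ≠ v c 1 * v c' 0 → M2 c c' t = 0 := by
    intro c c' t h
    have := hΔ c c' t
    rw [hM1, hM1, sub_zero, sub_zero] at this
    have h2 := (mul_eq_zero.1 this).resolve_left (sub_ne_zero.2 h)
    exact (mul_eq_zero.1 h2).resolve_left two_ne_zero
  have hrow : ∀ c s t, ∑ d, v d s * M2 d c t = 0 := by
    intro c s t
    rw [r2, hM1, mul_zero]
  intro c c' t
  by_contra hne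
  have hcc : c ≠ c' := by
    rintro rfl
    rw [hdiag, hM1] at hne
    exact hne rfl
  have hpar : v c 0 * v c' 1 = v c 1 * v c' 0 := by
    by_contra h
    exact hne (hskew c c' t h)
  have hσc := hσ c c' hpar
  -- elements outside the class do not contribute
  have hout : ∀ d c, σ d ≠ σ c → M2 d c t = 0 := by
    intro d c h
    exact hskew d c t fun h' => h (hσ d c h')
  by_cases hthird : ∃ e, e ≠ c ∧ e ≠ c' ∧ σ e = σ c
  · obtain ⟨e, hec, hec', hσe⟩ := hthird
    have huniq : ∀ d, d ≠ c → d ≠ c' → σ d = σ c → d = e := by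
      intro d hd hd' hσd
      refine hρ d e (hσd.trans hσe.symm) ?_
      exact fin3_pigeon (ρ c) (ρ c') (ρ d) (ρ e) (fun h => hcc (hρ _ _ hσc h))
        (fun h => hd (hρ _ _ hσd h)) (fun h => hd' (hρ _ _ (hσd.trans hσc) h))
        (fun h => hec (hρ _ _ hσe h)) (fun h => hec' (hρ _ _ (hσe.trans hσc) h))
    have row_c : ∀ s, v c' s * M2 c' c t + v e s * M2 e c t = 0 := by
      intro s
      rw [← hrow c s t]
      symm
      refine Fintype.sum_eq_add c' e hec'.symm fun d hd => ?_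
      by_cases h1 : d = c
      · rw [h1, hdiag, hM1, mul_zero]
      · by_cases h2 : σ d = σ c
        · exact absurd (huniq d h1 hd.1 h2) hd.2
        · rw [hout d c h2, mul_zero]
    have row_c' : ∀ s, v c s * M2 c c' t + v e s * M2 e c' t = 0 := by
      intro s
      rw [← hrow c' s t]
      symm
      refine Fintype.sum_eq_add c e hec.symm fun d hd => ?_
      by_cases h1 : d = c'
      · rw [h1, hdiag, hM1, mul_zero]
      · by_cases h2 : σ d = σ c
        · exact absurd (huniq d hd.1 h1 h2) hd.2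
        · rw [hout d c' (fun h => h2 (h.trans hσc.symm)), mul_zero]
    have row_e : ∀ s, v c s * M2 c e t + v c' s * M2 c' e t = 0 := by
      intro s
      rw [← hrow e s t]
      symm
      refine Fintype.sum_eq_add c c' hcc fun d hd => ?_
      by_cases h1 : d = e
      · rw [h1, hdiag, hM1, mul_zero]
      · by_cases h2 : σ d = σ c
        · exact absurd (huniq d hd.1 hd.2 h2) h1
        · rw [hout d e (fun h => h2 (h.trans hσe)), mul_zero]
    simp only [hsymm c' c] at row_c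
    have hnv : ∀ d, ∃ s, v d s ≠ 0 := by
      intro d
      by_contra hcon
      push Not at hcon
      exact hv d ⟨hcon 0, hcon 1⟩
    have hce : M2 e c t ≠ 0 := by
      intro h
      obtain ⟨s, hs⟩ := hnv c'
      have := row_c s
      rw [h, mul_zero, add_zero] at this
      exact hne ((mul_eq_zero.1 this).resolve_left hs)
    have hpe : v c 0 * v e 1 = v c 1 * v e 0 := by
      by_contra h
      apply hce
      rw [hsymm]
      exact hskew c e t h
    have hfin : ∀ s, v c s ≠ 0 → v c' s ≠ 0 → v e s ≠ 0 → False := by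
      intro s h1 h2 h3
      have q1 := row_c s
      have q2 := row_c' s
      have q3 := row_e s
      rw [hsymm c e, hsymm c' e] at q3
      have q4 : 2 * (v c s * v c' s) * M2 c c' t = 0 := by
        linear_combination (v c s) * q1 + (v c' s) * q2 - (v e s) * q3
      exact hne ((mul_eq_zero.1 q4).resolve_left
        (mul_ne_zero two_ne_zero (mul_ne_zero h1 h2)))
    by_cases h0 : v c 0 = 0
    · have h1 : v c 1 ≠ 0 := fun h => hv c ⟨h0, h⟩
      refine hfin 1 h1 ?_ ?_
      · exact ne_zero_of_parallel hpar.symm h1 fun h => hv c' ⟨h.2, h.1⟩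
      · exact ne_zero_of_parallel hpe.symm h1 fun h => hv e ⟨h.2, h.1⟩
    · exact hfin 0 h0 (ne_zero_of_parallel hpar h0 (hv c')) (ne_zero_of_parallel hpe h0 (hv e))
  · push Not at hthird
    have row_c : ∀ s, v c' s * M2 c' c t = 0 := by
      intro s
      rw [← hrow c s t]
      symm
      refine Fintype.sum_eq_single c' fun d hd => ?_
      by_cases h1 : d = c
      · rw [h1, hdiag, hM1, mul_zero]
      · rw [hout d c (hthird d h1 hd), mul_zero]
    rw [hsymm] at hne
    apply hv c'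
    exact ⟨(mul_eq_zero.1 (row_c 0)).resolve_right hne, (mul_eq_zero.1 (row_c 1)).resolve_right hne⟩

end Pool.Agent.HilbPts
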