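import Pool.Agent.HilbPts.ChainEnd
import Pool.Agent.HilbPts.Binary
import Pool.Agent.HilbPts.Moments

set_option autoImplicit false

namespace Pool.Agent.HilbPts

variable {n r : ℕ} {k : Type*} [Field k]

/-- Second differences of affine combinations of the binary quadrics. -/
theorem second_diff [CharZero k] {V : Type*} [Fintype V] (y0 : V → k) (Y : V → Fin n → k)
    (y : V → (Fin n → k) → k) (hy : ∀ c x, y c x = y0 c + ∑ i, Y c i * x i) (u : V → k)
    (h : IsAff (fun x => ∑ c, u c * (y c x * y c x - y c x))) (i j : Fin n) :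
    ∑ c, u c * (Y c i * Y c j) = 0 := by
  obtain ⟨c, a, hf⟩ := h
  have e1 : ∀ c (i : Fin n), y c (Pi.single i 1) = y0 c + Y c i := by
    intro c i
    rw [hy]
    simp [Pi.single_apply]
  have e2 : ∀ c (i j : Fin n), y c (Pi.single i 1 + Pi.single j 1) = y0 c + Y c i + Y c j := by
    intro c i j
    rw [hy]
    simp [Pi.single_apply, mul_add, Finset.sum_add_distrib, add_assoc]
  have e0 : ∀ c, y c 0 = y0 c := by
    intro c
    rw [hy]; simp
  have g0 := hf 0
  have g1 := hf (Pi.single i 1)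
  have g2 := hf (Pi.single j 1)
  have g3 := hf (Pi.single i 1 + Pi.single j 1)
  simp only [e0, e1, e2, Pi.add_apply, mul_add, Finset.sum_add_distrib, Pi.zero_apply, mul_zero,
    Finset.sum_const_zero] at g0 g1 g2 g3
  have g4 : ∑ x, u x * ((y0 x + Y x i + Y x j) * (y0 x + Y x i + Y x j) -
      (y0 x + Y x i + Y x j)) - ∑ x, u x * ((y0 x + Y x i) * (y0 x + Y x i) - (y0 x + Y x i)) -
      ∑ x, u x * ((y0 x + Y x j) * (y0 x + Y x j) - (y0 x + Y x j)) +
      ∑ x, u x * (y0 x * y0 x - y0 x) = 2 * ∑ c, u c * (Y c i * Y c j) := by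
    rw [Finset.mul_sum, ← Finset.sum_sub_distrib, ← Finset.sum_sub_distrib,
      ← Finset.sum_add_distrib]
    exact Finset.sum_congr rfl fun x _ => by ring
  have g5 : 2 * ∑ c, u c * (Y c i * Y c j) = 0 := by
    rw [← g4]
    simp only [mul_add] at *
    linear_combination g3 - g1 - g2 + g0
  exact (mul_eq_zero.1 g5).resolve_left two_ne_zero

/-- The vectors of a binary configuration. -/
def vv (n : ℕ) : Fin 2 ⊕ Fin n → ℤ × ℤ
  | Sum.inl s => if s = 0 then (1, 0) else (0, 1)
  | Sum.inr i => vZ i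

/-- The slope class. -/
def slope (w : ℤ × ℤ) : ℕ := if w.2 = 0 then 0 else w.1.natAbs + 1

/-- Admissible vectors. -/
def Adm (w : ℤ × ℤ) : Prop := w = (1, 0) ∨ (0 ≤ w.1 ∧ w.2 = 1) ∨ (w.1 ≤ 0 ∧ w.2 = -1)

theorem adm_vZ (i : ℕ) : Adm (vZ i) := by
  by_cases h : i < 9
  · interval_cases i <;> simp [Adm, vZ]
  · rcases idx_cases i (by lia) with rfl | rfl | rfl | ⟨j, rfl⟩ | ⟨j, rfl⟩
    · lia
    · lia
    · lia
    · rw [vZ_even]
      exact Or.inr (Or.inl ⟨by simp only; lia, rfl⟩)
    · rw [vZ_odd]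
      exact Or.inr (Or.inr ⟨by simp only; lia, rfl⟩)

theorem adm_vv (c : Fin 2 ⊕ Fin n) : Adm (vv n c) := by
  rcases c with s | i
  · simp only [vv]
    split_ifs
    · left; rfl
    · right; left; simp
  · exact adm_vZ i

theorem slope_eq {w w' : ℤ × ℤ} (h : Adm w) (h' : Adm w') (hpar : w.1 * w'.2 = w.2 * w'.1) :
    slope w = slope w' := by
  obtain ⟨p, q⟩ := w
  obtain ⟨p', q'⟩ := w'
  simp only [Adm, Prod.mk.injEq] at h h'
  simp only [slope] at *
  rcases h with ⟨rfl, rfl⟩ | ⟨h1, rfl⟩ | ⟨h1, rfl⟩ <;>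
    rcases h' with ⟨rfl, rfl⟩ | ⟨h2, rfl⟩ | ⟨h2, rfl⟩ <;> simp at * <;> lia

/-- Position in the slope class. -/
def rk : ℕ → Fin 3
  | 0 => 1
  | 1 => 2
  | 2 => 1
  | 3 => 2
  | 4 => 0
  | 5 => 1
  | 6 => 0
  | 7 => 1
  | 8 => 2
  | (i + 9) => if i % 2 = 0 then 0 else 1

/-- Position in the slope class. -/
def rho (n : ℕ) : Fin 2 ⊕ Fin n → Fin 3
  | Sum.inl _ => 0
  | Sum.inr i => rk i

theorem slope_even (j : ℕ) : slope (vZ (2 * j + 9)) = j + 4 := by
  rw [vZ_even]; simp [slope]; lia

theorem slope_odd (j : ℕ) : slope (vZ (2 * j + 10)) = j + 4 := by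
  rw [vZ_odd]; simp [slope]; lia

theorem rk_even (j : ℕ) : rk (2 * j + 9) = 0 := by
  have h1 : 2 * j % 2 = 0 := by lia
  simp [rk]

theorem rk_odd (j : ℕ) : rk (2 * j + 10) = 1 := by
  have h1 : ¬ (2 * j + 1) % 2 = 0 := by lia
  change (if (2 * j + 1) % 2 = 0 then _ else _) = _
  rw [if_neg h1]

theorem small_slope (i : ℕ) (hi : i < 9) : slope (vZ i) ≤ 3 := by
  interval_cases i <;> simp [slope, vZ]

theorem code_inj_nat (i j : ℕ) (h1 : slope (vZ i) = slope (vZ j)) (h2 : rk i = rk j) : i = j := by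
  have key : ∀ i j : ℕ, i < 9 → 9 ≤ j → slope (vZ i) ≠ slope (vZ j) := by
    intro i j hi hj h
    have h3 := small_slope i hi
    rcases idx_cases j (by lia) with rfl | rfl | rfl | ⟨m, rfl⟩ | ⟨m, rfl⟩
    · lia
    · lia
    · lia
    · rw [h, slope_even] at h3; lia
    · rw [h, slope_odd] at h3; lia
  by_cases hi : i < 9
  · by_cases hj : j < 9
    · interval_cases i <;> interval_cases j <;> first | rfl | (simp [slope, vZ, rk] at h1 h2)
    · exact absurd h1 (key i j hi (by lia))
  · by_cases hj : j < 9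
    · exact absurd h1.symm (key j i hj (by lia))
    · rcases idx_cases i (by lia) with rfl | rfl | rfl | ⟨m, rfl⟩ | ⟨m, rfl⟩
      · lia
      · lia
      · lia
      · rcases idx_cases j (by lia) with rfl | rfl | rfl | ⟨m', rfl⟩ | ⟨m', rfl⟩
        · lia
        · lia
        · lia
        · rw [slope_even, slope_even] at h1; lia
        · rw [rk_even, rk_odd] at h2; simp at h2
      · rcases idx_cases j (by lia) with rfl | rfl | rfl | ⟨m', rfl⟩ | ⟨m', rfl⟩
        · lia
        · lia
        · lia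
        · rw [rk_even, rk_odd] at h2; simp at h2
        · rw [slope_odd, slope_odd] at h1; lia

theorem slope_pos_of_rk (i : ℕ) (h : rk i = 0) : 2 ≤ slope (vZ i) := by
  by_cases hi : i < 9
  · interval_cases i <;> simp [slope, vZ, rk] at *
  · rcases idx_cases i (by lia) with rfl | rfl | rfl | ⟨m, rfl⟩ | ⟨m, rfl⟩
    · lia
    · lia
    · lia
    · rw [slope_even]; lia
    · rw [slope_odd]; lia

theorem code_inj (c c' : Fin 2 ⊕ Fin n) (h1 : slope (vv n c) = slope (vv n c'))
    (h2 : rho n c = rho n c') : c = c' := by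
  rcases c with s | i <;> rcases c' with s' | j
  · fin_cases s <;> fin_cases s' <;> simp [vv, slope] at h1 ⊢
  · simp only [rho] at h2
    have := slope_pos_of_rk j h2.symm
    simp only [vv] at h1
    rw [← h1] at this
    fin_cases s <;> simp [slope] at this
  · simp only [rho] at h2
    have := slope_pos_of_rk i h2
    simp only [vv] at h1
    rw [h1] at this
    fin_cases s' <;> simp [slope] at this
  · congr 1
    exact Fin.ext (code_inj_nat i j h1 h2)

/-- Binary interpolating sets give smoothability. -/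
theorem VC_subset_of_PP [CharZero k] (hn : 4 ≤ n) (z1 z2 : ℤ)
    (hPP : PP (va k) (vb k) n (z1 : k) (z2 : k)) (hr : r + n + 2 = (n + 1).choose 2)
    (hζ : ∀ c : Fin 2 ⊕ Fin n, (2 * z1 - ∑ c, (vv n c).1) * (vv n c).2 -
      (2 * z2 - ∑ c, (vv n c).2) * (vv n c).1 ≠ 0) :
    VC n (1 + n + r) k ⊆ Smoothable n (1 + n + r) k := by
  classical
  obtain ⟨ι, _, P, hcard, hP, h2, h5⟩ := hPP
  let y : Fin 2 ⊕ Fin n → (Fin n → k) → k := fun c x => match c with
    | Sum.inl s => if s = 0 then AA (va k) z1 x else AA (vb k) z2 x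
    | Sum.inr i => x i
  let y0 : Fin 2 ⊕ Fin n → k := fun c => match c with
    | Sum.inl s => if s = 0 then z1 else z2
    | Sum.inr _ => 0
  let Y : Fin 2 ⊕ Fin n → Fin n → k := fun c => match c with
    | Sum.inl s => if s = 0 then fun i => - va k i else fun i => - vb k i
    | Sum.inr i => Pi.single i 1
  let v : Fin 2 ⊕ Fin n → Fin 2 → k := fun c t =>
    if t = 0 then ((vv n c).1 : k) else ((vv n c).2 : k)
  have hy : ∀ c x, y c x = y0 c + ∑ i, Y c i * x i := by
    intro c x
    rcases c with s | i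
    · fin_cases s
      · simp [y, y0, Y, AA, sub_eq_add_neg]
      · simp [y, y0, Y, AA, sub_eq_add_neg]
    · simp [y, y0, Y, Pi.single_apply]
  have hv0 : ∀ i : Fin n, v (Sum.inr i) 0 = va k i := fun i => by simp [v, vv, va]
  have hv1 : ∀ i : Fin n, v (Sum.inr i) 1 = vb k i := fun i => by simp [v, vv, vb]
  refine VC_subset_of_binary (s := 2) (by
      have : (n + 2).choose 2 = (n + 1) + (n + 1).choose 2 := by
        rw [Nat.choose_succ_succ' (n + 1) 1, Nat.choose_one_right]
      lia) P y0 Y y hy ?_ ?_ ?_ v ?_ h5 Sum.inr (fun i x => rfl) ?_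
  · intro l c
    rcases c with s | i
    · fin_cases s
      · exact (hP l).2.1
      · exact (hP l).2.2
    · exact (hP l).1 i
  · intro f hf h0
    obtain ⟨uA, uB, u, hu⟩ := h2 f hf h0
    refine ⟨Sum.elim ![uA, uB] u, fun x => ?_⟩
    rw [hu, Fintype.sum_sum_type, Fin.sum_univ_two]
    simp [y]
  · intro u hu
    have hsd := second_diff y0 Y y hy u hu
    have hsd' : ∀ i j : Fin n, u (Sum.inl 0) * (va k i * va k j) +
        u (Sum.inl 1) * (vb k i * vb k j) + (if i = j then u (Sum.inr i) else 0) = 0 := by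
      intro i j
      have := hsd i j
      rw [Fintype.sum_sum_type, Fin.sum_univ_two] at this
      simp only [Y, if_true, Fin.isValue, one_ne_zero, if_false, mul_neg, neg_mul, neg_neg] at this
      have s3 : ∑ x, u (Sum.inr x) * ((Pi.single x 1 : Fin n → k) i *
          (Pi.single x 1 : Fin n → k) j) = if i = j then u (Sum.inr i) else 0 := by
        rw [Finset.sum_eq_single i]
        · split_ifs with h
          · subst h; simp
          · rw [Pi.single_eq_of_ne (fun h' => h h'.symm), mul_zero, mul_zero]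
        · intro b _ hb
          simp [hb.symm]
        · simp
      rw [s3] at this
      exact this
    have hA : u (Sum.inl 0) = 0 := by
      have := hsd' ⟨0, by lia⟩ ⟨1, by lia⟩
      simpa [va, vb, vZ] using this
    have hB : u (Sum.inl 1) = 0 := by
      have := hsd' ⟨2, by lia⟩ ⟨3, by lia⟩
      simpa [va, vb, vZ] using this
    funext c
    rcases c with s | i
    · fin_cases s
      · exact hA
      · exact hB
    · have := hsd' i i
      rw [hA, hB] at this
      simpa using this
  · intro u hu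
    refine ⟨![u (Sum.inl 0), u (Sum.inl 1)], fun c => ?_⟩
    rcases c with s | i
    · fin_cases s
      · simp [v, vv]
      · simp [v, vv]
    · have := hu i
      rw [Fintype.sum_sum_type, Fin.sum_univ_two] at this
      simp only [Y, if_true, Fin.isValue, one_ne_zero, if_false, mul_neg, Pi.single_apply,
        mul_ite, mul_one, mul_zero, Finset.sum_ite_eq, Finset.mem_univ] at this
      rw [Fin.sum_univ_two, hv0, hv1]
      simp only [Matrix.cons_val_zero, Matrix.cons_val_one]
      linear_combination this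
  · intro L m1 m0 m2
    have hrel : ∀ (x : Fin n → k) (s : Fin 2), ∑ c, v c s * y c x =
        if s = 0 then (z1 : k) else z2 := by
      intro x s
      rw [Fintype.sum_sum_type, Fin.sum_univ_two]
      fin_cases s
      · simp [v, vv, y, AA, va]
      · simp [v, vv, y, AA, vb]
    have hcast : ∀ c s, v c s = ((if s = 0 then (vv n c).1 else (vv n c).2 : ℤ) : k) := by
      intro c s
      simp only [v]
      split_ifs <;> rfl
    exact moments_zero v (fun s => if s = 0 then (z1 : k) else z2) (fun t => ∑ l, L l t)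
      (fun c t => ∑ l, y c (P l) * L l t) (fun c c' t => ∑ l, y c (P l) * y c' (P l) * L l t)
      (fun c c' t => Finset.sum_congr rfl fun l _ => by ring)
      (fun c t => Finset.sum_congr rfl fun l _ => by
        have : y c (P l) * y c (P l) = y c (P l) := by
          rcases c with s | i
          · fin_cases s
            · rcases (hP l).2.1 with h | h
              · change AA (va k) z1 (P l) * AA (va k) z1 (P l) = AA (va k) z1 (P l)
                rw [h]; ring
              · change AA (va k) z1 (P l) * AA (va k) z1 (P l) = AA (va k) z1 (P l)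
                rw [h]; ring
            · rcases (hP l).2.2 with h | h
              · change AA (vb k) z2 (P l) * AA (vb k) z2 (P l) = AA (vb k) z2 (P l)
                rw [h]; ring
              · change AA (vb k) z2 (P l) * AA (vb k) z2 (P l) = AA (vb k) z2 (P l)
                rw [h]; ring
          · rcases (hP l).1 i with h | h
            · change P l i * P l i = P l i
              rw [h]; ring
            · change P l i * P l i = P l i
              rw [h]; ring
        rw [this])
      (fun s t => by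
        rw [Finset.mul_sum]
        simp only [Finset.mul_sum]
        rw [Finset.sum_comm]
        refine Finset.sum_congr rfl fun l _ => ?_
        rw [← hrel (P l) s, Finset.sum_mul]
        exact Finset.sum_congr rfl fun c _ => by ring)
      (fun c' s t => by
        rw [Finset.mul_sum]
        simp only [Finset.mul_sum]
        rw [Finset.sum_comm]
        refine Finset.sum_congr rfl fun l _ => ?_
        rw [← hrel (P l) s, Finset.sum_mul]
        exact Finset.sum_congr rfl fun c _ => by ring)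
      m0 m1 m2 (Sum.inl 0) (Sum.inl 1) (by simp [v, vv]) (by simp [v, vv])
      (fun c' => by
        have := hζ c'
        simp only [v, if_true, Fin.isValue, one_ne_zero, if_false]
        exact_mod_cast this)
      (fun c => slope (vv n c)) (rho n)
      (fun c c' h => by
        refine slope_eq (adm_vv c) (adm_vv c') ?_
        simp only [v, if_true, Fin.isValue, one_ne_zero, if_false] at h
        exact_mod_cast h)
      (fun c c' h h' => code_inj c c' h h')

theorem zeta_vals (n : ℕ) (hn : 6 ≤ n) :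
    (3 - ∑ i ∈ Finset.range n, (vZ i).1 ≠ 0) ∧
    (3 - ∑ i ∈ Finset.range n, (vZ i).1 < 5 - ∑ i ∈ Finset.range n, (vZ i).2) ∧
    (0 < 5 - ∑ i ∈ Finset.range n, (vZ i).2) := by
  have hs : ∀ j : ℕ, ∑ i ∈ Finset.range (2 * j + 9), (vZ i).1 = 2 ∧
      ∑ i ∈ Finset.range (2 * j + 9), (vZ i).2 = 3 := by
    intro j
    induction j with
    | zero => simp [Finset.sum_range_succ, vZ]
    | succ j ih =>
      have e : 2 * (j + 1) + 9 = (2 * j + 9) + 1 + 1 := by ring
      have e1 : vZ (2 * j + 9 + 1) = (-((j : ℤ) + 3), -1) := vZ_odd j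
      have r1 : ∀ f : ℕ → ℤ, ∑ i ∈ Finset.range (2 * j + 9 + 1 + 1), f i =
          ∑ i ∈ Finset.range (2 * j + 9), f i + f (2 * j + 9) + f (2 * j + 9 + 1) := fun f => by
        rw [Finset.sum_range_succ f (2 * j + 9 + 1), Finset.sum_range_succ f (2 * j + 9)]
      rw [e, r1, r1, ih.1, ih.2, vZ_even, e1]
      constructor <;> ring
  rcases idx_cases n hn with rfl | rfl | rfl | ⟨j, rfl⟩ | ⟨j, rfl⟩
  · simp [Finset.sum_range_succ, vZ]
  · simp [Finset.sum_range_succ, vZ]
  · simp [Finset.sum_range_succ, vZ]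
  · rw [(hs j).1, (hs j).2]; norm_num
  · have e : 2 * j + 10 = (2 * j + 9) + 1 := by ring
    rw [e, Finset.sum_range_succ _ (2 * j + 9), Finset.sum_range_succ _ (2 * j + 9), (hs j).1,
      (hs j).2, vZ_even]
    simp only
    refine ⟨?_, ?_, ?_⟩ <;> lia

theorem det_ne_zero {a b : ℤ} (ha : a ≠ 0) (hb : 0 < b) (hab : a < b) {w : ℤ × ℤ} (hw : Adm w)
    (hw1 : w.1 ≠ 0 ∨ w = (0, 1)) : a * w.2 - b * w.1 ≠ 0 := by
  obtain ⟨p, q⟩ := w
  simp only [Adm, Prod.mk.injEq] at hw hw1
  simp only
  rcases hw with ⟨rfl, rfl⟩ | ⟨h1, rfl⟩ | ⟨h1, rfl⟩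
  · lia
  · rcases hw1 with h2 | ⟨rfl, -⟩
    · have : 1 ≤ p := by lia
      nlinarith
    · lia
  · rcases hw1 with h2 | ⟨rfl, h3⟩
    · have : p ≤ -1 := by lia
      nlinarith
    · lia

theorem vZ_fst (i : ℕ) : (vZ i).1 ≠ 0 ∨ vZ i = (0, 1) := by
  by_cases h : i < 9
  · interval_cases i <;> simp [vZ]
  · rcases idx_cases i (by lia) with rfl | rfl | rfl | ⟨j, rfl⟩ | ⟨j, rfl⟩
    · lia
    · lia
    · lia
    · left; rw [vZ_even]; simp only; lia
    · left; rw [vZ_odd]; simp only; lia

/-- The case `r = n (n - 1) / 2 - 2`, `n ≥ 6`. -/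
theorem VC_subset_two [CharZero k] (hn : 6 ≤ n) (hr : r + n + 2 = (n + 1).choose 2) :
    VC n (1 + n + r) k ⊆ Smoothable n (1 + n + r) k := by
  refine VC_subset_of_PP (by lia) 2 3 (by
    have := (chain_all (k := k) n hn).2.2
    exact_mod_cast this) hr ?_
  obtain ⟨h1, h2, h3⟩ := zeta_vals n hn
  have e1 : 2 * (2 : ℤ) - ∑ c : Fin 2 ⊕ Fin n, (vv n c).1 =
      3 - ∑ i ∈ Finset.range n, (vZ i).1 := by
    rw [Fintype.sum_sum_type, Fin.sum_univ_two]
    simp only [vv, if_true, Fin.isValue, one_ne_zero, if_false]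
    rw [Fin.sum_univ_eq_sum_range (fun i => (vZ i).1) n]
    ring
  have e2 : 2 * (3 : ℤ) - ∑ c : Fin 2 ⊕ Fin n, (vv n c).2 =
      5 - ∑ i ∈ Finset.range n, (vZ i).2 := by
    rw [Fintype.sum_sum_type, Fin.sum_univ_two]
    simp only [vv, if_true, Fin.isValue, one_ne_zero, if_false]
    rw [Fin.sum_univ_eq_sum_range (fun i => (vZ i).2) n]
    ring
  intro c
  rw [e1, e2]
  refine det_ne_zero h1 h3 h2 (adm_vv c) ?_
  rcases c with s | i
  · fin_cases s
    · left; simp [vv]
    · right; simp [vv]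
  · exact vZ_fst i

/-- The case `n = 4`, `r = 4`. -/
theorem VC_subset_four [CharZero k] : VC 4 (1 + 4 + 4) k ⊆ Smoothable 4 (1 + 4 + 4) k := by
  refine VC_subset_of_PP le_rfl 1 1 (by
    have := pp4 (k := k)
    exact_mod_cast this) (by simp [Nat.choose]) ?_
  have e1 : ∑ c : Fin 2 ⊕ Fin 4, (vv 4 c).1 = 3 := by
    rw [Fintype.sum_sum_type, Fin.sum_univ_two]
    simp [vv, Fin.sum_univ_four, vZ]
  have e2 : ∑ c : Fin 2 ⊕ Fin 4, (vv 4 c).2 = 3 := by
    rw [Fintype.sum_sum_type, Fin.sum_univ_two]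
    simp [vv, Fin.sum_univ_four, vZ]
  intro c
  rw [e1, e2]
  rcases c with s | i
  · fin_cases s <;> simp [vv]
  · fin_cases i <;> simp [vv, vZ]

end Pool.Agent.HilbPts
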