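import Pool.Agent.HilbPts.QRep

set_option autoImplicit false

namespace Pool.Agent.HilbPts

open MvPolynomial Matrix

variable {n r : ℕ} {k : Type*} [Field k]

/-- The points of the configuration with few quadrics. -/
def ptA (k : Type*) [Field k] (w : ℕ) : Option (Prs n ⊕ {i : Fin n // w ≤ i.val}) → Fin n → k
  | none => 0
  | some (Sum.inl x) => pairPt k x
  | some (Sum.inr i) => Pi.single i.1 2

theorem pairPt_ne_zero (x : Prs n) : pairPt k x ≠ 0 := by
  intro h
  have := congrFun h x.1.1
  simp [pairPt] at this

theorem pairPt_injective : Function.Injective (pairPt k : Prs n → Fin n → k) := by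
  intro x z hxz
  have key : ∀ t, (t = x.1.1 ∨ t = x.1.2) ↔ (t = z.1.1 ∨ t = z.1.2) := by
    intro t
    have := congrFun hxz t
    simp only [pairPt] at this
    split_ifs at this with h1 h2 h2
    · exact ⟨fun _ => h2, fun _ => h1⟩
    · exact absurd this one_ne_zero
    · exact absurd this.symm one_ne_zero
    · exact ⟨fun h => absurd h h1, fun h => absurd h h2⟩
  by_cases h : x.1.1 = x.1.2
  · have h1 := (key z.1.1).2 (Or.inl rfl)
    have h2 := (key z.1.2).2 (Or.inr rfl)
    rw [← h, or_self] at h1 h2
    exact Subtype.ext (Prod.ext h1.symm (h.symm.trans h2.symm))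
  · exact prs_eq x z h ((key _).1 (Or.inl rfl)) ((key _).1 (Or.inr rfl))

theorem card_ge (n w : ℕ) (hw : w ≤ n) : Fintype.card {i : Fin n // w ≤ i.val} + w = n := by
  have h1 := Fintype.card_subtype_compl (fun i : Fin n => i.val < w)
  have h2 : Fintype.card {i : Fin n // i.val < w} = w := by
    rw [Fintype.card_subtype]
    have : (Finset.univ.filter fun i : Fin n => i.val < w) = (Finset.univ : Finset (Fin w)).map
        (Fin.castLEEmb hw) := by
      ext i
      simp only [Finset.mem_filter, Finset.mem_univ, true_and, Finset.mem_map]
      constructor
      · intro h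
        exact ⟨⟨i.val, h⟩, rfl⟩
      · rintro ⟨j, rfl⟩
        exact j.2
    rw [this, Finset.card_map, Finset.card_univ, Fintype.card_fin]
  have h3 : Fintype.card {i : Fin n // w ≤ i.val} = Fintype.card {i : Fin n // ¬ i.val < w} :=
    Fintype.card_congr (Equiv.subtypeEquivRight fun i => by rw [not_lt])
  rw [h3, h1, h2, Fintype.card_fin]
  lia

/-- The case `r ≥ n (n - 1) / 2`. -/
theorem VC_subset_many [CharZero k] (w : ℕ) (hw : w ≤ n) (hr : r + w = (n + 1).choose 2) :
    VC n (1 + n + r) k ⊆ Smoothable n (1 + n + r) k := by
  classical
  have hcard : Fintype.card (Option (Prs n ⊕ {i : Fin n // w ≤ i.val})) = 1 + n + r := by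
    rw [Fintype.card_option, Fintype.card_sum, card_pairs]
    have := card_ge n w hw
    lia
  have hinj : Function.Injective (ptA k w : Option (Prs n ⊕ {i : Fin n // w ≤ i.val}) →
      Fin n → k) := by
    have h2 : (2 : k) ≠ 0 := two_ne_zero
    have h21 : (2 : k) ≠ 1 := by norm_num
    rintro (_ | x | i) (_ | z | j) h
    · rfl
    · exact absurd h.symm (pairPt_ne_zero z)
    · have := congrFun h j.1
      simp [ptA] at this
    · exact absurd h (pairPt_ne_zero x)
    · rw [pairPt_injective h]
    · have := congrFun h j.1
      simp only [ptA, Pi.single_eq_same] at this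
      rcases pairPt_mem (k := k) x j.1 with h3 | h3 <;> rw [h3] at this
      · exact absurd this.symm h2
      · exact absurd this.symm h21
    · have := congrFun h i.1
      simp [ptA] at this
    · have := congrFun h i.1
      simp only [ptA, Pi.single_eq_same] at this
      rcases pairPt_mem (k := k) z i.1 with h3 | h3 <;> rw [h3] at this
      · exact absurd this h2
      · exact absurd this h21
    · have := congrFun h i.1
      simp only [ptA, Pi.single_apply, if_true] at this
      by_cases hij : i.1 = j.1
      · rw [Subtype.ext hij]
      · rw [if_neg hij] at this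
        exact absurd this h2
  refine VC_subset_of_DC hcard (ptA k w) hinj ?_ ?_
  · intro c a h
    have hc : c = 0 := by simpa [ptA] using h none
    refine ⟨hc, ?_⟩
    funext i
    have := h (some (Sum.inl ⟨(i, i), le_rfl⟩))
    simp only [ptA, pairPt_diag, hc] at this
    simpa [Pi.single_apply] using this
  · intro ξ hq hv hs _ _
    have hrep : ∀ l, ∃ b : Fin n → k, (∀ i, w ≤ i.val → b i = 0) ∧
        ∀ x, ξ l x = ∑ i, b i * (x i * x i - x i) := by
      intro l
      obtain ⟨c, a, B, hB, hf⟩ := (hq l).exists_symm
      have g0 : c = 0 := by
        have := hv l none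
        rw [hf] at this
        simpa [ptA, qrep_zero] using this
      have g1 : ∀ i, a i = - B i i := by
        intro i
        have := hv l (some (Sum.inl ⟨(i, i), le_rfl⟩))
        simp only [ptA, pairPt_diag, hf, qrep_single, g0] at this
        linear_combination this
      have g2 : ∀ i j, i ≠ j → B i j = 0 := by
        have key : ∀ i j : Fin n, i < j → B i j = 0 := by
          intro i j hij
          have := hv l (some (Sum.inl ⟨(i, j), hij.le⟩))
          simp only [ptA] at this
          rw [pairPt_lt _ (by simpa using hij.ne), hf, qrep_single_add, hB j i, g1, g1, g0] at this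
          have h3 : 2 * B i j = 0 := by linear_combination this
          exact (mul_eq_zero.1 h3).resolve_left two_ne_zero
        intro i j hij
        rcases lt_or_gt_of_ne hij with h | h
        · exact key i j h
        · rw [hB i j]
          exact key j i h
      refine ⟨fun i => B i i, fun i hi => ?_, fun x => ?_⟩
      · have := hv l (some (Sum.inr ⟨i, hi⟩))
        simp only [ptA] at this
        rw [hf, qrep_single, g0, g1] at this
        have h3 : 2 * B i i = 0 := by linear_combination this
        exact (mul_eq_zero.1 h3).resolve_left two_ne_zero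
      · rw [hf, qrep, g0]
        have e1 : ∀ i, ∑ j, B i j * (x i * x j) = B i i * (x i * x i) := by
          intro i
          rw [Finset.sum_eq_single i]
          · intro b _ hb
            rw [g2 i b hb.symm, zero_mul]
          · simp
        simp only [e1, g1, mul_sub, Finset.sum_sub_distrib, neg_mul, Finset.sum_neg_distrib]
        ring
    intro l x
    obtain ⟨b, hb, hf⟩ := hrep l
    rw [hf]
    refine Finset.sum_eq_zero fun i _ => ?_
    have hbi : b i = 0 := by
      by_cases hi : w ≤ i.val
      · exact hb i hi
      · have h4 := hs l (Pi.single i 1)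
        rw [hf, hf, ← sub_eq_zero, ← Finset.sum_sub_distrib] at h4
        rw [Finset.sum_eq_single i] at h4
        · simp only [Pi.add_apply, Pi.sub_apply, Pi.single_eq_same] at h4
          have h5 : b i * (2 * (2 * ptA k w l i - 1)) = 0 := by linear_combination h4
          refine (mul_eq_zero.1 h5).resolve_right ?_
          refine mul_ne_zero two_ne_zero ?_
          have h6 : ptA k w l i = 0 ∨ ptA k w l i = 1 := by
            rcases l with _ | x | j
            · left; rfl
            · exact pairPt_mem x i
            · left
              have : i ≠ j.1 := by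
                rintro rfl
                exact hi j.2
              simp [ptA, Pi.single_apply, this]
          rcases h6 with h6 | h6 <;> rw [h6] <;> norm_num
        · intro j _ hj
          simp [hj]
        · simp
    rw [hbi, zero_mul]

end Pool.Agent.HilbPts
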