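import Pool.Agent.HilbPts.General

set_option autoImplicit false

namespace Pool.Agent.HilbPts

open MvPolynomial Matrix

variable {n r : ℕ} {k : Type*} [Field k]

/-- A quadratic function given by its coefficients. -/
def qrep (c : k) (a : Fin n → k) (B : Fin n → Fin n → k) (x : Fin n → k) : k :=
  c + ∑ i, a i * x i + ∑ i, ∑ j, B i j * (x i * x j)

theorem IsQuad.exists_symm [CharZero k] {f : (Fin n → k) → k} (hf : IsQuad f) :
    ∃ (c : k) (a : Fin n → k) (B : Fin n → Fin n → k), (∀ i j, B i j = B j i) ∧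
      ∀ x, f x = qrep c a B x := by
  obtain ⟨c, a, B, h⟩ := hf
  refine ⟨c, a, fun i j => 2⁻¹ * (B i j + B j i), fun i j => by ring, fun x => ?_⟩
  rw [h, qrep]
  congr 1
  have h1 : ∑ i, ∑ j, B j i * (x i * x j) = ∑ i, ∑ j, B i j * (x i * x j) := by
    rw [Finset.sum_comm]
    exact Finset.sum_congr rfl fun i _ => Finset.sum_congr rfl fun j _ => by ring
  have h2 : ∑ i, ∑ j, 2⁻¹ * (B i j + B j i) * (x i * x j) =
      2⁻¹ * (∑ i, ∑ j, B i j * (x i * x j) + ∑ i, ∑ j, B j i * (x i * x j)) := by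
    simp only [mul_add, add_mul, Finset.sum_add_distrib, Finset.mul_sum, mul_assoc]
  rw [h2, h1, ← two_mul, ← mul_assoc, inv_mul_cancel₀ two_ne_zero, one_mul]

theorem sum_sum_single (B : Fin n → Fin n → k) (i j : Fin n) (s t : k) :
    ∑ a, ∑ b, B a b * ((Pi.single i s : Fin n → k) a * (Pi.single j t : Fin n → k) b) =
      B i j * (s * t) := by
  rw [Finset.sum_eq_single i, Finset.sum_eq_single j]
  · simp
  · intro b _ hb; simp [hb]
  · simp
  · intro b _ hb
    refine Finset.sum_eq_zero fun c _ => ?_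
    simp [hb]
  · simp

theorem qrep_zero (c : k) (a : Fin n → k) (B : Fin n → Fin n → k) : qrep c a B 0 = c := by
  simp [qrep]

theorem qrep_single (c : k) (a : Fin n → k) (B : Fin n → Fin n → k) (i : Fin n) (s : k) :
    qrep c a B (Pi.single i s) = c + a i * s + B i i * (s * s) := by
  rw [qrep, sum_sum_single]
  simp [Pi.single_apply]

theorem qrep_add (c : k) (a : Fin n → k) (B : Fin n → Fin n → k) (x y : Fin n → k) :
    qrep c a B (x + y) = qrep c a B x + qrep c a B y - c +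
      ∑ i, ∑ j, B i j * (x i * y j) + ∑ i, ∑ j, B i j * (y i * x j) := by
  simp only [qrep, Pi.add_apply, mul_add, add_mul, Finset.sum_add_distrib]
  ring

theorem qrep_single_add (c : k) (a : Fin n → k) (B : Fin n → Fin n → k) (i j : Fin n) (s t : k) :
    qrep c a B (Pi.single i s + Pi.single j t) = c + a i * s + a j * t + B i i * (s * s) +
      B j j * (t * t) + (B i j + B j i) * (s * t) := by
  rw [qrep_add, sum_sum_single, sum_sum_single, qrep_single, qrep_single]
  ring

theorem isAff_qrep {f : (Fin n → k) → k} (hf : IsAff f) : ∃ c a, ∀ x, f x = qrep c a 0 x := by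
  obtain ⟨c, a, h⟩ := hf
  exact ⟨c, a, fun x => by rw [h, qrep]; simp⟩

/-- The indicator of a pair. -/
def pairPt (k : Type*) [Field k] (x : Prs n) : Fin n → k :=
  fun t => if t = x.1.1 ∨ t = x.1.2 then 1 else 0

theorem pairPt_diag (i : Fin n) : pairPt k ⟨(i, i), le_rfl⟩ = Pi.single i 1 := by
  funext t
  simp [pairPt, Pi.single_apply]

theorem pairPt_lt (x : Prs n) (h : x.1.1 ≠ x.1.2) :
    pairPt k x = Pi.single x.1.1 1 + Pi.single x.1.2 1 := by
  funext t
  simp only [pairPt, Pi.single_apply, Pi.add_apply]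
  by_cases h1 : t = x.1.1
  · have h2 : t ≠ x.1.2 := fun h2 => h (h1.symm.trans h2)
    rw [if_pos (Or.inl h1), if_pos h1, if_neg h2, add_zero]
  · by_cases h2 : t = x.1.2
    · rw [if_pos (Or.inr h2), if_neg h1, if_pos h2, zero_add]
    · rw [if_neg (not_or.2 ⟨h1, h2⟩), if_neg h1, if_neg h2, add_zero]

theorem pairPt_mem (x : Prs n) (t : Fin n) : pairPt k x t = 0 ∨ pairPt k x t = 1 := by
  simp only [pairPt]
  split_ifs
  · exact Or.inr rfl
  · exact Or.inl rfl

theorem prs_eq (x y : Prs n) (h : x.1.1 ≠ x.1.2) (h1 : x.1.1 = y.1.1 ∨ x.1.1 = y.1.2)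
    (h2 : x.1.2 = y.1.1 ∨ x.1.2 = y.1.2) : x = y := by
  obtain ⟨⟨a, b⟩, hx⟩ := x
  obtain ⟨⟨c, d⟩, hy⟩ := y
  simp only at *
  rcases h1 with rfl | rfl <;> rcases h2 with rfl | rfl
  · exact absurd rfl h
  · rfl
  · exact absurd (le_antisymm hx hy) h
  · exact absurd rfl h

end Pool.Agent.HilbPts
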