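import Pool.Agent.HilbPts.Binary
import Pool.Agent.HilbPts.QRep

set_option autoImplicit false

namespace Pool.Agent.HilbPts

open MvPolynomial Matrix

variable {n r : ℕ} {k : Type*} [Field k]

/-- The case `r = n (n - 1) / 2 - 1`. -/
theorem VC_subset_one [CharZero k] (hn : 2 ≤ n) (hr : r + n + 1 = (n + 1).choose 2) :
    VC n (1 + n + r) k ⊆ Smoothable n (1 + n + r) k := by
  classical
  let y : Option (Fin n) → (Fin n → k) → k := fun c x => match c with
    | none => ∑ i, x i - 1
    | some i => x i
  let y0 : Option (Fin n) → k := fun c => match c with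
    | none => -1
    | some _ => 0
  let Y : Option (Fin n) → Fin n → k := fun c => match c with
    | none => fun _ => 1
    | some i => Pi.single i 1
  let v : Option (Fin n) → Fin 1 → k := fun c _ => match c with
    | none => 1
    | some _ => -1
  have hsum : ∀ x : Prs n, ∑ i, pairPt k x i = if x.1.1 = x.1.2 then 1 else 2 := by
    intro x
    split_ifs with h
    · have : pairPt k x = Pi.single x.1.1 1 := by
        obtain ⟨⟨a, b⟩, hx⟩ := x
        simp only at h
        subst h
        exact pairPt_diag a
      rw [this]
      simp [Pi.single_apply]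
    · rw [pairPt_lt x h]
      simp [Pi.single_apply, Finset.sum_add_distrib]
      norm_num
  refine VC_subset_of_binary (s := 1) (by rw [card_pairs]; lia) (pairPt k) y0 Y y ?_ ?_ ?_ ?_ v ?_
    ?_ some (fun i x => rfl) ?_
  · intro c x
    rcases c with _ | i
    · simp only [y, y0, Y, one_mul]
      ring
    · simp only [y, y0, Y, Pi.single_apply]
      simp
  · intro x c
    rcases c with _ | i
    · simp only [y]
      rw [hsum]
      split_ifs
      · left; ring
      · right; ring
    · exact pairPt_mem x i
  · intro f hf h0
    obtain ⟨c, a, B, hB, hq⟩ := hf.exists_symm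
    have g1 : ∀ i, c + a i + B i i = 0 := by
      intro i
      have := h0 ⟨(i, i), le_rfl⟩
      rw [pairPt_diag, hq, qrep_single] at this
      linear_combination this
    have g2 : ∀ i j, i ≠ j → 2 * B i j = c := by
      intro i j hij
      have key : ∀ i j : Fin n, i < j → 2 * B i j = c := by
        intro i j hij
        have := h0 ⟨(i, j), hij.le⟩
        rw [pairPt_lt _ (by simpa using hij.ne), hq, qrep_single_add, hB j i] at this
        linear_combination this - g1 i - g1 j
      rcases lt_or_gt_of_ne hij with h | h
      · exact key i j h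
      · rw [hB i j]
        exact key j i h
    refine ⟨fun c' => match c' with
      | none => 2⁻¹ * c
      | some i => B i i - 2⁻¹ * c, fun x => ?_⟩
    have e1 : ∀ i j, B i j = 2⁻¹ * c + if i = j then B i i - 2⁻¹ * c else 0 := by
      intro i j
      by_cases h : i = j
      · subst h; simp
      · rw [if_neg h, add_zero, ← g2 i j h, ← mul_assoc, inv_mul_cancel₀ two_ne_zero, one_mul]
    have e2 : ∑ i, ∑ j, B i j * (x i * x j) = 2⁻¹ * c * ((∑ i, x i) * ∑ i, x i) +
        ∑ i, (B i i - 2⁻¹ * c) * (x i * x i) := by
      have : ∀ i j, B i j * (x i * x j) = 2⁻¹ * c * (x i * x j) +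
          if i = j then (B i i - 2⁻¹ * c) * (x i * x i) else 0 := by
        intro i j
        rw [e1 i j]
        split_ifs with h
        · subst h; ring
        · ring
      simp only [this, Finset.sum_add_distrib, ← Finset.mul_sum]
      congr 1
      · rw [Finset.sum_mul]
      · simp
    have e3 : ∑ i, a i * x i = ∑ i, (- c - B i i) * x i :=
      Finset.sum_congr rfl fun i _ => by
        have := g1 i
        linear_combination (x i) * this
    rw [hq, qrep, e2, e3, Fintype.sum_option]
    simp only [y, mul_sub, sub_mul, Finset.sum_sub_distrib, neg_mul, Finset.sum_neg_distrib,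
      ← Finset.mul_sum]
    have h2 : (2 : k)⁻¹ * 2 = 1 := inv_mul_cancel₀ two_ne_zero
    linear_combination (c - c * ∑ i, x i) * (-h2)
  · intro u hu
    obtain ⟨c, a, h⟩ := isAff_qrep hu
    have hF : ∀ x : Fin n → k, ∑ c, u c * (y c x * y c x - y c x) =
        u none * ((∑ i, x i - 1) * (∑ i, x i - 1) - (∑ i, x i - 1)) +
        ∑ i, u (some i) * (x i * x i - x i) := by
      intro x
      rw [Fintype.sum_option]
    have hsingle : ∀ (i : Fin n) (s : k), ∑ j, u (some j) * ((Pi.single i s : Fin n → k) j *
        (Pi.single i s : Fin n → k) j - (Pi.single i s : Fin n → k) j) =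
        u (some i) * (s * s - s) := by
      intro i s
      rw [Finset.sum_eq_single i]
      · simp
      · intro b _ hb; simp [hb]
      · simp
    let i₀ : Fin n := ⟨0, by lia⟩
    let i₁ : Fin n := ⟨1, by lia⟩
    have hne : i₀ ≠ i₁ := by simp [i₀, i₁]
    have hsum2 : ∀ (i : Fin n) (s : k), ∑ j, (Pi.single i s : Fin n → k) j = s := by
      intro i s; simp [Pi.single_apply]
    have q0 := h 0
    have q1 := h (Pi.single i₀ 1)
    have q2 := h (Pi.single i₁ 1)
    have q3 := h (Pi.single i₀ 1 + Pi.single i₁ 1)
    rw [hF, qrep_zero] at q0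
    rw [hF, hsum2, hsingle, qrep_single] at q1 q2
    rw [hF, qrep_single_add] at q3
    simp only [Pi.add_apply, Finset.sum_add_distrib, hsum2] at q3
    have q4 : ∑ x, u (some x) * (((Pi.single i₀ 1 : Fin n → k) x + (Pi.single i₁ 1 : Fin n → k) x) *
        ((Pi.single i₀ 1 : Fin n → k) x + (Pi.single i₁ 1 : Fin n → k) x) -
        ((Pi.single i₀ 1 : Fin n → k) x + (Pi.single i₁ 1 : Fin n → k) x)) = 0 := by
      refine Finset.sum_eq_zero fun x _ => ?_
      by_cases h1 : x = i₀
      · have h2 : x ≠ i₁ := fun h => hne (h1.symm.trans h)
        simp [h1, hne]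
      · by_cases h2 : x = i₁
        · simp [h2, hne.symm]
        · simp [h1, h2]
    rw [q4] at q3
    simp only [Pi.zero_apply, Finset.sum_const_zero, mul_zero, sub_zero] at q0 q1 q2 q3
    have hnone : u none = 0 := by
      have : 2 * u none = 0 := by linear_combination q3 - q1 - q2 + q0
      exact (mul_eq_zero.1 this).resolve_left two_ne_zero
    funext c'
    rcases c' with _ | i
    · exact hnone
    · have q5 := h (Pi.single i 1)
      have q6 := h (Pi.single i 2)
      rw [hF, hsum2, hsingle, qrep_single, hnone] at q5 q6
      rw [hnone] at q0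
      simp only [Pi.zero_apply] at *
      have : 2 * u (some i) = 0 := by linear_combination q6 - 2 * q5 + q0
      exact (mul_eq_zero.1 this).resolve_left two_ne_zero
  · intro u hu
    refine ⟨fun _ => u none, fun c => ?_⟩
    rcases c with _ | i
    · simp [v]
    · have := hu i
      rw [Fintype.sum_option] at this
      simp only [Y, mul_one, Pi.single_apply, mul_ite, mul_zero, Finset.sum_ite_eq,
        Finset.mem_univ, if_true] at this
      simp only [v, Finset.univ_unique, Finset.sum_singleton]
      linear_combination this
  · intro μ hμ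
    have hoff : ∀ x : Prs n, x.1.1 ≠ x.1.2 → μ x = 0 := by
      intro x hx
      have h7 := hμ (fun z => z x.1.1 * z x.1.2) (IsAff.mul
        ⟨0, Pi.single x.1.1 1, fun z => by simp [Pi.single_apply]⟩
        ⟨0, Pi.single x.1.2 1, fun z => by simp [Pi.single_apply]⟩)
      rw [Finset.sum_eq_single x] at h7
      · simpa [pairPt] using h7
      · intro z _ hz
        by_contra hne
        apply hz
        have h8 := right_ne_zero_of_mul hne
        have h9 := left_ne_zero_of_mul h8
        have h10 := right_ne_zero_of_mul h8
        simp only [pairPt] at h9 h10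
        refine (prs_eq x z hx ?_ ?_).symm
        · by_contra hcon
          rw [if_neg hcon] at h9
          exact h9 rfl
        · by_contra hcon
          rw [if_neg hcon] at h10
          exact h10 rfl
      · simp
    funext x
    by_cases hx : x.1.1 = x.1.2
    · have h7 := hμ (fun z => z x.1.1) (IsAff.isQuad
        ⟨0, Pi.single x.1.1 1, fun z => by simp [Pi.single_apply]⟩)
      rw [Finset.sum_eq_single x] at h7
      · simpa [pairPt] using h7
      · intro z _ hz
        by_cases hz2 : z.1.1 = z.1.2
        · have : pairPt k z x.1.1 = 0 := by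
            simp only [pairPt]
            rw [if_neg]
            rintro (h | h)
            · apply hz
              apply Subtype.ext
              exact Prod.ext h.symm (by rw [← hx, h, hz2])
            · apply hz
              apply Subtype.ext
              exact Prod.ext (by rw [h, hz2]) (by rw [← hx, h])
          rw [this, mul_zero]
        · rw [hoff z hz2, zero_mul]
      · simp
    · exact hoff x hx
  · intro L m1 m0 m2
    simp only [Finset.univ_unique, Finset.sum_singleton, Fin.default_eq_zero] at m1 m0 m2
    have hv : ∀ c, v c 0 ≠ 0 := by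
      intro c
      rcases c with _ | i <;> simp [v]
    have z1 : ∀ c, ∑ l, y c (pairPt k l) * L l 0 = 0 := fun c =>
      (mul_eq_zero.1 (m1 c)).resolve_right (hv c)
    have z0 : ∑ l, L l 0 = 0 := (mul_eq_zero.1 (m0 none)).resolve_right (hv none)
    have z2 : ∀ c c', ∑ l, y c (pairPt k l) * y c' (pairPt k l) * L l 0 = 0 := by
      intro c c'
      have := (mul_eq_zero.1 (m2 c c')).resolve_right (hv c)
      rw [z1, sub_zero] at this
      exact (mul_eq_zero.1 this).resolve_left two_ne_zero
    refine ⟨fun t => ?_, fun c t => ?_, fun c c' t => ?_⟩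
    · rw [Fin.fin_one_eq_zero t]; exact z0
    · rw [Fin.fin_one_eq_zero t]; exact z1 c
    · rw [Fin.fin_one_eq_zero t]; exact z2 c c'

end Pool.Agent.HilbPts
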