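import Mathlib

set_option autoImplicit false

namespace Pool.Agent.HilbPts

open MvPolynomial

variable {n : ℕ} {k : Type*} [Field k]

theorem eval_aeval_aux {σ τ : Type*} (c : τ → k) (f : σ → MvPolynomial τ k)
    (H : MvPolynomial σ k) : eval c (aeval f H) = eval (fun x => eval c (f x)) H := by
  induction H using MvPolynomial.induction_on with
  | C a => simp [algebraMap_eq]
  | add p q hp hq => rw [map_add, map_add, map_add, hp, hq]
  | mul_X p i hp => rw [map_mul, map_mul, map_mul, hp, aeval_X, eval_X]

/-- Sorting a pair. -/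
def sortP (i j : Fin n) : {x : Fin n × Fin n // x.1 ≤ x.2} :=
  if h : i ≤ j then ⟨(i, j), h⟩ else ⟨(j, i), (not_le.1 h).le⟩

theorem sortP_comm (i j : Fin n) : sortP i j = sortP j i := by
  unfold sortP
  split_ifs with h1 h2 h2
  · have : i = j := le_antisymm h1 h2
    subst this; rfl
  · rfl
  · rfl
  · exact absurd (le_of_lt (not_le.1 h1)) h2

theorem sortP_self (x : {x : Fin n × Fin n // x.1 ≤ x.2}) : sortP x.1.1 x.1.2 = x := by
  unfold sortP
  rw [dif_pos x.2]

theorem sum_range_succ_choose (n : ℕ) : ∑ i ∈ Finset.range n, (i + 1) = (n + 1).choose 2 := by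
  induction n with
  | zero => rfl
  | succ n ih =>
    rw [Finset.sum_range_succ, ih, Nat.choose_succ_succ' (n + 1) 1, Nat.choose_one_right]
    ring

theorem card_pairs (n : ℕ) : Fintype.card {x : Fin n × Fin n // x.1 ≤ x.2} = (n + 1).choose 2 := by
  classical
  rw [Fintype.card_subtype]
  have h2 := Finset.card_sigma (Finset.univ : Finset (Fin n)) fun i => Finset.Iic i
  simp only [Fin.card_Iic] at h2
  have h3 : (Finset.univ.filter fun x : Fin n × Fin n => x.1 ≤ x.2).card =
      ((Finset.univ : Finset (Fin n)).sigma fun i => Finset.Iic i).card := by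
    refine Finset.card_bij (fun x _ => ⟨x.2, x.1⟩) ?_ ?_ ?_
    · intro a ha
      simpa using ha
    · intro a _ b _ hab
      simp only [Sigma.mk.injEq, heq_eq_eq] at hab
      exact Prod.ext hab.2 hab.1
    · rintro ⟨a, b⟩ hab
      exact ⟨(b, a), by simpa using hab, rfl⟩
  rw [h3, h2, Fin.sum_univ_eq_sum_range (fun i => i + 1) n, sum_range_succ_choose]

end Pool.Agent.HilbPts
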