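import Pool.Agent.HilbPts.LowOrder
import Pool.Agent.HilbPts.Pairs

set_option autoImplicit false

namespace Pool.Agent.HilbPts

open MvPolynomial Matrix

variable {n r : ℕ} {k : Type*} [Field k]

/-- The pairs `i ≤ j`. -/
abbrev Prs (n : ℕ) := {x : Fin n × Fin n // x.1 ≤ x.2}

/-- The coordinates of the very compressed algebras with generic structure constants. -/
noncomputable def vcPoly (p : Fin n → k) :
    (Fin n × (Unit ⊕ Fin n ⊕ Fin r) × (Unit ⊕ Fin n ⊕ Fin r)) ⊕ (Unit ⊕ Fin n ⊕ Fin r) →
      MvPolynomial (Fin r × Prs n) k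
  | Sum.inl (i, a, b) => C (if a = b then p i else 0) + match a, b with
    | Sum.inr (Sum.inl j), Sum.inl _ => if i = j then 1 else 0
    | Sum.inr (Sum.inr s), Sum.inr (Sum.inl j) => X (s, sortP i j)
    | _, _ => 0
  | Sum.inr a => C ((Pi.single (Sum.inl ()) 1 : Unit ⊕ Fin n ⊕ Fin r → k) a)

theorem eval_vcPoly (p : Fin n → k) (y : Fin r × Prs n → k)
    (c : (Fin n × (Unit ⊕ Fin n ⊕ Fin r) × (Unit ⊕ Fin n ⊕ Fin r)) ⊕ (Unit ⊕ Fin n ⊕ Fin r)) :
    eval y (vcPoly p c) =
      cvec (vcMat p fun s i j => y (s, sortP i j)) (Pi.single (Sum.inl ()) 1) c := by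
  rcases c with ⟨i, a, b⟩ | a
  · rcases a with ⟨⟩ | j | s <;> rcases b with ⟨⟩ | j' | s' <;>
      simp [vcPoly, cvec, vcMat]
  · simp [vcPoly, cvec]

theorem sortP_val {R : Type*} (f : Fin n → Fin n → R) (hf : ∀ i j, f i j = f j i) (i j : Fin n) :
    f (sortP i j).1.1 (sortP i j).1.2 = f i j := by
  unfold sortP
  split_ifs with h
  · rfl
  · exact hf j i

theorem beta_symm {R : Type*} [CommRing R] (A : Matrix (Fin r) (Fin r) R)
    (g : Matrix (Fin n) (Fin n) R) (Q : Fin r → Fin n → R) (a : Fin r) (i j : Fin n) :
    beta A g Q a i j = beta A g Q a j i := by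
  simp only [beta]
  refine Finset.sum_congr rfl fun s _ => ?_
  congr 2
  · exact mul_comm _ _
  · exact Finset.sum_congr rfl fun m _ => by ring

theorem beta_map {R S : Type*} [CommRing R] [CommRing S] (f : R →+* S)
    (A : Matrix (Fin r) (Fin r) R) (g : Matrix (Fin n) (Fin n) R) (Q : Fin r → Fin n → R)
    (a : Fin r) (i j : Fin n) :
    f (beta A g Q a i j) = beta (A.map f) (g.map f) (fun s m => f (Q s m)) a i j := by
  simp [beta, Matrix.mulVec, dotProduct]

theorem stdPts_map {R S : Type*} [CommRing R] [CommRing S] (f : R →+* S)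
    (Q : Fin r → Fin n → R) (l : Unit ⊕ Fin n ⊕ Fin r) (i : Fin n) :
    f (stdPts Q l i) = stdPts (fun s m => f (Q s m)) l i := by
  rcases l with ⟨⟩ | m | s
  · simp [stdPts]
  · simp only [stdPts, Pi.single_apply]
    split_ifs <;> simp
  · simp [stdPts]

/-- The first order variation of the structure constants. -/
def tanMap (Q : Fin r → Fin n → k) :
    (Matrix (Fin r) (Fin r) k × Matrix (Fin n) (Fin n) k × (Fin r → Fin n → k)) →ₗ[k]
      (Fin r → Fin n → Fin n → k) where
  toFun u := fun a i j =>
    ∑ s, u.1 a s * (Q s i * Q s j - ∑ m, Q s m * (1 : Matrix (Fin n) (Fin n) k) i m *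
      (1 : Matrix (Fin n) (Fin n) k) j m) +
    ((∑ m, u.2.1 i m * Q a m + u.2.2 a i) * Q a j + Q a i * (∑ m, u.2.1 j m * Q a m + u.2.2 a j) -
      ∑ m, (u.2.2 a m * (1 : Matrix (Fin n) (Fin n) k) i m * (1 : Matrix (Fin n) (Fin n) k) j m +
        Q a m * u.2.1 i m * (1 : Matrix (Fin n) (Fin n) k) j m +
        Q a m * (1 : Matrix (Fin n) (Fin n) k) i m * u.2.1 j m))
  map_add' u v := by
    funext a i j
    simp only [Prod.fst_add, Prod.snd_add, Matrix.add_apply, Pi.add_apply, add_mul, mul_add,
      Finset.sum_add_distrib]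
    ring
  map_smul' c u := by
    funext a i j
    simp only [Prod.smul_fst, Prod.smul_snd, Matrix.smul_apply, Pi.smul_apply, smul_eq_mul,
      RingHom.id_apply, mul_add, mul_sub, add_mul, Finset.mul_sum, Finset.sum_add_distrib]
    simp only [mul_assoc, mul_left_comm _ c, Finset.sum_mul, Finset.mul_sum]

theorem beta_curve (Q : Fin r → Fin n → k) (α : Matrix (Fin r) (Fin r) k)
    (γ : Matrix (Fin n) (Fin n) k) (q : Fin r → Fin n → k) (a : Fin r) (i j : Fin n) :
    (beta (1 + (Polynomial.X : Polynomial k) • α.map Polynomial.C)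
      (1 + (Polynomial.X : Polynomial k) • γ.map Polynomial.C)
      (fun s m => Polynomial.C (Q s m) + Polynomial.X * Polynomial.C (q s m)) a i j).coeff 0 =
      beta 1 1 Q a i j ∧
    (beta (1 + (Polynomial.X : Polynomial k) • α.map Polynomial.C)
      (1 + (Polynomial.X : Polynomial k) • γ.map Polynomial.C)
      (fun s m => Polynomial.C (Q s m) + Polynomial.X * Polynomial.C (q s m)) a i j).coeff 1 =
      tanMap Q (α, γ, q) a i j := by
  have h10 : ∀ {m : ℕ} (x y : Fin m), ((1 : Matrix (Fin m) (Fin m) (Polynomial k)) x y).coeff 0 =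
      (1 : Matrix (Fin m) (Fin m) k) x y := by
    intro m x y
    simp only [Matrix.one_apply]
    split_ifs <;> simp
  have h11 : ∀ {m : ℕ} (x y : Fin m),
      ((1 : Matrix (Fin m) (Fin m) (Polynomial k)) x y).coeff 1 = 0 := by
    intro m x y
    simp only [Matrix.one_apply]
    split_ifs <;> simp [Polynomial.coeff_one]
  constructor
  · simp only [beta, Matrix.mulVec, dotProduct, Polynomial.finsetSum_coeff,
      Polynomial.mul_coeff_zero, Polynomial.coeff_sub, Matrix.add_apply, Matrix.smul_apply,
      smul_eq_mul, Polynomial.coeff_add, h10, Matrix.map_apply, Polynomial.coeff_X_zero, zero_mul,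
      add_zero, Polynomial.coeff_C_zero]
  · simp only [beta, Matrix.mulVec, dotProduct, Polynomial.finsetSum_coeff,
      Polynomial.mul_coeff_zero, Polynomial.mul_coeff_one, Polynomial.coeff_sub, Matrix.add_apply,
      Matrix.smul_apply, smul_eq_mul, Polynomial.coeff_add, h10, h11, Matrix.map_apply,
      Polynomial.coeff_X_zero, zero_mul, Polynomial.coeff_C_succ,
      add_zero, zero_add, Polynomial.coeff_C_zero, Polynomial.coeff_X_one, one_mul]
    have e1 : ∀ {m : ℕ} (i : Fin m) (v : Fin m → k),
        ∑ x, (1 : Matrix (Fin m) (Fin m) k) i x * v x = v i := by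
      intro m i v
      simp [Matrix.one_apply]
    rw [Finset.sum_add_distrib, e1]
    simp only [Finset.sum_add_distrib, e1, add_mul]
    change _ = ∑ s, α a s * (Q s i * Q s j - ∑ m, Q s m * (1 : Matrix (Fin n) (Fin n) k) i m *
      (1 : Matrix (Fin n) (Fin n) k) j m) +
      ((∑ m, γ i m * Q a m + q a i) * Q a j + Q a i * (∑ m, γ j m * Q a m + q a j) -
      ∑ m, (q a m * (1 : Matrix (Fin n) (Fin n) k) i m * (1 : Matrix (Fin n) (Fin n) k) j m +
        Q a m * γ i m * (1 : Matrix (Fin n) (Fin n) k) j m +
        Q a m * (1 : Matrix (Fin n) (Fin n) k) i m * γ j m))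
    simp only [Finset.sum_add_distrib]
    ring

/-- If the first order variation is surjective (onto symmetric arrays) then the very compressed
algebras are smoothable. -/
theorem VC_subset_of_tanMap [CharZero k] (Q : Fin r → Fin n → k)
    (hP : Function.Injective (stdPts Q))
    (hT : ∀ δ : Fin r → Fin n → Fin n → k, (∀ a i j, δ a i j = δ a j i) →
      ∃ u, tanMap Q u = δ) :
    VC n (1 + n + r) k ⊆ Smoothable n (1 + n + r) k := by
  classical
  obtain ⟨e⟩ : Nonempty (Fin (1 + n + r) ≃ Unit ⊕ Fin n ⊕ Fin r) :=
    ⟨Fintype.equivOfCardEq (by simp; ring)⟩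
  intro x hx
  obtain ⟨P, rfl⟩ := toHilb_surjective x
  obtain ⟨p, g, R, hg, hR, hRc⟩ := vc_normal_form e P hx
  rw [← hR]
  obtain ⟨S, hS⟩ := (isClosed_hilb_iff (Smoothable n (1 + n + r) k)).1 isClosed_closure
  rw [hS]
  intro F hF
  have hrad : ∀ P : Pres n (1 + n + r) k, P.ideal.IsRadical → eval P.coord F = 0 := by
    intro P hP
    exact (hS P).1 (subset_closure hP) F hF
  -- the polynomial in the structure constants
  let G : MvPolynomial (Fin r × Prs n) k := aeval (vcPoly p) (rename (cIdx e) F)
  have hG : ∀ y : Fin r × Prs n → k, eval y G =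
      eval (cvec (vcMat p fun s i j => y (s, sortP i j)) (Pi.single (Sum.inl ()) 1))
        (rename (cIdx e) F) := by
    intro y
    rw [eval_aeval_aux]
    congr 2
    funext c
    exact eval_vcPoly p y c
  have hG0 : G = 0 := by
    refine eq_zero_of_curves G (fun y => beta 1 1 Q y.1 y.2.1.1 y.2.1.2) fun δ => ?_
    obtain ⟨⟨α, γ, q⟩, hu⟩ := hT (fun a i j => δ (a, sortP i j)) fun a i j => by
      rw [sortP_comm]
    let AX : Matrix (Fin r) (Fin r) (Polynomial k) :=
      1 + (Polynomial.X : Polynomial k) • α.map Polynomial.C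
    let gX : Matrix (Fin n) (Fin n) (Polynomial k) :=
      1 + (Polynomial.X : Polynomial k) • γ.map Polynomial.C
    let QX : Fin r → Fin n → Polynomial k :=
      fun s m => Polynomial.C (Q s m) + Polynomial.X * Polynomial.C (q s m)
    refine ⟨fun y => beta AX gX QX y.1 y.2.1.1 y.2.1.2, fun y => (beta_curve Q α γ q _ _ _).1,
      fun y => ?_, ?_⟩
    · rw [(beta_curve Q α γ q _ _ _).2, hu]
      simp only [sortP_self]
    · -- the bad parameters
      have hsep : ∀ l m : Unit ⊕ Fin n ⊕ Fin r, ∃ i : Option (Fin n), l ≠ m →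
          ∃ i', i = some i' ∧ stdPts Q l i' ≠ stdPts Q m i' := by
        intro l m
        by_cases h : l = m
        · exact ⟨none, fun h' => absurd h h'⟩
        · obtain ⟨i, hi⟩ := Function.ne_iff.1 (fun h' => h (hP h') : stdPts Q l ≠ stdPts Q m)
          exact ⟨some i, fun _ => ⟨i, rfl, hi⟩⟩
      choose sep hsep' using hsep
      let D : Polynomial k := AX.det * gX.det * ∏ l, ∏ m ∈ Finset.univ.erase l,
        (match sep l m with
          | some i => stdPts QX l i - stdPts QX m i
          | none => 1)
      have hQX : ∀ t, (fun s m => Polynomial.evalRingHom t (QX s m)) =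
          fun s m => Q s m + t * q s m := by
        intro t
        funext s m
        simp only [QX, Polynomial.coe_evalRingHom, Polynomial.eval_add, Polynomial.eval_C,
          Polynomial.eval_mul, Polynomial.eval_X]
      have hstd : ∀ t l i, (stdPts QX l i).eval t = stdPts (fun s m => Q s m + t * q s m) l i := by
        intro t l i
        rw [← hQX t]
        exact stdPts_map (Polynomial.evalRingHom t) QX l i
      have hAX : ∀ t, AX.map (Polynomial.evalRingHom t) = 1 + t • α := by
        intro t
        ext a b
        simp only [AX, Matrix.map_apply, Matrix.add_apply, Matrix.smul_apply, smul_eq_mul,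
          Matrix.one_apply, Polynomial.coe_evalRingHom, Polynomial.eval_add, Polynomial.eval_mul,
          Polynomial.eval_X, Polynomial.eval_C]
        split_ifs <;> simp
      have hgX : ∀ t, gX.map (Polynomial.evalRingHom t) = 1 + t • γ := by
        intro t
        ext a b
        simp only [gX, Matrix.map_apply, Matrix.add_apply, Matrix.smul_apply, smul_eq_mul,
          Matrix.one_apply, Polynomial.coe_evalRingHom, Polynomial.eval_add, Polynomial.eval_mul,
          Polynomial.eval_X, Polynomial.eval_C]
        split_ifs <;> simp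
      have hDev : ∀ t, D.eval t = (1 + t • α).det * (1 + t • γ).det *
          ∏ l, ∏ m ∈ Finset.univ.erase l, (match sep l m with
          | some i => stdPts (fun s m => Q s m + t * q s m) l i -
              stdPts (fun s m => Q s m + t * q s m) m i
          | none => 1) := by
        intro t
        simp only [D, Polynomial.eval_mul, Polynomial.eval_prod]
        congr 1
        · congr 1
          · rw [← hAX t]; exact RingHom.map_det (Polynomial.evalRingHom t) AX
          · rw [← hgX t]; exact RingHom.map_det (Polynomial.evalRingHom t) gX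
        · refine Finset.prod_congr rfl fun l _ => Finset.prod_congr rfl fun m _ => ?_
          cases sep l m with
          | none => simp
          | some i => simp only [Polynomial.eval_sub, hstd]
      have hD0 : D ≠ 0 := by
        intro h0
        have h1 := hDev 0
        rw [h0, Polynomial.eval_zero] at h1
        simp only [zero_smul, add_zero, Matrix.det_one, one_mul, zero_mul] at h1
        rw [eq_comm, Finset.prod_eq_zero_iff] at h1
        obtain ⟨l, -, h2⟩ := h1
        rw [Finset.prod_eq_zero_iff] at h2
        obtain ⟨m, hm, h3⟩ := h2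
        obtain ⟨i, hi, hne⟩ := hsep' l m (Finset.ne_of_mem_erase hm).symm
        rw [hi] at h3
        exact hne (sub_eq_zero.1 h3)
      have hmul : D * aeval (fun y : Fin r × Prs n => beta AX gX QX y.1 y.2.1.1 y.2.1.2) G = 0 := by
        refine Polynomial.funext fun t => ?_
        rw [Polynomial.eval_mul, Polynomial.eval_zero, eval_aeval_poly]
        by_cases hDt : D.eval t = 0
        · rw [hDt, zero_mul]
        · rw [hDev] at hDt
          have hA : IsUnit (1 + t • α).det :=
            isUnit_iff_ne_zero.2 (left_ne_zero_of_mul (left_ne_zero_of_mul hDt))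
          have hg' : IsUnit (1 + t • γ).det :=
            isUnit_iff_ne_zero.2 (right_ne_zero_of_mul (left_ne_zero_of_mul hDt))
          have hprod := right_ne_zero_of_mul hDt
          have hinj : Function.Injective (stdPts fun s m => Q s m + t * q s m) := by
            intro l m hlm
            by_contra hne
            rw [Finset.prod_ne_zero_iff] at hprod
            have h4 := hprod l (Finset.mem_univ _)
            rw [Finset.prod_ne_zero_iff] at h4
            have h5 := h4 m (Finset.mem_erase.2 ⟨fun h => hne h.symm, Finset.mem_univ _⟩)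
            obtain ⟨i, hi, -⟩ := hsep' l m hne
            rw [hi] at h5
            exact h5 (sub_eq_zero.2 (congrFun hlm i))
          have hlim := eval_limit_eq_zero e F hrad p (1 + t • α) (1 + t • α)⁻¹ (1 + t • γ)
            (1 + t • γ)⁻¹ (fun s m => Q s m + t * q s m) (Matrix.nonsing_inv_mul _ hg')
            (Matrix.nonsing_inv_mul _ hA) hinj
          rw [hG]
          have e1 : ∀ a i j, (beta AX gX QX a i j).eval t =
              beta (1 + t • α) (1 + t • γ) (fun s m => Q s m + t * q s m) a i j := by
            intro a i j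
            rw [← hQX t, ← hAX t, ← hgX t]
            exact beta_map (Polynomial.evalRingHom t) AX gX QX a i j
          have e2 : (fun (s : Fin r) (i j : Fin n) =>
              (beta AX gX QX s (sortP i j).1.1 (sortP i j).1.2).eval t) =
              beta (1 + t • α) (1 + t • γ) (fun s m => Q s m + t * q s m) := by
            funext s i j
            rw [e1]
            exact sortP_val (fun i j => beta (1 + t • α) (1 + t • γ)
              (fun s m => Q s m + t * q s m) s i j) (fun i j => beta_symm _ _ _ _ _ _) i j
          rw [e2, hlim, mul_zero]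
      exact (mul_eq_zero.1 hmul).resolve_left hD0
  -- conclude
  have hfin := hG fun y => g y.1 y.2.1.1 y.2.1.2
  rw [hG0, map_zero] at hfin
  rw [hRc, eval_cIdx, hfin]
  congr 2
  have : (fun (s : Fin r) (i j : Fin n) => g s (sortP i j).1.1 (sortP i j).1.2) = g := by
    funext s i j
    exact sortP_val (g s) (hg s) i j
  rw [this]

end Pool.Agent.HilbPts
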