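import Pool.Agent.HilbPts.Criterion

set_option autoImplicit false

namespace Pool.Agent.HilbPts

open MvPolynomial Matrix

variable {n r : ℕ} {k : Type*} [Field k]

/-- Polynomial functions of degree at most two. -/
def IsQuad (f : (Fin n → k) → k) : Prop :=
  ∃ (c : k) (a : Fin n → k) (B : Fin n → Fin n → k), ∀ x, f x =
    c + ∑ i, a i * x i + ∑ i, ∑ j, B i j * (x i * x j)

theorem IsQuad.zero : IsQuad (fun _ : Fin n → k => (0 : k)) :=
  ⟨0, 0, 0, fun x => by simp⟩

theorem IsQuad.add {f g : (Fin n → k) → k} (hf : IsQuad f) (hg : IsQuad g) :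
    IsQuad fun x => f x + g x := by
  obtain ⟨c, a, B, h⟩ := hf
  obtain ⟨c', a', B', h'⟩ := hg
  refine ⟨c + c', a + a', B + B', fun x => ?_⟩
  simp only [h, h', Pi.add_apply, add_mul, Finset.sum_add_distrib]
  ring

theorem IsQuad.smul {f : (Fin n → k) → k} (hf : IsQuad f) (t : k) :
    IsQuad fun x => t * f x := by
  obtain ⟨c, a, B, h⟩ := hf
  refine ⟨t * c, fun i => t * a i, fun i j => t * B i j, fun x => ?_⟩
  simp only [h, mul_add, Finset.mul_sum, mul_assoc]

theorem IsQuad.sum {α : Type*} (s : Finset α) {f : α → (Fin n → k) → k}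
    (hf : ∀ i, IsQuad (f i)) : IsQuad fun x => ∑ i ∈ s, f i x := by
  classical
  induction s using Finset.induction_on with
  | empty => simpa using IsQuad.zero
  | insert a s ha ih =>
    simp only [Finset.sum_insert ha]
    exact (hf a).add ih

/-- The infinitesimal criterion: the points admit no nontrivial syzygy. -/
def DC {ι : Type*} [Fintype ι] (P : ι → Fin n → k) : Prop :=
  ∀ ξ : ι → (Fin n → k) → k, (∀ l, IsQuad (ξ l)) → (∀ l m, ξ l (P m) = 0) →
    (∀ l v, ξ l (P l + v) = ξ l (P l - v)) → (∀ x, ∑ l, ξ l x = 0) →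
    (∀ x i, ∑ l, P l i * ξ l x = 0) → ∀ l x, ξ l x = 0

theorem tanMap_symm (Q : Fin r → Fin n → k)
    (u : Matrix (Fin r) (Fin r) k × Matrix (Fin n) (Fin n) k × (Fin r → Fin n → k))
    (a : Fin r) (i j : Fin n) : tanMap Q u a i j = tanMap Q u a j i := by
  simp only [tanMap, LinearMap.coe_mk, AddHom.coe_mk]
  congr 1
  · refine Finset.sum_congr rfl fun s _ => ?_
    congr 2
    · exact mul_comm _ _
    · exact Finset.sum_congr rfl fun m _ => by ring
  · congr 1
    · ring
    · exact Finset.sum_congr rfl fun m _ => by ring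

/-- The quadratic function attached to a symmetric matrix. -/
def qfun (B : Fin n → Fin n → k) (x : Fin n → k) : k :=
  ∑ i, ∑ j, B i j * (x i * x j) - ∑ m, B m m * x m

theorem qfun_isQuad (B : Fin n → Fin n → k) : IsQuad (qfun B) :=
  ⟨0, fun m => - B m m, B, fun x => by
    simp only [qfun, neg_mul, Finset.sum_neg_distrib]; ring⟩

theorem qfun_single (B : Fin n → Fin n → k) (m : Fin n) : qfun B (Pi.single m 1) = 0 := by
  simp only [qfun, Pi.single_apply]
  simp

theorem qfun_zero (B : Fin n → Fin n → k) : qfun B 0 = 0 := by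
  simp [qfun]

theorem qfun_add_sub (B : Fin n → Fin n → k) (hB : ∀ i j, B i j = B j i) (x v : Fin n → k) :
    qfun B (x + v) - qfun B (x - v) =
      2 * ∑ j, v j * (2 * ∑ i, B j i * x i - B j j) := by
  have h1 : ∀ i j, B i j * ((x + v) i * (x + v) j) - B i j * ((x - v) i * (x - v) j) =
      2 * (B i j * x i * v j + B i j * v i * x j) := by
    intro i j
    simp only [Pi.add_apply, Pi.sub_apply]
    ring
  have h2 : ∀ m, B m m * (x + v) m - B m m * (x - v) m = 2 * (B m m * v m) := by
    intro m
    simp only [Pi.add_apply, Pi.sub_apply]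
    ring
  have h3 : qfun B (x + v) - qfun B (x - v) =
      ∑ i, ∑ j, 2 * (B i j * x i * v j + B i j * v i * x j) - ∑ m, 2 * (B m m * v m) := by
    simp only [← h1, ← h2, Finset.sum_sub_distrib, qfun]
    ring
  rw [h3]
  simp only [← Finset.mul_sum, Finset.sum_add_distrib]
  have h4 : ∑ i, ∑ j, B i j * x i * v j = ∑ j, v j * ∑ i, B j i * x i := by
    rw [Finset.sum_comm]
    refine Finset.sum_congr rfl fun j _ => ?_
    rw [Finset.mul_sum]
    exact Finset.sum_congr rfl fun i _ => by rw [hB i j]; ring
  have h5 : ∑ i, ∑ j, B i j * v i * x j = ∑ j, v j * ∑ i, B j i * x i := by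
    refine Finset.sum_congr rfl fun j _ => ?_
    rw [Finset.mul_sum]
    exact Finset.sum_congr rfl fun i _ => by ring
  rw [h4, h5]
  simp only [mul_sub, Finset.sum_sub_distrib]
  have h6 : ∑ j, v j * (2 * ∑ i, B j i * x i) = 2 * ∑ j, v j * ∑ i, B j i * x i := by
    rw [Finset.mul_sum]
    exact Finset.sum_congr rfl fun i _ => by ring
  have h7 : ∑ m, B m m * v m = ∑ j, v j * B j j := Finset.sum_congr rfl fun i _ => by ring
  rw [h6, h7]
  ring

/-- The pairings of the variations with an orthogonal family of symmetric matrices. -/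
theorem pairing_conditions [CharZero k] (Q : Fin r → Fin n → k) (B : Fin r → Fin n → Fin n → k)
    (hB : ∀ a i j, B a i j = B a j i)
    (h : ∀ u, ∑ a, ∑ i, ∑ j, tanMap Q u a i j * B a i j = 0) :
    (∀ a s, qfun (B a) (Q s) = 0) ∧ (∀ a m, 2 * ∑ i, B a m i * Q a i - B a m m = 0) ∧
      (∀ j m, ∑ a, Q a m * (∑ i, B a j i * Q a i - B a j m) = 0) := by
  have hone : ∀ (s : Fin r) (i j : Fin n), ∑ m, Q s m * (1 : Matrix (Fin n) (Fin n) k) i m *
      (1 : Matrix (Fin n) (Fin n) k) j m = if i = j then Q s i else 0 := by
    intro s i j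
    simp only [Matrix.one_apply, mul_ite, mul_one, mul_zero, Finset.sum_ite_eq, Finset.mem_univ,
      if_true]
    split_ifs with h1
    · rw [h1]
    · rfl
  refine ⟨fun a s => ?_, fun a m => ?_, fun j₀ m₀ => ?_⟩
  · have h1 := h (Matrix.of fun x y => if x = a then (if y = s then 1 else 0) else 0, 0, 0)
    have h2 : ∀ a' i j, tanMap Q (Matrix.of fun x y => if x = a then (if y = s then 1 else 0) else 0,
        0, 0) a' i j = if a' = a then (Q s i * Q s j - if i = j then Q s i else 0) else 0 := by
      intro a' i j
      simp only [tanMap, LinearMap.coe_mk, AddHom.coe_mk, hone, Matrix.of_apply, Matrix.zero_apply,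
        Pi.zero_apply]
      by_cases h : a' = a
      · simp [h]
      · simp [h]
    simp only [h2] at h1
    rw [Finset.sum_eq_single a] at h1
    · simp only [if_true, sub_mul, ite_mul, zero_mul, Finset.sum_sub_distrib, Finset.sum_ite_eq,
        Finset.mem_univ] at h1
      rw [qfun, ← h1]
      congr 1
      · exact Finset.sum_congr rfl fun i _ => Finset.sum_congr rfl fun j _ => mul_comm _ _
      · exact Finset.sum_congr rfl fun i _ => mul_comm _ _
    · intro b _ hb
      simp [hb]
    · simp
  · have h1 := h (0, 0, fun x y => if x = a then (if y = m then 1 else 0) else 0)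
    have h2 : ∀ a' i j, tanMap Q (0, 0, fun x y => if x = a then (if y = m then 1 else 0) else 0)
        a' i j = if a' = a then ((if i = m then Q a j else 0) + (if j = m then Q a i else 0) -
          (if i = m then (if j = m then 1 else 0) else 0)) else 0 := by
      intro a' i j
      simp only [tanMap, LinearMap.coe_mk, AddHom.coe_mk, Matrix.zero_apply]
      have hs : ∑ x, (if x = m then 1 else 0) * (1 : Matrix (Fin n) (Fin n) k) i x *
          (1 : Matrix (Fin n) (Fin n) k) j x = if i = m then (if j = m then 1 else 0) else 0 := by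
        rw [Finset.sum_eq_single m]
        · simp only [Matrix.one_apply, if_true]
          split_ifs <;> simp
        · intro b _ hb
          simp [hb]
        · simp
      by_cases h : a' = a
      · subst h
        simp only [if_true, zero_mul, Finset.sum_const_zero, zero_add, mul_zero, add_zero, hs]
        split_ifs <;> simp
      · simp [h]
    simp only [h2] at h1
    rw [Finset.sum_eq_single a] at h1
    · simp only [if_true, sub_mul, add_mul, ite_mul, zero_mul, one_mul, Finset.sum_sub_distrib,
        Finset.sum_add_distrib] at h1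
      rw [Finset.sum_eq_single m] at h1
      · simp only [if_true, Finset.sum_ite_eq', Finset.mem_univ] at h1
        have h3 : ∑ i, ∑ j, (if i = m then if j = m then B a i j else 0 else 0) = B a m m := by
          rw [Finset.sum_eq_single m]
          · simp
          · intro b _ hb; simp [hb]
          · simp
        rw [h3] at h1
        rw [← h1, two_mul]
        congr 1
        congr 1
        · exact Finset.sum_congr rfl fun i _ => by ring
        · exact Finset.sum_congr rfl fun i _ => by rw [hB a m i]; ring
      · intro b _ hb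
        simp [hb]
      · simp
    · intro b _ hb
      simp [hb]
    · simp
  · have h1 := h (0, Matrix.of fun x y => if x = j₀ then (if y = m₀ then 1 else 0) else 0, 0)
    have h2 : ∀ a i j, tanMap Q (0, Matrix.of fun x y => if x = j₀ then (if y = m₀ then 1 else 0)
        else 0, 0) a i j = (if i = j₀ then Q a m₀ * Q a j else 0) +
          (if j = j₀ then Q a i * Q a m₀ else 0) -
          ((if i = j₀ then (if j = m₀ then Q a m₀ else 0) else 0) +
          (if j = j₀ then (if i = m₀ then Q a m₀ else 0) else 0)) := by
      intro a i j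
      simp only [tanMap, LinearMap.coe_mk, AddHom.coe_mk, Matrix.zero_apply, Matrix.of_apply,
        Pi.zero_apply, zero_mul, Finset.sum_const_zero, zero_add, add_zero]
      have s1 : ∀ i j, ∑ m, Q a m * (if i = j₀ then (if m = m₀ then 1 else 0) else 0) *
          (1 : Matrix (Fin n) (Fin n) k) j m =
          if i = j₀ then (if j = m₀ then Q a m₀ else 0) else 0 := by
        intro i j
        rw [Finset.sum_eq_single m₀]
        · simp only [Matrix.one_apply, if_true]
          split_ifs <;> simp
        · intro b _ hb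
          simp [hb]
        · simp
      have s2 : ∀ i j, ∑ m, Q a m * (1 : Matrix (Fin n) (Fin n) k) i m *
          (if j = j₀ then (if m = m₀ then 1 else 0) else 0) =
          if j = j₀ then (if i = m₀ then Q a m₀ else 0) else 0 := by
        intro i j
        rw [← s1 j i]
        exact Finset.sum_congr rfl fun m _ => by ring
      have s3 : ∀ i, ∑ m, (if i = j₀ then (if m = m₀ then 1 else 0) else 0) * Q a m =
          if i = j₀ then Q a m₀ else 0 := by
        intro i
        by_cases h : i = j₀ <;> simp [h]
      rw [Finset.sum_add_distrib, s1, s2, s3, s3]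
      split_ifs <;> simp
    simp only [h2] at h1
    simp only [sub_mul, add_mul, ite_mul, zero_mul, Finset.sum_sub_distrib,
      Finset.sum_add_distrib, Finset.sum_ite_eq', Finset.mem_univ, if_true] at h1
    have e1 : ∀ a, ∑ i, ∑ j, (if i = j₀ then Q a m₀ * Q a j * B a i j else 0) =
        Q a m₀ * ∑ i, B a j₀ i * Q a i := by
      intro a
      rw [Finset.sum_eq_single j₀]
      · simp only [if_true, Finset.mul_sum]
        exact Finset.sum_congr rfl fun i _ => by ring
      · intro b _ hb; simp [hb]
      · simp
    have e2 : ∀ a, ∑ i, ∑ j, (if i = j₀ then if j = m₀ then Q a m₀ * B a i j else 0 else 0) =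
        Q a m₀ * B a j₀ m₀ := by
      intro a
      rw [Finset.sum_eq_single j₀]
      · simp
      · intro b _ hb; simp [hb]
      · simp
    have e3 : ∀ a, ∑ i, Q a i * Q a m₀ * B a i j₀ = Q a m₀ * ∑ i, B a j₀ i * Q a i := by
      intro a
      rw [Finset.mul_sum]
      exact Finset.sum_congr rfl fun i _ => by rw [hB a i j₀]; ring
    simp only [e1, e2, e3, hB _ m₀ j₀] at h1
    have h3 : 2 * ∑ a, Q a m₀ * (∑ i, B a j₀ i * Q a i - B a j₀ m₀) = 0 := by
      rw [← h1]
      simp only [mul_sub, Finset.sum_sub_distrib]
      ring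
    exact (mul_eq_zero.1 h3).resolve_left two_ne_zero

/-- The infinitesimal criterion for the standard frame. -/
theorem VC_subset_of_DC_std [CharZero k] (Q : Fin r → Fin n → k)
    (hP : Function.Injective (stdPts Q)) (hDC : DC (stdPts Q)) :
    VC n (1 + n + r) k ⊆ Smoothable n (1 + n + r) k := by
  classical
  refine VC_subset_of_tanMap Q hP fun δ hδ => ?_
  by_contra hcon
  have hnot : δ ∉ LinearMap.range (tanMap Q) := fun ⟨u, hu⟩ => hcon ⟨u, hu⟩
  obtain ⟨φ, hφδ, hφ⟩ := Submodule.exists_dual_map_eq_bot_of_notMem hnot inferInstance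
  have hφ0 : ∀ u, φ (tanMap Q u) = 0 := by
    intro u
    have : φ (tanMap Q u) ∈ (LinearMap.range (tanMap Q)).map φ := ⟨_, ⟨u, rfl⟩, rfl⟩
    rw [hφ] at this
    exact (Submodule.mem_bot k).1 this
  let w : Fin r → Fin n → Fin n → k := fun a i j =>
    φ (Pi.single a (Pi.single i (Pi.single j 1)))
  have hw : ∀ y, φ y = ∑ a, ∑ i, ∑ j, y a i j * w a i j := by
    intro y
    have hy : y = ∑ a, ∑ i, ∑ j, y a i j •
        (Pi.single a (Pi.single i (Pi.single j 1)) : Fin r → Fin n → Fin n → k) := by
      funext a' i' j'
      simp only [Finset.sum_apply, Pi.smul_apply, smul_eq_mul]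
      rw [Finset.sum_eq_single a', Finset.sum_eq_single i', Finset.sum_eq_single j']
      · simp
      · intro b _ hb
        simp [hb.symm]
      · simp
      · intro b _ hb
        refine Finset.sum_eq_zero fun c _ => ?_
        simp [hb.symm]
      · simp
      · intro b _ hb
        refine Finset.sum_eq_zero fun c _ => Finset.sum_eq_zero fun c' _ => ?_
        simp [hb.symm]
      · simp
    conv_lhs => rw [hy]
    simp only [map_sum, map_smul, smul_eq_mul]
    rfl
  let B : Fin r → Fin n → Fin n → k := fun a i j => 2⁻¹ * (w a i j + w a j i)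
  have hB : ∀ a i j, B a i j = B a j i := fun a i j => by simp only [B]; ring
  have hBy : ∀ y : Fin r → Fin n → Fin n → k, (∀ a i j, y a i j = y a j i) →
      φ y = ∑ a, ∑ i, ∑ j, y a i j * B a i j := by
    intro y hy
    rw [hw]
    refine Finset.sum_congr rfl fun a _ => ?_
    have h1 : ∑ i, ∑ j, y a i j * w a j i = ∑ i, ∑ j, y a i j * w a i j := by
      rw [Finset.sum_comm]
      exact Finset.sum_congr rfl fun i _ => Finset.sum_congr rfl fun j _ => by rw [hy a j i]
    have h2 : ∑ i, ∑ j, y a i j * B a i j =
        2⁻¹ * (∑ i, ∑ j, y a i j * w a i j + ∑ i, ∑ j, y a i j * w a j i) := by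
      simp only [B, mul_add, Finset.sum_add_distrib, Finset.mul_sum]
      congr 1 <;>
        exact Finset.sum_congr rfl fun i _ => Finset.sum_congr rfl fun j _ => by ring
    rw [h2, h1, ← two_mul, ← mul_assoc, inv_mul_cancel₀ two_ne_zero, one_mul]
  obtain ⟨c1, c2, c3⟩ := pairing_conditions Q B hB fun u => by
    rw [← hBy _ fun a i j => tanMap_symm Q u a i j, hφ0]
  have c3' : ∀ j m, ∑ a, Q a m * (B a j j - 2 * B a j m) = 0 := by
    intro j m
    have h1 : ∀ a, Q a m * (B a j j - 2 * B a j m) =
        2 * (Q a m * (∑ i, B a j i * Q a i - B a j m)) := by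
      intro a
      have := c2 a j
      rw [sub_eq_zero] at this
      rw [← this]; ring
    simp only [h1, ← Finset.mul_sum, c3, mul_zero]
  have c4 : ∀ j, ∑ a, (1 - ∑ m, Q a m) * B a j j = 0 := by
    intro j
    have h1 : ∑ a, (∑ m, Q a m) * B a j j = ∑ a, B a j j := by
      have e1 : ∑ a, (∑ m, Q a m) * B a j j = ∑ m, ∑ a, Q a m * B a j j := by
        simp only [Finset.sum_mul]
        rw [Finset.sum_comm]
      have e2 : ∀ m, ∑ a, Q a m * B a j j = ∑ a, 2 * (B a j m * Q a m) := by
        intro m
        have := c3' j m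
        simp only [mul_sub, Finset.sum_sub_distrib] at this
        rw [sub_eq_zero] at this
        rw [this]
        exact Finset.sum_congr rfl fun a _ => by ring
      rw [e1]
      simp only [e2]
      rw [Finset.sum_comm]
      refine Finset.sum_congr rfl fun a _ => ?_
      have := c2 a j
      rw [sub_eq_zero] at this
      rw [← this, Finset.mul_sum]
    simp only [sub_mul, one_mul, Finset.sum_sub_distrib, h1, sub_self]
  -- the syzygy
  let ξ : Unit ⊕ Fin n ⊕ Fin r → (Fin n → k) → k := fun l x => match l with
    | Sum.inl _ => ∑ a, (-(1 - ∑ m, Q a m)) * qfun (B a) x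
    | Sum.inr (Sum.inl m) => ∑ a, (- Q a m) * qfun (B a) x
    | Sum.inr (Sum.inr s) => qfun (B s) x
  have hvan : ∀ a l, qfun (B a) (stdPts Q l) = 0 := by
    intro a l
    rcases l with ⟨⟩ | m | s
    · exact qfun_zero _
    · exact qfun_single _ _
    · exact c1 a s
  have hdiff : ∀ a (x v : Fin n → k), qfun (B a) (x + v) = qfun (B a) (x - v) +
      2 * ∑ j, v j * (2 * ∑ i, B a j i * x i - B a j j) := by
    intro a x v
    rw [← qfun_add_sub (B a) (hB a) x v]; ring
  have hξ := hDC ξ (by
      intro l
      rcases l with ⟨⟩ | m | s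
      · exact IsQuad.sum _ fun a => (qfun_isQuad (B a)).smul _
      · exact IsQuad.sum _ fun a => (qfun_isQuad (B a)).smul _
      · exact qfun_isQuad (B s)) (by
      intro l m
      rcases l with ⟨⟩ | m | s <;> simp [ξ, hvan]) (by
      intro l v
      rcases l with ⟨⟩ | m | s
      · simp only [ξ, hdiff, mul_add, Finset.sum_add_distrib]
        have : ∑ a, -(1 - ∑ m, Q a m) * (2 * ∑ j, v j * (2 * ∑ i, B a j i *
            stdPts Q (Sum.inl ()) i - B a j j)) =
            2 * ∑ j, v j * ∑ a, (1 - ∑ m, Q a m) * B a j j := by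
          simp only [stdPts, Pi.zero_apply, mul_zero, Finset.sum_const_zero, zero_sub,
            Finset.mul_sum]
          rw [Finset.sum_comm]
          exact Finset.sum_congr rfl fun j _ => Finset.sum_congr rfl fun a _ => by ring
        rw [this]
        simp [c4]
      · simp only [ξ, hdiff, mul_add, Finset.sum_add_distrib]
        have : ∑ a, -Q a m * (2 * ∑ j, v j * (2 * ∑ i, B a j i *
            stdPts Q (Sum.inr (Sum.inl m)) i - B a j j)) =
            2 * ∑ j, v j * ∑ a, Q a m * (B a j j - 2 * B a j m) := by
          have h1 : ∀ a j, ∑ i, B a j i * stdPts Q (Sum.inr (Sum.inl m)) i = B a j m := by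
            intro a j
            simp [stdPts, Pi.single_apply]
          simp only [h1, Finset.mul_sum]
          rw [Finset.sum_comm]
          exact Finset.sum_congr rfl fun j _ => Finset.sum_congr rfl fun a _ => by ring
        rw [this]
        simp [c3']
      · simp only [ξ, hdiff, stdPts, c2, mul_zero, Finset.sum_const_zero, add_zero]) (by
      intro x
      rw [Fintype.sum_sum_type, Fintype.sum_sum_type]
      simp only [ξ, Finset.univ_unique, Finset.sum_singleton]
      rw [Finset.sum_comm]
      simp only [← Finset.sum_mul, Finset.sum_neg_distrib]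
      rw [← Finset.sum_add_distrib, ← Finset.sum_add_distrib]
      exact Finset.sum_eq_zero fun a _ => by ring) (by
      intro x i
      rw [Fintype.sum_sum_type, Fintype.sum_sum_type]
      simp only [ξ, stdPts, Pi.zero_apply, zero_mul, Finset.sum_const_zero, zero_add,
        Pi.single_apply, ite_mul, one_mul]
      simp [Finset.sum_neg_distrib])
  have hB0 : ∀ a i j, B a i j = 0 := by
    intro a i j
    have h1 : ∀ x, qfun (B a) x = 0 := fun x => hξ (Sum.inr (Sum.inr a)) x
    have h2 : qfun (B a) (Pi.single i 1 + Pi.single j 1) = B a i j + B a j i := by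
      have e1 : ∀ (x y : Fin n → k), qfun (B a) (x + y) = qfun (B a) x + qfun (B a) y +
          ∑ i, ∑ j, B a i j * (x i * y j) + ∑ i, ∑ j, B a i j * (y i * x j) := by
        intro x y
        simp only [qfun, Pi.add_apply, Finset.sum_add_distrib, mul_add, add_mul]
        ring
      rw [e1, qfun_single, qfun_single]
      have e2 : ∀ i j : Fin n, ∑ i', ∑ j', B a i' j' * ((Pi.single i 1 : Fin n → k) i' *
          (Pi.single j 1 : Fin n → k) j') = B a i j := by
        intro i j
        rw [Finset.sum_eq_single i, Finset.sum_eq_single j]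
        · simp
        · intro b _ hb; simp [hb]
        · simp
        · intro b _ hb
          refine Finset.sum_eq_zero fun c _ => ?_
          simp [hb]
        · simp
      rw [e2, e2]
      ring
    rw [h1, hB a j i, ← two_mul] at h2
    exact (mul_eq_zero.1 h2.symm).resolve_left two_ne_zero
  apply hφδ
  rw [hBy δ hδ]
  simp [hB0]

end Pool.Agent.HilbPts
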