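import Pool.Agent.HilbPts.Basic

set_option autoImplicit false

namespace Pool.Agent.HilbPts

open MvPolynomial TopologicalSpace Topology

variable {n d : ℕ} {k : Type*} [Field k]

theorem sub_C_eval_mem (p : Fin n → k) (g : MvPolynomial (Fin n) k) :
    g - C (eval p g) ∈ maxIdealAt p := by
  induction g using MvPolynomial.induction_on with
  | C a => simp
  | add f g hf hg =>
    have : f + g - C (eval p (f + g)) = (f - C (eval p f)) + (g - C (eval p g)) := by
      rw [map_add, C_add]; ring
    rw [this]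
    exact Ideal.add_mem _ hf hg
  | mul_X f i hf =>
    have : f * X i - C (eval p (f * X i)) =
        X i * (f - C (eval p f)) + C (eval p f) * (X i - C (p i)) := by
      rw [map_mul, eval_X, C_mul]; ring
    rw [this]
    exact Ideal.add_mem _ (Ideal.mul_mem_left _ _ hf)
      (Ideal.mul_mem_left _ _ (Ideal.subset_span ⟨i, rfl⟩))

/-- The data of a one-parameter deformation of an ideal `I`. -/
structure DefData (I : Ideal (MvPolynomial (Fin n) k)) (p : Fin n → k) where
  lam : MvPolynomial (Fin n) k →ₗ[k] k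
  q : MvPolynomial (Fin n) k
  h1 : ∀ g ∈ maxIdealAt p, ∀ f ∈ I, lam (g * f) = 0
  h2 : ∀ g ∈ maxIdealAt p, lam (g * q) = 0
  h3 : ∀ g ∈ maxIdealAt p, g * q ∈ I
  h4 : ∃ c ∈ I, lam c = 1

variable {I : Ideal (MvPolynomial (Fin n) k)} {p : Fin n → k}

/-- The map `f ↦ f + t λ(f) q` to the quotient by `I`. -/
noncomputable def DefData.proj (D : DefData I p) (t : k) :
    MvPolynomial (Fin n) k →ₗ[k] (MvPolynomial (Fin n) k ⧸ I) :=
  (Ideal.Quotient.mkₐ k I).toLinearMap + (t • D.lam).smulRight (Ideal.Quotient.mk I D.q)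

theorem DefData.proj_apply (D : DefData I p) (t : k) (f : MvPolynomial (Fin n) k) :
    D.proj t f = Ideal.Quotient.mk I f + (t * D.lam f) • Ideal.Quotient.mk I D.q := by
  simp [DefData.proj]

theorem DefData.proj_eq_zero_iff (D : DefData I p) (t : k) (f : MvPolynomial (Fin n) k) :
    D.proj t f = 0 ↔ f + (t * D.lam f) • D.q ∈ I := by
  rw [D.proj_apply, ← Ideal.Quotient.eq_zero_iff_mem, map_add]
  have hs : Ideal.Quotient.mk I ((t * D.lam f) • D.q) =
      (t * D.lam f) • Ideal.Quotient.mk I D.q := map_smul (Ideal.Quotient.mkₐ k I) _ _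
  rw [hs]

/-- The deformed ideal. -/
noncomputable def DefData.ideal (D : DefData I p) (t : k) : Ideal (MvPolynomial (Fin n) k) where
  carrier := {f | D.proj t f = 0}
  add_mem' := by
    intro a b ha hb
    simp only [Set.mem_ofPred_eq] at *
    rw [map_add, ha, hb, add_zero]
  zero_mem' := by simp
  smul_mem' := by
    intro g f hf
    simp only [Set.mem_ofPred_eq, smul_eq_mul] at *
    have key : ∀ g ∈ maxIdealAt p, D.proj t (g * f) = 0 := by
      intro g hg
      rw [D.proj_eq_zero_iff] at hf ⊢
      have e : g * f = g * (f + (t * D.lam f) • D.q) - (t * D.lam f) • (g * D.q) := by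
        rw [mul_add, mul_smul_comm]; ring
      have l0 : D.lam (g * f) = 0 := by
        rw [e, map_sub, D.h1 g hg _ hf, map_smul, D.h2 g hg]
        simp
      rw [l0, mul_zero, zero_smul, add_zero, e]
      refine Ideal.sub_mem _ (Ideal.mul_mem_left _ _ hf) ?_
      exact Submodule.smul_of_tower_mem I _ (D.h3 g hg)
    have : g * f = (g - C (eval p g)) * f + (eval p g) • f := by
      rw [MvPolynomial.smul_eq_C_mul]; ring
    rw [this, map_add, key _ (sub_C_eval_mem p g), map_smul, hf, smul_zero, add_zero]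

theorem DefData.mem_ideal (D : DefData I p) (t : k) (f : MvPolynomial (Fin n) k) :
    f ∈ D.ideal t ↔ f + (t * D.lam f) • D.q ∈ I := D.proj_eq_zero_iff t f

/-- Every class has a representative killed by `λ`. -/
theorem DefData.exists_rep (D : DefData I p) (a : MvPolynomial (Fin n) k ⧸ I) :
    ∃ f : MvPolynomial (Fin n) k, Ideal.Quotient.mk I f = a ∧ D.lam f = 0 := by
  obtain ⟨f, rfl⟩ := Ideal.Quotient.mk_surjective a
  obtain ⟨c, hc, hc1⟩ := D.h4
  refine ⟨f - D.lam f • c, ?_, ?_⟩
  · rw [Ideal.Quotient.mk_eq_mk_iff_sub_mem]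
    have : f - D.lam f • c - f = - (D.lam f • c) := by ring
    rw [this]
    exact Ideal.neg_mem_iff _ |>.2 (Submodule.smul_of_tower_mem I _ hc)
  · rw [map_sub, map_smul, hc1]; simp

theorem DefData.proj_surjective (D : DefData I p) (t : k) : Function.Surjective (D.proj t) := by
  intro a
  obtain ⟨f, hf, h0⟩ := D.exists_rep a
  refine ⟨f, ?_⟩
  rw [D.proj_apply, h0, hf]; simp

/-- The quotient by the deformed ideal is identified with the quotient by `I`. -/
noncomputable def DefData.equiv (D : DefData I p) (t : k) :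
    (MvPolynomial (Fin n) k ⧸ D.ideal t) ≃ₗ[k] (MvPolynomial (Fin n) k ⧸ I) :=
  (Submodule.Quotient.restrictScalarsEquiv k (D.ideal t)).symm ≪≫ₗ
    Submodule.quotEquivOfEq _ _ (by
      ext f
      simp [DefData.ideal]) ≪≫ₗ
    (D.proj t).quotKerEquivOfSurjective (D.proj_surjective t)

theorem DefData.equiv_mk (D : DefData I p) (t : k) (f : MvPolynomial (Fin n) k) :
    D.equiv t (Ideal.Quotient.mk _ f) = D.proj t f := rfl

/-- The deformation of a presentation: its coordinates are affine-linear in the parameter. -/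
theorem exists_family (P : Pres n d k) {p : Fin n → k} (D : DefData P.ideal p) :
    ∃ c : (Fin n × Fin d × Fin d) ⊕ Fin d → k, ∀ t : k, ∃ Pt : Pres n d k,
      Pt.ideal = D.ideal t ∧ Pt.coord = fun s => P.coord s + t * c s := by
  choose rep hrep hrep0 using D.exists_rep
  refine ⟨fun s => match s with
    | Sum.inl (i, a, b) =>
        D.lam (X i * rep (P.basis.symm (Pi.single b 1))) * P.basis (Ideal.Quotient.mk _ D.q) a
    | Sum.inr a => D.lam 1 * P.basis (Ideal.Quotient.mk _ D.q) a, fun t => ?_⟩
  refine ⟨⟨D.ideal t, D.equiv t ≪≫ₗ P.basis⟩, rfl, ?_⟩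
  funext s
  rcases s with ⟨i, a, b⟩ | a
  · have h : (D.equiv t ≪≫ₗ P.basis).symm (Pi.single b 1) =
        Ideal.Quotient.mk _ (rep (P.basis.symm (Pi.single b 1))) := by
      rw [LinearEquiv.symm_apply_eq, LinearEquiv.trans_apply, D.equiv_mk, D.proj_apply, hrep0,
        hrep]
      simp
    simp only [Pres.coord]
    rw [h, ← map_mul, LinearEquiv.trans_apply, D.equiv_mk, D.proj_apply, map_mul, hrep, map_add,
      map_smul]
    simp only [Pi.add_apply, Pi.smul_apply, smul_eq_mul]
    ring
  · simp only [Pres.coord]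
    rw [← map_one (Ideal.Quotient.mk (D.ideal t)), LinearEquiv.trans_apply, D.equiv_mk,
      D.proj_apply, map_one, map_add, map_smul]
    simp only [Pi.add_apply, Pi.smul_apply, smul_eq_mul]
    ring

end Pool.Agent.HilbPts
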