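import Mathlib

/-!
# The Hilbert scheme of points of affine space, as a topological space

For an algebraically closed field `k` we describe the set of `k`-points of `Hilb_d(A^n)`
(the ideals `I` of `k[x_1, ..., x_n]` with `dim_k k[x]/I = d`) with its Zariski topology.

A *presentation* is such an ideal together with a `k`-basis of `k[x]/I`; its coordinates are the
entries of the `n` commuting `d × d` matrices of multiplication by `x_1, ..., x_n` and of the vector
of `1`.  The presentations are the points of the quasi-affine variety of pairs
(`n` commuting matrices, cyclic vector), and `Hilb_d(A^n)` is its quotient by the change of basis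
group `GL_d`; the Zariski topology of the Hilbert scheme is the quotient topology.
-/

set_option autoImplicit false

namespace Pool.Agent.HilbPts

open MvPolynomial

/-- The Zariski topology on affine space `k^σ`: the closed sets are the common zero sets of
sets of polynomials. -/
@[reducible] def zariski (σ k : Type*) [Field k] : TopologicalSpace (σ → k) :=
  TopologicalSpace.ofClosed
    {Z | ∃ P : Set (MvPolynomial σ k), Z = {x | ∀ p ∈ P, MvPolynomial.eval x p = 0}}
    ⟨{1}, by ext x; simp⟩
    (by
      intro A hA
      have hA' : ∀ Z : Set (σ → k), ∃ P : Set (MvPolynomial σ k),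
          Z ∈ A → Z = {x | ∀ p ∈ P, MvPolynomial.eval x p = 0} := fun Z => by
        by_cases hZ : Z ∈ A
        · obtain ⟨P, hP⟩ := hA hZ
          exact ⟨P, fun _ => hP⟩
        · exact ⟨∅, fun h => absurd h hZ⟩
      choose P hP using hA'
      refine ⟨⋃ Z ∈ A, P Z, ?_⟩
      ext x
      simp only [Set.mem_sInter, Set.mem_iUnion, Set.mem_ofPred_eq]
      constructor
      · rintro h p ⟨Z, hZ, hp⟩
        have := h Z hZ
        rw [hP Z hZ] at this
        exact this p hp
      · intro h Z hZ
        rw [hP Z hZ]
        intro p hp
        exact h p ⟨Z, hZ, hp⟩)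
    (by
      rintro _ ⟨P, rfl⟩ _ ⟨Q, rfl⟩
      refine ⟨{f | ∃ p ∈ P, ∃ q ∈ Q, f = p * q}, ?_⟩
      ext x
      simp only [Set.mem_union, Set.mem_ofPred_eq]
      constructor
      · rintro (h | h) f ⟨p, hp, q, hq, rfl⟩
        · rw [map_mul, h p hp, zero_mul]
        · rw [map_mul, h q hq, mul_zero]
      · intro h
        by_contra hcon
        push Not at hcon
        obtain ⟨⟨p, hp, hpx⟩, ⟨q, hq, hqx⟩⟩ := hcon
        have := h (p * q) ⟨p, hp, q, hq, rfl⟩
        rw [map_mul] at this
        exact (mul_ne_zero hpx hqx) this)

/-- A presentation of a length `d` subscheme of `A^n`: an ideal of `k[x_1, ..., x_n]` together with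
a `k`-basis of the quotient, given as a linear isomorphism of the quotient with `k^d`. -/
structure Pres (n d : ℕ) (k : Type*) [Field k] where
  /-- the ideal of the subscheme -/
  ideal : Ideal (MvPolynomial (Fin n) k)
  /-- the basis of the coordinate ring of the subscheme -/
  basis : (MvPolynomial (Fin n) k ⧸ ideal) ≃ₗ[k] (Fin d → k)

/-- The coordinates of a presentation: the `(a, b)` entry of the matrix of multiplication by `x_i`
on the quotient (index `inl (i, a, b)`), and the `a`-th coordinate of `1` (index `inr a`). -/
noncomputable def Pres.coord {n d : ℕ} {k : Type*} [Field k] (P : Pres n d k) :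
    (Fin n × Fin d × Fin d) ⊕ Fin d → k
  | Sum.inl (i, a, b) =>
      P.basis (Ideal.Quotient.mk P.ideal (X i) * P.basis.symm (Pi.single b 1)) a
  | Sum.inr a => P.basis 1 a

/-- The set of `k`-points of the Hilbert scheme `Hilb_d(A^n)`: the ideals of `k[x_1, ..., x_n]`
whose quotient has dimension `d` over `k`. -/
def Hilb (n d : ℕ) (k : Type*) [Field k] : Type _ :=
  {I : Ideal (MvPolynomial (Fin n) k) //
    Nonempty ((MvPolynomial (Fin n) k ⧸ I) ≃ₗ[k] (Fin d → k))}

/-- The point of the Hilbert scheme given by a presentation (forget the basis). -/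
def Pres.toHilb {n d : ℕ} {k : Type*} [Field k] (P : Pres n d k) : Hilb n d k :=
  ⟨P.ideal, ⟨P.basis⟩⟩

/-- The Zariski topology of `Hilb_d(A^n)`: the quotient topology of the Zariski topology on the
space of presentations (commuting matrices with a cyclic vector) under forgetting the basis. -/
noncomputable instance (n d : ℕ) (k : Type*) [Field k] : TopologicalSpace (Hilb n d k) :=
  TopologicalSpace.coinduced Pres.toHilb
    (TopologicalSpace.induced Pres.coord (zariski ((Fin n × Fin d × Fin d) ⊕ Fin d) k))

/-- The maximal ideal `(x_1 - p_1, ..., x_n - p_n)` of the point `p`. -/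
noncomputable def maxIdealAt {n : ℕ} {k : Type*} [Field k] (p : Fin n → k) :
    Ideal (MvPolynomial (Fin n) k) :=
  Ideal.span (Set.range fun i => X i - C (p i))

/-- The locus `VC_{n,d}` of very compressed algebras: the ideals `I` of colength `d` with
`m_p ^ 3 ⊆ I ⊆ m_p ^ 2` for some point `p`, where `m_p` is the maximal ideal of `p`.  For
`d = 1 + n + r` these are the quotients supported at a single point with Hilbert function
`(1, n, r)`. -/
def VC (n d : ℕ) (k : Type*) [Field k] : Set (Hilb n d k) :=
  {I | ∃ p : Fin n → k, maxIdealAt p ^ 3 ≤ I.1 ∧ I.1 ≤ maxIdealAt p ^ 2}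

/-- The smoothable component: the closure of the locus of radical ideals (that is, of the ideals of
`d` distinct reduced points). -/
def Smoothable (n d : ℕ) (k : Type*) [Field k] : Set (Hilb n d k) :=
  closure {I | I.1.IsRadical}

end Pool.Agent.HilbPts
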