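import Pool.Agent.HilbPts.VCPres

set_option autoImplicit false

namespace Pool.Agent.HilbPts

open MvPolynomial Matrix

variable {n r : ℕ} {k : Type*} [Field k]

theorem eval_mul_homog {σ : Type*} {φ : MvPolynomial σ k} {m : ℕ} (h : φ.IsHomogeneous m) (μ : k)
    (y : σ → k) : eval (fun x => μ * y x) φ = μ ^ m * eval y φ := by
  rw [eval_eq, eval_eq, Finset.mul_sum]
  refine Finset.sum_congr rfl fun d hd => ?_
  have h1 : ∑ i ∈ d.support, d i = m := by
    have := h (mem_support_iff.1 hd)
    rw [← this]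
    simp [Finsupp.weight_apply, Finsupp.sum]
  simp only [mul_pow, Finset.prod_mul_distrib, Finset.prod_pow_eq_pow_sum, h1]
  ring

/-- If a polynomial vanishes on a cone then so do its homogeneous components. -/
theorem homog_of_cone [Infinite k] {σ : Type*} (H : MvPolynomial σ k) (y : σ → k)
    (h : ∀ μ : k, eval (fun x => μ * y x) H = 0) (j : ℕ) :
    eval y (homogeneousComponent j H) = 0 := by
  let p : Polynomial k := ∑ j ∈ Finset.range (H.totalDegree + 1),
    Polynomial.C (eval y (homogeneousComponent j H)) * Polynomial.X ^ j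
  have hp : p = 0 := by
    refine Polynomial.funext fun μ => ?_
    rw [Polynomial.eval_zero, ← h μ]
    conv_rhs => rw [← sum_homogeneousComponent H, map_sum]
    simp only [p, Polynomial.eval_finsetSum, Polynomial.eval_mul, Polynomial.eval_C,
      Polynomial.eval_pow, Polynomial.eval_X]
    refine Finset.sum_congr rfl fun j _ => ?_
    rw [eval_mul_homog (homogeneousComponent_isHomogeneous j H), mul_comm]
  by_cases hj : j < H.totalDegree + 1
  · have h2 : p.coeff j = 0 := by rw [hp, Polynomial.coeff_zero]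
    simp only [p, Polynomial.finsetSum_coeff, Polynomial.coeff_C_mul, Polynomial.coeff_X_pow,
      mul_ite, mul_one, mul_zero] at h2
    rw [Finset.sum_ite_eq] at h2
    simpa [hj] using h2
  · rw [homogeneousComponent_eq_zero _ _ (by lia), map_zero]

/-- The monomials `1`, `x_i` and chosen quadratic monomials. -/
noncomputable def mon {R : Type*} [CommSemiring R] (b : Fin r → Fin n × Fin n) :
    Unit ⊕ Fin n ⊕ Fin r → MvPolynomial (Fin n) R
  | Sum.inl _ => 1
  | Sum.inr (Sum.inl i) => X i
  | Sum.inr (Sum.inr s) => X (b s).1 * X (b s).2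

/-- Evaluations of the monomials. -/
def monVal {R : Type*} [CommSemiring R] (b : Fin r → Fin n × Fin n) (p : Fin n → R) :
    Unit ⊕ Fin n ⊕ Fin r → R
  | Sum.inl _ => 1
  | Sum.inr (Sum.inl i) => p i
  | Sum.inr (Sum.inr s) => p (b s).1 * p (b s).2

theorem eval_mon (b : Fin r → Fin n × Fin n) (p : Fin n → k) (c : Unit ⊕ Fin n ⊕ Fin r) :
    eval p (mon b c) = monVal b p c := by
  rcases c with c | i | s <;> simp [mon, monVal]

/-- The matrix of values of the monomials at points. -/
def evMat {R : Type*} [CommRing R] (b : Fin r → Fin n × Fin n)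
    (P : Unit ⊕ Fin n ⊕ Fin r → Fin n → R) :
    Matrix (Unit ⊕ Fin n ⊕ Fin r) (Unit ⊕ Fin n ⊕ Fin r) R :=
  Matrix.of fun l c => monVal b (P l) c

theorem det_evMat_map {R S : Type*} [CommRing R] [CommRing S] (f : R →+* S)
    (b : Fin r → Fin n × Fin n) (P : Unit ⊕ Fin n ⊕ Fin r → Fin n → R) :
    f (evMat b P).det = (evMat b fun l i => f (P l i)).det := by
  rw [RingHom.map_det]
  congr 1
  ext l c
  rcases c with c | i | s <;> simp [evMat, monVal]

theorem det_evMat_mul {R : Type*} [CommRing R] (b : Fin r → Fin n × Fin n)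
    (P : Unit ⊕ Fin n ⊕ Fin r → Fin n → R) (μ : R) :
    (evMat b fun l i => μ * P l i).det = μ ^ (n + 2 * r) * (evMat b P).det := by
  have h1 : (evMat b fun l i => μ * P l i) = Matrix.of fun l c =>
      (Sum.elim (fun _ => 1) (Sum.elim (fun _ => μ) fun _ => μ ^ 2) :
        Unit ⊕ Fin n ⊕ Fin r → R) c * evMat b P l c := by
    ext l c
    rcases c with c | i | s
    · simp [evMat, monVal]
    · simp [evMat, monVal]
    · simp [evMat, monVal]; ring
  rw [h1, Matrix.det_mul_row, Fintype.prod_sum_type, Fintype.prod_sum_type]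
  simp
  ring

theorem det_evMat_sub {R : Type*} [CommRing R] (b : Fin r → Fin n × Fin n)
    (P : Unit ⊕ Fin n ⊕ Fin r → Fin n → R) (τ : Fin n → R) :
    (evMat b fun l i => P l i - τ i).det = (evMat b P).det := by
  let B' : Matrix (Fin n) (Fin r) R := Matrix.of fun j s =>
    - (if j = (b s).1 then τ (b s).2 else 0) - (if j = (b s).2 then τ (b s).1 else 0)
  let B : Matrix Unit (Fin n ⊕ Fin r) R := Matrix.of fun _ c =>
    Sum.elim (fun i => - τ i) (fun s => τ (b s).1 * τ (b s).2) c
  have h1 : (evMat b fun l i => P l i - τ i) = evMat b P *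
      Matrix.fromBlocks 1 B 0 (Matrix.fromBlocks 1 B' 0 1) := by
    ext l c
    rw [Matrix.mul_apply, Fintype.sum_sum_type, Fintype.sum_sum_type]
    rcases c with c | i | s
    · simp [evMat, monVal, Matrix.fromBlocks]
    · simp [evMat, monVal, Matrix.fromBlocks, B, Matrix.one_apply]
      ring
    · simp [evMat, monVal, Matrix.fromBlocks, B, B', Matrix.one_apply, mul_sub, mul_ite,
        Finset.sum_sub_distrib]
      ring
  rw [h1, Matrix.det_mul, Matrix.det_fromBlocks_zero₂₁, Matrix.det_fromBlocks_zero₂₁]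
  simp

/-- More quadratic data than parameters: an algebraic relation. -/
theorem exists_relation {K : Type} [Fintype K] (bx : K → Fin r → Fin n × Fin n)
    (hK : n * (n + r) < Fintype.card K) (k : Type*) [Field k] :
    ∃ H : MvPolynomial K k, H ≠ 0 ∧ ∀ P : Unit ⊕ Fin n ⊕ Fin r → Fin n → k,
      eval (fun x => (evMat (bx x) P).det) H = 0 := by
  classical
  let U : Unit ⊕ Fin n ⊕ Fin r → Fin n → MvPolynomial (Fin n × (Fin n ⊕ Fin r)) k :=
    fun l i => match l with
      | Sum.inl _ => 0
      | Sum.inr l => X (i, l)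
  let D : K → MvPolynomial (Fin n × (Fin n ⊕ Fin r)) k := fun x => (evMat (bx x) U).det
  have hnot : ¬ AlgebraicIndependent k D := by
    intro h
    have h2 := h.lift_cardinalMk_le_trdeg
    rw [MvPolynomial.trdeg_of_isDomain] at h2
    simp only [Cardinal.mk_fintype, Fintype.card_prod, Fintype.card_fin, Fintype.card_sum,
      Cardinal.lift_natCast, Nat.cast_le] at h2
    lia
  rw [algebraicIndependent_iff] at hnot
  push Not at hnot
  obtain ⟨H, hH, hH0⟩ := hnot
  refine ⟨H, hH0, fun P => ?_⟩
  have h3 : ∀ x, (evMat (bx x) P).det =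
      eval (fun s : Fin n × (Fin n ⊕ Fin r) => P (Sum.inr s.2) s.1 - P (Sum.inl ()) s.1) (D x) := by
    intro x
    rw [det_evMat_map, ← det_evMat_sub (bx x) P (P (Sum.inl ()))]
    congr 2
    funext l i
    rcases l with l | l
    · simp [U]
    · simp [U]
  simp only [h3]
  have h4 := congrArg (eval (fun s : Fin n × (Fin n ⊕ Fin r) =>
    P (Sum.inr s.2) s.1 - P (Sum.inl ()) s.1)) hH
  rw [map_zero, aeval_def, eval_eval₂] at h4
  convert h4 using 1
  rw [eval, coe_eval₂Hom]
  congr 1
  ext a
  simp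

/-- A homogeneous relation. -/
theorem exists_homog_relation {K : Type} [Fintype K] (bx : K → Fin r → Fin n × Fin n)
    (hK : n * (n + r) < Fintype.card K) (hn : 0 < n) (k : Type*) [Field k] [IsAlgClosed k] :
    ∃ (H : MvPolynomial K k) (m : ℕ), H ≠ 0 ∧ H.IsHomogeneous m ∧
      ∀ P : Unit ⊕ Fin n ⊕ Fin r → Fin n → k, eval (fun x => (evMat (bx x) P).det) H = 0 := by
  obtain ⟨H, h0, hH⟩ := exists_relation bx hK k
  have : ∃ m, homogeneousComponent m H ≠ 0 := by
    by_contra hcon
    push Not at hcon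
    apply h0
    rw [← sum_homogeneousComponent H]
    exact Finset.sum_eq_zero fun j _ => hcon j
  obtain ⟨m, hm⟩ := this
  refine ⟨homogeneousComponent m H, m, hm, homogeneousComponent_isHomogeneous m H, fun P => ?_⟩
  have : Infinite k := IsAlgClosed.instInfinite
  refine homog_of_cone H _ (fun μ => ?_) m
  obtain ⟨c, hc⟩ := IsAlgClosed.exists_pow_nat_eq μ (show 0 < n + 2 * r by lia)
  rw [← hH fun l i => c * P l i]
  congr 2
  funext x
  rw [det_evMat_mul, hc]

end Pool.Agent.HilbPts
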