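import Pool.Agent.HilbPts.NotComp

set_option autoImplicit false

namespace Pool.Agent.HilbPts

open MvPolynomial TopologicalSpace Topology Matrix

variable {n d : ℕ} {k : Type*} [Field k]

theorem Pres.trace_eq (P : Pres n d k) (i : Fin n) :
    LinearMap.trace k (MvPolynomial (Fin n) k ⧸ P.ideal)
      (LinearMap.mulLeft k (Ideal.Quotient.mk P.ideal (X i))) = (P.mat i).trace := by
  rw [LinearMap.trace_eq_matrix_trace k (Module.Basis.ofEquivFun P.basis)]
  congr 1

/-- The trace-normalised coordinate `d x_i - tr(x_i)`. -/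
noncomputable def normX (I : Ideal (MvPolynomial (Fin n) k)) (d : ℕ) (i : Fin n) :
    MvPolynomial (Fin n) k :=
  (d : MvPolynomial (Fin n) k) * X i -
    C (LinearMap.trace k (MvPolynomial (Fin n) k ⧸ I)
      (LinearMap.mulLeft k (Ideal.Quotient.mk I (X i))))

theorem Pres.basis_normX_mul (P : Pres n d k) (i : Fin n)
    (y : MvPolynomial (Fin n) k ⧸ P.ideal) :
    P.basis (Ideal.Quotient.mk _ (normX P.ideal d i) * y) =
      ((d : k) • P.mat i - (P.mat i).trace • (1 : Matrix (Fin d) (Fin d) k)) *ᵥ P.basis y := by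
  have h1 : Ideal.Quotient.mk P.ideal (normX P.ideal d i) * y =
      (d : k) • (Ideal.Quotient.mk _ (X i) * y) - (P.mat i).trace • y := by
    obtain ⟨f, rfl⟩ := Ideal.Quotient.mk_surjective y
    rw [← map_mul, ← map_mul, ← mk_smul, ← mk_smul, ← map_sub, normX, P.trace_eq]
    congr 1
    rw [MvPolynomial.smul_eq_C_mul, MvPolynomial.smul_eq_C_mul, map_natCast]
    ring
  rw [h1, map_sub, map_smul, map_smul, P.basis_mul, Matrix.sub_mulVec, Matrix.smul_mulVec,
    Matrix.smul_mulVec, Matrix.one_mulVec]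

/-- The closed condition satisfied by very compressed algebras. -/
def TrCond (n d : ℕ) (k : Type*) [Field k] : Set (Hilb n d k) :=
  {x | ∀ i j l : Fin n, normX x.1 d i * (normX x.1 d j * normX x.1 d l) ∈ x.1}

theorem isClosed_trCond : IsClosed (TrCond n d k) := by
  rw [isClosed_hilb_iff]
  let M : Fin n → Matrix (Fin d) (Fin d) (MvPolynomial ((Fin n × Fin d × Fin d) ⊕ Fin d) k) :=
    fun i => Matrix.of fun a b => X (Sum.inl (i, a, b))
  let N : Fin n → Matrix (Fin d) (Fin d) (MvPolynomial ((Fin n × Fin d × Fin d) ⊕ Fin d) k) :=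
    fun i => (d : MvPolynomial ((Fin n × Fin d × Fin d) ⊕ Fin d) k) • M i - (M i).trace • 1
  let v : Fin d → MvPolynomial ((Fin n × Fin d × Fin d) ⊕ Fin d) k := fun a => X (Sum.inr a)
  refine ⟨{f | ∃ i j l a, f = (N i *ᵥ (N j *ᵥ (N l *ᵥ v))) a}, fun P => ?_⟩
  have hM : ∀ i, (M i).map (eval P.coord) = P.mat i := by
    intro i; ext a b; simp [M, Pres.mat]
  have hN : ∀ i, (N i).map (eval P.coord) =
      (d : k) • P.mat i - (P.mat i).trace • (1 : Matrix (Fin d) (Fin d) k) := by
    intro i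
    have ht : eval P.coord (M i).trace = (P.mat i).trace := by
      rw [← hM i, Matrix.trace, Matrix.trace, map_sum]; rfl
    ext a b
    simp only [N, Matrix.map_apply, Matrix.sub_apply, Matrix.smul_apply, smul_eq_mul, map_sub,
      map_mul, map_natCast, ht]
    congr 1
    · rw [← hM i]; rfl
    · by_cases hab : a = b
      · subst hab; simp
      · simp [Matrix.one_apply_ne hab]
  have hv : ∀ a, eval P.coord (v a) = P.basis 1 a := by
    intro a; simp [v, Pres.coord]
  have hmv : ∀ (i : Fin n) (u : Fin d → MvPolynomial ((Fin n × Fin d × Fin d) ⊕ Fin d) k)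
      (y : MvPolynomial (Fin n) k ⧸ P.ideal), (∀ a, eval P.coord (u a) = P.basis y a) →
      ∀ a, eval P.coord ((N i *ᵥ u) a) =
        P.basis (Ideal.Quotient.mk _ (normX P.ideal d i) * y) a := by
    intro i u y hu a
    rw [P.basis_normX_mul, ← hN i]
    simp only [Matrix.mulVec, dotProduct, map_sum, map_mul, Matrix.map_apply, hu]
  have key : ∀ i j l a, eval P.coord ((N i *ᵥ (N j *ᵥ (N l *ᵥ v))) a) =
      P.basis (Ideal.Quotient.mk _
        (normX P.ideal d i * (normX P.ideal d j * normX P.ideal d l))) a := by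
    intro i j l a
    rw [hmv i _ _ (hmv j _ _ (hmv l _ _ hv)), mul_one, ← map_mul, ← map_mul]
  constructor
  · rintro h f ⟨i, j, l, a, rfl⟩
    have h2 : _ ∈ P.ideal := h i j l
    have h3 := Ideal.Quotient.eq_zero_iff_mem.2 h2
    have h4 := congrFun (congrArg P.basis h3) a
    rw [map_zero] at h4
    exact (key i j l a).trans h4
  · intro h i j l
    change _ ∈ P.ideal
    rw [← Ideal.Quotient.eq_zero_iff_mem]
    apply P.basis.injective
    rw [map_zero]
    funext a
    exact (key i j l a).symm.trans (h _ ⟨i, j, l, a, rfl⟩)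

theorem trace_of_nilp (P : Pres n d k) (p : Fin n → k) (i : Fin n) (N : ℕ)
    (h : (X i - C (p i)) ^ N ∈ P.ideal) :
    LinearMap.trace k (MvPolynomial (Fin n) k ⧸ P.ideal)
      (LinearMap.mulLeft k (Ideal.Quotient.mk P.ideal (X i))) = d * p i := by
  have : Module.Finite k (MvPolynomial (Fin n) k ⧸ P.ideal) := Module.Finite.equiv P.basis.symm
  have h1 : LinearMap.mulLeft k (Ideal.Quotient.mk P.ideal (X i)) =
      LinearMap.mulLeft k (Ideal.Quotient.mk P.ideal (X i - C (p i))) + p i • LinearMap.id := by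
    apply LinearMap.ext
    intro y
    obtain ⟨f, rfl⟩ := Ideal.Quotient.mk_surjective y
    simp only [LinearMap.mulLeft_apply, LinearMap.add_apply, LinearMap.smul_apply,
      LinearMap.id_apply]
    rw [← map_mul, ← map_mul, ← mk_smul, ← map_add, MvPolynomial.smul_eq_C_mul]
    congr 1
    ring
  have h2 : IsNilpotent (LinearMap.mulLeft k (Ideal.Quotient.mk P.ideal (X i - C (p i)))) := by
    refine ⟨N, ?_⟩
    rw [LinearMap.pow_mulLeft, ← map_pow, Ideal.Quotient.eq_zero_iff_mem.2 h]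
    exact LinearMap.mulLeft_zero_eq_zero _ _
  rw [h1, map_add, map_smul, LinearMap.trace_id, finrank_quot,
    (LinearMap.isNilpotent_trace_of_isNilpotent h2).eq_zero]
  simp [mul_comm]

theorem normX_of_nilp (P : Pres n d k) (p : Fin n → k) (i : Fin n) (N : ℕ)
    (h : (X i - C (p i)) ^ N ∈ P.ideal) :
    normX P.ideal d i = (d : MvPolynomial (Fin n) k) * (X i - C (p i)) := by
  rw [normX, trace_of_nilp P p i N h, C_mul, map_natCast, mul_sub]

theorem X_sub_mem (p : Fin n → k) (i : Fin n) :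
    (X i - C (p i) : MvPolynomial (Fin n) k) ∈ maxIdealAt p := Ideal.subset_span ⟨i, rfl⟩

theorem VC_subset_trCond : VC n d k ⊆ TrCond n d k := by
  intro x hx
  obtain ⟨P, rfl⟩ := toHilb_surjective x
  obtain ⟨p, h3, -⟩ := hx
  have h3' : maxIdealAt p ^ 3 ≤ P.ideal := h3
  intro i j l
  change normX P.ideal d i * (normX P.ideal d j * normX P.ideal d l) ∈ P.ideal
  have hn : ∀ i, (X i - C (p i)) ^ 3 ∈ P.ideal := fun i =>
    h3' (Ideal.pow_mem_pow (X_sub_mem p i) 3)
  rw [normX_of_nilp P p i 3 (hn i), normX_of_nilp P p j 3 (hn j), normX_of_nilp P p l 3 (hn l)]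
  have : (d : MvPolynomial (Fin n) k) * (X i - C (p i)) *
      ((d : MvPolynomial (Fin n) k) * (X j - C (p j)) *
        ((d : MvPolynomial (Fin n) k) * (X l - C (p l)))) =
      (d : MvPolynomial (Fin n) k) ^ 3 *
        ((X i - C (p i)) * ((X j - C (p j)) * (X l - C (p l)))) := by ring
  rw [this]
  refine Ideal.mul_mem_left _ _ (h3' ?_)
  rw [pow_succ', pow_two]
  exact Ideal.mul_mem_mul (X_sub_mem p i) (Ideal.mul_mem_mul (X_sub_mem p j) (X_sub_mem p l))

/-- If the deformation data are nontrivial, the deformed ideals violate the trace condition. -/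
theorem not_mem_trCond [CharZero k] (P : Pres n d k) {p : Fin n → k} (D : DefData P.ideal p)
    (hd : d ≠ 0) (h3 : maxIdealAt p ^ 3 ≤ P.ideal) (hq : D.q ∉ P.ideal)
    (hc : ∃ c ∈ maxIdealAt p ^ 3, D.lam c ≠ 0) (t : k) (ht : t ≠ 0) (Pt : Pres n d k)
    (hPt : Pt.ideal = D.ideal t) : Pt.toHilb ∉ TrCond n d k := by
  intro hcon
  have hn : ∀ i, (X i - C (p i)) ^ 4 ∈ Pt.ideal := by
    intro i
    have h0 : (X i - C (p i)) ^ 3 ∈ P.ideal := h3 (Ideal.pow_mem_pow (X_sub_mem p i) 3)
    rw [hPt, D.mem_ideal, pow_succ', D.h1 _ (X_sub_mem p i) _ h0]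
    simpa using Ideal.mul_mem_left _ _ h0
  have key : ∀ i j l : Fin n,
      D.lam ((X i - C (p i)) * ((X j - C (p j)) * (X l - C (p l)))) = 0 := by
    intro i j l
    have h1 := hcon i j l
    change normX Pt.ideal d i * (normX Pt.ideal d j * normX Pt.ideal d l) ∈ Pt.ideal at h1
    rw [normX_of_nilp Pt p i 4 (hn i), normX_of_nilp Pt p j 4 (hn j),
      normX_of_nilp Pt p l 4 (hn l)] at h1
    have e : (d : MvPolynomial (Fin n) k) * (X i - C (p i)) *
        ((d : MvPolynomial (Fin n) k) * (X j - C (p j)) *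
          ((d : MvPolynomial (Fin n) k) * (X l - C (p l)))) =
        C ((d : k) ^ 3) *
          ((X i - C (p i)) * ((X j - C (p j)) * (X l - C (p l)))) := by
      rw [C_pow, map_natCast]; ring
    rw [e] at h1
    have h2 := Ideal.mul_mem_left _ (C (((d : k) ^ 3)⁻¹)) h1
    have hd' : (d : k) ^ 3 ≠ 0 := pow_ne_zero _ (Nat.cast_ne_zero.2 hd)
    rw [← mul_assoc, ← C_mul, inv_mul_cancel₀ hd', C_1, one_mul, hPt, D.mem_ideal] at h2
    have h4 : (X i - C (p i)) * ((X j - C (p j)) * (X l - C (p l))) ∈ P.ideal := by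
      apply h3
      rw [pow_succ', pow_two]
      exact Ideal.mul_mem_mul (X_sub_mem p i) (Ideal.mul_mem_mul (X_sub_mem p j) (X_sub_mem p l))
    have h5 := (Ideal.add_mem_iff_right _ h4).1 h2
    by_contra hne
    apply hq
    have h6 := Submodule.smul_of_tower_mem P.ideal
      ((t * D.lam ((X i - C (p i)) * ((X j - C (p j)) * (X l - C (p l)))))⁻¹) h5
    rwa [smul_smul, inv_mul_cancel₀ (mul_ne_zero ht hne), one_smul] at h6
  obtain ⟨c, hc, hc0⟩ := hc
  apply hc0
  -- `λ` vanishes on the cube of the maximal ideal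
  have hgen : ∀ i j l : Fin n, ∀ g : MvPolynomial (Fin n) k,
      D.lam (g * ((X i - C (p i)) * ((X j - C (p j)) * (X l - C (p l))))) = 0 := by
    intro i j l g
    have h4 : (X i - C (p i)) * ((X j - C (p j)) * (X l - C (p l))) ∈ P.ideal := by
      apply h3
      rw [pow_succ', pow_two]
      exact Ideal.mul_mem_mul (X_sub_mem p i) (Ideal.mul_mem_mul (X_sub_mem p j) (X_sub_mem p l))
    have : g = (g - C (eval p g)) + C (eval p g) := by ring
    rw [this, add_mul, map_add, D.h1 _ (sub_C_eval_mem p g) _ h4, ← MvPolynomial.smul_eq_C_mul,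
      map_smul, key, smul_zero, add_zero]
  have hspan : maxIdealAt p ^ 3 = Ideal.span {f | ∃ i j l : Fin n,
      f = (X i - C (p i)) * ((X j - C (p j)) * (X l - C (p l)))} := by
    rw [pow_succ', pow_two, maxIdealAt, Ideal.span_mul_span', Ideal.span_mul_span']
    congr 1
    ext f
    constructor
    · rintro ⟨_, ⟨i, rfl⟩, _, ⟨_, ⟨j, rfl⟩, _, ⟨l, rfl⟩, rfl⟩, rfl⟩
      exact ⟨i, j, l, rfl⟩
    · rintro ⟨i, j, l, rfl⟩
      exact ⟨_, ⟨i, rfl⟩, _, ⟨_, ⟨j, rfl⟩, _, ⟨l, rfl⟩, rfl⟩, rfl⟩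
  rw [hspan] at hc
  have hall : ∀ c ∈ Ideal.span {f | ∃ i j l : Fin n,
      f = (X i - C (p i)) * ((X j - C (p j)) * (X l - C (p l)))},
      ∀ g : MvPolynomial (Fin n) k, D.lam (g * c) = 0 := by
    intro c hc
    induction hc using Submodule.span_induction with
    | mem f hf => obtain ⟨i, j, l, rfl⟩ := hf; exact hgen i j l
    | zero => simp
    | add a b _ _ ha hb => intro g; rw [mul_add, map_add, ha, hb, add_zero]
    | smul h a _ ha => intro g; rw [smul_eq_mul, ← mul_assoc]; exact ha _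
  simpa using hall c hc 1

end Pool.Agent.HilbPts
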