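import Pool.Agent.HilbPts.Homog
import Pool.Agent.HilbPts.TraceCond

set_option autoImplicit false

namespace Pool.Agent.HilbPts

open MvPolynomial

variable {n : ℕ} {k : Type*} [Field k]

theorem homogeneousComponent_of_degree_lt {f : MvPolynomial (Fin n) k} {j i : ℕ}
    (hf : f ∈ idealOfVars (Fin n) k ^ j) (hi : i < j) : homogeneousComponent i f = 0 := by
  ext d
  rw [coeff_homogeneousComponent, coeff_zero]
  split_ifs with h
  · exact (mem_pow_idealOfVars_iff' j f).1 hf d (h ▸ hi)
  · rfl

theorem sub_comp_two_mem {f : MvPolynomial (Fin n) k} (hf : f ∈ idealOfVars (Fin n) k ^ 2) :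
    f - homogeneousComponent 2 f ∈ idealOfVars (Fin n) k ^ 3 := by
  rw [mem_pow_idealOfVars_iff'] at hf ⊢
  intro x hx
  rw [coeff_sub, coeff_homogeneousComponent]
  split_ifs with h
  · simp
  · rw [hf x (by lia), sub_zero]

theorem sub_low_mem (f : MvPolynomial (Fin n) k) :
    f - (homogeneousComponent 0 f + homogeneousComponent 1 f + homogeneousComponent 2 f) ∈
      idealOfVars (Fin n) k ^ 3 := by
  rw [mem_pow_idealOfVars_iff']
  intro x hx
  simp only [coeff_sub, coeff_add, coeff_homogeneousComponent]
  have : x.degree = 0 ∨ x.degree = 1 ∨ x.degree = 2 := by lia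
  rcases this with h | h | h <;> simp [h]

theorem homogeneous_mem_pow {f : MvPolynomial (Fin n) k} {j : ℕ} (hf : f.IsHomogeneous j) :
    f ∈ idealOfVars (Fin n) k ^ j := by
  rw [mem_pow_idealOfVars_iff]
  intro x hx
  have h := hf (mem_support_iff.1 hx)
  rw [Finsupp.degree_eq_weight_one]
  exact h.ge

variable (I : Ideal (MvPolynomial (Fin n) k))

/-- The quadrics in the ideal. -/
noncomputable def quadrics : Submodule k (MvPolynomial (Fin n) k) :=
  I.restrictScalars k ⊓ homogeneousSubmodule (Fin n) k 2

/-- The cubics generated by the quadrics in the ideal. -/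
noncomputable def cubics : Submodule k (MvPolynomial (Fin n) k) :=
  LinearMap.range (∑ i : Fin n, (LinearMap.mulLeft k (X i : MvPolynomial (Fin n) k)) ∘ₗ
    (quadrics I).subtype ∘ₗ LinearMap.proj (R := k) (φ := fun _ : Fin n => quadrics I) i)

theorem finrank_cubics_le [Module.Finite k (quadrics I)] :
    Module.finrank k (cubics I) ≤ n * Module.finrank k (quadrics I) := by
  refine (LinearMap.finrank_range_le _).trans ?_
  rw [Module.finrank_pi_fintype]
  simp

theorem X_mul_mem_cubics (i : Fin n) (q : MvPolynomial (Fin n) k) (hq : q ∈ quadrics I) :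
    X i * q ∈ cubics I := by
  classical
  refine ⟨Pi.single i ⟨q, hq⟩, ?_⟩
  rw [LinearMap.sum_apply, Finset.sum_eq_single i]
  · simp
  · intro j _ hj
    simp [Pi.single_eq_of_ne hj]
  · simp

instance : Module.Finite k (quadrics I) :=
  Submodule.finiteDimensional_of_le (S₂ := homogeneousSubmodule (Fin n) k 2) inf_le_right

variable {I}

theorem comp_mem_quadrics (h3 : idealOfVars (Fin n) k ^ 3 ≤ I) (h2 : I ≤ idealOfVars (Fin n) k ^ 2)
    {f : MvPolynomial (Fin n) k} (hf : f ∈ I) : homogeneousComponent 2 f ∈ quadrics I := by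
  refine ⟨?_, homogeneousComponent_mem 2 f⟩
  have := Ideal.sub_mem I hf (h3 (sub_comp_two_mem (h2 hf)))
  simpa using this

/-- The dimension of the space of quadrics in the ideal. -/
theorem finrank_quadrics_add_le {r : ℕ} (h3 : idealOfVars (Fin n) k ^ 3 ≤ I)
    (hd : Module.finrank k (MvPolynomial (Fin n) k ⧸ I) = 1 + n + r) :
    Module.finrank k (quadrics I) + r ≤ (n + 1).choose 2 := by
  let φ : homogeneousSubmodule (Fin n) k 2 →ₗ[k] (MvPolynomial (Fin n) k ⧸ I) :=
    (Ideal.Quotient.mkₐ k I).toLinearMap ∘ₗ (homogeneousSubmodule (Fin n) k 2).subtype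
  let ψ : (k × (Fin n → k)) →ₗ[k] (MvPolynomial (Fin n) k ⧸ I) :=
    LinearMap.coprod (LinearMap.toSpanSingleton k _ 1)
      (Fintype.linearCombination k (fun i => Ideal.Quotient.mk I (X i)))
  have htop : LinearMap.range φ ⊔ LinearMap.range ψ = ⊤ := by
    rw [eq_top_iff]
    rintro y -
    obtain ⟨f, rfl⟩ := Ideal.Quotient.mk_surjective y
    have h := h3 (sub_low_mem f)
    rw [← Ideal.Quotient.eq_zero_iff_mem, map_sub, sub_eq_zero] at h
    rw [h, map_add]
    rw [add_comm]
    refine Submodule.add_mem_sup ⟨⟨homogeneousComponent 2 f, homogeneousComponent_mem 2 f⟩, rfl⟩ ?_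
    rw [map_add]
    refine Submodule.add_mem _ ?_ ?_
    · rw [homogeneousComponent_zero, ← mul_one (C _), ← smul_eq_C_mul, mk_smul, map_one]
      exact ⟨(coeff 0 f, 0), by simp [ψ]⟩
    · have h1 := homogeneousComponent_mem 1 f
      rw [homogeneousSubmodule_one_eq_span_X] at h1
      generalize homogeneousComponent 1 f = g at h1
      induction h1 using Submodule.span_induction with
      | mem f hf =>
        obtain ⟨i, rfl⟩ := hf
        refine ⟨(0, Pi.single i 1), ?_⟩
        simp [ψ, Fintype.linearCombination_apply, Pi.single_apply]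
      | zero => simp
      | add a b _ _ ha hb => rw [map_add]; exact Submodule.add_mem _ ha hb
      | smul c a _ ha => rw [mk_smul]; exact Submodule.smul_mem _ _ ha
  have : Module.Finite k (MvPolynomial (Fin n) k ⧸ I) :=
    Module.finite_of_finrank_pos (by rw [hd]; lia)
  have hsum := Submodule.finrank_add_le_finrank_add_finrank (LinearMap.range φ) (LinearMap.range ψ)
  rw [htop, finrank_top, hd] at hsum
  have hψ : Module.finrank k (LinearMap.range ψ) ≤ 1 + n := by
    refine (LinearMap.finrank_range_le ψ).trans ?_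
    rw [Module.finrank_prod, Module.finrank_self, Module.finrank_fin_fun]
  have hφ := LinearMap.finrank_range_add_finrank_ker φ
  rw [finrank_homogeneousSubmodule] at hφ
  have hker : Module.finrank k (quadrics I) = Module.finrank k (LinearMap.ker φ) := by
    have : quadrics I = (LinearMap.ker φ).map (homogeneousSubmodule (Fin n) k 2).subtype := by
      ext f
      constructor
      · rintro ⟨hf, hf2⟩
        refine ⟨⟨f, hf2⟩, ?_, rfl⟩
        exact Ideal.Quotient.eq_zero_iff_mem.2 hf
      · rintro ⟨⟨g, hg⟩, hgk, rfl⟩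
        exact ⟨Ideal.Quotient.eq_zero_iff_mem.1 hgk, hg⟩
    rw [this]
    exact (Submodule.equivMapOfInjective _ (Submodule.subtype_injective _) _).symm.finrank_eq
  have hn : n + 2 - 1 = n + 1 := by lia
  rw [hn] at hφ
  lia

theorem quadrics_le : quadrics I ≤ homogeneousSubmodule (Fin n) k 2 := inf_le_right

theorem exists_lam_q {r : ℕ} (h3 : idealOfVars (Fin n) k ^ 3 ≤ I)
    (h2 : I ≤ idealOfVars (Fin n) k ^ 2)
    (hd : Module.finrank k (MvPolynomial (Fin n) k ⧸ I) = 1 + n + r) (hr : n < r)
    (hlt : n * Module.finrank k (quadrics I) < (n + 2).choose 3) :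
    ∃ (lam : MvPolynomial (Fin n) k →ₗ[k] k) (q : MvPolynomial (Fin n) k),
      (∀ g ∈ idealOfVars (Fin n) k, ∀ f ∈ I, lam (g * f) = 0) ∧
      (∀ g ∈ idealOfVars (Fin n) k, lam (g * q) = 0) ∧
      (∀ g ∈ idealOfVars (Fin n) k, g * q ∈ I) ∧ q ∉ I ∧
      ∃ c ∈ idealOfVars (Fin n) k ^ 3, lam c = 1 := by
  classical
  -- a cubic outside the span of the cubics generated by the quadrics
  have h1 : ¬ homogeneousSubmodule (Fin n) k 3 ≤ cubics I := by
    intro hle
    have hfin : Module.Finite k (cubics I) := Module.Finite.range _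
    have := Submodule.finrank_mono hle
    rw [finrank_homogeneousSubmodule] at this
    have h4 := finrank_cubics_le I
    have hn : n + 3 - 1 = n + 2 := by lia
    rw [hn] at this
    lia
  obtain ⟨c, hc3, hc⟩ := Set.not_subset.1 h1
  obtain ⟨μ, hμc, hμ⟩ := Submodule.exists_dual_map_eq_bot_of_notMem hc inferInstance
  have hμ0 : ∀ f ∈ cubics I, μ f = 0 := by
    intro f hf
    have : μ f ∈ (cubics I).map μ := ⟨f, hf, rfl⟩
    rw [hμ] at this
    exact (Submodule.mem_bot k).1 this
  -- a quadric outside the ideal orthogonal to the variables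
  let θ : homogeneousSubmodule (Fin n) k 2 →ₗ[k] (Fin n → k) :=
    LinearMap.pi fun i => μ ∘ₗ LinearMap.mulLeft k (X i) ∘ₗ
      (homogeneousSubmodule (Fin n) k 2).subtype
  have hq : ∃ q ∈ homogeneousSubmodule (Fin n) k 2, (∀ i, μ (X i * q) = 0) ∧ q ∉ I := by
    by_contra hcon
    push Not at hcon
    have hle : (LinearMap.ker θ).map (homogeneousSubmodule (Fin n) k 2).subtype ≤ quadrics I := by
      rintro _ ⟨⟨q, hq⟩, hqk, rfl⟩
      refine ⟨?_, hq⟩
      refine hcon q hq fun i => ?_
      exact congrFun hqk i
    have h5 := Submodule.finrank_mono hle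
    rw [(Submodule.equivMapOfInjective _ (Submodule.subtype_injective _)
      (LinearMap.ker θ)).symm.finrank_eq] at h5
    have h6 := LinearMap.finrank_range_add_finrank_ker θ
    have h7 : Module.finrank k (LinearMap.range θ) ≤ n := by
      refine (Submodule.finrank_le _).trans ?_
      simp
    have h8 := finrank_quadrics_add_le h3 hd
    rw [finrank_homogeneousSubmodule] at h6
    have hn : n + 2 - 1 = n + 1 := by lia
    rw [hn] at h6
    lia
  obtain ⟨q, hq2, hqμ, hqI⟩ := hq
  let lam : MvPolynomial (Fin n) k →ₗ[k] k := (μ c)⁻¹ • (μ ∘ₗ homogeneousComponent 3)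
  have hlam : ∀ f, lam f = (μ c)⁻¹ * μ (homogeneousComponent 3 f) := fun f => rfl
  refine ⟨lam, q, ?_, ?_, ?_, hqI, c, homogeneous_mem_pow hc3, ?_⟩
  · intro g hg f hf
    have key : ∀ i, ∀ f ∈ I, μ (homogeneousComponent 3 (X i * f)) = 0 := by
      intro i f hf
      rw [homogeneousComponent_X_mul]
      exact hμ0 _ (X_mul_mem_cubics I i _ (comp_mem_quadrics h3 h2 hf))
    rw [hlam]
    have : ∀ g ∈ idealOfVars (Fin n) k, ∀ h : MvPolynomial (Fin n) k,
        μ (homogeneousComponent 3 (h * (g * f))) = 0 := by
      intro g hg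
      induction hg using Submodule.span_induction with
      | mem g hg =>
        obtain ⟨i, rfl⟩ := hg
        intro h
        rw [mul_left_comm]
        exact key i _ (Ideal.mul_mem_left _ _ hf)
      | zero => intro h; simp
      | add a b _ _ ha hb => intro h; rw [add_mul, mul_add, map_add, map_add, ha, hb, add_zero]
      | smul a b _ hb => intro h; rw [smul_eq_mul, mul_assoc, ← mul_assoc h]; exact hb _
    have h9 := this g hg 1
    rw [one_mul] at h9
    rw [h9, mul_zero]
  · intro g hg
    rw [hlam]
    have : ∀ g ∈ idealOfVars (Fin n) k, ∀ h : MvPolynomial (Fin n) k,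
        μ (homogeneousComponent 3 (h * (g * q))) = 0 := by
      intro g hg
      induction hg using Submodule.span_induction with
      | mem g hg =>
        obtain ⟨i, rfl⟩ := hg
        intro h
        rw [mul_left_comm, homogeneousComponent_X_mul]
        have hh : homogeneousComponent 2 (h * q) = C (coeff 0 h) * q := by
          have e1 : h * q = C (coeff 0 h) * q + (h - C (coeff 0 h)) * q := by ring
          have e2 : (h - C (coeff 0 h)) * q ∈ idealOfVars (Fin n) k ^ 3 := by
            rw [pow_succ']
            refine Ideal.mul_mem_mul ?_ (homogeneous_mem_pow hq2)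
            rw [← pow_one (idealOfVars (Fin n) k), mem_pow_idealOfVars_iff']
            intro x hx
            have : x = 0 := by
              rw [← Finsupp.degree_eq_zero_iff]; lia
            simp [this]
          rw [e1, map_add, homogeneousComponent_of_degree_lt e2 (by lia), add_zero,
            homogeneousComponent_C_mul, homogeneousComponent_eq_self hq2]
        rw [hh, mul_left_comm, ← smul_eq_C_mul, map_smul, hqμ, smul_zero]
      | zero => intro h; simp
      | add a b _ _ ha hb => intro h; rw [add_mul, mul_add, map_add, map_add, ha, hb, add_zero]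
      | smul a b _ hb => intro h; rw [smul_eq_mul, mul_assoc, ← mul_assoc h]; exact hb _
    have h9 := this g hg 1
    rw [one_mul] at h9
    rw [h9, mul_zero]
  · intro g hg
    apply h3
    rw [pow_succ']
    exact Ideal.mul_mem_mul hg (homogeneous_mem_pow hq2)
  · rw [hlam, homogeneousComponent_eq_self hc3]
    exact inv_mul_cancel₀ hμc

end Pool.Agent.HilbPts
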