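import Pool.Agent.HilbPts.VCPres

set_option autoImplicit false

namespace Pool.Agent.HilbPts

open MvPolynomial Matrix

variable {n r : ℕ} {k : Type*} [Field k]

/-- The points `0, e_1, ..., e_n, Q_1, ..., Q_r`. -/
def stdPts {R : Type*} [CommRing R] (Q : Fin r → Fin n → R) : Unit ⊕ Fin n ⊕ Fin r → Fin n → R
  | Sum.inl _ => 0
  | Sum.inr (Sum.inl m) => Pi.single m 1
  | Sum.inr (Sum.inr s) => Q s

/-- The structure constants of the limit algebra. -/
def beta {R : Type*} [CommRing R] (A : Matrix (Fin r) (Fin r) R) (g : Matrix (Fin n) (Fin n) R)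
    (Q : Fin r → Fin n → R) (a : Fin r) (i j : Fin n) : R :=
  ∑ s, A a s * ((g *ᵥ Q s) i * (g *ᵥ Q s) j - ∑ m, Q s m * g i m * g j m)

/-- The linear term of the family. -/
def famN (A A' : Matrix (Fin r) (Fin r) k) (g g' : Matrix (Fin n) (Fin n) k)
    (Q : Fin r → Fin n → k) (i : Fin n) :
    Matrix (Unit ⊕ Fin n ⊕ Fin r) (Unit ⊕ Fin n ⊕ Fin r) k :=
  Matrix.of fun a b => match a, b with
    | Sum.inr (Sum.inl j'), Sum.inr (Sum.inl j) => ∑ m, g i m * g j m * g' m j'
    | Sum.inr (Sum.inr a'), Sum.inr (Sum.inr a) => ∑ s, A a' s * (g *ᵥ Q s) i * A' s a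
    | _, _ => 0

/-- The points of the family. -/
def famPts (p : Fin n → k) (g : Matrix (Fin n) (Fin n) k) (Q : Fin r → Fin n → k) (t : k) :
    Unit ⊕ Fin n ⊕ Fin r → Fin n → k :=
  fun l i => p i + t * (g *ᵥ stdPts Q l) i

/-- The base change matrix. -/
def famB (A' : Matrix (Fin r) (Fin r) k) (g : Matrix (Fin n) (Fin n) k)
    (Q : Fin r → Fin n → k) (t : k) :
    Matrix (Unit ⊕ Fin n ⊕ Fin r) (Unit ⊕ Fin n ⊕ Fin r) k :=
  Matrix.of fun l a => match a with
    | Sum.inl _ => 1
    | Sum.inr (Sum.inl j) => t * (g *ᵥ stdPts Q l) j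
    | Sum.inr (Sum.inr a) => match l with
      | Sum.inr (Sum.inr s) => t ^ 2 * A' s a
      | _ => 0

theorem famB_mul (p : Fin n → k) (A A' : Matrix (Fin r) (Fin r) k)
    (g g' : Matrix (Fin n) (Fin n) k) (Q : Fin r → Fin n → k) (hg : g' * g = 1) (hA : A' * A = 1)
    (t : k) (i : Fin n) :
    famB A' g Q t * (vcMat p (beta A g Q) i + t • famN A A' g g' Q i) =
      Matrix.diagonal (fun l => famPts p g Q t l i) * famB A' g Q t := by
  have h1 : ∀ (v : Fin n → k) (i j : Fin n), ∑ j', (g *ᵥ v) j' * ∑ m, g i m * g j m * g' m j' =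
      ∑ m, v m * g i m * g j m := by
    intro v i j
    have h2 : ∀ m, ∑ j', g' m j' * (g *ᵥ v) j' = v m := by
      intro m
      have : (g' *ᵥ (g *ᵥ v)) m = v m := by rw [Matrix.mulVec_mulVec, hg, Matrix.one_mulVec]
      exact this
    simp only [Finset.mul_sum]
    rw [Finset.sum_comm]
    refine Finset.sum_congr rfl fun m _ => ?_
    conv_rhs => rw [← h2 m]
    rw [Finset.sum_mul, Finset.sum_mul]
    exact Finset.sum_congr rfl fun j' _ => by ring
  have h3 : ∀ (s : Fin r) (X : Fin r → k), ∑ a, A' s a * ∑ s', A a s' * X s' = X s := by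
    intro s X
    have : (A' *ᵥ (A *ᵥ X)) s = X s := by rw [Matrix.mulVec_mulVec, hA, Matrix.one_mulVec]
    exact this
  ext l c
  rw [Matrix.mul_apply, Matrix.diagonal_mul]
  simp only [Matrix.add_apply, Matrix.smul_apply, smul_eq_mul, vcMat, Matrix.of_apply, mul_add,
    Finset.sum_add_distrib, mul_ite, mul_zero, Finset.sum_ite_eq', Finset.mem_univ, if_true]
  rw [famPts, add_mul, add_assoc, mul_comm (p i)]
  congr 1
  rw [Fintype.sum_sum_type, Fintype.sum_sum_type, Fintype.sum_sum_type, Fintype.sum_sum_type]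
  rcases c with ⟨⟩ | j | a
  · simp [famB, famN]
  · rcases l with ⟨⟩ | m | s
    · simp [famB, famN, stdPts]
    · have := h1 (stdPts Q (Sum.inr (Sum.inl m))) i j
      simp only [famB, famN, Matrix.of_apply, Finset.univ_unique, mul_zero, Finset.sum_const_zero,
        zero_add, add_zero, zero_mul]
      have e1 : ∀ x : Fin n, t * (g *ᵥ stdPts Q (Sum.inr (Sum.inl m))) x *
          (t * ∑ m, g i m * g j m * g' m x) = t ^ 2 *
          ((g *ᵥ stdPts Q (Sum.inr (Sum.inl m))) x * ∑ m, g i m * g j m * g' m x) := fun x => by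
        ring
      simp only [e1, ← Finset.mul_sum, this]
      simp [stdPts, Pi.single_apply]
      ring
    · have := h1 (stdPts Q (Sum.inr (Sum.inr s))) i j
      simp only [famB, famN, Matrix.of_apply, Finset.univ_unique, mul_zero, Finset.sum_const_zero,
        zero_add, add_zero]
      have e1 : ∀ x : Fin n, t * (g *ᵥ stdPts Q (Sum.inr (Sum.inr s))) x *
          (t * ∑ m, g i m * g j m * g' m x) = t ^ 2 *
          ((g *ᵥ stdPts Q (Sum.inr (Sum.inr s))) x * ∑ m, g i m * g j m * g' m x) := fun x => by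
        ring
      simp only [e1, ← Finset.mul_sum, this]
      have e2 : ∑ x, t ^ 2 * A' s x * beta A g Q x i j = t ^ 2 *
          ((g *ᵥ Q s) i * (g *ᵥ Q s) j - ∑ m, Q s m * g i m * g j m) := by
        rw [← h3 s fun s => (g *ᵥ Q s) i * (g *ᵥ Q s) j - ∑ m, Q s m * g i m * g j m,
          Finset.mul_sum]
        exact Finset.sum_congr rfl fun x _ => by rw [beta]; ring
      rw [e2]
      simp only [stdPts]
      ring
  · rcases l with ⟨⟩ | m | s
    · simp [famB, famN, stdPts]
    · simp [famB, famN]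
    · simp only [famB, famN, Matrix.of_apply, Finset.univ_unique, mul_zero, Finset.sum_const_zero,
        zero_add, add_zero]
      have := h3 s fun s => (g *ᵥ Q s) i * A' s a
      have e3 : ∀ x, t ^ 2 * A' s x * (t * ∑ s, A x s * (g *ᵥ Q s) i * A' s a) =
          t ^ 3 * (A' s x * ∑ s, A x s * ((g *ᵥ Q s) i * A' s a)) := by
        intro x
        have : ∑ s, A x s * (g *ᵥ Q s) i * A' s a = ∑ s, A x s * ((g *ᵥ Q s) i * A' s a) :=
          Finset.sum_congr rfl fun _ _ => by ring
        rw [this]; ring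
      simp only [e3, ← Finset.mul_sum, this, stdPts]
      ring

theorem famPts_injective (p : Fin n → k) (g g' : Matrix (Fin n) (Fin n) k)
    (Q : Fin r → Fin n → k) (hg : g' * g = 1) (hP : Function.Injective (stdPts Q)) (t : k)
    (ht : t ≠ 0) : Function.Injective (famPts p g Q t) := by
  intro a b hab
  apply hP
  have h1 : g *ᵥ stdPts Q a = g *ᵥ stdPts Q b := by
    funext i
    have := congrFun hab i
    simp only [famPts, add_right_inj, mul_eq_mul_left_iff, ht, or_false] at this
    exact this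
  have h2 := congrArg (fun v => g' *ᵥ v) h1
  simpa [Matrix.mulVec_mulVec, hg] using h2

theorem famB_injective (A A' : Matrix (Fin r) (Fin r) k) (g g' : Matrix (Fin n) (Fin n) k)
    (Q : Fin r → Fin n → k) (hg : g' * g = 1) (hA : A' * A = 1) (t : k) (ht : t ≠ 0) :
    Function.Injective (famB A' g Q t).mulVec := by
  have hker : ∀ u, famB A' g Q t *ᵥ u = 0 → u = 0 := by
    intro u hu
    have hc : ∀ l, u (Sum.inl ()) + t * ∑ j, (g *ᵥ stdPts Q l) j * u (Sum.inr (Sum.inl j)) +
        ∑ a, famB A' g Q t l (Sum.inr (Sum.inr a)) * u (Sum.inr (Sum.inr a)) = 0 := by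
      intro l
      have := congrFun hu l
      simp only [Matrix.mulVec, dotProduct, Pi.zero_apply] at this
      rw [Fintype.sum_sum_type, Fintype.sum_sum_type] at this
      rw [← this, ← add_assoc]
      congr 1
      congr 1
      · simp [famB]
      · rw [Finset.mul_sum]
        exact Finset.sum_congr rfl fun j _ => by simp [famB, Matrix.mulVec, dotProduct]; ring
    have h0 : u (Sum.inl ()) = 0 := by
      have := hc (Sum.inl ())
      simpa [famB, stdPts] using this
    have h1 : ∀ m, ∑ j, g j m * u (Sum.inr (Sum.inl j)) = 0 := by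
      intro m
      have := hc (Sum.inr (Sum.inl m))
      rw [h0] at this
      simpa [famB, stdPts, ht] using this
    have h2 : ∀ j, u (Sum.inr (Sum.inl j)) = 0 := by
      have h3 : gᵀ *ᵥ (fun j => u (Sum.inr (Sum.inl j))) = 0 := by
        funext m
        exact h1 m
      have h4 : g * g' = 1 := mul_eq_one_comm.1 hg
      have h5 := congrArg (fun v => g'ᵀ *ᵥ v) h3
      simp only [Matrix.mulVec_mulVec, Matrix.mulVec_zero, ← Matrix.transpose_mul, h4,
        Matrix.transpose_one, Matrix.one_mulVec] at h5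
      exact congrFun h5
    have h6 : ∀ a, u (Sum.inr (Sum.inr a)) = 0 := by
      have h7 : A' *ᵥ (fun a => u (Sum.inr (Sum.inr a))) = 0 := by
        funext s
        have := hc (Sum.inr (Sum.inr s))
        rw [h0] at this
        simp only [h2, mul_zero, Finset.sum_const_zero, add_zero, zero_add, famB,
          Matrix.of_apply, mul_assoc, ← Finset.mul_sum] at this
        simpa [ht, Matrix.mulVec, dotProduct] using this
      have h8 : A * A' = 1 := mul_eq_one_comm.1 hA
      have h9 := congrArg (fun v => A *ᵥ v) h7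
      simp only [Matrix.mulVec_mulVec, Matrix.mulVec_zero, h8, Matrix.one_mulVec] at h9
      exact congrFun h9
    funext c
    rcases c with ⟨⟩ | j | a
    · exact h0
    · exact h2 j
    · exact h6 a
  intro u v huv
  have := hker (u - v) (by
    rw [Matrix.mulVec_sub]
    exact sub_eq_zero.2 huv)
  exact sub_eq_zero.1 this

/-- The family of radical ideals degenerating to a very compressed algebra. -/
theorem exists_family_pres (e : Fin (1 + n + r) ≃ Unit ⊕ Fin n ⊕ Fin r) (p : Fin n → k)
    (A A' : Matrix (Fin r) (Fin r) k) (g g' : Matrix (Fin n) (Fin n) k)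
    (Q : Fin r → Fin n → k) (hg : g' * g = 1) (hA : A' * A = 1)
    (hP : Function.Injective (stdPts Q)) (t : k) (ht : t ≠ 0) :
    ∃ R : Pres n (1 + n + r) k, R.ideal.IsRadical ∧ R.coord = fun s =>
      cvec (fun i => vcMat p (beta A g Q) i + t • famN A A' g g' Q i)
        (Pi.single (Sum.inl ()) 1) (cIdx e s) := by
  classical
  let S : (Unit ⊕ Fin n ⊕ Fin r → k) ≃ₗ[k] (Unit ⊕ Fin n ⊕ Fin r → k) :=
    LinearEquiv.ofInjectiveEndo (famB A' g Q t).mulVecLin (famB_injective A A' g g' Q hg hA t ht)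
  have hS : ∀ u, S u = famB A' g Q t *ᵥ u := fun u => rfl
  obtain ⟨R, h1, -, -, h4⟩ := exists_pres_points e (famPts p g Q t)
    (famPts_injective p g g' Q hg hP t ht) S.symm
    (fun i => vcMat p (beta A g Q) i + t • famN A A' g g' Q i) (by
      intro i u
      obtain ⟨c, rfl⟩ := S.surjective u
      rw [S.symm_apply_apply, LinearEquiv.symm_apply_eq, hS, hS, Matrix.mulVec_mulVec,
        famB_mul p A A' g g' Q hg hA t i, ← Matrix.mulVec_mulVec]
      funext l
      rw [Matrix.mulVec_diagonal])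
  refine ⟨R, h1, ?_⟩
  rw [h4]
  have : S.symm 1 = Pi.single (Sum.inl ()) 1 := by
    rw [LinearEquiv.symm_apply_eq, hS, Matrix.mulVec_single_one]
    rfl
  rw [this]

/-- Limits of points: the values of polynomials vanishing on radical ideals. -/
theorem eval_limit_eq_zero [Infinite k] (e : Fin (1 + n + r) ≃ Unit ⊕ Fin n ⊕ Fin r)
    (F : MvPolynomial ((Fin n × Fin (1 + n + r) × Fin (1 + n + r)) ⊕ Fin (1 + n + r)) k)
    (hF : ∀ P : Pres n (1 + n + r) k, P.ideal.IsRadical → eval P.coord F = 0)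
    (p : Fin n → k) (A A' : Matrix (Fin r) (Fin r) k) (g g' : Matrix (Fin n) (Fin n) k)
    (Q : Fin r → Fin n → k) (hg : g' * g = 1) (hA : A' * A = 1)
    (hP : Function.Injective (stdPts Q)) :
    eval (cvec (vcMat p (beta A g Q)) (Pi.single (Sum.inl ()) 1)) (rename (cIdx e) F) = 0 := by
  let c₀ : (Fin n × (Unit ⊕ Fin n ⊕ Fin r) × (Unit ⊕ Fin n ⊕ Fin r)) ⊕ (Unit ⊕ Fin n ⊕ Fin r) → k :=
    cvec (vcMat p (beta A g Q)) (Pi.single (Sum.inl ()) 1)
  let c₁ : (Fin n × (Unit ⊕ Fin n ⊕ Fin r) × (Unit ⊕ Fin n ⊕ Fin r)) ⊕ (Unit ⊕ Fin n ⊕ Fin r) → k :=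
    cvec (famN A A' g g' Q) 0
  let u : Polynomial k :=
    aeval (fun j => Polynomial.C (c₀ j) + Polynomial.X * Polynomial.C (c₁ j)) (rename (cIdx e) F)
  have hu : ∀ t, u.eval t = eval (fun j => c₀ j + t * c₁ j) (rename (cIdx e) F) := by
    intro t
    have : u.eval t = (Polynomial.evalRingHom t) u := rfl
    rw [this]
    simp only [u]
    rw [MvPolynomial.aeval_def, MvPolynomial.hom_eval₂]
    change _ = MvPolynomial.eval₂ (RingHom.id k) (fun j => c₀ j + t * c₁ j) _
    congr 1
    · ext a; simp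
    · funext j
      simp only [Polynomial.coe_evalRingHom, Polynomial.eval_add, Polynomial.eval_C,
        Polynomial.eval_mul, Polynomial.eval_X]
  have hu0 : ∀ t, t ≠ 0 → u.eval t = 0 := by
    intro t ht
    obtain ⟨R, h1, h2⟩ := exists_family_pres e p A A' g g' Q hg hA hP t ht
    have h3 := hF R h1
    rw [h2, eval_cIdx] at h3
    rw [hu, ← h3]
    congr 2
    funext j
    rcases j with ⟨i, a, b⟩ | a
    · simp [c₀, c₁, cvec]
    · simp [c₀, c₁, cvec]
  have hu1 : u = 0 := by
    have : u * Polynomial.X = 0 := by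
      refine Polynomial.funext fun t => ?_
      rw [Polynomial.eval_mul, Polynomial.eval_X, Polynomial.eval_zero]
      by_cases ht : t = 0
      · rw [ht, mul_zero]
      · rw [hu0 t ht, zero_mul]
    exact (mul_eq_zero.1 this).resolve_right Polynomial.X_ne_zero
  have := hu 0
  rw [hu1, Polynomial.eval_zero] at this
  rw [this]
  congr 2
  funext j
  simp [c₀]

end Pool.Agent.HilbPts
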