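import Pool.Agent.HilbPts.Form5

set_option autoImplicit false
set_option linter.all false

namespace Pool.Agent.HilbPts

variable {k : Type*} [Field k]

/-- Points. -/
def qf6 (k : Type*) [Field k] : Fin 6 → Fin 5 → k :=
  ![![1, 1, 0, (-1), 0],
    ![1, 0, 0, (-1), 0],
    ![0, 0, 1, 0, 1],
    ![1, 0, 1, 0, 0],
    ![0, 2, 0, (-1), 1],
    ![0, 2, (-1), 0, 1]]

/-- Integral points. -/
def zf6 : Fin 6 → Fin 5 → ℤ :=
  ![![1, 1, 0, (-1), 0],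
    ![1, 0, 0, (-1), 0],
    ![0, 0, 1, 0, 1],
    ![1, 0, 1, 0, 0],
    ![0, 2, 0, (-1), 1],
    ![0, 2, (-1), 0, 1]]

theorem inj_f6 [CharZero k] : Function.Injective (stdPts (qf6 k)) := by
  have h1 : ∀ s m, qf6 k s m = ((zf6 s m : ℤ) : k) := by
    intro s m
    fin_cases s <;> fin_cases m <;> simp [qf6, zf6]
  have h2 : Function.Injective (stdPts zf6) := by decide +kernel
  exact stdPts_injective_of_int _ _ h1 h2

theorem sf6_0 [CharZero k] (B : Fin 5 → Fin 5 → k) (hB : ∀ i j, B i j = B j i)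
    (c1 : ∀ s, qfun B (qf6 k s) = 0)
    (c2 : ∀ m, 2 * ∑ i, B m i * qf6 k 0 i - B m m = 0) :
    B 0 0 = 1 * (B 3 3) ∧
    2 * B 0 1 = 1 * (B 3 3) ∧
    2 * B 0 2 = 0 ∧
    2 * B 0 3 = 2 * (B 3 3) ∧
    2 * B 0 4 = (1/2) * (2 * B 3 4) + 1 * (B 4 4) ∧
    B 1 1 = 0 ∧
    2 * B 1 2 = 1 * (B 2 2) + (1/2) * (2 * B 3 4) ∧
    2 * B 1 3 = 1 * (B 3 3) ∧
    2 * B 1 4 = (1/2) * (2 * B 3 4) ∧
    2 * B 2 3 = (1/2) * (2 * B 3 4) ∧
    2 * B 2 4 = 0 := by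
  have v0 : vform B 1 1 0 (-1) 0 = 0 := (vform_eq B hB _ _ (c1 0) rfl rfl rfl rfl rfl)
  have v1 : vform B 1 0 0 (-1) 0 = 0 := (vform_eq B hB _ _ (c1 1) rfl rfl rfl rfl rfl)
  have v2 : vform B 0 0 1 0 1 = 0 := (vform_eq B hB _ _ (c1 2) rfl rfl rfl rfl rfl)
  have v3 : vform B 1 0 1 0 0 = 0 := (vform_eq B hB _ _ (c1 3) rfl rfl rfl rfl rfl)
  have v4 : vform B 0 2 0 (-1) 1 = 0 := (vform_eq B hB _ _ (c1 4) rfl rfl rfl rfl rfl)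
  have v5 : vform B 0 2 (-1) 0 1 = 0 := (vform_eq B hB _ _ (c1 5) rfl rfl rfl rfl rfl)
  have w0 : wform B 0 1 1 0 (-1) 0 = 0 := (wform_eq B 0 _ (c2 0) rfl rfl rfl rfl rfl)
  have w1 : wform B 1 1 1 0 (-1) 0 = 0 := (wform_eq B 1 _ (c2 1) rfl rfl rfl rfl rfl)
  have w2 : wform B 2 1 1 0 (-1) 0 = 0 := (wform_eq B 2 _ (c2 2) rfl rfl rfl rfl rfl)
  have w3 : wform B 3 1 1 0 (-1) 0 = 0 := (wform_eq B 3 _ (c2 3) rfl rfl rfl rfl rfl)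
  have w4 : wform B 4 1 1 0 (-1) 0 = 0 := (wform_eq B 4 _ (c2 4) rfl rfl rfl rfl rfl)
  simp only [vform, wform] at v0 v1 v2 v3 v4 v5 w0 w1 w2 w3 w4
  simp only [hB 1 0, hB 2 0, hB 3 0, hB 4 0, hB 2 1, hB 3 1, hB 4 1, hB 3 2, hB 4 2, hB 4 3] at w1 w2 w3 w4
  exact ⟨by linear_combination (-1) * v0 + (-1) * v1 + 1 * w0 + (-1) * w3,
    by linear_combination 1 * v0 + 1 * w3,
    by linear_combination 1 * v3,
    by linear_combination (-1) * v1,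
    by linear_combination (-1) * v0 + (-1/2) * v4 + 1 * w1 + (-1) * w3 + 1 * w4,
    by linear_combination (-1) * v0 + 1 * v1 + 1 * w1,
    by linear_combination 1 * v1 + (-1/2) * v2 + (1/2) * v4 + (-1/2) * v5 + 1 * w3,
    by linear_combination 1 * v1 + 1 * w3,
    by linear_combination 1 * v0 + (1/2) * v4 + (-1) * w1 + 1 * w3,
    by linear_combination 1 * v1 + (-1/2) * v2 + 1 * v3 + (1/2) * v4 + (-1/2) * v5 + (-1) * w2 + 1 * w3,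
    by linear_combination 1 * v2⟩

theorem sf6_1 [CharZero k] (B : Fin 5 → Fin 5 → k) (hB : ∀ i j, B i j = B j i)
    (c1 : ∀ s, qfun B (qf6 k s) = 0)
    (c2 : ∀ m, 2 * ∑ i, B m i * qf6 k 1 i - B m m = 0) :
    B 0 0 = 0 ∧
    2 * B 0 1 = 1 * (2 * B 1 4) + (-1/2) * (2 * B 3 4) ∧
    2 * B 0 2 = 0 ∧
    2 * B 0 3 = 0 ∧
    2 * B 0 4 = 1 * (2 * B 3 4) + 1 * (B 4 4) ∧
    B 1 1 = 0 ∧
    2 * B 1 2 = 1 * (2 * B 1 4) + (-1) * (2 * B 2 3) ∧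
    2 * B 1 3 = 1 * (2 * B 1 4) + (-1/2) * (2 * B 3 4) ∧
    B 2 2 = (-1) * (2 * B 2 3) ∧
    2 * B 2 4 = 0 ∧
    B 3 3 = 0 := by
  have v0 : vform B 1 1 0 (-1) 0 = 0 := (vform_eq B hB _ _ (c1 0) rfl rfl rfl rfl rfl)
  have v1 : vform B 1 0 0 (-1) 0 = 0 := (vform_eq B hB _ _ (c1 1) rfl rfl rfl rfl rfl)
  have v2 : vform B 0 0 1 0 1 = 0 := (vform_eq B hB _ _ (c1 2) rfl rfl rfl rfl rfl)
  have v3 : vform B 1 0 1 0 0 = 0 := (vform_eq B hB _ _ (c1 3) rfl rfl rfl rfl rfl)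
  have v4 : vform B 0 2 0 (-1) 1 = 0 := (vform_eq B hB _ _ (c1 4) rfl rfl rfl rfl rfl)
  have v5 : vform B 0 2 (-1) 0 1 = 0 := (vform_eq B hB _ _ (c1 5) rfl rfl rfl rfl rfl)
  have w0 : wform B 0 1 0 0 (-1) 0 = 0 := (wform_eq B 0 _ (c2 0) rfl rfl rfl rfl rfl)
  have w1 : wform B 1 1 0 0 (-1) 0 = 0 := (wform_eq B 1 _ (c2 1) rfl rfl rfl rfl rfl)
  have w2 : wform B 2 1 0 0 (-1) 0 = 0 := (wform_eq B 2 _ (c2 2) rfl rfl rfl rfl rfl)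
  have w3 : wform B 3 1 0 0 (-1) 0 = 0 := (wform_eq B 3 _ (c2 3) rfl rfl rfl rfl rfl)
  have w4 : wform B 4 1 0 0 (-1) 0 = 0 := (wform_eq B 4 _ (c2 4) rfl rfl rfl rfl rfl)
  simp only [vform, wform] at v0 v1 v2 v3 v4 v5 w0 w1 w2 w3 w4
  simp only [hB 1 0, hB 2 0, hB 3 0, hB 4 0, hB 2 1, hB 3 1, hB 4 1, hB 3 2, hB 4 2, hB 4 3] at w1 w2 w3 w4
  exact ⟨by linear_combination (-3) * v1 + 1 * w0 + (-2) * w3,
    by linear_combination 2 * v0 + (-3) * v1 + (-1/2) * v4 + (-1) * w1 + (-1) * w3,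
    by linear_combination 1 * v3,
    by linear_combination (-3) * v1 + (-2) * w3,
    by linear_combination 1 * w4,
    by linear_combination 1 * v0 + (-1) * v1 + (-1) * w1,
    by linear_combination 1 * v0 + (-1) * v1 + (-1/2) * v2 + 1 * v3 + (-1/2) * v5 + (-1) * w1 + (-1) * w2,
    by linear_combination 1 * v0 + (-2) * v1 + (-1/2) * v4 + (-1) * w1 + (-1) * w3,
    by linear_combination 1 * v3 + (-1) * w2,
    by linear_combination 1 * v2,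
    by linear_combination (-1) * v1 + (-1) * w3⟩

theorem sf6_2 [CharZero k] (B : Fin 5 → Fin 5 → k) (hB : ∀ i j, B i j = B j i)
    (c1 : ∀ s, qfun B (qf6 k s) = 0)
    (c2 : ∀ m, 2 * ∑ i, B m i * qf6 k 2 i - B m m = 0) :
    B 0 0 = 1 * (2 * B 0 4) ∧
    2 * B 0 1 = 1 * (2 * B 1 3) ∧
    2 * B 0 2 = 0 ∧
    2 * B 0 3 = 2 * (B 3 3) ∧
    B 1 1 = 1 * (2 * B 1 3) + (-1) * (B 3 3) + (1/2) * (2 * B 3 4) ∧
    2 * B 1 2 = 1 * (2 * B 1 3) + (-1) * (B 3 3) + (1/2) * (2 * B 3 4) ∧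
    2 * B 1 4 = 0 ∧
    B 2 2 = 0 ∧
    2 * B 2 3 = 1 * (B 3 3) + (-1) * (2 * B 3 4) ∧
    2 * B 2 4 = 0 ∧
    B 4 4 = 0 := by
  have v0 : vform B 1 1 0 (-1) 0 = 0 := (vform_eq B hB _ _ (c1 0) rfl rfl rfl rfl rfl)
  have v1 : vform B 1 0 0 (-1) 0 = 0 := (vform_eq B hB _ _ (c1 1) rfl rfl rfl rfl rfl)
  have v2 : vform B 0 0 1 0 1 = 0 := (vform_eq B hB _ _ (c1 2) rfl rfl rfl rfl rfl)
  have v3 : vform B 1 0 1 0 0 = 0 := (vform_eq B hB _ _ (c1 3) rfl rfl rfl rfl rfl)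
  have v4 : vform B 0 2 0 (-1) 1 = 0 := (vform_eq B hB _ _ (c1 4) rfl rfl rfl rfl rfl)
  have v5 : vform B 0 2 (-1) 0 1 = 0 := (vform_eq B hB _ _ (c1 5) rfl rfl rfl rfl rfl)
  have w0 : wform B 0 0 0 1 0 1 = 0 := (wform_eq B 0 _ (c2 0) rfl rfl rfl rfl rfl)
  have w1 : wform B 1 0 0 1 0 1 = 0 := (wform_eq B 1 _ (c2 1) rfl rfl rfl rfl rfl)
  have w2 : wform B 2 0 0 1 0 1 = 0 := (wform_eq B 2 _ (c2 2) rfl rfl rfl rfl rfl)
  have w3 : wform B 3 0 0 1 0 1 = 0 := (wform_eq B 3 _ (c2 3) rfl rfl rfl rfl rfl)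
  have w4 : wform B 4 0 0 1 0 1 = 0 := (wform_eq B 4 _ (c2 4) rfl rfl rfl rfl rfl)
  simp only [vform, wform] at v0 v1 v2 v3 v4 v5 w0 w1 w2 w3 w4
  simp only [hB 1 0, hB 2 0, hB 3 0, hB 4 0, hB 2 1, hB 3 1, hB 4 1, hB 3 2, hB 4 2, hB 4 3] at w1 w2 w3 w4
  exact ⟨by linear_combination 1 * v3 + (-1) * w0,
    by linear_combination 1 * v0 + (-1) * v1,
    by linear_combination 1 * v3,
    by linear_combination (-1) * v1,
    by linear_combination (-3/4) * v2 + (1/2) * v4 + (-1/4) * v5 + (-1/2) * w1 + (1/2) * w2,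
    by linear_combination (-3/2) * v2 + (1/2) * v4 + (-1/2) * v5 + 1 * w2,
    by linear_combination (3/4) * v2 + (1/4) * v5 + (1/2) * w1 + (-1/2) * w2,
    by linear_combination (-1) * v2 + 1 * w2,
    by linear_combination 1 * w3,
    by linear_combination 1 * v2,
    by linear_combination (-1) * v2 + 1 * w4⟩

theorem sf6_3 [CharZero k] (B : Fin 5 → Fin 5 → k) (hB : ∀ i j, B i j = B j i)
    (c1 : ∀ s, qfun B (qf6 k s) = 0)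
    (c2 : ∀ m, 2 * ∑ i, B m i * qf6 k 3 i - B m m = 0) :
    B 0 0 = 0 ∧
    2 * B 0 1 = (-1) * (2 * B 1 4) ∧
    2 * B 0 2 = 0 ∧
    2 * B 0 3 = 2 * (B 3 3) ∧
    2 * B 0 4 = 1 * (B 4 4) ∧
    B 1 1 = (-2) * (2 * B 1 4) + (-1) * (B 3 3) + (1/2) * (2 * B 3 4) ∧
    2 * B 1 2 = (-1) * (2 * B 1 4) + (-1) * (B 3 3) + (1/2) * (2 * B 3 4) ∧
    2 * B 1 3 = (-1) * (2 * B 1 4) ∧
    B 2 2 = 0 ∧
    2 * B 2 3 = (-1) * (B 3 3) ∧
    2 * B 2 4 = 0 := by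
  have v0 : vform B 1 1 0 (-1) 0 = 0 := (vform_eq B hB _ _ (c1 0) rfl rfl rfl rfl rfl)
  have v1 : vform B 1 0 0 (-1) 0 = 0 := (vform_eq B hB _ _ (c1 1) rfl rfl rfl rfl rfl)
  have v2 : vform B 0 0 1 0 1 = 0 := (vform_eq B hB _ _ (c1 2) rfl rfl rfl rfl rfl)
  have v3 : vform B 1 0 1 0 0 = 0 := (vform_eq B hB _ _ (c1 3) rfl rfl rfl rfl rfl)
  have v4 : vform B 0 2 0 (-1) 1 = 0 := (vform_eq B hB _ _ (c1 4) rfl rfl rfl rfl rfl)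
  have v5 : vform B 0 2 (-1) 0 1 = 0 := (vform_eq B hB _ _ (c1 5) rfl rfl rfl rfl rfl)
  have w0 : wform B 0 1 0 1 0 0 = 0 := (wform_eq B 0 _ (c2 0) rfl rfl rfl rfl rfl)
  have w1 : wform B 1 1 0 1 0 0 = 0 := (wform_eq B 1 _ (c2 1) rfl rfl rfl rfl rfl)
  have w2 : wform B 2 1 0 1 0 0 = 0 := (wform_eq B 2 _ (c2 2) rfl rfl rfl rfl rfl)
  have w3 : wform B 3 1 0 1 0 0 = 0 := (wform_eq B 3 _ (c2 3) rfl rfl rfl rfl rfl)
  have w4 : wform B 4 1 0 1 0 0 = 0 := (wform_eq B 4 _ (c2 4) rfl rfl rfl rfl rfl)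
  simp only [vform, wform] at v0 v1 v2 v3 v4 v5 w0 w1 w2 w3 w4
  simp only [hB 1 0, hB 2 0, hB 3 0, hB 4 0, hB 2 1, hB 3 1, hB 4 1, hB 3 2, hB 4 2, hB 4 3] at w1 w2 w3 w4
  exact ⟨by linear_combination (-1) * v3 + 1 * w0,
    by linear_combination (1/2) * v2 + 1 * v3 + (1/2) * v5 + 1 * w1 + (-1) * w2,
    by linear_combination 1 * v3,
    by linear_combination (-1) * v1,
    by linear_combination (-1) * v2 + 1 * w4,
    by linear_combination (-1) * v0 + 1 * v1 + (1/2) * v2 + 1 * v3 + (1/2) * v4 + (1/2) * v5 + 1 * w1 + (-1) * w2,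
    by linear_combination (-1) * v0 + 1 * v1 + (1/2) * v4 + 1 * w1,
    by linear_combination (-1) * v0 + 1 * v1 + (1/2) * v2 + 1 * v3 + (1/2) * v5 + 1 * w1 + (-1) * w2,
    by linear_combination (-1) * v3 + 1 * w2,
    by linear_combination 1 * v1 + 1 * w3,
    by linear_combination 1 * v2⟩

theorem sf6_4 [CharZero k] (B : Fin 5 → Fin 5 → k) (hB : ∀ i j, B i j = B j i)
    (c1 : ∀ s, qfun B (qf6 k s) = 0)
    (c2 : ∀ m, 2 * ∑ i, B m i * qf6 k 4 i - B m m = 0) :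
    B 0 0 = 1 * (2 * B 0 4) + 1 * (B 3 3) + (-2) * (B 4 4) ∧
    2 * B 0 1 = (3/2) * (B 3 3) + (-1) * (B 4 4) ∧
    2 * B 0 2 = 0 ∧
    2 * B 0 3 = 2 * (B 3 3) ∧
    B 1 1 = (1/2) * (B 3 3) + (-1/2) * (B 4 4) ∧
    2 * B 1 2 = 1 * (2 * B 2 3) + (-1/2) * (B 3 3) ∧
    2 * B 1 3 = (3/2) * (B 3 3) + (-1) * (B 4 4) ∧
    2 * B 1 4 = (1/2) * (B 4 4) ∧
    B 2 2 = 1 * (2 * B 2 3) + (-1) * (B 3 3) ∧
    2 * B 2 4 = 0 ∧
    2 * B 3 4 = 2 * (B 4 4) := by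
  have v0 : vform B 1 1 0 (-1) 0 = 0 := (vform_eq B hB _ _ (c1 0) rfl rfl rfl rfl rfl)
  have v1 : vform B 1 0 0 (-1) 0 = 0 := (vform_eq B hB _ _ (c1 1) rfl rfl rfl rfl rfl)
  have v2 : vform B 0 0 1 0 1 = 0 := (vform_eq B hB _ _ (c1 2) rfl rfl rfl rfl rfl)
  have v3 : vform B 1 0 1 0 0 = 0 := (vform_eq B hB _ _ (c1 3) rfl rfl rfl rfl rfl)
  have v4 : vform B 0 2 0 (-1) 1 = 0 := (vform_eq B hB _ _ (c1 4) rfl rfl rfl rfl rfl)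
  have v5 : vform B 0 2 (-1) 0 1 = 0 := (vform_eq B hB _ _ (c1 5) rfl rfl rfl rfl rfl)
  have w0 : wform B 0 0 2 0 (-1) 1 = 0 := (wform_eq B 0 _ (c2 0) rfl rfl rfl rfl rfl)
  have w1 : wform B 1 0 2 0 (-1) 1 = 0 := (wform_eq B 1 _ (c2 1) rfl rfl rfl rfl rfl)
  have w2 : wform B 2 0 2 0 (-1) 1 = 0 := (wform_eq B 2 _ (c2 2) rfl rfl rfl rfl rfl)
  have w3 : wform B 3 0 2 0 (-1) 1 = 0 := (wform_eq B 3 _ (c2 3) rfl rfl rfl rfl rfl)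
  have w4 : wform B 4 0 2 0 (-1) 1 = 0 := (wform_eq B 4 _ (c2 4) rfl rfl rfl rfl rfl)
  simp only [vform, wform] at v0 v1 v2 v3 v4 v5 w0 w1 w2 w3 w4
  simp only [hB 1 0, hB 2 0, hB 3 0, hB 4 0, hB 2 1, hB 3 1, hB 4 1, hB 3 2, hB 4 2, hB 4 3] at w1 w2 w3 w4
  exact ⟨by linear_combination 2 * v0 + (-1) * v1 + (-3) * v4 + (-1) * w0 + 2 * w1 + (-1) * w3 + 2 * w4,
    by linear_combination 1 * v0 + (-1) * v1 + (-3/2) * v4 + 1 * w1 + (-1/2) * w3 + 1 * w4,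
    by linear_combination 1 * v3,
    by linear_combination (-1) * v1,
    by linear_combination (-1) * v4 + 1 * w1 + (-1/2) * w3 + (1/2) * w4,
    by linear_combination (-1/2) * v2 + (-1/2) * v4 + (1/2) * v5 + 1 * w2 + (-1/2) * w3,
    by linear_combination (-3/2) * v4 + 1 * w1 + (-1/2) * w3 + 1 * w4,
    by linear_combination (3/2) * v4 + (-1) * w1 + 1 * w3 + (-1/2) * w4,
    by linear_combination (-1) * v4 + 1 * v5 + 1 * w2 + (-1) * w3,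
    by linear_combination 1 * v2,
    by linear_combination 3 * v4 + (-2) * w1 + 2 * w3 + (-2) * w4⟩

theorem sf6_5 [CharZero k] (B : Fin 5 → Fin 5 → k) (hB : ∀ i j, B i j = B j i)
    (c1 : ∀ s, qfun B (qf6 k s) = 0)
    (c2 : ∀ m, 2 * ∑ i, B m i * qf6 k 5 i - B m m = 0) :
    B 0 0 = 1 * (2 * B 0 4) + 1 * (2 * B 2 3) + 1 * (B 3 3) + (-1) * (2 * B 3 4) ∧
    2 * B 0 1 = (1/2) * (2 * B 2 3) + (1/2) * (B 3 3) + (-1/2) * (2 * B 3 4) ∧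
    2 * B 0 2 = 0 ∧
    2 * B 0 3 = 2 * (B 3 3) ∧
    B 1 1 = (1/2) * (2 * B 2 3) + (-1/2) * (B 3 3) ∧
    2 * B 1 2 = (3/2) * (2 * B 2 3) + (-3/2) * (B 3 3) ∧
    2 * B 1 3 = (1/2) * (2 * B 2 3) + (1/2) * (B 3 3) + (-1/2) * (2 * B 3 4) ∧
    2 * B 1 4 = 0 ∧
    B 2 2 = 1 * (2 * B 2 3) + (-1) * (B 3 3) ∧
    2 * B 2 4 = 0 ∧
    B 4 4 = 0 := by
  have v0 : vform B 1 1 0 (-1) 0 = 0 := (vform_eq B hB _ _ (c1 0) rfl rfl rfl rfl rfl)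
  have v1 : vform B 1 0 0 (-1) 0 = 0 := (vform_eq B hB _ _ (c1 1) rfl rfl rfl rfl rfl)
  have v2 : vform B 0 0 1 0 1 = 0 := (vform_eq B hB _ _ (c1 2) rfl rfl rfl rfl rfl)
  have v3 : vform B 1 0 1 0 0 = 0 := (vform_eq B hB _ _ (c1 3) rfl rfl rfl rfl rfl)
  have v4 : vform B 0 2 0 (-1) 1 = 0 := (vform_eq B hB _ _ (c1 4) rfl rfl rfl rfl rfl)
  have v5 : vform B 0 2 (-1) 0 1 = 0 := (vform_eq B hB _ _ (c1 5) rfl rfl rfl rfl rfl)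
  have w0 : wform B 0 0 2 (-1) 0 1 = 0 := (wform_eq B 0 _ (c2 0) rfl rfl rfl rfl rfl)
  have w1 : wform B 1 0 2 (-1) 0 1 = 0 := (wform_eq B 1 _ (c2 1) rfl rfl rfl rfl rfl)
  have w2 : wform B 2 0 2 (-1) 0 1 = 0 := (wform_eq B 2 _ (c2 2) rfl rfl rfl rfl rfl)
  have w3 : wform B 3 0 2 (-1) 0 1 = 0 := (wform_eq B 3 _ (c2 3) rfl rfl rfl rfl rfl)
  have w4 : wform B 4 0 2 (-1) 0 1 = 0 := (wform_eq B 4 _ (c2 4) rfl rfl rfl rfl rfl)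
  simp only [vform, wform] at v0 v1 v2 v3 v4 v5 w0 w1 w2 w3 w4
  simp only [hB 1 0, hB 2 0, hB 3 0, hB 4 0, hB 2 1, hB 3 1, hB 4 1, hB 3 2, hB 4 2, hB 4 3] at w1 w2 w3 w4
  exact ⟨by linear_combination 2 * v0 + (-2) * v1 + (-1) * v3 + (-1) * w0 + 1 * w3,
    by linear_combination 1 * v0 + (-1) * v1 + (1/2) * w3,
    by linear_combination 1 * v3,
    by linear_combination (-1) * v1,
    by linear_combination (-1/4) * v2 + (1/2) * v4 + (-3/4) * v5 + (1/2) * w1 + (-1/2) * w2 + (1/2) * w3,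
    by linear_combination (-1/2) * v2 + (3/2) * v4 + (-3/2) * v5 + (-1) * w2 + (3/2) * w3,
    by linear_combination (1/2) * w3,
    by linear_combination (1/4) * v2 + (3/4) * v5 + (-1/2) * w1 + (1/2) * w2,
    by linear_combination 1 * v4 + (-1) * v5 + (-1) * w2 + 1 * w3,
    by linear_combination 1 * v2,
    by linear_combination (1/2) * v2 + (-3/2) * v5 + 1 * w1 + (-1) * w2 + 1 * w4⟩

theorem VC_five_6 [CharZero k] : VC 5 (1 + 5 + 6) k ⊆ Smoothable 5 (1 + 5 + 6) k := by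
  refine VC_subset_of_sys (qf6 k) ?_ ?_
  · exact inj_f6
  · intro B hB c1 c2 c3
    obtain ⟨p0_0, p0_1, p0_2, p0_3, p0_4, p0_5, p0_6, p0_7, p0_8, p0_10, p0_11⟩ := sf6_0 (B 0) (hB 0) (c1 0) (c2 0)
    obtain ⟨p1_0, p1_1, p1_2, p1_3, p1_4, p1_5, p1_6, p1_7, p1_9, p1_11, p1_12⟩ := sf6_1 (B 1) (hB 1) (c1 1) (c2 1)
    obtain ⟨p2_0, p2_1, p2_2, p2_3, p2_5, p2_6, p2_8, p2_9, p2_10, p2_11, p2_14⟩ := sf6_2 (B 2) (hB 2) (c1 2) (c2 2)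
    obtain ⟨p3_0, p3_1, p3_2, p3_3, p3_4, p3_5, p3_6, p3_7, p3_9, p3_10, p3_11⟩ := sf6_3 (B 3) (hB 3) (c1 3) (c2 3)
    obtain ⟨p4_0, p4_1, p4_2, p4_3, p4_5, p4_6, p4_7, p4_8, p4_9, p4_11, p4_13⟩ := sf6_4 (B 4) (hB 4) (c1 4) (c2 4)
    obtain ⟨p5_0, p5_1, p5_2, p5_3, p5_5, p5_6, p5_7, p5_8, p5_9, p5_11, p5_14⟩ := sf6_5 (B 5) (hB 5) (c1 5) (c2 5)
    have g0_0 : 1 * (B 0 3 3) = 0 := by
      have h : 1 * (B 0 0 0 - 2 * B 0 0 0) + 1 * (B 1 0 0 - 2 * B 1 0 0) + 0 * (B 2 0 0 - 2 * B 2 0 0) + 1 * (B 3 0 0 - 2 * B 3 0 0) + 0 * (B 4 0 0 - 2 * B 4 0 0) + 0 * (B 5 0 0 - 2 * B 5 0 0) = 0 := by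
        have := c3 0 0
        rw [Fin.sum_univ_six] at this
        exact this
      linear_combination (-1) * h + (-1) * p0_0 + (-1) * p1_0 + (-1) * p3_0
    have g1_0 : 1 * (B 0 3 3) + 1 * (2 * B 1 1 4) + (-1/2) * (2 * B 1 3 4) + 1 * (2 * B 3 1 4) + 1 * (B 3 3 3) + (-1/2) * (2 * B 3 3 4) = 0 := by
      have h : 1 * (B 0 1 1 - 2 * B 0 1 0) + 1 * (B 1 1 1 - 2 * B 1 1 0) + 0 * (B 2 1 1 - 2 * B 2 1 0) + 1 * (B 3 1 1 - 2 * B 3 1 0) + 0 * (B 4 1 1 - 2 * B 4 1 0) + 0 * (B 5 1 1 - 2 * B 5 1 0) = 0 := by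
        have := c3 1 0
        rw [Fin.sum_univ_six] at this
        exact this
      rw [hB 0 1 0, hB 1 1 0, hB 2 1 0, hB 3 1 0, hB 4 1 0, hB 5 1 0] at h
      linear_combination (-1) * h + (-1) * p0_1 + 1 * p0_5 + (-1) * p1_1 + 1 * p1_5 + (-1) * p3_1 + 1 * p3_5
    have g2_0 : (-1) * (B 0 2 2) + 1 * (2 * B 1 2 3) = 0 := by
      have h : 1 * (B 0 2 2 - 2 * B 0 2 0) + 1 * (B 1 2 2 - 2 * B 1 2 0) + 0 * (B 2 2 2 - 2 * B 2 2 0) + 1 * (B 3 2 2 - 2 * B 3 2 0) + 0 * (B 4 2 2 - 2 * B 4 2 0) + 0 * (B 5 2 2 - 2 * B 5 2 0) = 0 := by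
        have := c3 2 0
        rw [Fin.sum_univ_six] at this
        exact this
      rw [hB 0 2 0, hB 1 2 0, hB 2 2 0, hB 3 2 0, hB 4 2 0, hB 5 2 0] at h
      linear_combination (-1) * h + (-1) * p0_2 + (-1) * p1_2 + 1 * p1_9 + (-1) * p3_2 + 1 * p3_9
    have g3_0 : 1 * (B 0 3 3) + 1 * (B 3 3 3) = 0 := by
      have h : 1 * (B 0 3 3 - 2 * B 0 3 0) + 1 * (B 1 3 3 - 2 * B 1 3 0) + 0 * (B 2 3 3 - 2 * B 2 3 0) + 1 * (B 3 3 3 - 2 * B 3 3 0) + 0 * (B 4 3 3 - 2 * B 4 3 0) + 0 * (B 5 3 3 - 2 * B 5 3 0) = 0 := by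
        have := c3 3 0
        rw [Fin.sum_univ_six] at this
        exact this
      rw [hB 0 3 0, hB 1 3 0, hB 2 3 0, hB 3 3 0, hB 4 3 0, hB 5 3 0] at h
      linear_combination (-1) * h + (-1) * p0_3 + (-1) * p1_3 + 1 * p1_12 + (-1) * p3_3
    have g4_0 : (1/2) * (2 * B 0 3 4) + 1 * (2 * B 1 3 4) = 0 := by
      have h : 1 * (B 0 4 4 - 2 * B 0 4 0) + 1 * (B 1 4 4 - 2 * B 1 4 0) + 0 * (B 2 4 4 - 2 * B 2 4 0) + 1 * (B 3 4 4 - 2 * B 3 4 0) + 0 * (B 4 4 4 - 2 * B 4 4 0) + 0 * (B 5 4 4 - 2 * B 5 4 0) = 0 := by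
        have := c3 4 0
        rw [Fin.sum_univ_six] at this
        exact this
      rw [hB 0 4 0, hB 1 4 0, hB 2 4 0, hB 3 4 0, hB 4 4 0, hB 5 4 0] at h
      linear_combination (-1) * h + (-1) * p0_4 + (-1) * p1_4 + (-1) * p3_4
    have g0_1 : (-2) * (2 * B 4 0 4) + 1 * (B 4 3 3) + 2 * (B 4 4 4) + (-2) * (2 * B 5 0 4) + (-1) * (2 * B 5 2 3) + (-1) * (B 5 3 3) + 1 * (2 * B 5 3 4) = 0 := by
      have h : 1 * (B 0 0 0 - 2 * B 0 0 1) + 0 * (B 1 0 0 - 2 * B 1 0 1) + 0 * (B 2 0 0 - 2 * B 2 0 1) + 0 * (B 3 0 0 - 2 * B 3 0 1) + 2 * (B 4 0 0 - 2 * B 4 0 1) + 2 * (B 5 0 0 - 2 * B 5 0 1) = 0 := by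
        have := c3 0 1
        rw [Fin.sum_univ_six] at this
        exact this
      linear_combination (-1) * h + 1 * p0_0 + (-1) * p0_1 + 2 * p4_0 + (-2) * p4_1 + 2 * p5_0 + (-2) * p5_1
    have g1_1 : 1 * (B 4 3 3) + (-1) * (B 4 4 4) + 1 * (2 * B 5 2 3) + (-1) * (B 5 3 3) = 0 := by
      have h : 1 * (B 0 1 1 - 2 * B 0 1 1) + 0 * (B 1 1 1 - 2 * B 1 1 1) + 0 * (B 2 1 1 - 2 * B 2 1 1) + 0 * (B 3 1 1 - 2 * B 3 1 1) + 2 * (B 4 1 1 - 2 * B 4 1 1) + 2 * (B 5 1 1 - 2 * B 5 1 1) = 0 := by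
        have := c3 1 1
        rw [Fin.sum_univ_six] at this
        exact this
      linear_combination (-1) * h + (-1) * p0_5 + (-2) * p4_5 + (-2) * p5_5
    have g2_1 : (1/2) * (2 * B 0 3 4) + 1 * (B 4 3 3) + 1 * (2 * B 5 2 3) + (-1) * (B 5 3 3) = 0 := by
      have h : 1 * (B 0 2 2 - 2 * B 0 2 1) + 0 * (B 1 2 2 - 2 * B 1 2 1) + 0 * (B 2 2 2 - 2 * B 2 2 1) + 0 * (B 3 2 2 - 2 * B 3 2 1) + 2 * (B 4 2 2 - 2 * B 4 2 1) + 2 * (B 5 2 2 - 2 * B 5 2 1) = 0 := by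
        have := c3 2 1
        rw [Fin.sum_univ_six] at this
        exact this
      rw [hB 0 2 1, hB 1 2 1, hB 2 2 1, hB 3 2 1, hB 4 2 1, hB 5 2 1] at h
      linear_combination (-1) * h + (-1) * p0_6 + (-2) * p4_6 + 2 * p4_9 + (-2) * p5_6 + 2 * p5_9
    have g3_1 : 1 * (B 4 3 3) + (-2) * (B 4 4 4) + 1 * (2 * B 5 2 3) + (-1) * (B 5 3 3) + (-1) * (2 * B 5 3 4) = 0 := by
      have h : 1 * (B 0 3 3 - 2 * B 0 3 1) + 0 * (B 1 3 3 - 2 * B 1 3 1) + 0 * (B 2 3 3 - 2 * B 2 3 1) + 0 * (B 3 3 3 - 2 * B 3 3 1) + 2 * (B 4 3 3 - 2 * B 4 3 1) + 2 * (B 5 3 3 - 2 * B 5 3 1) = 0 := by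
        have := c3 3 1
        rw [Fin.sum_univ_six] at this
        exact this
      rw [hB 0 3 1, hB 1 3 1, hB 2 3 1, hB 3 3 1, hB 4 3 1, hB 5 3 1] at h
      linear_combination (-1) * h + (-1) * p0_7 + (-2) * p4_7 + (-2) * p5_7
    have g4_1 : (1/2) * (2 * B 0 3 4) + (-1) * (B 0 4 4) + (-1) * (B 4 4 4) = 0 := by
      have h : 1 * (B 0 4 4 - 2 * B 0 4 1) + 0 * (B 1 4 4 - 2 * B 1 4 1) + 0 * (B 2 4 4 - 2 * B 2 4 1) + 0 * (B 3 4 4 - 2 * B 3 4 1) + 2 * (B 4 4 4 - 2 * B 4 4 1) + 2 * (B 5 4 4 - 2 * B 5 4 1) = 0 := by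
        have := c3 4 1
        rw [Fin.sum_univ_six] at this
        exact this
      rw [hB 0 4 1, hB 1 4 1, hB 2 4 1, hB 3 4 1, hB 4 4 1, hB 5 4 1] at h
      linear_combination (-1) * h + (-1) * p0_8 + (-2) * p4_8 + (-2) * p5_8 + 2 * p5_14
    have g0_2 : (-1) * (2 * B 2 0 4) + 1 * (2 * B 5 0 4) + 1 * (2 * B 5 2 3) + 1 * (B 5 3 3) + (-1) * (2 * B 5 3 4) = 0 := by
      have h : 0 * (B 0 0 0 - 2 * B 0 0 2) + 0 * (B 1 0 0 - 2 * B 1 0 2) + 1 * (B 2 0 0 - 2 * B 2 0 2) + 1 * (B 3 0 0 - 2 * B 3 0 2) + 0 * (B 4 0 0 - 2 * B 4 0 2) + (-1) * (B 5 0 0 - 2 * B 5 0 2) = 0 := by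
        have := c3 0 2
        rw [Fin.sum_univ_six] at this
        exact this
      linear_combination (-1) * h + 1 * p2_0 + (-1) * p2_2 + 1 * p3_0 + (-1) * p3_2 + (-1) * p5_0 + 1 * p5_2
    have g1_2 : 1 * (2 * B 3 1 4) + (-1) * (2 * B 5 2 3) + 1 * (B 5 3 3) = 0 := by
      have h : 0 * (B 0 1 1 - 2 * B 0 1 2) + 0 * (B 1 1 1 - 2 * B 1 1 2) + 1 * (B 2 1 1 - 2 * B 2 1 2) + 1 * (B 3 1 1 - 2 * B 3 1 2) + 0 * (B 4 1 1 - 2 * B 4 1 2) + (-1) * (B 5 1 1 - 2 * B 5 1 2) = 0 := by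
        have := c3 1 2
        rw [Fin.sum_univ_six] at this
        exact this
      linear_combination (-1) * h + 1 * p2_5 + (-1) * p2_6 + 1 * p3_5 + (-1) * p3_6 + (-1) * p5_5 + 1 * p5_6
    have g2_2 : (-1) * (2 * B 5 2 3) + 1 * (B 5 3 3) = 0 := by
      have h : 0 * (B 0 2 2 - 2 * B 0 2 2) + 0 * (B 1 2 2 - 2 * B 1 2 2) + 1 * (B 2 2 2 - 2 * B 2 2 2) + 1 * (B 3 2 2 - 2 * B 3 2 2) + 0 * (B 4 2 2 - 2 * B 4 2 2) + (-1) * (B 5 2 2 - 2 * B 5 2 2) = 0 := by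
        have := c3 2 2
        rw [Fin.sum_univ_six] at this
        exact this
      linear_combination (-1) * h + (-1) * p2_9 + (-1) * p3_9 + 1 * p5_9
    have g3_2 : (-1) * (2 * B 2 3 4) + (-2) * (B 3 3 3) + (-1) * (2 * B 5 2 3) + 1 * (B 5 3 3) = 0 := by
      have h : 0 * (B 0 3 3 - 2 * B 0 3 2) + 0 * (B 1 3 3 - 2 * B 1 3 2) + 1 * (B 2 3 3 - 2 * B 2 3 2) + 1 * (B 3 3 3 - 2 * B 3 3 2) + 0 * (B 4 3 3 - 2 * B 4 3 2) + (-1) * (B 5 3 3 - 2 * B 5 3 2) = 0 := by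
        have := c3 3 2
        rw [Fin.sum_univ_six] at this
        exact this
      rw [hB 0 3 2, hB 1 3 2, hB 2 3 2, hB 3 3 2, hB 4 3 2, hB 5 3 2] at h
      linear_combination (-1) * h + (-1) * p2_10 + (-1) * p3_10
    have g4_2 : (-1) * (B 3 4 4) = 0 := by
      have h : 0 * (B 0 4 4 - 2 * B 0 4 2) + 0 * (B 1 4 4 - 2 * B 1 4 2) + 1 * (B 2 4 4 - 2 * B 2 4 2) + 1 * (B 3 4 4 - 2 * B 3 4 2) + 0 * (B 4 4 4 - 2 * B 4 4 2) + (-1) * (B 5 4 4 - 2 * B 5 4 2) = 0 := by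
        have := c3 4 2
        rw [Fin.sum_univ_six] at this
        exact this
      rw [hB 0 4 2, hB 1 4 2, hB 2 4 2, hB 3 4 2, hB 4 4 2, hB 5 4 2] at h
      linear_combination (-1) * h + (-1) * p2_11 + 1 * p2_14 + (-1) * p3_11 + 1 * p5_11 + (-1) * p5_14
    have g0_3 : (-1) * (B 0 3 3) + 1 * (2 * B 4 0 4) + (-1) * (B 4 3 3) + (-2) * (B 4 4 4) = 0 := by
      have h : (-1) * (B 0 0 0 - 2 * B 0 0 3) + (-1) * (B 1 0 0 - 2 * B 1 0 3) + 0 * (B 2 0 0 - 2 * B 2 0 3) + 0 * (B 3 0 0 - 2 * B 3 0 3) + (-1) * (B 4 0 0 - 2 * B 4 0 3) + 0 * (B 5 0 0 - 2 * B 5 0 3) = 0 := by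
        have := c3 0 3
        rw [Fin.sum_univ_six] at this
        exact this
      linear_combination (-1) * h + (-1) * p0_0 + 1 * p0_3 + (-1) * p1_0 + 1 * p1_3 + (-1) * p4_0 + 1 * p4_3
    have g1_3 : (-1) * (B 0 3 3) + (-1) * (2 * B 1 1 4) + (1/2) * (2 * B 1 3 4) + (-1) * (B 4 3 3) + (1/2) * (B 4 4 4) = 0 := by
      have h : (-1) * (B 0 1 1 - 2 * B 0 1 3) + (-1) * (B 1 1 1 - 2 * B 1 1 3) + 0 * (B 2 1 1 - 2 * B 2 1 3) + 0 * (B 3 1 1 - 2 * B 3 1 3) + (-1) * (B 4 1 1 - 2 * B 4 1 3) + 0 * (B 5 1 1 - 2 * B 5 1 3) = 0 := by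
        have := c3 1 3
        rw [Fin.sum_univ_six] at this
        exact this
      linear_combination (-1) * h + (-1) * p0_5 + 1 * p0_7 + (-1) * p1_5 + 1 * p1_7 + (-1) * p4_5 + 1 * p4_7
    have g2_3 : 1 * (B 0 2 2) + (-1/2) * (2 * B 0 3 4) + (-2) * (2 * B 1 2 3) + (-1) * (B 4 3 3) = 0 := by
      have h : (-1) * (B 0 2 2 - 2 * B 0 2 3) + (-1) * (B 1 2 2 - 2 * B 1 2 3) + 0 * (B 2 2 2 - 2 * B 2 2 3) + 0 * (B 3 2 2 - 2 * B 3 2 3) + (-1) * (B 4 2 2 - 2 * B 4 2 3) + 0 * (B 5 2 2 - 2 * B 5 2 3) = 0 := by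
        have := c3 2 3
        rw [Fin.sum_univ_six] at this
        exact this
      linear_combination (-1) * h + 1 * p0_10 + (-1) * p1_9 + (-1) * p4_9
    have g3_3 : (-1) * (B 0 3 3) + (-1) * (B 4 3 3) = 0 := by
      have h : (-1) * (B 0 3 3 - 2 * B 0 3 3) + (-1) * (B 1 3 3 - 2 * B 1 3 3) + 0 * (B 2 3 3 - 2 * B 2 3 3) + 0 * (B 3 3 3 - 2 * B 3 3 3) + (-1) * (B 4 3 3 - 2 * B 4 3 3) + 0 * (B 5 3 3 - 2 * B 5 3 3) = 0 := by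
        have := c3 3 3
        rw [Fin.sum_univ_six] at this
        exact this
      linear_combination (-1) * h + 1 * p1_12
    have g4_3 : (-1) * (2 * B 0 3 4) + 1 * (B 0 4 4) + (-1) * (2 * B 1 3 4) + 1 * (B 1 4 4) + (-1) * (B 4 4 4) = 0 := by
      have h : (-1) * (B 0 4 4 - 2 * B 0 4 3) + (-1) * (B 1 4 4 - 2 * B 1 4 3) + 0 * (B 2 4 4 - 2 * B 2 4 3) + 0 * (B 3 4 4 - 2 * B 3 4 3) + (-1) * (B 4 4 4 - 2 * B 4 4 3) + 0 * (B 5 4 4 - 2 * B 5 4 3) = 0 := by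
        have := c3 4 3
        rw [Fin.sum_univ_six] at this
        exact this
      rw [hB 0 4 3, hB 1 4 3, hB 2 4 3, hB 3 4 3, hB 4 4 3, hB 5 4 3] at h
      linear_combination (-1) * h + 1 * p4_13
    have g0_4 : (-1) * (B 4 3 3) + 2 * (B 4 4 4) + (-1) * (2 * B 5 2 3) + (-1) * (B 5 3 3) + 1 * (2 * B 5 3 4) = 0 := by
      have h : 0 * (B 0 0 0 - 2 * B 0 0 4) + 0 * (B 1 0 0 - 2 * B 1 0 4) + 1 * (B 2 0 0 - 2 * B 2 0 4) + 0 * (B 3 0 0 - 2 * B 3 0 4) + 1 * (B 4 0 0 - 2 * B 4 0 4) + 1 * (B 5 0 0 - 2 * B 5 0 4) = 0 := by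
        have := c3 0 4
        rw [Fin.sum_univ_six] at this
        exact this
      linear_combination (-1) * h + 1 * p2_0 + 1 * p4_0 + 1 * p5_0
    have g1_4 : (-1) * (2 * B 2 1 3) + 1 * (B 2 3 3) + (-1/2) * (2 * B 2 3 4) + (-1/2) * (B 4 3 3) + 1 * (B 4 4 4) + (-1/2) * (2 * B 5 2 3) + (1/2) * (B 5 3 3) = 0 := by
      have h : 0 * (B 0 1 1 - 2 * B 0 1 4) + 0 * (B 1 1 1 - 2 * B 1 1 4) + 1 * (B 2 1 1 - 2 * B 2 1 4) + 0 * (B 3 1 1 - 2 * B 3 1 4) + 1 * (B 4 1 1 - 2 * B 4 1 4) + 1 * (B 5 1 1 - 2 * B 5 1 4) = 0 := by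
        have := c3 1 4
        rw [Fin.sum_univ_six] at this
        exact this
      linear_combination (-1) * h + 1 * p2_5 + (-1) * p2_8 + 1 * p4_5 + (-1) * p4_8 + 1 * p5_5 + (-1) * p5_8
    have g2_4 : (-1) * (2 * B 4 2 3) + 1 * (B 4 3 3) + (-1) * (2 * B 5 2 3) + 1 * (B 5 3 3) = 0 := by
      have h : 0 * (B 0 2 2 - 2 * B 0 2 4) + 0 * (B 1 2 2 - 2 * B 1 2 4) + 1 * (B 2 2 2 - 2 * B 2 2 4) + 0 * (B 3 2 2 - 2 * B 3 2 4) + 1 * (B 4 2 2 - 2 * B 4 2 4) + 1 * (B 5 2 2 - 2 * B 5 2 4) = 0 := by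
        have := c3 2 4
        rw [Fin.sum_univ_six] at this
        exact this
      linear_combination (-1) * h + 1 * p2_9 + (-1) * p2_11 + 1 * p4_9 + (-1) * p4_11 + 1 * p5_9 + (-1) * p5_11
    have g3_4 : (-1) * (B 2 3 3) + 1 * (2 * B 2 3 4) + (-1) * (B 4 3 3) + 2 * (B 4 4 4) + (-1) * (B 5 3 3) + 1 * (2 * B 5 3 4) = 0 := by
      have h : 0 * (B 0 3 3 - 2 * B 0 3 4) + 0 * (B 1 3 3 - 2 * B 1 3 4) + 1 * (B 2 3 3 - 2 * B 2 3 4) + 0 * (B 3 3 3 - 2 * B 3 3 4) + 1 * (B 4 3 3 - 2 * B 4 3 4) + 1 * (B 5 3 3 - 2 * B 5 3 4) = 0 := by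
        have := c3 3 4
        rw [Fin.sum_univ_six] at this
        exact this
      linear_combination (-1) * h + (-1) * p4_13
    have g4_4 : 1 * (B 4 4 4) = 0 := by
      have h : 0 * (B 0 4 4 - 2 * B 0 4 4) + 0 * (B 1 4 4 - 2 * B 1 4 4) + 1 * (B 2 4 4 - 2 * B 2 4 4) + 0 * (B 3 4 4 - 2 * B 3 4 4) + 1 * (B 4 4 4 - 2 * B 4 4 4) + 1 * (B 5 4 4 - 2 * B 5 4 4) = 0 := by
        have := c3 4 4
        rw [Fin.sum_univ_six] at this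
        exact this
      linear_combination (-1) * h + (-1) * p2_14 + (-1) * p5_14
    have z0_2_2 : B 0 2 2 = 0 := by
      linear_combination (-2) * g2_0 + (-1) * g2_1 + (-1) * g2_2 + (-1) * g2_3
    have z0_3_3 : B 0 3 3 = 0 := by
      linear_combination 1 * g0_0
    have z0_3_4 : B 0 3 4 = 0 := by
      linear_combination 1 * g0_0 + 1 * g2_1 + 1 * g2_2 + 1 * g3_3
    have z0_4_4 : B 0 4 4 = 0 := by
      linear_combination 1 * g0_0 + 1 * g2_1 + (-1) * g4_1 + 1 * g2_2 + 1 * g3_3 + (-1) * g4_4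
    have z1_1_4 : B 1 1 4 = 0 := by
      linear_combination (-1/4) * g0_0 + (1/4) * g4_0 + (-1/4) * g2_1 + (-1/4) * g2_2 + (-1/2) * g1_3 + (1/4) * g3_3 + (1/4) * g4_4
    have z1_2_3 : B 1 2 3 = 0 := by
      linear_combination (-1/2) * g2_0 + (-1/2) * g2_1 + (-1/2) * g2_2 + (-1/2) * g2_3
    have z1_3_4 : B 1 3 4 = 0 := by
      linear_combination (-1/2) * g0_0 + (1/2) * g4_0 + (-1/2) * g2_1 + (-1/2) * g2_2 + (-1/2) * g3_3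
    have z1_4_4 : B 1 4 4 = 0 := by
      linear_combination 1 * g4_0 + 1 * g4_1 + 1 * g4_3 + 2 * g4_4
    have z2_0_4 : B 2 0 4 = 0 := by
      linear_combination (-1/4) * g0_1 + (-1/2) * g0_2 + (-1/2) * g0_3 + (1/2) * g3_3 + (-1/4) * g0_4
    have z2_1_3 : B 2 1 3 = 0 := by
      linear_combination (3/4) * g0_0 + (-1/2) * g3_0 + (-1/4) * g3_1 + (-1/4) * g3_2 + (1/4) * g3_3 + (1/4) * g0_4 + (-1/2) * g1_4 + (-1/2) * g3_4 + (1/2) * g4_4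
    have z2_3_3 : B 2 3 3 = 0 := by
      linear_combination 2 * g0_0 + (-2) * g3_0 + (-1/2) * g3_1 + (-1) * g3_2 + (1/2) * g0_4 + (-1) * g3_4
    have z2_3_4 : B 2 3 4 = 0 := by
      linear_combination 1 * g0_0 + (-1) * g3_0 + (1/2) * g2_2 + (-1/2) * g3_2
    have z3_1_4 : B 3 1 4 = 0 := by
      linear_combination (1/2) * g1_2 + (-1/2) * g2_2
    have z3_3_3 : B 3 3 3 = 0 := by
      linear_combination (-1) * g0_0 + 1 * g3_0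
    have z3_3_4 : B 3 3 4 = 0 := by
      linear_combination (-1) * g1_0 + 1 * g3_0 + 1 * g1_2 + (-1) * g2_2 + (-1) * g1_3 + 1 * g3_3 + (1/2) * g4_4
    have z3_4_4 : B 3 4 4 = 0 := by
      linear_combination (-1) * g4_2
    have z4_0_4 : B 4 0 4 = 0 := by
      linear_combination (1/2) * g0_3 + (-1/2) * g3_3 + 1 * g4_4
    have z4_2_3 : B 4 2 3 = 0 := by
      linear_combination (-1/2) * g0_0 + (1/2) * g2_2 + (-1/2) * g3_3 + (-1/2) * g2_4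
    have z4_3_3 : B 4 3 3 = 0 := by
      linear_combination (-1) * g0_0 + (-1) * g3_3
    have z4_4_4 : B 4 4 4 = 0 := by
      linear_combination 1 * g4_4
    have z5_0_4 : B 5 0 4 = 0 := by
      linear_combination (-1/2) * g0_0 + (-1/4) * g0_1 + (-1/2) * g0_3 + (1/4) * g0_4 + (-1) * g4_4
    have z5_2_3 : B 5 2 3 = 0 := by
      linear_combination (-1/4) * g3_1 + (-1/2) * g2_2 + (-1/4) * g0_4
    have z5_3_3 : B 5 3 3 = 0 := by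
      linear_combination (-1/2) * g3_1 + (-1/2) * g0_4
    have z5_3_4 : B 5 3 4 = 0 := by
      linear_combination (-1/2) * g0_0 + (-1/2) * g3_1 + (-1/2) * g2_2 + (-1/2) * g3_3 + (-1) * g4_4
    have z0_0_0 : B 0 0 0 = 0 := by
      linear_combination 1 * p0_0 + 1 * z0_3_3
    have z0_0_1 : B 0 0 1 = 0 := by
      linear_combination (1/2) * p0_1 + (1/2) * z0_3_3
    have z0_0_2 : B 0 0 2 = 0 := by
      linear_combination (1/2) * p0_2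
    have z0_0_3 : B 0 0 3 = 0 := by
      linear_combination (1/2) * p0_3 + 1 * z0_3_3
    have z0_0_4 : B 0 0 4 = 0 := by
      linear_combination (1/2) * p0_4 + (1/2) * z0_3_4 + (1/2) * z0_4_4
    have z0_1_1 : B 0 1 1 = 0 := by
      linear_combination 1 * p0_5
    have z0_1_2 : B 0 1 2 = 0 := by
      linear_combination (1/2) * p0_6 + (1/2) * z0_2_2 + (1/2) * z0_3_4
    have z0_1_3 : B 0 1 3 = 0 := by
      linear_combination (1/2) * p0_7 + (1/2) * z0_3_3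
    have z0_1_4 : B 0 1 4 = 0 := by
      linear_combination (1/2) * p0_8 + (1/2) * z0_3_4
    have z0_2_3 : B 0 2 3 = 0 := by
      linear_combination (1/2) * p0_10 + (1/2) * z0_3_4
    have z0_2_4 : B 0 2 4 = 0 := by
      linear_combination (1/2) * p0_11
    have z1_0_0 : B 1 0 0 = 0 := by
      linear_combination 1 * p1_0
    have z1_0_1 : B 1 0 1 = 0 := by
      linear_combination (1/2) * p1_1 + 1 * z1_1_4 + (-1/2) * z1_3_4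
    have z1_0_2 : B 1 0 2 = 0 := by
      linear_combination (1/2) * p1_2
    have z1_0_3 : B 1 0 3 = 0 := by
      linear_combination (1/2) * p1_3
    have z1_0_4 : B 1 0 4 = 0 := by
      linear_combination (1/2) * p1_4 + 1 * z1_3_4 + (1/2) * z1_4_4
    have z1_1_1 : B 1 1 1 = 0 := by
      linear_combination 1 * p1_5
    have z1_1_2 : B 1 1 2 = 0 := by
      linear_combination (1/2) * p1_6 + 1 * z1_1_4 + (-1) * z1_2_3
    have z1_1_3 : B 1 1 3 = 0 := by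
      linear_combination (1/2) * p1_7 + 1 * z1_1_4 + (-1/2) * z1_3_4
    have z1_2_2 : B 1 2 2 = 0 := by
      linear_combination 1 * p1_9 + (-2) * z1_2_3
    have z1_2_4 : B 1 2 4 = 0 := by
      linear_combination (1/2) * p1_11
    have z1_3_3 : B 1 3 3 = 0 := by
      linear_combination 1 * p1_12
    have z2_0_0 : B 2 0 0 = 0 := by
      linear_combination 1 * p2_0 + 2 * z2_0_4
    have z2_0_1 : B 2 0 1 = 0 := by
      linear_combination (1/2) * p2_1 + 1 * z2_1_3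
    have z2_0_2 : B 2 0 2 = 0 := by
      linear_combination (1/2) * p2_2
    have z2_0_3 : B 2 0 3 = 0 := by
      linear_combination (1/2) * p2_3 + 1 * z2_3_3
    have z2_1_1 : B 2 1 1 = 0 := by
      linear_combination 1 * p2_5 + 2 * z2_1_3 + (-1) * z2_3_3 + 1 * z2_3_4
    have z2_1_2 : B 2 1 2 = 0 := by
      linear_combination (1/2) * p2_6 + 1 * z2_1_3 + (-1/2) * z2_3_3 + (1/2) * z2_3_4
    have z2_1_4 : B 2 1 4 = 0 := by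
      linear_combination (1/2) * p2_8
    have z2_2_2 : B 2 2 2 = 0 := by
      linear_combination 1 * p2_9
    have z2_2_3 : B 2 2 3 = 0 := by
      linear_combination (1/2) * p2_10 + (1/2) * z2_3_3 + (-1) * z2_3_4
    have z2_2_4 : B 2 2 4 = 0 := by
      linear_combination (1/2) * p2_11
    have z2_4_4 : B 2 4 4 = 0 := by
      linear_combination 1 * p2_14
    have z3_0_0 : B 3 0 0 = 0 := by
      linear_combination 1 * p3_0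
    have z3_0_1 : B 3 0 1 = 0 := by
      linear_combination (1/2) * p3_1 + (-1) * z3_1_4
    have z3_0_2 : B 3 0 2 = 0 := by
      linear_combination (1/2) * p3_2
    have z3_0_3 : B 3 0 3 = 0 := by
      linear_combination (1/2) * p3_3 + 1 * z3_3_3
    have z3_0_4 : B 3 0 4 = 0 := by
      linear_combination (1/2) * p3_4 + (1/2) * z3_4_4
    have z3_1_1 : B 3 1 1 = 0 := by
      linear_combination 1 * p3_5 + (-4) * z3_1_4 + (-1) * z3_3_3 + 1 * z3_3_4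
    have z3_1_2 : B 3 1 2 = 0 := by
      linear_combination (1/2) * p3_6 + (-1) * z3_1_4 + (-1/2) * z3_3_3 + (1/2) * z3_3_4
    have z3_1_3 : B 3 1 3 = 0 := by
      linear_combination (1/2) * p3_7 + (-1) * z3_1_4
    have z3_2_2 : B 3 2 2 = 0 := by
      linear_combination 1 * p3_9
    have z3_2_3 : B 3 2 3 = 0 := by
      linear_combination (1/2) * p3_10 + (-1/2) * z3_3_3
    have z3_2_4 : B 3 2 4 = 0 := by
      linear_combination (1/2) * p3_11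
    have z4_0_0 : B 4 0 0 = 0 := by
      linear_combination 1 * p4_0 + 2 * z4_0_4 + 1 * z4_3_3 + (-2) * z4_4_4
    have z4_0_1 : B 4 0 1 = 0 := by
      linear_combination (1/2) * p4_1 + (3/4) * z4_3_3 + (-1/2) * z4_4_4
    have z4_0_2 : B 4 0 2 = 0 := by
      linear_combination (1/2) * p4_2
    have z4_0_3 : B 4 0 3 = 0 := by
      linear_combination (1/2) * p4_3 + 1 * z4_3_3
    have z4_1_1 : B 4 1 1 = 0 := by
      linear_combination 1 * p4_5 + (1/2) * z4_3_3 + (-1/2) * z4_4_4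
    have z4_1_2 : B 4 1 2 = 0 := by
      linear_combination (1/2) * p4_6 + 1 * z4_2_3 + (-1/4) * z4_3_3
    have z4_1_3 : B 4 1 3 = 0 := by
      linear_combination (1/2) * p4_7 + (3/4) * z4_3_3 + (-1/2) * z4_4_4
    have z4_1_4 : B 4 1 4 = 0 := by
      linear_combination (1/2) * p4_8 + (1/4) * z4_4_4
    have z4_2_2 : B 4 2 2 = 0 := by
      linear_combination 1 * p4_9 + 2 * z4_2_3 + (-1) * z4_3_3
    have z4_2_4 : B 4 2 4 = 0 := by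
      linear_combination (1/2) * p4_11
    have z4_3_4 : B 4 3 4 = 0 := by
      linear_combination (1/2) * p4_13 + 1 * z4_4_4
    have z5_0_0 : B 5 0 0 = 0 := by
      linear_combination 1 * p5_0 + 2 * z5_0_4 + 2 * z5_2_3 + 1 * z5_3_3 + (-2) * z5_3_4
    have z5_0_1 : B 5 0 1 = 0 := by
      linear_combination (1/2) * p5_1 + (1/2) * z5_2_3 + (1/4) * z5_3_3 + (-1/2) * z5_3_4
    have z5_0_2 : B 5 0 2 = 0 := by
      linear_combination (1/2) * p5_2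
    have z5_0_3 : B 5 0 3 = 0 := by
      linear_combination (1/2) * p5_3 + 1 * z5_3_3
    have z5_1_1 : B 5 1 1 = 0 := by
      linear_combination 1 * p5_5 + 1 * z5_2_3 + (-1/2) * z5_3_3
    have z5_1_2 : B 5 1 2 = 0 := by
      linear_combination (1/2) * p5_6 + (3/2) * z5_2_3 + (-3/4) * z5_3_3
    have z5_1_3 : B 5 1 3 = 0 := by
      linear_combination (1/2) * p5_7 + (1/2) * z5_2_3 + (1/4) * z5_3_3 + (-1/2) * z5_3_4
    have z5_1_4 : B 5 1 4 = 0 := by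
      linear_combination (1/2) * p5_8
    have z5_2_2 : B 5 2 2 = 0 := by
      linear_combination 1 * p5_9 + 2 * z5_2_3 + (-1) * z5_3_3
    have z5_2_4 : B 5 2 4 = 0 := by
      linear_combination (1/2) * p5_11
    have z5_4_4 : B 5 4 4 = 0 := by
      linear_combination 1 * p5_14
    intro a i j
    fin_cases a
    · exact all5 (B 0) (hB 0) z0_0_0 z0_0_1 z0_0_2 z0_0_3 z0_0_4 z0_1_1 z0_1_2 z0_1_3 z0_1_4 z0_2_2 z0_2_3 z0_2_4 z0_3_3 z0_3_4 z0_4_4 i j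
    · exact all5 (B 1) (hB 1) z1_0_0 z1_0_1 z1_0_2 z1_0_3 z1_0_4 z1_1_1 z1_1_2 z1_1_3 z1_1_4 z1_2_2 z1_2_3 z1_2_4 z1_3_3 z1_3_4 z1_4_4 i j
    · exact all5 (B 2) (hB 2) z2_0_0 z2_0_1 z2_0_2 z2_0_3 z2_0_4 z2_1_1 z2_1_2 z2_1_3 z2_1_4 z2_2_2 z2_2_3 z2_2_4 z2_3_3 z2_3_4 z2_4_4 i j
    · exact all5 (B 3) (hB 3) z3_0_0 z3_0_1 z3_0_2 z3_0_3 z3_0_4 z3_1_1 z3_1_2 z3_1_3 z3_1_4 z3_2_2 z3_2_3 z3_2_4 z3_3_3 z3_3_4 z3_4_4 i j
    · exact all5 (B 4) (hB 4) z4_0_0 z4_0_1 z4_0_2 z4_0_3 z4_0_4 z4_1_1 z4_1_2 z4_1_3 z4_1_4 z4_2_2 z4_2_3 z4_2_4 z4_3_3 z4_3_4 z4_4_4 i j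
    · exact all5 (B 5) (hB 5) z5_0_0 z5_0_1 z5_0_2 z5_0_3 z5_0_4 z5_1_1 z5_1_2 z5_1_3 z5_1_4 z5_2_2 z5_2_3 z5_2_4 z5_3_3 z5_3_4 z5_4_4 i j

end Pool.Agent.HilbPts
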