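import Pool.Agent.HilbPts.Form5

set_option autoImplicit false
set_option linter.all false

namespace Pool.Agent.HilbPts

variable {k : Type*} [Field k]

/-- Points. -/
def qf7 (k : Type*) [Field k] : Fin 7 → Fin 5 → k :=
  ![![0, 1, 0, 0, 1],
    ![1, 1, 0, 0, 0],
    ![0, 0, 1, 2, 0],
    ![0, 1, (-1), 0, 0],
    ![(-1), 0, 0, 1, 0],
    ![1, 0, (-1), (-1), 1],
    ![0, 0, 0, 1, 1]]

/-- Integral points. -/
def zf7 : Fin 7 → Fin 5 → ℤ :=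
  ![![0, 1, 0, 0, 1],
    ![1, 1, 0, 0, 0],
    ![0, 0, 1, 2, 0],
    ![0, 1, (-1), 0, 0],
    ![(-1), 0, 0, 1, 0],
    ![1, 0, (-1), (-1), 1],
    ![0, 0, 0, 1, 1]]

theorem inj_f7 [CharZero k] : Function.Injective (stdPts (qf7 k)) := by
  have h1 : ∀ s m, qf7 k s m = ((zf7 s m : ℤ) : k) := by
    intro s m
    fin_cases s <;> fin_cases m <;> simp [qf7, zf7]
  have h2 : Function.Injective (stdPts zf7) := by decide +kernel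
  exact stdPts_injective_of_int _ _ h1 h2

theorem sf7_0 [CharZero k] (B : Fin 5 → Fin 5 → k) (hB : ∀ i j, B i j = B j i)
    (c1 : ∀ s, qfun B (qf7 k s) = 0)
    (c2 : ∀ m, 2 * ∑ i, B m i * qf7 k 0 i - B m m = 0) :
    B 0 0 = 1 * (2 * B 0 4) ∧
    2 * B 0 1 = 0 ∧
    2 * B 0 2 = (-1) * (2 * B 0 4) + (-3) * (2 * B 2 4) + 1 * (B 3 3) ∧
    2 * B 0 3 = 2 * (2 * B 0 4) ∧
    B 1 1 = 0 ∧
    2 * B 1 2 = (-2) * (2 * B 2 4) ∧
    2 * B 1 3 = 1 * (B 3 3) ∧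
    2 * B 1 4 = 0 ∧
    B 2 2 = (-1) * (2 * B 2 4) ∧
    2 * B 2 3 = (-1) * (B 3 3) ∧
    2 * B 3 4 = 0 ∧
    B 4 4 = 0 := by
  have v0 : vform B 0 1 0 0 1 = 0 := (vform_eq B hB _ _ (c1 0) rfl rfl rfl rfl rfl)
  have v1 : vform B 1 1 0 0 0 = 0 := (vform_eq B hB _ _ (c1 1) rfl rfl rfl rfl rfl)
  have v2 : vform B 0 0 1 2 0 = 0 := (vform_eq B hB _ _ (c1 2) rfl rfl rfl rfl rfl)
  have v3 : vform B 0 1 (-1) 0 0 = 0 := (vform_eq B hB _ _ (c1 3) rfl rfl rfl rfl rfl)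
  have v4 : vform B (-1) 0 0 1 0 = 0 := (vform_eq B hB _ _ (c1 4) rfl rfl rfl rfl rfl)
  have v5 : vform B 1 0 (-1) (-1) 1 = 0 := (vform_eq B hB _ _ (c1 5) rfl rfl rfl rfl rfl)
  have v6 : vform B 0 0 0 1 1 = 0 := (vform_eq B hB _ _ (c1 6) rfl rfl rfl rfl rfl)
  have w0 : wform B 0 0 1 0 0 1 = 0 := (wform_eq B 0 _ (c2 0) rfl rfl rfl rfl rfl)
  have w1 : wform B 1 0 1 0 0 1 = 0 := (wform_eq B 1 _ (c2 1) rfl rfl rfl rfl rfl)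
  have w2 : wform B 2 0 1 0 0 1 = 0 := (wform_eq B 2 _ (c2 2) rfl rfl rfl rfl rfl)
  have w3 : wform B 3 0 1 0 0 1 = 0 := (wform_eq B 3 _ (c2 3) rfl rfl rfl rfl rfl)
  have w4 : wform B 4 0 1 0 0 1 = 0 := (wform_eq B 4 _ (c2 4) rfl rfl rfl rfl rfl)
  simp only [vform, wform] at v0 v1 v2 v3 v4 v5 v6 w0 w1 w2 w3 w4
  simp only [hB 1 0, hB 2 0, hB 3 0, hB 4 0, hB 2 1, hB 3 1, hB 4 1, hB 3 2, hB 4 2, hB 4 3] at w1 w2 w3 w4
  exact ⟨by linear_combination 1 * v1 + (-1) * w0,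
    by linear_combination 1 * v1,
    by linear_combination (-2) * v1 + (1/2) * v2 + 2 * v3 + 1 * v4 + (-1) * v5 + (-1) * v6 + 2 * w0 + 2 * w2,
    by linear_combination 2 * v1 + (-1) * v4 + (-2) * w0,
    by linear_combination (-1) * v0 + 1 * w1,
    by linear_combination 1 * v3 + 2 * w2,
    by linear_combination (-1) * v6 + 1 * w3,
    by linear_combination 1 * v0,
    by linear_combination 1 * v3 + 1 * w2,
    by linear_combination (1/2) * v2,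
    by linear_combination 1 * v6,
    by linear_combination (-1) * v0 + 1 * w4⟩

theorem sf7_1 [CharZero k] (B : Fin 5 → Fin 5 → k) (hB : ∀ i j, B i j = B j i)
    (c1 : ∀ s, qfun B (qf7 k s) = 0)
    (c2 : ∀ m, 2 * ∑ i, B m i * qf7 k 1 i - B m m = 0) :
    B 0 0 = 0 ∧
    2 * B 0 1 = 0 ∧
    2 * B 0 2 = (-1/3) * (2 * B 2 4) + (1/3) * (B 3 3) + (1/3) * (B 4 4) ∧
    2 * B 0 3 = 0 ∧
    2 * B 0 4 = 1 * (B 4 4) ∧
    B 1 1 = 0 ∧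
    2 * B 1 2 = (2/3) * (2 * B 2 4) + (-2/3) * (B 3 3) + (-2/3) * (B 4 4) ∧
    2 * B 1 3 = 1 * (B 3 3) ∧
    2 * B 1 4 = 0 ∧
    B 2 2 = (1/3) * (2 * B 2 4) + (-1/3) * (B 3 3) + (-1/3) * (B 4 4) ∧
    2 * B 2 3 = (-1) * (B 3 3) ∧
    2 * B 3 4 = 0 := by
  have v0 : vform B 0 1 0 0 1 = 0 := (vform_eq B hB _ _ (c1 0) rfl rfl rfl rfl rfl)
  have v1 : vform B 1 1 0 0 0 = 0 := (vform_eq B hB _ _ (c1 1) rfl rfl rfl rfl rfl)
  have v2 : vform B 0 0 1 2 0 = 0 := (vform_eq B hB _ _ (c1 2) rfl rfl rfl rfl rfl)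
  have v3 : vform B 0 1 (-1) 0 0 = 0 := (vform_eq B hB _ _ (c1 3) rfl rfl rfl rfl rfl)
  have v4 : vform B (-1) 0 0 1 0 = 0 := (vform_eq B hB _ _ (c1 4) rfl rfl rfl rfl rfl)
  have v5 : vform B 1 0 (-1) (-1) 1 = 0 := (vform_eq B hB _ _ (c1 5) rfl rfl rfl rfl rfl)
  have v6 : vform B 0 0 0 1 1 = 0 := (vform_eq B hB _ _ (c1 6) rfl rfl rfl rfl rfl)
  have w0 : wform B 0 1 1 0 0 0 = 0 := (wform_eq B 0 _ (c2 0) rfl rfl rfl rfl rfl)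
  have w1 : wform B 1 1 1 0 0 0 = 0 := (wform_eq B 1 _ (c2 1) rfl rfl rfl rfl rfl)
  have w2 : wform B 2 1 1 0 0 0 = 0 := (wform_eq B 2 _ (c2 2) rfl rfl rfl rfl rfl)
  have w3 : wform B 3 1 1 0 0 0 = 0 := (wform_eq B 3 _ (c2 3) rfl rfl rfl rfl rfl)
  have w4 : wform B 4 1 1 0 0 0 = 0 := (wform_eq B 4 _ (c2 4) rfl rfl rfl rfl rfl)
  simp only [vform, wform] at v0 v1 v2 v3 v4 v5 v6 w0 w1 w2 w3 w4
  simp only [hB 1 0, hB 2 0, hB 3 0, hB 4 0, hB 2 1, hB 3 1, hB 4 1, hB 3 2, hB 4 2, hB 4 3] at w1 w2 w3 w4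
  exact ⟨by linear_combination (-1) * v1 + 1 * w0,
    by linear_combination 1 * v1,
    by linear_combination (-1/3) * v0 + (2/3) * v1 + (1/6) * v2 + (2/3) * v3 + (1/3) * v4 + (-1/3) * v5 + (-1/3) * v6 + (-2/3) * w0 + (2/3) * w2 + (1/3) * w4,
    by linear_combination (-2) * v1 + (-1) * v4 + 2 * w0,
    by linear_combination (-1) * v0 + 1 * w4,
    by linear_combination (-1) * v1 + 1 * w1,
    by linear_combination (2/3) * v0 + (-4/3) * v1 + (-1/3) * v2 + (-1/3) * v3 + (-2/3) * v4 + (2/3) * v5 + (2/3) * v6 + (4/3) * w0 + (2/3) * w2 + (-2/3) * w4,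
    by linear_combination 2 * v1 + 1 * v4 + (-2) * w0 + 1 * w3,
    by linear_combination 1 * v0,
    by linear_combination (1/3) * v0 + (-2/3) * v1 + (-1/6) * v2 + (1/3) * v3 + (-1/3) * v4 + (1/3) * v5 + (1/3) * v6 + (2/3) * w0 + (1/3) * w2 + (-1/3) * w4,
    by linear_combination (1/2) * v2,
    by linear_combination 1 * v6⟩

theorem sf7_2 [CharZero k] (B : Fin 5 → Fin 5 → k) (hB : ∀ i j, B i j = B j i)
    (c1 : ∀ s, qfun B (qf7 k s) = 0)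
    (c2 : ∀ m, 2 * ∑ i, B m i * qf7 k 2 i - B m m = 0) :
    B 0 0 = (-1) * (2 * B 0 4) + 1 * (B 4 4) ∧
    2 * B 0 1 = 0 ∧
    2 * B 0 2 = 3 * (2 * B 0 4) + (-3) * (B 4 4) ∧
    2 * B 0 3 = (-2) * (2 * B 0 4) + 2 * (B 4 4) ∧
    B 1 1 = 2 * (2 * B 1 3) ∧
    2 * B 1 2 = 0 ∧
    2 * B 1 4 = 0 ∧
    B 2 2 = 0 ∧
    2 * B 2 3 = 0 ∧
    2 * B 2 4 = 1 * (B 4 4) ∧
    B 3 3 = 0 ∧
    2 * B 3 4 = 0 := by
  have v0 : vform B 0 1 0 0 1 = 0 := (vform_eq B hB _ _ (c1 0) rfl rfl rfl rfl rfl)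
  have v1 : vform B 1 1 0 0 0 = 0 := (vform_eq B hB _ _ (c1 1) rfl rfl rfl rfl rfl)
  have v2 : vform B 0 0 1 2 0 = 0 := (vform_eq B hB _ _ (c1 2) rfl rfl rfl rfl rfl)
  have v3 : vform B 0 1 (-1) 0 0 = 0 := (vform_eq B hB _ _ (c1 3) rfl rfl rfl rfl rfl)
  have v4 : vform B (-1) 0 0 1 0 = 0 := (vform_eq B hB _ _ (c1 4) rfl rfl rfl rfl rfl)
  have v5 : vform B 1 0 (-1) (-1) 1 = 0 := (vform_eq B hB _ _ (c1 5) rfl rfl rfl rfl rfl)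
  have v6 : vform B 0 0 0 1 1 = 0 := (vform_eq B hB _ _ (c1 6) rfl rfl rfl rfl rfl)
  have w0 : wform B 0 0 0 1 2 0 = 0 := (wform_eq B 0 _ (c2 0) rfl rfl rfl rfl rfl)
  have w1 : wform B 1 0 0 1 2 0 = 0 := (wform_eq B 1 _ (c2 1) rfl rfl rfl rfl rfl)
  have w2 : wform B 2 0 0 1 2 0 = 0 := (wform_eq B 2 _ (c2 2) rfl rfl rfl rfl rfl)
  have w3 : wform B 3 0 0 1 2 0 = 0 := (wform_eq B 3 _ (c2 3) rfl rfl rfl rfl rfl)
  have w4 : wform B 4 0 0 1 2 0 = 0 := (wform_eq B 4 _ (c2 4) rfl rfl rfl rfl rfl)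
  simp only [vform, wform] at v0 v1 v2 v3 v4 v5 v6 w0 w1 w2 w3 w4
  simp only [hB 1 0, hB 2 0, hB 3 0, hB 4 0, hB 2 1, hB 3 1, hB 4 1, hB 3 2, hB 4 2, hB 4 3] at w1 w2 w3 w4
  exact ⟨by linear_combination (11/4) * v2 + 1 * v4 + 1 * v5 + (-1) * v6 + 1 * w0 + (-2) * w2 + (-5/2) * w3 + 1 * w4,
    by linear_combination 1 * v1,
    by linear_combination (-33/4) * v2 + (-1) * v4 + (-3) * v5 + 3 * v6 + (-2) * w0 + 6 * w2 + (15/2) * w3 + (-3) * w4,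
    by linear_combination (11/2) * v2 + 1 * v4 + 2 * v5 + (-2) * v6 + 2 * w0 + (-4) * w2 + (-5) * w3 + 2 * w4,
    by linear_combination (-3) * v2 + (-1) * v3 + (-1) * w1 + 2 * w2 + 2 * w3,
    by linear_combination (-3) * v2 + (-1) * v3 + 2 * w2 + 2 * w3,
    by linear_combination 1 * v0,
    by linear_combination (-3/2) * v2 + 1 * w2 + 1 * w3,
    by linear_combination (3/4) * v2 + (-1/2) * w3,
    by linear_combination (-2) * v6 + 1 * w4,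
    by linear_combination (-1/4) * v2 + (1/2) * w3,
    by linear_combination 1 * v6⟩

theorem sf7_3 [CharZero k] (B : Fin 5 → Fin 5 → k) (hB : ∀ i j, B i j = B j i)
    (c1 : ∀ s, qfun B (qf7 k s) = 0)
    (c2 : ∀ m, 2 * ∑ i, B m i * qf7 k 3 i - B m m = 0) :
    B 0 0 = 1 * (2 * B 0 4) + 1 * (B 3 3) + 1 * (B 4 4) ∧
    2 * B 0 1 = 0 ∧
    2 * B 0 2 = (-1) * (2 * B 0 4) + (-1) * (B 3 3) + (-1) * (B 4 4) ∧
    2 * B 0 3 = 2 * (2 * B 0 4) + 2 * (B 3 3) + 2 * (B 4 4) ∧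
    B 1 1 = 0 ∧
    2 * B 1 2 = 0 ∧
    2 * B 1 3 = 0 ∧
    2 * B 1 4 = 0 ∧
    B 2 2 = 0 ∧
    2 * B 2 3 = (-1) * (B 3 3) ∧
    2 * B 2 4 = (-1) * (B 4 4) ∧
    2 * B 3 4 = 0 := by
  have v0 : vform B 0 1 0 0 1 = 0 := (vform_eq B hB _ _ (c1 0) rfl rfl rfl rfl rfl)
  have v1 : vform B 1 1 0 0 0 = 0 := (vform_eq B hB _ _ (c1 1) rfl rfl rfl rfl rfl)
  have v2 : vform B 0 0 1 2 0 = 0 := (vform_eq B hB _ _ (c1 2) rfl rfl rfl rfl rfl)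
  have v3 : vform B 0 1 (-1) 0 0 = 0 := (vform_eq B hB _ _ (c1 3) rfl rfl rfl rfl rfl)
  have v4 : vform B (-1) 0 0 1 0 = 0 := (vform_eq B hB _ _ (c1 4) rfl rfl rfl rfl rfl)
  have v5 : vform B 1 0 (-1) (-1) 1 = 0 := (vform_eq B hB _ _ (c1 5) rfl rfl rfl rfl rfl)
  have v6 : vform B 0 0 0 1 1 = 0 := (vform_eq B hB _ _ (c1 6) rfl rfl rfl rfl rfl)
  have w0 : wform B 0 0 1 (-1) 0 0 = 0 := (wform_eq B 0 _ (c2 0) rfl rfl rfl rfl rfl)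
  have w1 : wform B 1 0 1 (-1) 0 0 = 0 := (wform_eq B 1 _ (c2 1) rfl rfl rfl rfl rfl)
  have w2 : wform B 2 0 1 (-1) 0 0 = 0 := (wform_eq B 2 _ (c2 2) rfl rfl rfl rfl rfl)
  have w3 : wform B 3 0 1 (-1) 0 0 = 0 := (wform_eq B 3 _ (c2 3) rfl rfl rfl rfl rfl)
  have w4 : wform B 4 0 1 (-1) 0 0 = 0 := (wform_eq B 4 _ (c2 4) rfl rfl rfl rfl rfl)
  simp only [vform, wform] at v0 v1 v2 v3 v4 v5 v6 w0 w1 w2 w3 w4
  simp only [hB 1 0, hB 2 0, hB 3 0, hB 4 0, hB 2 1, hB 3 1, hB 4 1, hB 3 2, hB 4 2, hB 4 3] at w1 w2 w3 w4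
  exact ⟨by linear_combination (-1) * v0 + (-1) * v1 + (1/2) * v2 + (-2) * v3 + 1 * v4 + (-1) * v5 + (-1) * v6 + 1 * w0 + (-2) * w2 + 1 * w4,
    by linear_combination 1 * v1,
    by linear_combination 1 * v0 + 2 * v1 + (-1/2) * v2 + 2 * v3 + (-1) * v4 + 1 * v5 + 1 * v6 + (-2) * w0 + 2 * w2 + (-1) * w4,
    by linear_combination (-2) * v0 + (-2) * v1 + 1 * v2 + (-4) * v3 + 1 * v4 + (-2) * v5 + (-2) * v6 + 2 * w0 + (-4) * w2 + 2 * w4,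
    by linear_combination (-3) * v3 + 1 * w1 + (-2) * w2,
    by linear_combination (-3) * v3 + (-2) * w2,
    by linear_combination (1/2) * v2 + 1 * w3,
    by linear_combination 1 * v0,
    by linear_combination (-1) * v3 + (-1) * w2,
    by linear_combination (1/2) * v2,
    by linear_combination 1 * v0 + (-1) * w4,
    by linear_combination 1 * v6⟩

theorem sf7_4 [CharZero k] (B : Fin 5 → Fin 5 → k) (hB : ∀ i j, B i j = B j i)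
    (c1 : ∀ s, qfun B (qf7 k s) = 0)
    (c2 : ∀ m, 2 * ∑ i, B m i * qf7 k 4 i - B m m = 0) :
    B 0 0 = 0 ∧
    2 * B 0 1 = 0 ∧
    2 * B 0 2 = (-1/3) * (2 * B 2 4) + (-1/3) * (B 4 4) ∧
    2 * B 0 3 = 0 ∧
    2 * B 0 4 = (-1) * (B 4 4) ∧
    B 1 1 = 1 * (2 * B 1 3) ∧
    2 * B 1 2 = (2/3) * (2 * B 2 4) + (2/3) * (B 4 4) ∧
    2 * B 1 4 = 0 ∧
    B 2 2 = (1/3) * (2 * B 2 4) + (1/3) * (B 4 4) ∧
    2 * B 2 3 = 0 ∧
    B 3 3 = 0 ∧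
    2 * B 3 4 = 0 := by
  have v0 : vform B 0 1 0 0 1 = 0 := (vform_eq B hB _ _ (c1 0) rfl rfl rfl rfl rfl)
  have v1 : vform B 1 1 0 0 0 = 0 := (vform_eq B hB _ _ (c1 1) rfl rfl rfl rfl rfl)
  have v2 : vform B 0 0 1 2 0 = 0 := (vform_eq B hB _ _ (c1 2) rfl rfl rfl rfl rfl)
  have v3 : vform B 0 1 (-1) 0 0 = 0 := (vform_eq B hB _ _ (c1 3) rfl rfl rfl rfl rfl)
  have v4 : vform B (-1) 0 0 1 0 = 0 := (vform_eq B hB _ _ (c1 4) rfl rfl rfl rfl rfl)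
  have v5 : vform B 1 0 (-1) (-1) 1 = 0 := (vform_eq B hB _ _ (c1 5) rfl rfl rfl rfl rfl)
  have v6 : vform B 0 0 0 1 1 = 0 := (vform_eq B hB _ _ (c1 6) rfl rfl rfl rfl rfl)
  have w0 : wform B 0 (-1) 0 0 1 0 = 0 := (wform_eq B 0 _ (c2 0) rfl rfl rfl rfl rfl)
  have w1 : wform B 1 (-1) 0 0 1 0 = 0 := (wform_eq B 1 _ (c2 1) rfl rfl rfl rfl rfl)
  have w2 : wform B 2 (-1) 0 0 1 0 = 0 := (wform_eq B 2 _ (c2 2) rfl rfl rfl rfl rfl)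
  have w3 : wform B 3 (-1) 0 0 1 0 = 0 := (wform_eq B 3 _ (c2 3) rfl rfl rfl rfl rfl)
  have w4 : wform B 4 (-1) 0 0 1 0 = 0 := (wform_eq B 4 _ (c2 4) rfl rfl rfl rfl rfl)
  simp only [vform, wform] at v0 v1 v2 v3 v4 v5 v6 w0 w1 w2 w3 w4
  simp only [hB 1 0, hB 2 0, hB 3 0, hB 4 0, hB 2 1, hB 3 1, hB 4 1, hB 3 2, hB 4 2, hB 4 3] at w1 w2 w3 w4
  exact ⟨by linear_combination (-1) * v4 + (-1) * w0,
    by linear_combination 1 * v1,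
    by linear_combination (1/2) * v2 + 2 * v4 + (-1/3) * v5 + (4/3) * w0 + (-2/3) * w2 + (-1/3) * w3 + (-1/3) * w4,
    by linear_combination (-3) * v4 + (-2) * w0,
    by linear_combination 1 * v6 + (-1) * w4,
    by linear_combination (-1) * v1 + (-1) * w1,
    by linear_combination (-1) * v3 + 2 * v4 + (2/3) * v5 + (4/3) * w0 + (-2/3) * w2 + (-4/3) * w3 + (2/3) * w4,
    by linear_combination 1 * v0,
    by linear_combination 1 * v4 + (1/3) * v5 + (2/3) * w0 + (-1/3) * w2 + (-2/3) * w3 + (1/3) * w4,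
    by linear_combination (1/2) * v2 + 3 * v4 + 2 * w0 + (-1) * w3,
    by linear_combination (-3) * v4 + (-2) * w0 + 1 * w3,
    by linear_combination 1 * v6⟩

theorem sf7_5 [CharZero k] (B : Fin 5 → Fin 5 → k) (hB : ∀ i j, B i j = B j i)
    (c1 : ∀ s, qfun B (qf7 k s) = 0)
    (c2 : ∀ m, 2 * ∑ i, B m i * qf7 k 5 i - B m m = 0) :
    B 0 0 = 1 * (B 3 3) ∧
    2 * B 0 1 = 0 ∧
    2 * B 0 2 = (-1) * (B 3 3) + 1 * (B 4 4) ∧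
    2 * B 0 3 = 2 * (B 3 3) ∧
    2 * B 0 4 = 1 * (B 4 4) ∧
    B 1 1 = (-1) * (2 * B 1 3) + (-2) * (B 4 4) ∧
    2 * B 1 2 = 2 * (B 4 4) ∧
    2 * B 1 4 = 0 ∧
    B 2 2 = 1 * (B 4 4) ∧
    2 * B 2 3 = (-1) * (B 3 3) ∧
    2 * B 2 4 = 2 * (B 4 4) ∧
    2 * B 3 4 = 0 := by
  have v0 : vform B 0 1 0 0 1 = 0 := (vform_eq B hB _ _ (c1 0) rfl rfl rfl rfl rfl)
  have v1 : vform B 1 1 0 0 0 = 0 := (vform_eq B hB _ _ (c1 1) rfl rfl rfl rfl rfl)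
  have v2 : vform B 0 0 1 2 0 = 0 := (vform_eq B hB _ _ (c1 2) rfl rfl rfl rfl rfl)
  have v3 : vform B 0 1 (-1) 0 0 = 0 := (vform_eq B hB _ _ (c1 3) rfl rfl rfl rfl rfl)
  have v4 : vform B (-1) 0 0 1 0 = 0 := (vform_eq B hB _ _ (c1 4) rfl rfl rfl rfl rfl)
  have v5 : vform B 1 0 (-1) (-1) 1 = 0 := (vform_eq B hB _ _ (c1 5) rfl rfl rfl rfl rfl)
  have v6 : vform B 0 0 0 1 1 = 0 := (vform_eq B hB _ _ (c1 6) rfl rfl rfl rfl rfl)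
  have w0 : wform B 0 1 0 (-1) (-1) 1 = 0 := (wform_eq B 0 _ (c2 0) rfl rfl rfl rfl rfl)
  have w1 : wform B 1 1 0 (-1) (-1) 1 = 0 := (wform_eq B 1 _ (c2 1) rfl rfl rfl rfl rfl)
  have w2 : wform B 2 1 0 (-1) (-1) 1 = 0 := (wform_eq B 2 _ (c2 2) rfl rfl rfl rfl rfl)
  have w3 : wform B 3 1 0 (-1) (-1) 1 = 0 := (wform_eq B 3 _ (c2 3) rfl rfl rfl rfl rfl)
  have w4 : wform B 4 1 0 (-1) (-1) 1 = 0 := (wform_eq B 4 _ (c2 4) rfl rfl rfl rfl rfl)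
  simp only [vform, wform] at v0 v1 v2 v3 v4 v5 v6 w0 w1 w2 w3 w4
  simp only [hB 1 0, hB 2 0, hB 3 0, hB 4 0, hB 2 1, hB 3 1, hB 4 1, hB 3 2, hB 4 2, hB 4 3] at w1 w2 w3 w4
  exact ⟨by linear_combination (1/4) * v2 + (1/2) * v4 + (-1/2) * v6 + (1/2) * w3,
    by linear_combination 1 * v1,
    by linear_combination (1/2) * v2 + 1 * v4 + 3 * v5 + (-2) * w0 + 2 * w2 + 2 * w3 + (-1) * w4,
    by linear_combination (1/2) * v2 + (-1) * v6 + 1 * w3,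
    by linear_combination (3/4) * v2 + (1/2) * v4 + 3 * v5 + (-1/2) * v6 + (-1) * w0 + 2 * w2 + (5/2) * w3 + (-1) * w4,
    by linear_combination 1 * v0 + 1 * v1 + (-1/2) * v2 + 1 * v3 + (-1) * v4 + (-4) * v5 + 1 * v6 + 2 * w0 + (-1) * w1 + (-2) * w2 + (-3) * w3 + 2 * w4,
    by linear_combination (1/2) * v2 + (-1) * v3 + 1 * v4 + 4 * v5 + (-1) * v6 + (-2) * w0 + 2 * w2 + 3 * w3 + (-2) * w4,
    by linear_combination 1 * v0,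
    by linear_combination (1/4) * v2 + (1/2) * v4 + 2 * v5 + (-1/2) * v6 + (-1) * w0 + 1 * w2 + (3/2) * w3 + (-1) * w4,
    by linear_combination (1/2) * v2,
    by linear_combination (3/4) * v2 + (1/2) * v4 + 3 * v5 + (-3/2) * v6 + (-1) * w0 + 2 * w2 + (5/2) * w3 + (-2) * w4,
    by linear_combination 1 * v6⟩

theorem sf7_6 [CharZero k] (B : Fin 5 → Fin 5 → k) (hB : ∀ i j, B i j = B j i)
    (c1 : ∀ s, qfun B (qf7 k s) = 0)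
    (c2 : ∀ m, 2 * ∑ i, B m i * qf7 k 6 i - B m m = 0) :
    B 0 0 = (-1) * (2 * B 0 4) ∧
    2 * B 0 1 = 0 ∧
    2 * B 0 2 = 3 * (2 * B 0 4) + 1 * (2 * B 2 4) ∧
    2 * B 0 3 = (-2) * (2 * B 0 4) ∧
    B 1 1 = 1 * (2 * B 1 3) ∧
    2 * B 1 2 = 2 * (2 * B 2 4) ∧
    2 * B 1 4 = 0 ∧
    B 2 2 = 1 * (2 * B 2 4) ∧
    2 * B 2 3 = 0 ∧
    B 3 3 = 0 ∧
    2 * B 3 4 = 0 ∧
    B 4 4 = 0 := by
  have v0 : vform B 0 1 0 0 1 = 0 := (vform_eq B hB _ _ (c1 0) rfl rfl rfl rfl rfl)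
  have v1 : vform B 1 1 0 0 0 = 0 := (vform_eq B hB _ _ (c1 1) rfl rfl rfl rfl rfl)
  have v2 : vform B 0 0 1 2 0 = 0 := (vform_eq B hB _ _ (c1 2) rfl rfl rfl rfl rfl)
  have v3 : vform B 0 1 (-1) 0 0 = 0 := (vform_eq B hB _ _ (c1 3) rfl rfl rfl rfl rfl)
  have v4 : vform B (-1) 0 0 1 0 = 0 := (vform_eq B hB _ _ (c1 4) rfl rfl rfl rfl rfl)
  have v5 : vform B 1 0 (-1) (-1) 1 = 0 := (vform_eq B hB _ _ (c1 5) rfl rfl rfl rfl rfl)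
  have v6 : vform B 0 0 0 1 1 = 0 := (vform_eq B hB _ _ (c1 6) rfl rfl rfl rfl rfl)
  have w0 : wform B 0 0 0 0 1 1 = 0 := (wform_eq B 0 _ (c2 0) rfl rfl rfl rfl rfl)
  have w1 : wform B 1 0 0 0 1 1 = 0 := (wform_eq B 1 _ (c2 1) rfl rfl rfl rfl rfl)
  have w2 : wform B 2 0 0 0 1 1 = 0 := (wform_eq B 2 _ (c2 2) rfl rfl rfl rfl rfl)
  have w3 : wform B 3 0 0 0 1 1 = 0 := (wform_eq B 3 _ (c2 3) rfl rfl rfl rfl rfl)
  have w4 : wform B 4 0 0 0 1 1 = 0 := (wform_eq B 4 _ (c2 4) rfl rfl rfl rfl rfl)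
  simp only [vform, wform] at v0 v1 v2 v3 v4 v5 v6 w0 w1 w2 w3 w4
  simp only [hB 1 0, hB 2 0, hB 3 0, hB 4 0, hB 2 1, hB 3 1, hB 4 1, hB 3 2, hB 4 2, hB 4 3] at w1 w2 w3 w4
  exact ⟨by linear_combination 1 * v4 + 1 * w0,
    by linear_combination 1 * v1,
    by linear_combination (3/2) * v2 + (-1) * v4 + (-1) * v5 + (-2) * w0 + (-2) * w2 + (-1) * w3,
    by linear_combination 1 * v4 + 2 * w0,
    by linear_combination 1 * v0 + (-1) * w1,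
    by linear_combination 1 * v2 + (-1) * v3 + 2 * v6 + (-2) * w2 + (-2) * w3,
    by linear_combination 1 * v0,
    by linear_combination (1/2) * v2 + 1 * v6 + (-1) * w2 + (-1) * w3,
    by linear_combination (1/2) * v2 + 1 * v6 + (-1) * w3,
    by linear_combination (-1) * v6 + 1 * w3,
    by linear_combination 1 * v6,
    by linear_combination (-1) * v6 + 1 * w4⟩

theorem VC_five_7 [CharZero k] : VC 5 (1 + 5 + 7) k ⊆ Smoothable 5 (1 + 5 + 7) k := by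
  refine VC_subset_of_sys (qf7 k) ?_ ?_
  · exact inj_f7
  · intro B hB c1 c2 c3
    obtain ⟨p0_0, p0_1, p0_2, p0_3, p0_5, p0_6, p0_7, p0_8, p0_9, p0_10, p0_13, p0_14⟩ := sf7_0 (B 0) (hB 0) (c1 0) (c2 0)
    obtain ⟨p1_0, p1_1, p1_2, p1_3, p1_4, p1_5, p1_6, p1_7, p1_8, p1_9, p1_10, p1_13⟩ := sf7_1 (B 1) (hB 1) (c1 1) (c2 1)
    obtain ⟨p2_0, p2_1, p2_2, p2_3, p2_5, p2_6, p2_8, p2_9, p2_10, p2_11, p2_12, p2_13⟩ := sf7_2 (B 2) (hB 2) (c1 2) (c2 2)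
    obtain ⟨p3_0, p3_1, p3_2, p3_3, p3_5, p3_6, p3_7, p3_8, p3_9, p3_10, p3_11, p3_13⟩ := sf7_3 (B 3) (hB 3) (c1 3) (c2 3)
    obtain ⟨p4_0, p4_1, p4_2, p4_3, p4_4, p4_5, p4_6, p4_8, p4_9, p4_10, p4_12, p4_13⟩ := sf7_4 (B 4) (hB 4) (c1 4) (c2 4)
    obtain ⟨p5_0, p5_1, p5_2, p5_3, p5_4, p5_5, p5_6, p5_8, p5_9, p5_10, p5_11, p5_13⟩ := sf7_5 (B 5) (hB 5) (c1 5) (c2 5)
    obtain ⟨p6_0, p6_1, p6_2, p6_3, p6_5, p6_6, p6_8, p6_9, p6_10, p6_12, p6_13, p6_14⟩ := sf7_6 (B 6) (hB 6) (c1 6) (c2 6)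
    have g0_0 : 1 * (B 5 3 3) = 0 := by
      have h : 0 * (B 0 0 0 - 2 * B 0 0 0) + 1 * (B 1 0 0 - 2 * B 1 0 0) + 0 * (B 2 0 0 - 2 * B 2 0 0) + 0 * (B 3 0 0 - 2 * B 3 0 0) + (-1) * (B 4 0 0 - 2 * B 4 0 0) + 1 * (B 5 0 0 - 2 * B 5 0 0) + 0 * (B 6 0 0 - 2 * B 6 0 0) = 0 := by
        have := c3 0 0
        rw [Fin.sum_univ_seven] at this
        exact this
      linear_combination (-1) * h + (-1) * p1_0 + 1 * p4_0 + (-1) * p5_0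
    have g1_0 : 1 * (2 * B 4 1 3) + 1 * (2 * B 5 1 3) + 2 * (B 5 4 4) = 0 := by
      have h : 0 * (B 0 1 1 - 2 * B 0 1 0) + 1 * (B 1 1 1 - 2 * B 1 1 0) + 0 * (B 2 1 1 - 2 * B 2 1 0) + 0 * (B 3 1 1 - 2 * B 3 1 0) + (-1) * (B 4 1 1 - 2 * B 4 1 0) + 1 * (B 5 1 1 - 2 * B 5 1 0) + 0 * (B 6 1 1 - 2 * B 6 1 0) = 0 := by
        have := c3 1 0
        rw [Fin.sum_univ_seven] at this
        exact this
      rw [hB 0 1 0, hB 1 1 0, hB 2 1 0, hB 3 1 0, hB 4 1 0, hB 5 1 0, hB 6 1 0] at h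
      linear_combination (-1) * h + (-1) * p1_1 + 1 * p1_5 + 1 * p4_1 + (-1) * p4_5 + (-1) * p5_1 + 1 * p5_5
    have g2_0 : (-2/3) * (2 * B 1 2 4) + (2/3) * (B 1 3 3) + (2/3) * (B 1 4 4) + (2/3) * (2 * B 4 2 4) + (2/3) * (B 4 4 4) + (-1) * (B 5 3 3) = 0 := by
      have h : 0 * (B 0 2 2 - 2 * B 0 2 0) + 1 * (B 1 2 2 - 2 * B 1 2 0) + 0 * (B 2 2 2 - 2 * B 2 2 0) + 0 * (B 3 2 2 - 2 * B 3 2 0) + (-1) * (B 4 2 2 - 2 * B 4 2 0) + 1 * (B 5 2 2 - 2 * B 5 2 0) + 0 * (B 6 2 2 - 2 * B 6 2 0) = 0 := by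
        have := c3 2 0
        rw [Fin.sum_univ_seven] at this
        exact this
      rw [hB 0 2 0, hB 1 2 0, hB 2 2 0, hB 3 2 0, hB 4 2 0, hB 5 2 0, hB 6 2 0] at h
      linear_combination (-1) * h + (-1) * p1_2 + 1 * p1_9 + 1 * p4_2 + (-1) * p4_9 + (-1) * p5_2 + 1 * p5_9
    have g3_0 : (-1) * (B 1 3 3) + 1 * (B 5 3 3) = 0 := by
      have h : 0 * (B 0 3 3 - 2 * B 0 3 0) + 1 * (B 1 3 3 - 2 * B 1 3 0) + 0 * (B 2 3 3 - 2 * B 2 3 0) + 0 * (B 3 3 3 - 2 * B 3 3 0) + (-1) * (B 4 3 3 - 2 * B 4 3 0) + 1 * (B 5 3 3 - 2 * B 5 3 0) + 0 * (B 6 3 3 - 2 * B 6 3 0) = 0 := by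
        have := c3 3 0
        rw [Fin.sum_univ_seven] at this
        exact this
      rw [hB 0 3 0, hB 1 3 0, hB 2 3 0, hB 3 3 0, hB 4 3 0, hB 5 3 0, hB 6 3 0] at h
      linear_combination (-1) * h + (-1) * p1_3 + 1 * p4_3 + (-1) * p4_12 + (-1) * p5_3
    have g4_0 : 2 * (B 4 4 4) = 0 := by
      have h : 0 * (B 0 4 4 - 2 * B 0 4 0) + 1 * (B 1 4 4 - 2 * B 1 4 0) + 0 * (B 2 4 4 - 2 * B 2 4 0) + 0 * (B 3 4 4 - 2 * B 3 4 0) + (-1) * (B 4 4 4 - 2 * B 4 4 0) + 1 * (B 5 4 4 - 2 * B 5 4 0) + 0 * (B 6 4 4 - 2 * B 6 4 0) = 0 := by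
        have := c3 4 0
        rw [Fin.sum_univ_seven] at this
        exact this
      rw [hB 0 4 0, hB 1 4 0, hB 2 4 0, hB 3 4 0, hB 4 4 0, hB 5 4 0, hB 6 4 0] at h
      linear_combination (-1) * h + (-1) * p1_4 + 1 * p4_4 + (-1) * p5_4
    have g0_1 : (-1) * (2 * B 0 0 4) + (-1) * (2 * B 3 0 4) + (-1) * (B 3 3 3) + (-1) * (B 3 4 4) = 0 := by
      have h : 1 * (B 0 0 0 - 2 * B 0 0 1) + 1 * (B 1 0 0 - 2 * B 1 0 1) + 0 * (B 2 0 0 - 2 * B 2 0 1) + 1 * (B 3 0 0 - 2 * B 3 0 1) + 0 * (B 4 0 0 - 2 * B 4 0 1) + 0 * (B 5 0 0 - 2 * B 5 0 1) + 0 * (B 6 0 0 - 2 * B 6 0 1) = 0 := by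
        have := c3 0 1
        rw [Fin.sum_univ_seven] at this
        exact this
      linear_combination (-1) * h + 1 * p0_0 + (-1) * p0_1 + 1 * p1_0 + (-1) * p1_1 + 1 * p3_0 + (-1) * p3_1
    have g2_1 : (-1) * (2 * B 0 2 4) + (1/3) * (2 * B 1 2 4) + (-1/3) * (B 1 3 3) + (-1/3) * (B 1 4 4) = 0 := by
      have h : 1 * (B 0 2 2 - 2 * B 0 2 1) + 1 * (B 1 2 2 - 2 * B 1 2 1) + 0 * (B 2 2 2 - 2 * B 2 2 1) + 1 * (B 3 2 2 - 2 * B 3 2 1) + 0 * (B 4 2 2 - 2 * B 4 2 1) + 0 * (B 5 2 2 - 2 * B 5 2 1) + 0 * (B 6 2 2 - 2 * B 6 2 1) = 0 := by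
        have := c3 2 1
        rw [Fin.sum_univ_seven] at this
        exact this
      rw [hB 0 2 1, hB 1 2 1, hB 2 2 1, hB 3 2 1, hB 4 2 1, hB 5 2 1, hB 6 2 1] at h
      linear_combination (-1) * h + (-1) * p0_6 + 1 * p0_9 + (-1) * p1_6 + 1 * p1_9 + (-1) * p3_6 + 1 * p3_9
    have g3_1 : (-1) * (B 3 3 3) = 0 := by
      have h : 1 * (B 0 3 3 - 2 * B 0 3 1) + 1 * (B 1 3 3 - 2 * B 1 3 1) + 0 * (B 2 3 3 - 2 * B 2 3 1) + 1 * (B 3 3 3 - 2 * B 3 3 1) + 0 * (B 4 3 3 - 2 * B 4 3 1) + 0 * (B 5 3 3 - 2 * B 5 3 1) + 0 * (B 6 3 3 - 2 * B 6 3 1) = 0 := by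
        have := c3 3 1
        rw [Fin.sum_univ_seven] at this
        exact this
      rw [hB 0 3 1, hB 1 3 1, hB 2 3 1, hB 3 3 1, hB 4 3 1, hB 5 3 1, hB 6 3 1] at h
      linear_combination (-1) * h + (-1) * p0_7 + (-1) * p1_7 + (-1) * p3_7
    have g4_1 : (-1) * (B 1 4 4) + (-1) * (B 3 4 4) = 0 := by
      have h : 1 * (B 0 4 4 - 2 * B 0 4 1) + 1 * (B 1 4 4 - 2 * B 1 4 1) + 0 * (B 2 4 4 - 2 * B 2 4 1) + 1 * (B 3 4 4 - 2 * B 3 4 1) + 0 * (B 4 4 4 - 2 * B 4 4 1) + 0 * (B 5 4 4 - 2 * B 5 4 1) + 0 * (B 6 4 4 - 2 * B 6 4 1) = 0 := by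
        have := c3 4 1
        rw [Fin.sum_univ_seven] at this
        exact this
      rw [hB 0 4 1, hB 1 4 1, hB 2 4 1, hB 3 4 1, hB 4 4 1, hB 5 4 1, hB 6 4 1] at h
      linear_combination (-1) * h + (-1) * p0_8 + 1 * p0_14 + (-1) * p1_8 + (-1) * p3_8
    have g0_2 : 4 * (2 * B 2 0 4) + (-4) * (B 2 4 4) + 2 * (2 * B 3 0 4) + 2 * (B 3 3 3) + 2 * (B 3 4 4) + 2 * (B 5 3 3) + (-1) * (B 5 4 4) = 0 := by
      have h : 0 * (B 0 0 0 - 2 * B 0 0 2) + 0 * (B 1 0 0 - 2 * B 1 0 2) + 1 * (B 2 0 0 - 2 * B 2 0 2) + (-1) * (B 3 0 0 - 2 * B 3 0 2) + 0 * (B 4 0 0 - 2 * B 4 0 2) + (-1) * (B 5 0 0 - 2 * B 5 0 2) + 0 * (B 6 0 0 - 2 * B 6 0 2) = 0 := by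
        have := c3 0 2
        rw [Fin.sum_univ_seven] at this
        exact this
      linear_combination (-1) * h + 1 * p2_0 + (-1) * p2_2 + (-1) * p3_0 + 1 * p3_2 + (-1) * p5_0 + 1 * p5_2
    have g1_2 : (-2) * (2 * B 2 1 3) + (-1) * (2 * B 5 1 3) + (-4) * (B 5 4 4) = 0 := by
      have h : 0 * (B 0 1 1 - 2 * B 0 1 2) + 0 * (B 1 1 1 - 2 * B 1 1 2) + 1 * (B 2 1 1 - 2 * B 2 1 2) + (-1) * (B 3 1 1 - 2 * B 3 1 2) + 0 * (B 4 1 1 - 2 * B 4 1 2) + (-1) * (B 5 1 1 - 2 * B 5 1 2) + 0 * (B 6 1 1 - 2 * B 6 1 2) = 0 := by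
        have := c3 1 2
        rw [Fin.sum_univ_seven] at this
        exact this
      linear_combination (-1) * h + 1 * p2_5 + (-1) * p2_6 + (-1) * p3_5 + 1 * p3_6 + (-1) * p5_5 + 1 * p5_6
    have g2_2 : (-1) * (B 5 4 4) = 0 := by
      have h : 0 * (B 0 2 2 - 2 * B 0 2 2) + 0 * (B 1 2 2 - 2 * B 1 2 2) + 1 * (B 2 2 2 - 2 * B 2 2 2) + (-1) * (B 3 2 2 - 2 * B 3 2 2) + 0 * (B 4 2 2 - 2 * B 4 2 2) + (-1) * (B 5 2 2 - 2 * B 5 2 2) + 0 * (B 6 2 2 - 2 * B 6 2 2) = 0 := by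
        have := c3 2 2
        rw [Fin.sum_univ_seven] at this
        exact this
      linear_combination (-1) * h + (-1) * p2_9 + 1 * p3_9 + 1 * p5_9
    have g3_2 : 2 * (B 3 3 3) + 2 * (B 5 3 3) = 0 := by
      have h : 0 * (B 0 3 3 - 2 * B 0 3 2) + 0 * (B 1 3 3 - 2 * B 1 3 2) + 1 * (B 2 3 3 - 2 * B 2 3 2) + (-1) * (B 3 3 3 - 2 * B 3 3 2) + 0 * (B 4 3 3 - 2 * B 4 3 2) + (-1) * (B 5 3 3 - 2 * B 5 3 2) + 0 * (B 6 3 3 - 2 * B 6 3 2) = 0 := by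
        have := c3 3 2
        rw [Fin.sum_univ_seven] at this
        exact this
      rw [hB 0 3 2, hB 1 3 2, hB 2 3 2, hB 3 3 2, hB 4 3 2, hB 5 3 2, hB 6 3 2] at h
      linear_combination (-1) * h + (-1) * p2_10 + 1 * p2_12 + 1 * p3_10 + 1 * p5_10
    have g4_2 : 2 * (B 3 4 4) + (-1) * (B 5 4 4) = 0 := by
      have h : 0 * (B 0 4 4 - 2 * B 0 4 2) + 0 * (B 1 4 4 - 2 * B 1 4 2) + 1 * (B 2 4 4 - 2 * B 2 4 2) + (-1) * (B 3 4 4 - 2 * B 3 4 2) + 0 * (B 4 4 4 - 2 * B 4 4 2) + (-1) * (B 5 4 4 - 2 * B 5 4 2) + 0 * (B 6 4 4 - 2 * B 6 4 2) = 0 := by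
        have := c3 4 2
        rw [Fin.sum_univ_seven] at this
        exact this
      rw [hB 0 4 2, hB 1 4 2, hB 2 4 2, hB 3 4 2, hB 4 4 2, hB 5 4 2, hB 6 4 2] at h
      linear_combination (-1) * h + (-1) * p2_11 + 1 * p3_11 + 1 * p5_11
    have g0_3 : (-2) * (2 * B 2 0 4) + 2 * (B 2 4 4) + (-1) * (B 5 3 3) + (-1) * (2 * B 6 0 4) = 0 := by
      have h : 0 * (B 0 0 0 - 2 * B 0 0 3) + 0 * (B 1 0 0 - 2 * B 1 0 3) + 2 * (B 2 0 0 - 2 * B 2 0 3) + 0 * (B 3 0 0 - 2 * B 3 0 3) + 1 * (B 4 0 0 - 2 * B 4 0 3) + (-1) * (B 5 0 0 - 2 * B 5 0 3) + 1 * (B 6 0 0 - 2 * B 6 0 3) = 0 := by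
        have := c3 0 3
        rw [Fin.sum_univ_seven] at this
        exact this
      linear_combination (-1) * h + 2 * p2_0 + (-2) * p2_3 + 1 * p4_0 + (-1) * p4_3 + (-1) * p5_0 + 1 * p5_3 + 1 * p6_0 + (-1) * p6_3
    have g1_3 : (-2) * (2 * B 2 1 3) + (-2) * (2 * B 5 1 3) + (-2) * (B 5 4 4) = 0 := by
      have h : 0 * (B 0 1 1 - 2 * B 0 1 3) + 0 * (B 1 1 1 - 2 * B 1 1 3) + 2 * (B 2 1 1 - 2 * B 2 1 3) + 0 * (B 3 1 1 - 2 * B 3 1 3) + 1 * (B 4 1 1 - 2 * B 4 1 3) + (-1) * (B 5 1 1 - 2 * B 5 1 3) + 1 * (B 6 1 1 - 2 * B 6 1 3) = 0 := by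
        have := c3 1 3
        rw [Fin.sum_univ_seven] at this
        exact this
      linear_combination (-1) * h + 2 * p2_5 + 1 * p4_5 + (-1) * p5_5 + 1 * p6_5
    have g2_3 : (-1/3) * (2 * B 4 2 4) + (-1/3) * (B 4 4 4) + 1 * (B 5 3 3) + 1 * (B 5 4 4) + (-1) * (2 * B 6 2 4) = 0 := by
      have h : 0 * (B 0 2 2 - 2 * B 0 2 3) + 0 * (B 1 2 2 - 2 * B 1 2 3) + 2 * (B 2 2 2 - 2 * B 2 2 3) + 0 * (B 3 2 2 - 2 * B 3 2 3) + 1 * (B 4 2 2 - 2 * B 4 2 3) + (-1) * (B 5 2 2 - 2 * B 5 2 3) + 1 * (B 6 2 2 - 2 * B 6 2 3) = 0 := by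
        have := c3 2 3
        rw [Fin.sum_univ_seven] at this
        exact this
      linear_combination (-1) * h + 2 * p2_9 + (-2) * p2_10 + 1 * p4_9 + (-1) * p4_10 + (-1) * p5_9 + 1 * p5_10 + 1 * p6_9 + (-1) * p6_10
    have g3_3 : (-1) * (B 5 3 3) = 0 := by
      have h : 0 * (B 0 3 3 - 2 * B 0 3 3) + 0 * (B 1 3 3 - 2 * B 1 3 3) + 2 * (B 2 3 3 - 2 * B 2 3 3) + 0 * (B 3 3 3 - 2 * B 3 3 3) + 1 * (B 4 3 3 - 2 * B 4 3 3) + (-1) * (B 5 3 3 - 2 * B 5 3 3) + 1 * (B 6 3 3 - 2 * B 6 3 3) = 0 := by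
        have := c3 3 3
        rw [Fin.sum_univ_seven] at this
        exact this
      linear_combination (-1) * h + (-2) * p2_12 + (-1) * p4_12 + (-1) * p6_12
    have g4_3 : (-2) * (B 2 4 4) + (-1) * (B 4 4 4) + 1 * (B 5 4 4) = 0 := by
      have h : 0 * (B 0 4 4 - 2 * B 0 4 3) + 0 * (B 1 4 4 - 2 * B 1 4 3) + 2 * (B 2 4 4 - 2 * B 2 4 3) + 0 * (B 3 4 4 - 2 * B 3 4 3) + 1 * (B 4 4 4 - 2 * B 4 4 3) + (-1) * (B 5 4 4 - 2 * B 5 4 3) + 1 * (B 6 4 4 - 2 * B 6 4 3) = 0 := by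
        have := c3 4 3
        rw [Fin.sum_univ_seven] at this
        exact this
      rw [hB 0 4 3, hB 1 4 3, hB 2 4 3, hB 3 4 3, hB 4 4 3, hB 5 4 3, hB 6 4 3] at h
      linear_combination (-1) * h + (-2) * p2_13 + (-1) * p4_13 + 1 * p5_13 + (-1) * p6_13 + 1 * p6_14
    have g0_4 : (-1) * (B 5 3 3) + 1 * (B 5 4 4) + 2 * (2 * B 6 0 4) = 0 := by
      have h : 1 * (B 0 0 0 - 2 * B 0 0 4) + 0 * (B 1 0 0 - 2 * B 1 0 4) + 0 * (B 2 0 0 - 2 * B 2 0 4) + 0 * (B 3 0 0 - 2 * B 3 0 4) + 0 * (B 4 0 0 - 2 * B 4 0 4) + 1 * (B 5 0 0 - 2 * B 5 0 4) + 1 * (B 6 0 0 - 2 * B 6 0 4) = 0 := by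
        have := c3 0 4
        rw [Fin.sum_univ_seven] at this
        exact this
      linear_combination (-1) * h + 1 * p0_0 + 1 * p5_0 + (-1) * p5_4 + 1 * p6_0
    have g1_4 : 1 * (2 * B 5 1 3) + 2 * (B 5 4 4) + (-1) * (2 * B 6 1 3) = 0 := by
      have h : 1 * (B 0 1 1 - 2 * B 0 1 4) + 0 * (B 1 1 1 - 2 * B 1 1 4) + 0 * (B 2 1 1 - 2 * B 2 1 4) + 0 * (B 3 1 1 - 2 * B 3 1 4) + 0 * (B 4 1 1 - 2 * B 4 1 4) + 1 * (B 5 1 1 - 2 * B 5 1 4) + 1 * (B 6 1 1 - 2 * B 6 1 4) = 0 := by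
        have := c3 1 4
        rw [Fin.sum_univ_seven] at this
        exact this
      linear_combination (-1) * h + 1 * p0_5 + (-1) * p0_8 + 1 * p5_5 + (-1) * p5_8 + 1 * p6_5 + (-1) * p6_8
    have g2_4 : 2 * (2 * B 0 2 4) + 1 * (B 5 4 4) = 0 := by
      have h : 1 * (B 0 2 2 - 2 * B 0 2 4) + 0 * (B 1 2 2 - 2 * B 1 2 4) + 0 * (B 2 2 2 - 2 * B 2 2 4) + 0 * (B 3 2 2 - 2 * B 3 2 4) + 0 * (B 4 2 2 - 2 * B 4 2 4) + 1 * (B 5 2 2 - 2 * B 5 2 4) + 1 * (B 6 2 2 - 2 * B 6 2 4) = 0 := by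
        have := c3 2 4
        rw [Fin.sum_univ_seven] at this
        exact this
      linear_combination (-1) * h + 1 * p0_9 + 1 * p5_9 + (-1) * p5_11 + 1 * p6_9
    have g3_4 : (-1) * (B 0 3 3) + (-1) * (B 5 3 3) = 0 := by
      have h : 1 * (B 0 3 3 - 2 * B 0 3 4) + 0 * (B 1 3 3 - 2 * B 1 3 4) + 0 * (B 2 3 3 - 2 * B 2 3 4) + 0 * (B 3 3 3 - 2 * B 3 3 4) + 0 * (B 4 3 3 - 2 * B 4 3 4) + 1 * (B 5 3 3 - 2 * B 5 3 4) + 1 * (B 6 3 3 - 2 * B 6 3 4) = 0 := by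
        have := c3 3 4
        rw [Fin.sum_univ_seven] at this
        exact this
      linear_combination (-1) * h + (-1) * p0_13 + (-1) * p5_13 + 1 * p6_12 + (-1) * p6_13
    have g4_4 : 1 * (B 5 4 4) = 0 := by
      have h : 1 * (B 0 4 4 - 2 * B 0 4 4) + 0 * (B 1 4 4 - 2 * B 1 4 4) + 0 * (B 2 4 4 - 2 * B 2 4 4) + 0 * (B 3 4 4 - 2 * B 3 4 4) + 0 * (B 4 4 4 - 2 * B 4 4 4) + 1 * (B 5 4 4 - 2 * B 5 4 4) + 1 * (B 6 4 4 - 2 * B 6 4 4) = 0 := by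
        have := c3 4 4
        rw [Fin.sum_univ_seven] at this
        exact this
      linear_combination (-1) * h + (-1) * p0_14 + (-1) * p6_14
    have z0_0_4 : B 0 0 4 = 0 := by
      linear_combination (-1/4) * g0_0 + (-1/2) * g0_1 + (-1/4) * g0_2 + (-1/2) * g0_3 + (-1/4) * g0_4
    have z0_2_4 : B 0 2 4 = 0 := by
      linear_combination (1/4) * g2_4 + (-1/4) * g4_4
    have z0_3_3 : B 0 3 3 = 0 := by
      linear_combination (-1) * g0_0 + (-1) * g3_4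
    have z1_2_4 : B 1 2 4 = 0 := by
      linear_combination (1/2) * g0_0 + (-1/2) * g3_0 + (3/2) * g2_1 + (-1/2) * g4_1 + (-1/4) * g4_2 + (3/4) * g2_4 + (-1) * g4_4
    have z1_3_3 : B 1 3 3 = 0 := by
      linear_combination 1 * g0_0 + (-1) * g3_0
    have z1_4_4 : B 1 4 4 = 0 := by
      linear_combination (-1) * g4_1 + (-1/2) * g4_2 + (-1/2) * g4_4
    have z2_0_4 : B 2 0 4 = 0 := by
      linear_combination (-3/8) * g0_0 + (-1/8) * g4_0 + (-1/4) * g0_3 + (-1/4) * g4_3 + (-1/8) * g0_4 + (3/8) * g4_4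
    have z2_1_3 : B 2 1 3 = 0 := by
      linear_combination (-1/2) * g1_2 + (1/4) * g1_3 + (-3/2) * g4_4
    have z2_4_4 : B 2 4 4 = 0 := by
      linear_combination (-1/4) * g4_0 + (-1/2) * g4_3 + (1/2) * g4_4
    have z3_0_4 : B 3 0 4 = 0 := by
      linear_combination (1/4) * g0_0 + (1/2) * g3_1 + (1/4) * g0_2 + (-1/4) * g4_2 + (1/2) * g0_3 + (1/4) * g0_4 + (-1/4) * g4_4
    have z3_3_3 : B 3 3 3 = 0 := by
      linear_combination (-1) * g3_1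
    have z3_4_4 : B 3 4 4 = 0 := by
      linear_combination (1/2) * g4_2 + (1/2) * g4_4
    have z4_1_3 : B 4 1 3 = 0 := by
      linear_combination (1/2) * g1_0 + (-1/2) * g1_2 + (1/2) * g1_3 + (-2) * g4_4
    have z4_2_4 : B 4 2 4 = 0 := by
      linear_combination (3/4) * g0_0 + (3/4) * g2_0 + (-1/4) * g4_0 + (3/2) * g2_1 + (3/4) * g2_4 + (-3/4) * g4_4
    have z4_4_4 : B 4 4 4 = 0 := by
      linear_combination (1/2) * g4_0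
    have z5_1_3 : B 5 1 3 = 0 := by
      linear_combination (1/2) * g1_2 + (-1/2) * g1_3 + 1 * g4_4
    have z5_3_3 : B 5 3 3 = 0 := by
      linear_combination 1 * g0_0
    have z5_4_4 : B 5 4 4 = 0 := by
      linear_combination 1 * g4_4
    have z6_0_4 : B 6 0 4 = 0 := by
      linear_combination (1/4) * g0_0 + (1/4) * g0_4 + (-1/4) * g4_4
    have z6_1_3 : B 6 1 3 = 0 := by
      linear_combination (1/2) * g1_2 + (-1/2) * g1_3 + (-1/2) * g1_4 + 2 * g4_4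
    have z6_2_4 : B 6 2 4 = 0 := by
      linear_combination (1/4) * g0_0 + (-1/4) * g2_0 + (-1/2) * g2_1 + (-1/2) * g2_3 + (-1/4) * g2_4 + (3/4) * g4_4
    have z0_0_0 : B 0 0 0 = 0 := by
      linear_combination 1 * p0_0 + 2 * z0_0_4
    have z0_0_1 : B 0 0 1 = 0 := by
      linear_combination (1/2) * p0_1
    have z0_0_2 : B 0 0 2 = 0 := by
      linear_combination (1/2) * p0_2 + (-1) * z0_0_4 + (-3) * z0_2_4 + (1/2) * z0_3_3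
    have z0_0_3 : B 0 0 3 = 0 := by
      linear_combination (1/2) * p0_3 + 2 * z0_0_4
    have z0_1_1 : B 0 1 1 = 0 := by
      linear_combination 1 * p0_5
    have z0_1_2 : B 0 1 2 = 0 := by
      linear_combination (1/2) * p0_6 + (-2) * z0_2_4
    have z0_1_3 : B 0 1 3 = 0 := by
      linear_combination (1/2) * p0_7 + (1/2) * z0_3_3
    have z0_1_4 : B 0 1 4 = 0 := by
      linear_combination (1/2) * p0_8
    have z0_2_2 : B 0 2 2 = 0 := by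
      linear_combination 1 * p0_9 + (-2) * z0_2_4
    have z0_2_3 : B 0 2 3 = 0 := by
      linear_combination (1/2) * p0_10 + (-1/2) * z0_3_3
    have z0_3_4 : B 0 3 4 = 0 := by
      linear_combination (1/2) * p0_13
    have z0_4_4 : B 0 4 4 = 0 := by
      linear_combination 1 * p0_14
    have z1_0_0 : B 1 0 0 = 0 := by
      linear_combination 1 * p1_0
    have z1_0_1 : B 1 0 1 = 0 := by
      linear_combination (1/2) * p1_1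
    have z1_0_2 : B 1 0 2 = 0 := by
      linear_combination (1/2) * p1_2 + (-1/3) * z1_2_4 + (1/6) * z1_3_3 + (1/6) * z1_4_4
    have z1_0_3 : B 1 0 3 = 0 := by
      linear_combination (1/2) * p1_3
    have z1_0_4 : B 1 0 4 = 0 := by
      linear_combination (1/2) * p1_4 + (1/2) * z1_4_4
    have z1_1_1 : B 1 1 1 = 0 := by
      linear_combination 1 * p1_5
    have z1_1_2 : B 1 1 2 = 0 := by
      linear_combination (1/2) * p1_6 + (2/3) * z1_2_4 + (-1/3) * z1_3_3 + (-1/3) * z1_4_4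
    have z1_1_3 : B 1 1 3 = 0 := by
      linear_combination (1/2) * p1_7 + (1/2) * z1_3_3
    have z1_1_4 : B 1 1 4 = 0 := by
      linear_combination (1/2) * p1_8
    have z1_2_2 : B 1 2 2 = 0 := by
      linear_combination 1 * p1_9 + (2/3) * z1_2_4 + (-1/3) * z1_3_3 + (-1/3) * z1_4_4
    have z1_2_3 : B 1 2 3 = 0 := by
      linear_combination (1/2) * p1_10 + (-1/2) * z1_3_3
    have z1_3_4 : B 1 3 4 = 0 := by
      linear_combination (1/2) * p1_13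
    have z2_0_0 : B 2 0 0 = 0 := by
      linear_combination 1 * p2_0 + (-2) * z2_0_4 + 1 * z2_4_4
    have z2_0_1 : B 2 0 1 = 0 := by
      linear_combination (1/2) * p2_1
    have z2_0_2 : B 2 0 2 = 0 := by
      linear_combination (1/2) * p2_2 + 3 * z2_0_4 + (-3/2) * z2_4_4
    have z2_0_3 : B 2 0 3 = 0 := by
      linear_combination (1/2) * p2_3 + (-2) * z2_0_4 + 1 * z2_4_4
    have z2_1_1 : B 2 1 1 = 0 := by
      linear_combination 1 * p2_5 + 4 * z2_1_3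
    have z2_1_2 : B 2 1 2 = 0 := by
      linear_combination (1/2) * p2_6
    have z2_1_4 : B 2 1 4 = 0 := by
      linear_combination (1/2) * p2_8
    have z2_2_2 : B 2 2 2 = 0 := by
      linear_combination 1 * p2_9
    have z2_2_3 : B 2 2 3 = 0 := by
      linear_combination (1/2) * p2_10
    have z2_2_4 : B 2 2 4 = 0 := by
      linear_combination (1/2) * p2_11 + (1/2) * z2_4_4
    have z2_3_3 : B 2 3 3 = 0 := by
      linear_combination 1 * p2_12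
    have z2_3_4 : B 2 3 4 = 0 := by
      linear_combination (1/2) * p2_13
    have z3_0_0 : B 3 0 0 = 0 := by
      linear_combination 1 * p3_0 + 2 * z3_0_4 + 1 * z3_3_3 + 1 * z3_4_4
    have z3_0_1 : B 3 0 1 = 0 := by
      linear_combination (1/2) * p3_1
    have z3_0_2 : B 3 0 2 = 0 := by
      linear_combination (1/2) * p3_2 + (-1) * z3_0_4 + (-1/2) * z3_3_3 + (-1/2) * z3_4_4
    have z3_0_3 : B 3 0 3 = 0 := by
      linear_combination (1/2) * p3_3 + 2 * z3_0_4 + 1 * z3_3_3 + 1 * z3_4_4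
    have z3_1_1 : B 3 1 1 = 0 := by
      linear_combination 1 * p3_5
    have z3_1_2 : B 3 1 2 = 0 := by
      linear_combination (1/2) * p3_6
    have z3_1_3 : B 3 1 3 = 0 := by
      linear_combination (1/2) * p3_7
    have z3_1_4 : B 3 1 4 = 0 := by
      linear_combination (1/2) * p3_8
    have z3_2_2 : B 3 2 2 = 0 := by
      linear_combination 1 * p3_9
    have z3_2_3 : B 3 2 3 = 0 := by
      linear_combination (1/2) * p3_10 + (-1/2) * z3_3_3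
    have z3_2_4 : B 3 2 4 = 0 := by
      linear_combination (1/2) * p3_11 + (-1/2) * z3_4_4
    have z3_3_4 : B 3 3 4 = 0 := by
      linear_combination (1/2) * p3_13
    have z4_0_0 : B 4 0 0 = 0 := by
      linear_combination 1 * p4_0
    have z4_0_1 : B 4 0 1 = 0 := by
      linear_combination (1/2) * p4_1
    have z4_0_2 : B 4 0 2 = 0 := by
      linear_combination (1/2) * p4_2 + (-1/3) * z4_2_4 + (-1/6) * z4_4_4
    have z4_0_3 : B 4 0 3 = 0 := by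
      linear_combination (1/2) * p4_3
    have z4_0_4 : B 4 0 4 = 0 := by
      linear_combination (1/2) * p4_4 + (-1/2) * z4_4_4
    have z4_1_1 : B 4 1 1 = 0 := by
      linear_combination 1 * p4_5 + 2 * z4_1_3
    have z4_1_2 : B 4 1 2 = 0 := by
      linear_combination (1/2) * p4_6 + (2/3) * z4_2_4 + (1/3) * z4_4_4
    have z4_1_4 : B 4 1 4 = 0 := by
      linear_combination (1/2) * p4_8
    have z4_2_2 : B 4 2 2 = 0 := by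
      linear_combination 1 * p4_9 + (2/3) * z4_2_4 + (1/3) * z4_4_4
    have z4_2_3 : B 4 2 3 = 0 := by
      linear_combination (1/2) * p4_10
    have z4_3_3 : B 4 3 3 = 0 := by
      linear_combination 1 * p4_12
    have z4_3_4 : B 4 3 4 = 0 := by
      linear_combination (1/2) * p4_13
    have z5_0_0 : B 5 0 0 = 0 := by
      linear_combination 1 * p5_0 + 1 * z5_3_3
    have z5_0_1 : B 5 0 1 = 0 := by
      linear_combination (1/2) * p5_1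
    have z5_0_2 : B 5 0 2 = 0 := by
      linear_combination (1/2) * p5_2 + (-1/2) * z5_3_3 + (1/2) * z5_4_4
    have z5_0_3 : B 5 0 3 = 0 := by
      linear_combination (1/2) * p5_3 + 1 * z5_3_3
    have z5_0_4 : B 5 0 4 = 0 := by
      linear_combination (1/2) * p5_4 + (1/2) * z5_4_4
    have z5_1_1 : B 5 1 1 = 0 := by
      linear_combination 1 * p5_5 + (-2) * z5_1_3 + (-2) * z5_4_4
    have z5_1_2 : B 5 1 2 = 0 := by
      linear_combination (1/2) * p5_6 + 1 * z5_4_4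
    have z5_1_4 : B 5 1 4 = 0 := by
      linear_combination (1/2) * p5_8
    have z5_2_2 : B 5 2 2 = 0 := by
      linear_combination 1 * p5_9 + 1 * z5_4_4
    have z5_2_3 : B 5 2 3 = 0 := by
      linear_combination (1/2) * p5_10 + (-1/2) * z5_3_3
    have z5_2_4 : B 5 2 4 = 0 := by
      linear_combination (1/2) * p5_11 + 1 * z5_4_4
    have z5_3_4 : B 5 3 4 = 0 := by
      linear_combination (1/2) * p5_13
    have z6_0_0 : B 6 0 0 = 0 := by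
      linear_combination 1 * p6_0 + (-2) * z6_0_4
    have z6_0_1 : B 6 0 1 = 0 := by
      linear_combination (1/2) * p6_1
    have z6_0_2 : B 6 0 2 = 0 := by
      linear_combination (1/2) * p6_2 + 3 * z6_0_4 + 1 * z6_2_4
    have z6_0_3 : B 6 0 3 = 0 := by
      linear_combination (1/2) * p6_3 + (-2) * z6_0_4
    have z6_1_1 : B 6 1 1 = 0 := by
      linear_combination 1 * p6_5 + 2 * z6_1_3
    have z6_1_2 : B 6 1 2 = 0 := by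
      linear_combination (1/2) * p6_6 + 2 * z6_2_4
    have z6_1_4 : B 6 1 4 = 0 := by
      linear_combination (1/2) * p6_8
    have z6_2_2 : B 6 2 2 = 0 := by
      linear_combination 1 * p6_9 + 2 * z6_2_4
    have z6_2_3 : B 6 2 3 = 0 := by
      linear_combination (1/2) * p6_10
    have z6_3_3 : B 6 3 3 = 0 := by
      linear_combination 1 * p6_12
    have z6_3_4 : B 6 3 4 = 0 := by
      linear_combination (1/2) * p6_13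
    have z6_4_4 : B 6 4 4 = 0 := by
      linear_combination 1 * p6_14
    intro a i j
    fin_cases a
    · exact all5 (B 0) (hB 0) z0_0_0 z0_0_1 z0_0_2 z0_0_3 z0_0_4 z0_1_1 z0_1_2 z0_1_3 z0_1_4 z0_2_2 z0_2_3 z0_2_4 z0_3_3 z0_3_4 z0_4_4 i j
    · exact all5 (B 1) (hB 1) z1_0_0 z1_0_1 z1_0_2 z1_0_3 z1_0_4 z1_1_1 z1_1_2 z1_1_3 z1_1_4 z1_2_2 z1_2_3 z1_2_4 z1_3_3 z1_3_4 z1_4_4 i j
    · exact all5 (B 2) (hB 2) z2_0_0 z2_0_1 z2_0_2 z2_0_3 z2_0_4 z2_1_1 z2_1_2 z2_1_3 z2_1_4 z2_2_2 z2_2_3 z2_2_4 z2_3_3 z2_3_4 z2_4_4 i j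
    · exact all5 (B 3) (hB 3) z3_0_0 z3_0_1 z3_0_2 z3_0_3 z3_0_4 z3_1_1 z3_1_2 z3_1_3 z3_1_4 z3_2_2 z3_2_3 z3_2_4 z3_3_3 z3_3_4 z3_4_4 i j
    · exact all5 (B 4) (hB 4) z4_0_0 z4_0_1 z4_0_2 z4_0_3 z4_0_4 z4_1_1 z4_1_2 z4_1_3 z4_1_4 z4_2_2 z4_2_3 z4_2_4 z4_3_3 z4_3_4 z4_4_4 i j
    · exact all5 (B 5) (hB 5) z5_0_0 z5_0_1 z5_0_2 z5_0_3 z5_0_4 z5_1_1 z5_1_2 z5_1_3 z5_1_4 z5_2_2 z5_2_3 z5_2_4 z5_3_3 z5_3_4 z5_4_4 i j
    · exact all5 (B 6) (hB 6) z6_0_0 z6_0_1 z6_0_2 z6_0_3 z6_0_4 z6_1_1 z6_1_2 z6_1_3 z6_1_4 z6_2_2 z6_2_3 z6_2_4 z6_3_3 z6_3_4 z6_4_4 i j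

end Pool.Agent.HilbPts
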