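import Pool.Agent.HilbPts.Form5

set_option autoImplicit false
set_option linter.all false

namespace Pool.Agent.HilbPts

variable {k : Type*} [Field k]

/-- Points. -/
def qf8 (k : Type*) [Field k] : Fin 8 → Fin 5 → k :=
  ![![1, 1, 1, (-1), 0],
    ![0, 1, 0, 1, 2],
    ![1, 1, 1, 0, 0],
    ![0, 1, 1, 0, 1],
    ![1, 1, (-1), 0, 0],
    ![0, 1, 0, 1, 0],
    ![1, 1, (-1), 0, 2],
    ![0, 0, 0, 1, 1]]

/-- Integral points. -/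
def zf8 : Fin 8 → Fin 5 → ℤ :=
  ![![1, 1, 1, (-1), 0],
    ![0, 1, 0, 1, 2],
    ![1, 1, 1, 0, 0],
    ![0, 1, 1, 0, 1],
    ![1, 1, (-1), 0, 0],
    ![0, 1, 0, 1, 0],
    ![1, 1, (-1), 0, 2],
    ![0, 0, 0, 1, 1]]

theorem inj_f8 [CharZero k] : Function.Injective (stdPts (qf8 k)) := by
  have h1 : ∀ s m, qf8 k s m = ((zf8 s m : ℤ) : k) := by
    intro s m
    fin_cases s <;> fin_cases m <;> simp [qf8, zf8]
  have h2 : Function.Injective (stdPts zf8) := by decide +kernel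
  exact stdPts_injective_of_int _ _ h1 h2

theorem sf8_0 [CharZero k] (B : Fin 5 → Fin 5 → k) (hB : ∀ i j, B i j = B j i)
    (c1 : ∀ s, qfun B (qf8 k s) = 0)
    (c2 : ∀ m, 2 * ∑ i, B m i * qf8 k 0 i - B m m = 0) :
    B 0 0 = (-1) * (2 * B 2 3) ∧
    2 * B 0 1 = (-1/2) * (2 * B 2 3) ∧
    2 * B 0 2 = (1/2) * (2 * B 2 3) ∧
    2 * B 0 3 = (-1) * (2 * B 2 3) ∧
    2 * B 0 4 = 1 * (B 4 4) ∧
    B 1 1 = (1/2) * (2 * B 2 3) ∧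
    2 * B 1 2 = 0 ∧
    2 * B 1 3 = 0 ∧
    2 * B 1 4 = (-1) * (B 4 4) ∧
    B 2 2 = (1/2) * (2 * B 2 3) ∧
    2 * B 2 4 = 1 * (B 4 4) ∧
    B 3 3 = 0 ∧
    2 * B 3 4 = 0 := by
  have v0 : vform B 1 1 1 (-1) 0 = 0 := (vform_eq B hB _ _ (c1 0) rfl rfl rfl rfl rfl)
  have v1 : vform B 0 1 0 1 2 = 0 := (vform_eq B hB _ _ (c1 1) rfl rfl rfl rfl rfl)
  have v2 : vform B 1 1 1 0 0 = 0 := (vform_eq B hB _ _ (c1 2) rfl rfl rfl rfl rfl)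
  have v3 : vform B 0 1 1 0 1 = 0 := (vform_eq B hB _ _ (c1 3) rfl rfl rfl rfl rfl)
  have v4 : vform B 1 1 (-1) 0 0 = 0 := (vform_eq B hB _ _ (c1 4) rfl rfl rfl rfl rfl)
  have v5 : vform B 0 1 0 1 0 = 0 := (vform_eq B hB _ _ (c1 5) rfl rfl rfl rfl rfl)
  have v6 : vform B 1 1 (-1) 0 2 = 0 := (vform_eq B hB _ _ (c1 6) rfl rfl rfl rfl rfl)
  have v7 : vform B 0 0 0 1 1 = 0 := (vform_eq B hB _ _ (c1 7) rfl rfl rfl rfl rfl)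
  have w0 : wform B 0 1 1 1 (-1) 0 = 0 := (wform_eq B 0 _ (c2 0) rfl rfl rfl rfl rfl)
  have w1 : wform B 1 1 1 1 (-1) 0 = 0 := (wform_eq B 1 _ (c2 1) rfl rfl rfl rfl rfl)
  have w2 : wform B 2 1 1 1 (-1) 0 = 0 := (wform_eq B 2 _ (c2 2) rfl rfl rfl rfl rfl)
  have w3 : wform B 3 1 1 1 (-1) 0 = 0 := (wform_eq B 3 _ (c2 3) rfl rfl rfl rfl rfl)
  have w4 : wform B 4 1 1 1 (-1) 0 = 0 := (wform_eq B 4 _ (c2 4) rfl rfl rfl rfl rfl)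
  simp only [vform, wform] at v0 v1 v2 v3 v4 v5 v6 v7 w0 w1 w2 w3 w4
  simp only [hB 1 0, hB 2 0, hB 3 0, hB 4 0, hB 2 1, hB 3 1, hB 4 1, hB 3 2, hB 4 2, hB 4 3] at w1 w2 w3 w4
  exact ⟨by linear_combination (-3) * v0 + (-1/2) * v1 + 2 * v2 + 1 * v3 + (-1/4) * v4 + (-1/2) * v5 + (1/4) * v6 + (1/2) * v7 + 1 * w0 + (-2) * w3 + (-1/2) * w4,
    by linear_combination (3/4) * v2 + (1/4) * v4 + (-1/2) * w2,
    by linear_combination (1/2) * v1 + (1/4) * v2 + (-1) * v3 + (-1/2) * v5 + (-1/4) * v6 + (-1/2) * v7 + (1/2) * w2 + (1/2) * w4,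
    by linear_combination (-3) * v0 + 3 * v2 + (-1) * v5 + (-2) * w3,
    by linear_combination (-1/2) * v1 + (-1/4) * v4 + (1/2) * v5 + (1/4) * v6 + (3/2) * v7 + (1/2) * w4,
    by linear_combination (1/2) * v1 + (-3/4) * v2 + (-1) * v3 + (1/2) * v5 + (-1/4) * v6 + (-1/2) * v7 + 1 * w1 + (1/2) * w2 + (1/2) * w4,
    by linear_combination (-1/2) * v1 + 1 * v3 + (-1/4) * v4 + (1/2) * v5 + (1/4) * v6 + (1/2) * v7 + (-1/2) * w4,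
    by linear_combination 1 * v5,
    by linear_combination (1/2) * v1 + (-1/2) * v5 + (-1) * v7,
    by linear_combination (-1/4) * v2 + (1/4) * v4 + (1/2) * w2,
    by linear_combination (1/4) * v4 + (-1/4) * v6 + (1/2) * v7 + (1/2) * w4,
    by linear_combination (-1) * v0 + 1 * v2 + (-1) * w3,
    by linear_combination 1 * v7⟩

theorem sf8_1 [CharZero k] (B : Fin 5 → Fin 5 → k) (hB : ∀ i j, B i j = B j i)
    (c1 : ∀ s, qfun B (qf8 k s) = 0)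
    (c2 : ∀ m, 2 * ∑ i, B m i * qf8 k 1 i - B m m = 0) :
    B 0 0 = (-2) * (2 * B 2 3) + 1 * (2 * B 2 4) ∧
    2 * B 0 1 = (-1) * (2 * B 2 3) + (-1) * (2 * B 2 4) ∧
    2 * B 0 2 = 1 * (2 * B 2 3) + 2 * (2 * B 2 4) ∧
    2 * B 0 3 = (-1) * (2 * B 2 3) ∧
    2 * B 0 4 = 1 * (2 * B 2 4) ∧
    B 1 1 = 0 ∧
    2 * B 1 2 = (-1) * (2 * B 2 4) ∧
    2 * B 1 3 = 0 ∧
    2 * B 1 4 = 0 ∧
    B 2 2 = 1 * (2 * B 2 3) + 1 * (2 * B 2 4) ∧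
    B 3 3 = 0 ∧
    2 * B 3 4 = 0 ∧
    B 4 4 = 0 := by
  have v0 : vform B 1 1 1 (-1) 0 = 0 := (vform_eq B hB _ _ (c1 0) rfl rfl rfl rfl rfl)
  have v1 : vform B 0 1 0 1 2 = 0 := (vform_eq B hB _ _ (c1 1) rfl rfl rfl rfl rfl)
  have v2 : vform B 1 1 1 0 0 = 0 := (vform_eq B hB _ _ (c1 2) rfl rfl rfl rfl rfl)
  have v3 : vform B 0 1 1 0 1 = 0 := (vform_eq B hB _ _ (c1 3) rfl rfl rfl rfl rfl)
  have v4 : vform B 1 1 (-1) 0 0 = 0 := (vform_eq B hB _ _ (c1 4) rfl rfl rfl rfl rfl)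
  have v5 : vform B 0 1 0 1 0 = 0 := (vform_eq B hB _ _ (c1 5) rfl rfl rfl rfl rfl)
  have v6 : vform B 1 1 (-1) 0 2 = 0 := (vform_eq B hB _ _ (c1 6) rfl rfl rfl rfl rfl)
  have v7 : vform B 0 0 0 1 1 = 0 := (vform_eq B hB _ _ (c1 7) rfl rfl rfl rfl rfl)
  have w0 : wform B 0 0 1 0 1 2 = 0 := (wform_eq B 0 _ (c2 0) rfl rfl rfl rfl rfl)
  have w1 : wform B 1 0 1 0 1 2 = 0 := (wform_eq B 1 _ (c2 1) rfl rfl rfl rfl rfl)
  have w2 : wform B 2 0 1 0 1 2 = 0 := (wform_eq B 2 _ (c2 2) rfl rfl rfl rfl rfl)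
  have w3 : wform B 3 0 1 0 1 2 = 0 := (wform_eq B 3 _ (c2 3) rfl rfl rfl rfl rfl)
  have w4 : wform B 4 0 1 0 1 2 = 0 := (wform_eq B 4 _ (c2 4) rfl rfl rfl rfl rfl)
  simp only [vform, wform] at v0 v1 v2 v3 v4 v5 v6 v7 w0 w1 w2 w3 w4
  simp only [hB 1 0, hB 2 0, hB 3 0, hB 4 0, hB 2 1, hB 3 1, hB 4 1, hB 3 2, hB 4 2, hB 4 3] at w1 w2 w3 w4
  exact ⟨by linear_combination (-1) * v0 + (-1/4) * v1 + (3/2) * v2 + (-1) * v3 + (-1/2) * v4 + (-11/4) * v5 + 1 * v6 + (-3) * v7 + (-1) * w0 + 1 * w2 + 2 * w3 + (-1/2) * w4,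
    by linear_combination (3/4) * v1 + (1/2) * v2 + (-1) * v3 + (1/2) * v4 + (-3/4) * v5 + (-1) * v7 + 1 * w2 + (-1/2) * w4,
    by linear_combination (1/2) * v2 + (-1/2) * v4 + (-1) * w2,
    by linear_combination (-1) * v0 + 1 * v2 + (-3) * v5 + (-4) * v7 + 2 * w3,
    by linear_combination (-1/2) * v1 + (-1/2) * v4 + (1/2) * v5 + (1/2) * v6 + 1 * v7,
    by linear_combination (-3/2) * v1 + (1/2) * v5 + 2 * v7 + 1 * w1 + 1 * w4,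
    by linear_combination (-3/4) * v1 + 1 * v3 + (3/4) * v5 + 1 * v7 + (1/2) * w4,
    by linear_combination 1 * v5,
    by linear_combination (3/4) * v1 + (-3/4) * v5 + (-1) * v7 + (-1/2) * w4,
    by linear_combination (-3/4) * v1 + 1 * v3 + (3/4) * v5 + 1 * v7 + (-1) * w2 + (1/2) * w4,
    by linear_combination (-1) * v5 + (-2) * v7 + 1 * w3,
    by linear_combination 1 * v7,
    by linear_combination (-1/4) * v1 + (1/4) * v5 + (1/2) * w4⟩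

theorem sf8_2 [CharZero k] (B : Fin 5 → Fin 5 → k) (hB : ∀ i j, B i j = B j i)
    (c1 : ∀ s, qfun B (qf8 k s) = 0)
    (c2 : ∀ m, 2 * ∑ i, B m i * qf8 k 2 i - B m m = 0) :
    B 0 0 = 0 ∧
    2 * B 0 1 = 0 ∧
    2 * B 0 2 = 0 ∧
    2 * B 0 3 = (-1) * (2 * B 2 3) ∧
    2 * B 0 4 = 1 * (B 4 4) ∧
    B 1 1 = 0 ∧
    2 * B 1 2 = 0 ∧
    2 * B 1 3 = 0 ∧
    2 * B 1 4 = (-1) * (B 4 4) ∧
    B 2 2 = 0 ∧
    2 * B 2 4 = 1 * (B 4 4) ∧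
    B 3 3 = 0 ∧
    2 * B 3 4 = 0 := by
  have v0 : vform B 1 1 1 (-1) 0 = 0 := (vform_eq B hB _ _ (c1 0) rfl rfl rfl rfl rfl)
  have v1 : vform B 0 1 0 1 2 = 0 := (vform_eq B hB _ _ (c1 1) rfl rfl rfl rfl rfl)
  have v2 : vform B 1 1 1 0 0 = 0 := (vform_eq B hB _ _ (c1 2) rfl rfl rfl rfl rfl)
  have v3 : vform B 0 1 1 0 1 = 0 := (vform_eq B hB _ _ (c1 3) rfl rfl rfl rfl rfl)
  have v4 : vform B 1 1 (-1) 0 0 = 0 := (vform_eq B hB _ _ (c1 4) rfl rfl rfl rfl rfl)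
  have v5 : vform B 0 1 0 1 0 = 0 := (vform_eq B hB _ _ (c1 5) rfl rfl rfl rfl rfl)
  have v6 : vform B 1 1 (-1) 0 2 = 0 := (vform_eq B hB _ _ (c1 6) rfl rfl rfl rfl rfl)
  have v7 : vform B 0 0 0 1 1 = 0 := (vform_eq B hB _ _ (c1 7) rfl rfl rfl rfl rfl)
  have w0 : wform B 0 1 1 1 0 0 = 0 := (wform_eq B 0 _ (c2 0) rfl rfl rfl rfl rfl)
  have w1 : wform B 1 1 1 1 0 0 = 0 := (wform_eq B 1 _ (c2 1) rfl rfl rfl rfl rfl)
  have w2 : wform B 2 1 1 1 0 0 = 0 := (wform_eq B 2 _ (c2 2) rfl rfl rfl rfl rfl)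
  have w3 : wform B 3 1 1 1 0 0 = 0 := (wform_eq B 3 _ (c2 3) rfl rfl rfl rfl rfl)
  have w4 : wform B 4 1 1 1 0 0 = 0 := (wform_eq B 4 _ (c2 4) rfl rfl rfl rfl rfl)
  simp only [vform, wform] at v0 v1 v2 v3 v4 v5 v6 v7 w0 w1 w2 w3 w4
  simp only [hB 1 0, hB 2 0, hB 3 0, hB 4 0, hB 2 1, hB 3 1, hB 4 1, hB 3 2, hB 4 2, hB 4 3] at w1 w2 w3 w4
  exact ⟨by linear_combination (-1/2) * v1 + (-1) * v2 + 1 * v3 + (-1/4) * v4 + (1/2) * v5 + (1/4) * v6 + 1 * v7 + 1 * w0 + (-1/2) * w4,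
    by linear_combination (3/4) * v2 + (1/4) * v4 + (-1/2) * w2,
    by linear_combination (1/2) * v1 + (1/4) * v2 + (-1) * v3 + (-1/2) * v5 + (-1/4) * v6 + (-1) * v7 + (1/2) * w2 + (1/2) * w4,
    by linear_combination 1 * v0 + (-1) * v2 + (-1) * v5 + 2 * w3,
    by linear_combination (-1/2) * v1 + (-1/4) * v4 + (1/2) * v5 + (1/4) * v6 + 1 * v7 + (1/2) * w4,
    by linear_combination (1/2) * v1 + (-3/4) * v2 + (-1) * v3 + (-1/2) * v5 + (-1/4) * v6 + (-1) * v7 + 1 * w1 + (1/2) * w2 + (1/2) * w4,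
    by linear_combination (-1/2) * v1 + 1 * v3 + (-1/4) * v4 + (1/2) * v5 + (1/4) * v6 + 1 * v7 + (-1/2) * w4,
    by linear_combination 1 * v5,
    by linear_combination (1/2) * v1 + (-1/2) * v5 + (-1) * v7,
    by linear_combination (-1/4) * v2 + (1/4) * v4 + (1/2) * w2,
    by linear_combination (1/4) * v4 + (-1/4) * v6 + (1/2) * w4,
    by linear_combination 1 * v0 + (-1) * v2 + 1 * w3,
    by linear_combination 1 * v7⟩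

theorem sf8_3 [CharZero k] (B : Fin 5 → Fin 5 → k) (hB : ∀ i j, B i j = B j i)
    (c1 : ∀ s, qfun B (qf8 k s) = 0)
    (c2 : ∀ m, 2 * ∑ i, B m i * qf8 k 3 i - B m m = 0) :
    B 0 0 = (-1) * (B 4 4) ∧
    2 * B 0 1 = 1 * (B 4 4) ∧
    2 * B 0 2 = (-2) * (B 4 4) ∧
    2 * B 0 3 = 1 * (B 3 3) ∧
    2 * B 0 4 = 0 ∧
    B 1 1 = 0 ∧
    2 * B 1 2 = 1 * (B 4 4) ∧
    2 * B 1 3 = 0 ∧
    2 * B 1 4 = (-1) * (B 4 4) ∧
    B 2 2 = (-1) * (B 4 4) ∧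
    2 * B 2 3 = 1 * (B 3 3) ∧
    2 * B 2 4 = 0 ∧
    2 * B 3 4 = 0 := by
  have v0 : vform B 1 1 1 (-1) 0 = 0 := (vform_eq B hB _ _ (c1 0) rfl rfl rfl rfl rfl)
  have v1 : vform B 0 1 0 1 2 = 0 := (vform_eq B hB _ _ (c1 1) rfl rfl rfl rfl rfl)
  have v2 : vform B 1 1 1 0 0 = 0 := (vform_eq B hB _ _ (c1 2) rfl rfl rfl rfl rfl)
  have v3 : vform B 0 1 1 0 1 = 0 := (vform_eq B hB _ _ (c1 3) rfl rfl rfl rfl rfl)
  have v4 : vform B 1 1 (-1) 0 0 = 0 := (vform_eq B hB _ _ (c1 4) rfl rfl rfl rfl rfl)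
  have v5 : vform B 0 1 0 1 0 = 0 := (vform_eq B hB _ _ (c1 5) rfl rfl rfl rfl rfl)
  have v6 : vform B 1 1 (-1) 0 2 = 0 := (vform_eq B hB _ _ (c1 6) rfl rfl rfl rfl rfl)
  have v7 : vform B 0 0 0 1 1 = 0 := (vform_eq B hB _ _ (c1 7) rfl rfl rfl rfl rfl)
  have w0 : wform B 0 0 1 1 0 1 = 0 := (wform_eq B 0 _ (c2 0) rfl rfl rfl rfl rfl)
  have w1 : wform B 1 0 1 1 0 1 = 0 := (wform_eq B 1 _ (c2 1) rfl rfl rfl rfl rfl)
  have w2 : wform B 2 0 1 1 0 1 = 0 := (wform_eq B 2 _ (c2 2) rfl rfl rfl rfl rfl)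
  have w3 : wform B 3 0 1 1 0 1 = 0 := (wform_eq B 3 _ (c2 3) rfl rfl rfl rfl rfl)
  have w4 : wform B 4 0 1 1 0 1 = 0 := (wform_eq B 4 _ (c2 4) rfl rfl rfl rfl rfl)
  simp only [vform, wform] at v0 v1 v2 v3 v4 v5 v6 v7 w0 w1 w2 w3 w4
  simp only [hB 1 0, hB 2 0, hB 3 0, hB 4 0, hB 2 1, hB 3 1, hB 4 1, hB 3 2, hB 4 2, hB 4 3] at w1 w2 w3 w4
  exact ⟨by linear_combination (-1) * v1 + 1 * v2 + (-1) * v3 + (-1/2) * v4 + 1 * v5 + (1/2) * v6 + 2 * v7 + (-1) * w0 + 2 * w4,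
    by linear_combination (-1/2) * v1 + (1/2) * v2 + 1 * v3 + (1/2) * v4 + (1/2) * v5 + 1 * v7 + (-1) * w2,
    by linear_combination (1/2) * v1 + (1/2) * v2 + (-2) * v3 + (-1/2) * v4 + (-1/2) * v5 + (-1) * v7 + 1 * w2 + 1 * w4,
    by linear_combination (-1) * v0 + 1 * v2 + 1 * v7 + (-1) * w3,
    by linear_combination (-1) * v1 + (-1/2) * v4 + 1 * v5 + (1/2) * v6 + 2 * v7 + 1 * w4,
    by linear_combination (-1/2) * v1 + (-1) * v3 + (1/2) * v5 + 1 * v7 + 1 * w1 + 1 * w4,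
    by linear_combination 1 * v3 + (-1) * w4,
    by linear_combination 1 * v5,
    by linear_combination (1/2) * v1 + (-1/2) * v5 + (-1) * v7,
    by linear_combination (1/2) * v1 + (-1) * v3 + (-1/2) * v5 + (-1) * v7 + 1 * w2,
    by linear_combination (-1) * v5 + (-1) * v7 + 1 * w3,
    by linear_combination (-1/2) * v1 + (1/2) * v5 + 1 * v7 + 1 * w4,
    by linear_combination 1 * v7⟩

theorem sf8_4 [CharZero k] (B : Fin 5 → Fin 5 → k) (hB : ∀ i j, B i j = B j i)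
    (c1 : ∀ s, qfun B (qf8 k s) = 0)
    (c2 : ∀ m, 2 * ∑ i, B m i * qf8 k 4 i - B m m = 0) :
    B 0 0 = 1 * (2 * B 2 4) ∧
    2 * B 0 1 = 0 ∧
    2 * B 0 2 = 1 * (2 * B 2 4) ∧
    2 * B 0 3 = (3/2) * (B 3 3) ∧
    2 * B 0 4 = 1 * (2 * B 2 4) ∧
    B 1 1 = (-1) * (2 * B 2 4) ∧
    2 * B 1 2 = (-1) * (2 * B 2 4) ∧
    2 * B 1 3 = 0 ∧
    2 * B 1 4 = 0 ∧
    B 2 2 = 0 ∧
    2 * B 2 3 = (1/2) * (B 3 3) ∧
    2 * B 3 4 = 0 ∧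
    B 4 4 = 0 := by
  have v0 : vform B 1 1 1 (-1) 0 = 0 := (vform_eq B hB _ _ (c1 0) rfl rfl rfl rfl rfl)
  have v1 : vform B 0 1 0 1 2 = 0 := (vform_eq B hB _ _ (c1 1) rfl rfl rfl rfl rfl)
  have v2 : vform B 1 1 1 0 0 = 0 := (vform_eq B hB _ _ (c1 2) rfl rfl rfl rfl rfl)
  have v3 : vform B 0 1 1 0 1 = 0 := (vform_eq B hB _ _ (c1 3) rfl rfl rfl rfl rfl)
  have v4 : vform B 1 1 (-1) 0 0 = 0 := (vform_eq B hB _ _ (c1 4) rfl rfl rfl rfl rfl)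
  have v5 : vform B 0 1 0 1 0 = 0 := (vform_eq B hB _ _ (c1 5) rfl rfl rfl rfl rfl)
  have v6 : vform B 1 1 (-1) 0 2 = 0 := (vform_eq B hB _ _ (c1 6) rfl rfl rfl rfl rfl)
  have v7 : vform B 0 0 0 1 1 = 0 := (vform_eq B hB _ _ (c1 7) rfl rfl rfl rfl rfl)
  have w0 : wform B 0 1 1 (-1) 0 0 = 0 := (wform_eq B 0 _ (c2 0) rfl rfl rfl rfl rfl)
  have w1 : wform B 1 1 1 (-1) 0 0 = 0 := (wform_eq B 1 _ (c2 1) rfl rfl rfl rfl rfl)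
  have w2 : wform B 2 1 1 (-1) 0 0 = 0 := (wform_eq B 2 _ (c2 2) rfl rfl rfl rfl rfl)
  have w3 : wform B 3 1 1 (-1) 0 0 = 0 := (wform_eq B 3 _ (c2 3) rfl rfl rfl rfl rfl)
  have w4 : wform B 4 1 1 (-1) 0 0 = 0 := (wform_eq B 4 _ (c2 4) rfl rfl rfl rfl rfl)
  simp only [vform, wform] at v0 v1 v2 v3 v4 v5 v6 v7 w0 w1 w2 w3 w4
  simp only [hB 1 0, hB 2 0, hB 3 0, hB 4 0, hB 2 1, hB 3 1, hB 4 1, hB 3 2, hB 4 2, hB 4 3] at w1 w2 w3 w4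
  exact ⟨by linear_combination (1/2) * v1 + (1/2) * v2 + (-1) * v3 + (-5/4) * v4 + (-1/2) * v5 + (-1/4) * v6 + (-1) * v7 + 1 * w0 + (-1) * w2 + (1/2) * w4,
    by linear_combination (1/4) * v2 + (3/4) * v4 + (1/2) * w2,
    by linear_combination (1/2) * v1 + (3/4) * v2 + (-1) * v3 + (-1/2) * v4 + (-1/2) * v5 + (-1/4) * v6 + (-1) * v7 + (-1/2) * w2 + (1/2) * w4,
    by linear_combination (-1/2) * v0 + (1/2) * v2 + (-1) * v5 + (1/2) * w3,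
    by linear_combination (-1/2) * v1 + (-1/2) * v4 + (1/2) * v5 + (1/2) * v6 + 1 * v7,
    by linear_combination (-1/2) * v1 + (-1/4) * v2 + 1 * v3 + (-1) * v4 + (1/2) * v5 + (1/4) * v6 + 1 * v7 + 1 * w1 + (-1/2) * w2 + (-1/2) * w4,
    by linear_combination (-1/2) * v1 + 1 * v3 + (-1/4) * v4 + (1/2) * v5 + (1/4) * v6 + 1 * v7 + (-1/2) * w4,
    by linear_combination 1 * v5,
    by linear_combination (1/2) * v1 + (1/4) * v4 + (-1/2) * v5 + (-1/4) * v6 + (-1) * v7 + (1/2) * w4,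
    by linear_combination (1/4) * v2 + (-1/4) * v4 + (-1/2) * w2,
    by linear_combination (-1/2) * v0 + (1/2) * v2 + (-1/2) * w3,
    by linear_combination 1 * v7,
    by linear_combination (-1/4) * v4 + (1/4) * v6 + (-1/2) * w4⟩

theorem sf8_5 [CharZero k] (B : Fin 5 → Fin 5 → k) (hB : ∀ i j, B i j = B j i)
    (c1 : ∀ s, qfun B (qf8 k s) = 0)
    (c2 : ∀ m, 2 * ∑ i, B m i * qf8 k 5 i - B m m = 0) :
    B 0 0 = (-2) * (2 * B 2 3) + 1 * (2 * B 2 4) ∧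
    2 * B 0 1 = (-1) * (2 * B 2 3) + 1 * (2 * B 2 4) ∧
    2 * B 0 2 = 1 * (2 * B 2 3) ∧
    2 * B 0 3 = (-1) * (2 * B 2 3) ∧
    2 * B 0 4 = 1 * (2 * B 2 4) ∧
    B 1 1 = 0 ∧
    2 * B 1 2 = (-1) * (2 * B 2 4) ∧
    2 * B 1 3 = 0 ∧
    2 * B 1 4 = 0 ∧
    B 2 2 = 1 * (2 * B 2 3) + (-1) * (2 * B 2 4) ∧
    B 3 3 = 0 ∧
    2 * B 3 4 = 0 ∧
    B 4 4 = 0 := by
  have v0 : vform B 1 1 1 (-1) 0 = 0 := (vform_eq B hB _ _ (c1 0) rfl rfl rfl rfl rfl)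
  have v1 : vform B 0 1 0 1 2 = 0 := (vform_eq B hB _ _ (c1 1) rfl rfl rfl rfl rfl)
  have v2 : vform B 1 1 1 0 0 = 0 := (vform_eq B hB _ _ (c1 2) rfl rfl rfl rfl rfl)
  have v3 : vform B 0 1 1 0 1 = 0 := (vform_eq B hB _ _ (c1 3) rfl rfl rfl rfl rfl)
  have v4 : vform B 1 1 (-1) 0 0 = 0 := (vform_eq B hB _ _ (c1 4) rfl rfl rfl rfl rfl)
  have v5 : vform B 0 1 0 1 0 = 0 := (vform_eq B hB _ _ (c1 5) rfl rfl rfl rfl rfl)
  have v6 : vform B 1 1 (-1) 0 2 = 0 := (vform_eq B hB _ _ (c1 6) rfl rfl rfl rfl rfl)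
  have v7 : vform B 0 0 0 1 1 = 0 := (vform_eq B hB _ _ (c1 7) rfl rfl rfl rfl rfl)
  have w0 : wform B 0 0 1 0 1 0 = 0 := (wform_eq B 0 _ (c2 0) rfl rfl rfl rfl rfl)
  have w1 : wform B 1 0 1 0 1 0 = 0 := (wform_eq B 1 _ (c2 1) rfl rfl rfl rfl rfl)
  have w2 : wform B 2 0 1 0 1 0 = 0 := (wform_eq B 2 _ (c2 2) rfl rfl rfl rfl rfl)
  have w3 : wform B 3 0 1 0 1 0 = 0 := (wform_eq B 3 _ (c2 3) rfl rfl rfl rfl rfl)
  have w4 : wform B 4 0 1 0 1 0 = 0 := (wform_eq B 4 _ (c2 4) rfl rfl rfl rfl rfl)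
  simp only [vform, wform] at v0 v1 v2 v3 v4 v5 v6 v7 w0 w1 w2 w3 w4
  simp only [hB 1 0, hB 2 0, hB 3 0, hB 4 0, hB 2 1, hB 3 1, hB 4 1, hB 3 2, hB 4 2, hB 4 3] at w1 w2 w3 w4
  exact ⟨by linear_combination (-1) * v0 + (1/4) * v1 + (3/2) * v2 + (-1) * v3 + (1/2) * v4 + (-13/4) * v5 + (-1) * v7 + (-1) * w0 + 1 * w2 + 2 * w3 + (1/2) * w4,
    by linear_combination (1/4) * v1 + (1/2) * v2 + (-1) * v3 + (1/2) * v4 + (-1/4) * v5 + (-1) * v7 + 1 * w2 + (1/2) * w4,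
    by linear_combination (1/2) * v2 + (-1/2) * v4 + (-1) * w2,
    by linear_combination (-1) * v0 + 1 * v2 + (-3) * v5 + 2 * w3,
    by linear_combination (-1/2) * v1 + (-1/2) * v4 + (1/2) * v5 + (1/2) * v6 + 1 * v7,
    by linear_combination (-1) * v5 + 1 * w1,
    by linear_combination (-1/4) * v1 + 1 * v3 + (1/4) * v5 + 1 * v7 + (-1/2) * w4,
    by linear_combination 1 * v5,
    by linear_combination (1/4) * v1 + (-1/4) * v5 + (-1) * v7 + (1/2) * w4,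
    by linear_combination (-1/4) * v1 + 1 * v3 + (1/4) * v5 + 1 * v7 + (-1) * w2 + (-1/2) * w4,
    by linear_combination (-1) * v5 + 1 * w3,
    by linear_combination 1 * v7,
    by linear_combination (1/4) * v1 + (-1/4) * v5 + (-1/2) * w4⟩

theorem sf8_6 [CharZero k] (B : Fin 5 → Fin 5 → k) (hB : ∀ i j, B i j = B j i)
    (c1 : ∀ s, qfun B (qf8 k s) = 0)
    (c2 : ∀ m, 2 * ∑ i, B m i * qf8 k 6 i - B m m = 0) :
    B 0 0 = 1 * (2 * B 2 4) ∧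
    2 * B 0 1 = (-1) * (2 * B 2 4) ∧
    2 * B 0 2 = 2 * (2 * B 2 4) ∧
    2 * B 0 3 = (3/2) * (B 3 3) ∧
    2 * B 0 4 = 1 * (2 * B 2 4) ∧
    B 1 1 = 0 ∧
    2 * B 1 2 = (-1) * (2 * B 2 4) ∧
    2 * B 1 3 = 0 ∧
    2 * B 1 4 = 0 ∧
    B 2 2 = 1 * (2 * B 2 4) ∧
    2 * B 2 3 = (1/2) * (B 3 3) ∧
    2 * B 3 4 = 0 ∧
    B 4 4 = 0 := by
  have v0 : vform B 1 1 1 (-1) 0 = 0 := (vform_eq B hB _ _ (c1 0) rfl rfl rfl rfl rfl)
  have v1 : vform B 0 1 0 1 2 = 0 := (vform_eq B hB _ _ (c1 1) rfl rfl rfl rfl rfl)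
  have v2 : vform B 1 1 1 0 0 = 0 := (vform_eq B hB _ _ (c1 2) rfl rfl rfl rfl rfl)
  have v3 : vform B 0 1 1 0 1 = 0 := (vform_eq B hB _ _ (c1 3) rfl rfl rfl rfl rfl)
  have v4 : vform B 1 1 (-1) 0 0 = 0 := (vform_eq B hB _ _ (c1 4) rfl rfl rfl rfl rfl)
  have v5 : vform B 0 1 0 1 0 = 0 := (vform_eq B hB _ _ (c1 5) rfl rfl rfl rfl rfl)
  have v6 : vform B 1 1 (-1) 0 2 = 0 := (vform_eq B hB _ _ (c1 6) rfl rfl rfl rfl rfl)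
  have v7 : vform B 0 0 0 1 1 = 0 := (vform_eq B hB _ _ (c1 7) rfl rfl rfl rfl rfl)
  have w0 : wform B 0 1 1 (-1) 0 2 = 0 := (wform_eq B 0 _ (c2 0) rfl rfl rfl rfl rfl)
  have w1 : wform B 1 1 1 (-1) 0 2 = 0 := (wform_eq B 1 _ (c2 1) rfl rfl rfl rfl rfl)
  have w2 : wform B 2 1 1 (-1) 0 2 = 0 := (wform_eq B 2 _ (c2 2) rfl rfl rfl rfl rfl)
  have w3 : wform B 3 1 1 (-1) 0 2 = 0 := (wform_eq B 3 _ (c2 3) rfl rfl rfl rfl rfl)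
  have w4 : wform B 4 1 1 (-1) 0 2 = 0 := (wform_eq B 4 _ (c2 4) rfl rfl rfl rfl rfl)
  simp only [vform, wform] at v0 v1 v2 v3 v4 v5 v6 v7 w0 w1 w2 w3 w4
  simp only [hB 1 0, hB 2 0, hB 3 0, hB 4 0, hB 2 1, hB 3 1, hB 4 1, hB 3 2, hB 4 2, hB 4 3] at w1 w2 w3 w4
  exact ⟨by linear_combination (3/2) * v1 + (1/2) * v2 + (-1) * v3 + (-3/4) * v4 + (-3/2) * v5 + (-3/4) * v6 + (-3) * v7 + 1 * w0 + (-1) * w2 + (-1/2) * w4,
    by linear_combination (1/4) * v2 + (3/4) * v4 + (1/2) * w2,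
    by linear_combination (1/2) * v1 + (3/4) * v2 + (-1) * v3 + (-1) * v4 + (-1/2) * v5 + (1/4) * v6 + (-1) * v7 + (-1/2) * w2 + (-1/2) * w4,
    by linear_combination (-1/2) * v0 + (1/2) * v2 + (-1) * v5 + (-1) * v7 + (1/2) * w3,
    by linear_combination (-1/2) * v1 + (-1/2) * v4 + (1/2) * v5 + (1/2) * v6 + 1 * v7,
    by linear_combination (-3/2) * v1 + (-1/4) * v2 + 1 * v3 + (3/2) * v5 + (-3/4) * v6 + 3 * v7 + 1 * w1 + (-1/2) * w2 + (3/2) * w4,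
    by linear_combination (-1/2) * v1 + 1 * v3 + (1/4) * v4 + (1/2) * v5 + (-1/4) * v6 + 1 * v7 + (1/2) * w4,
    by linear_combination 1 * v5,
    by linear_combination (1/2) * v1 + (-1/4) * v4 + (-1/2) * v5 + (1/4) * v6 + (-1) * v7 + (-1/2) * w4,
    by linear_combination (1/4) * v2 + (-1/4) * v4 + (-1/2) * w2,
    by linear_combination (-1/2) * v0 + (1/2) * v2 + 1 * v7 + (-1/2) * w3,
    by linear_combination 1 * v7,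
    by linear_combination (1/4) * v4 + (-1/4) * v6 + (1/2) * w4⟩

theorem sf8_7 [CharZero k] (B : Fin 5 → Fin 5 → k) (hB : ∀ i j, B i j = B j i)
    (c1 : ∀ s, qfun B (qf8 k s) = 0)
    (c2 : ∀ m, 2 * ∑ i, B m i * qf8 k 7 i - B m m = 0) :
    B 0 0 = (-1) * (2 * B 2 3) + 1 * (2 * B 2 4) ∧
    2 * B 0 1 = (-1) * (2 * B 2 3) + (-1) * (2 * B 2 4) ∧
    2 * B 0 2 = 1 * (2 * B 2 3) + 2 * (2 * B 2 4) ∧
    2 * B 0 3 = (-1) * (2 * B 2 3) ∧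
    2 * B 0 4 = 1 * (2 * B 2 4) ∧
    B 1 1 = 0 ∧
    2 * B 1 2 = (-1) * (2 * B 2 4) ∧
    2 * B 1 3 = 0 ∧
    2 * B 1 4 = 0 ∧
    B 2 2 = 1 * (2 * B 2 3) + 1 * (2 * B 2 4) ∧
    B 3 3 = 0 ∧
    2 * B 3 4 = 0 ∧
    B 4 4 = 0 := by
  have v0 : vform B 1 1 1 (-1) 0 = 0 := (vform_eq B hB _ _ (c1 0) rfl rfl rfl rfl rfl)
  have v1 : vform B 0 1 0 1 2 = 0 := (vform_eq B hB _ _ (c1 1) rfl rfl rfl rfl rfl)
  have v2 : vform B 1 1 1 0 0 = 0 := (vform_eq B hB _ _ (c1 2) rfl rfl rfl rfl rfl)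
  have v3 : vform B 0 1 1 0 1 = 0 := (vform_eq B hB _ _ (c1 3) rfl rfl rfl rfl rfl)
  have v4 : vform B 1 1 (-1) 0 0 = 0 := (vform_eq B hB _ _ (c1 4) rfl rfl rfl rfl rfl)
  have v5 : vform B 0 1 0 1 0 = 0 := (vform_eq B hB _ _ (c1 5) rfl rfl rfl rfl rfl)
  have v6 : vform B 1 1 (-1) 0 2 = 0 := (vform_eq B hB _ _ (c1 6) rfl rfl rfl rfl rfl)
  have v7 : vform B 0 0 0 1 1 = 0 := (vform_eq B hB _ _ (c1 7) rfl rfl rfl rfl rfl)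
  have w0 : wform B 0 0 0 0 1 1 = 0 := (wform_eq B 0 _ (c2 0) rfl rfl rfl rfl rfl)
  have w1 : wform B 1 0 0 0 1 1 = 0 := (wform_eq B 1 _ (c2 1) rfl rfl rfl rfl rfl)
  have w2 : wform B 2 0 0 0 1 1 = 0 := (wform_eq B 2 _ (c2 2) rfl rfl rfl rfl rfl)
  have w3 : wform B 3 0 0 0 1 1 = 0 := (wform_eq B 3 _ (c2 3) rfl rfl rfl rfl rfl)
  have w4 : wform B 4 0 0 0 1 1 = 0 := (wform_eq B 4 _ (c2 4) rfl rfl rfl rfl rfl)
  simp only [vform, wform] at v0 v1 v2 v3 v4 v5 v6 v7 w0 w1 w2 w3 w4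
  simp only [hB 1 0, hB 2 0, hB 3 0, hB 4 0, hB 2 1, hB 3 1, hB 4 1, hB 3 2, hB 4 2, hB 4 3] at w1 w2 w3 w4
  exact ⟨by linear_combination (-1) * v0 + (-1/2) * v1 + 1 * v2 + (-1/2) * v4 + (-1/2) * v5 + (1/2) * v6 + (-1) * v7 + (-1) * w0 + 2 * w3,
    by linear_combination (1/2) * v2 + (1/2) * v4 + 1 * w2,
    by linear_combination (1/2) * v1 + (1/2) * v2 + (-1) * v3 + (-1/2) * v4 + (-1/2) * v5 + (-1) * w2 + (-1) * w4,
    by linear_combination (-1) * v0 + 1 * v2 + (-1) * v5 + (-2) * v7 + 2 * w3,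
    by linear_combination (-1/2) * v1 + (-1/2) * v4 + (1/2) * v5 + (1/2) * v6 + 1 * v7,
    by linear_combination (1/2) * v1 + (1/2) * v5 + (-1) * w1 + (-1) * w4,
    by linear_combination (-1/2) * v1 + 1 * v3 + (1/2) * v5 + 1 * w4,
    by linear_combination 1 * v5,
    by linear_combination (1/2) * v1 + (-1/2) * v5 + (-1) * w4,
    by linear_combination (-1) * w2,
    by linear_combination (-1) * v7 + 1 * w3,
    by linear_combination 1 * v7,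
    by linear_combination (-1) * v7 + 1 * w4⟩

theorem VC_five_8 [CharZero k] : VC 5 (1 + 5 + 8) k ⊆ Smoothable 5 (1 + 5 + 8) k := by
  refine VC_subset_of_sys (qf8 k) ?_ ?_
  · exact inj_f8
  · intro B hB c1 c2 c3
    obtain ⟨p0_0, p0_1, p0_2, p0_3, p0_4, p0_5, p0_6, p0_7, p0_8, p0_9, p0_11, p0_12, p0_13⟩ := sf8_0 (B 0) (hB 0) (c1 0) (c2 0)
    obtain ⟨p1_0, p1_1, p1_2, p1_3, p1_4, p1_5, p1_6, p1_7, p1_8, p1_9, p1_12, p1_13, p1_14⟩ := sf8_1 (B 1) (hB 1) (c1 1) (c2 1)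
    obtain ⟨p2_0, p2_1, p2_2, p2_3, p2_4, p2_5, p2_6, p2_7, p2_8, p2_9, p2_11, p2_12, p2_13⟩ := sf8_2 (B 2) (hB 2) (c1 2) (c2 2)
    obtain ⟨p3_0, p3_1, p3_2, p3_3, p3_4, p3_5, p3_6, p3_7, p3_8, p3_9, p3_10, p3_11, p3_13⟩ := sf8_3 (B 3) (hB 3) (c1 3) (c2 3)
    obtain ⟨p4_0, p4_1, p4_2, p4_3, p4_4, p4_5, p4_6, p4_7, p4_8, p4_9, p4_10, p4_13, p4_14⟩ := sf8_4 (B 4) (hB 4) (c1 4) (c2 4)
    obtain ⟨p5_0, p5_1, p5_2, p5_3, p5_4, p5_5, p5_6, p5_7, p5_8, p5_9, p5_12, p5_13, p5_14⟩ := sf8_5 (B 5) (hB 5) (c1 5) (c2 5)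
    obtain ⟨p6_0, p6_1, p6_2, p6_3, p6_4, p6_5, p6_6, p6_7, p6_8, p6_9, p6_10, p6_13, p6_14⟩ := sf8_6 (B 6) (hB 6) (c1 6) (c2 6)
    obtain ⟨p7_0, p7_1, p7_2, p7_3, p7_4, p7_5, p7_6, p7_7, p7_8, p7_9, p7_12, p7_13, p7_14⟩ := sf8_7 (B 7) (hB 7) (c1 7) (c2 7)
    have g0_0 : (-1) * (2 * B 0 2 3) + 1 * (2 * B 4 2 4) + 1 * (2 * B 6 2 4) = 0 := by
      have h : 1 * (B 0 0 0 - 2 * B 0 0 0) + 0 * (B 1 0 0 - 2 * B 1 0 0) + 1 * (B 2 0 0 - 2 * B 2 0 0) + 0 * (B 3 0 0 - 2 * B 3 0 0) + 1 * (B 4 0 0 - 2 * B 4 0 0) + 0 * (B 5 0 0 - 2 * B 5 0 0) + 1 * (B 6 0 0 - 2 * B 6 0 0) + 0 * (B 7 0 0 - 2 * B 7 0 0) = 0 := by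
        have := c3 0 0
        rw [Fin.sum_univ_eight] at this
        exact this
      linear_combination (-1) * h + (-1) * p0_0 + (-1) * p2_0 + (-1) * p4_0 + (-1) * p6_0
    have g1_0 : (-1) * (2 * B 0 2 3) + 1 * (2 * B 4 2 4) + (-1) * (2 * B 6 2 4) = 0 := by
      have h : 1 * (B 0 1 1 - 2 * B 0 1 0) + 0 * (B 1 1 1 - 2 * B 1 1 0) + 1 * (B 2 1 1 - 2 * B 2 1 0) + 0 * (B 3 1 1 - 2 * B 3 1 0) + 1 * (B 4 1 1 - 2 * B 4 1 0) + 0 * (B 5 1 1 - 2 * B 5 1 0) + 1 * (B 6 1 1 - 2 * B 6 1 0) + 0 * (B 7 1 1 - 2 * B 7 1 0) = 0 := by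
        have := c3 1 0
        rw [Fin.sum_univ_eight] at this
        exact this
      rw [hB 0 1 0, hB 1 1 0, hB 2 1 0, hB 3 1 0, hB 4 1 0, hB 5 1 0, hB 6 1 0, hB 7 1 0] at h
      linear_combination (-1) * h + (-1) * p0_1 + 1 * p0_5 + (-1) * p2_1 + 1 * p2_5 + (-1) * p4_1 + 1 * p4_5 + (-1) * p6_1 + 1 * p6_5
    have g2_0 : 1 * (2 * B 4 2 4) + 1 * (2 * B 6 2 4) = 0 := by
      have h : 1 * (B 0 2 2 - 2 * B 0 2 0) + 0 * (B 1 2 2 - 2 * B 1 2 0) + 1 * (B 2 2 2 - 2 * B 2 2 0) + 0 * (B 3 2 2 - 2 * B 3 2 0) + 1 * (B 4 2 2 - 2 * B 4 2 0) + 0 * (B 5 2 2 - 2 * B 5 2 0) + 1 * (B 6 2 2 - 2 * B 6 2 0) + 0 * (B 7 2 2 - 2 * B 7 2 0) = 0 := by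
        have := c3 2 0
        rw [Fin.sum_univ_eight] at this
        exact this
      rw [hB 0 2 0, hB 1 2 0, hB 2 2 0, hB 3 2 0, hB 4 2 0, hB 5 2 0, hB 6 2 0, hB 7 2 0] at h
      linear_combination (-1) * h + (-1) * p0_2 + 1 * p0_9 + (-1) * p2_2 + 1 * p2_9 + (-1) * p4_2 + 1 * p4_9 + (-1) * p6_2 + 1 * p6_9
    have g3_0 : (-1) * (2 * B 0 2 3) + (-1) * (2 * B 2 2 3) + (1/2) * (B 4 3 3) + (1/2) * (B 6 3 3) = 0 := by
      have h : 1 * (B 0 3 3 - 2 * B 0 3 0) + 0 * (B 1 3 3 - 2 * B 1 3 0) + 1 * (B 2 3 3 - 2 * B 2 3 0) + 0 * (B 3 3 3 - 2 * B 3 3 0) + 1 * (B 4 3 3 - 2 * B 4 3 0) + 0 * (B 5 3 3 - 2 * B 5 3 0) + 1 * (B 6 3 3 - 2 * B 6 3 0) + 0 * (B 7 3 3 - 2 * B 7 3 0) = 0 := by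
        have := c3 3 0
        rw [Fin.sum_univ_eight] at this
        exact this
      rw [hB 0 3 0, hB 1 3 0, hB 2 3 0, hB 3 3 0, hB 4 3 0, hB 5 3 0, hB 6 3 0, hB 7 3 0] at h
      linear_combination (-1) * h + (-1) * p0_3 + 1 * p0_12 + (-1) * p2_3 + 1 * p2_12 + (-1) * p4_3 + (-1) * p6_3
    have g4_0 : 1 * (2 * B 4 2 4) + 1 * (2 * B 6 2 4) = 0 := by
      have h : 1 * (B 0 4 4 - 2 * B 0 4 0) + 0 * (B 1 4 4 - 2 * B 1 4 0) + 1 * (B 2 4 4 - 2 * B 2 4 0) + 0 * (B 3 4 4 - 2 * B 3 4 0) + 1 * (B 4 4 4 - 2 * B 4 4 0) + 0 * (B 5 4 4 - 2 * B 5 4 0) + 1 * (B 6 4 4 - 2 * B 6 4 0) + 0 * (B 7 4 4 - 2 * B 7 4 0) = 0 := by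
        have := c3 4 0
        rw [Fin.sum_univ_eight] at this
        exact this
      rw [hB 0 4 0, hB 1 4 0, hB 2 4 0, hB 3 4 0, hB 4 4 0, hB 5 4 0, hB 6 4 0, hB 7 4 0] at h
      linear_combination (-1) * h + (-1) * p0_4 + (-1) * p2_4 + (-1) * p4_4 + 1 * p4_14 + (-1) * p6_4 + 1 * p6_14
    have g0_1 : (1/2) * (2 * B 0 2 3) + 1 * (2 * B 1 2 3) + (-2) * (2 * B 1 2 4) + 2 * (B 3 4 4) + (-1) * (2 * B 4 2 4) + 1 * (2 * B 5 2 3) + (-2) * (2 * B 6 2 4) = 0 := by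
      have h : 1 * (B 0 0 0 - 2 * B 0 0 1) + 1 * (B 1 0 0 - 2 * B 1 0 1) + 1 * (B 2 0 0 - 2 * B 2 0 1) + 1 * (B 3 0 0 - 2 * B 3 0 1) + 1 * (B 4 0 0 - 2 * B 4 0 1) + 1 * (B 5 0 0 - 2 * B 5 0 1) + 1 * (B 6 0 0 - 2 * B 6 0 1) + 0 * (B 7 0 0 - 2 * B 7 0 1) = 0 := by
        have := c3 0 1
        rw [Fin.sum_univ_eight] at this
        exact this
      linear_combination (-1) * h + 1 * p0_0 + (-1) * p0_1 + 1 * p1_0 + (-1) * p1_1 + 1 * p2_0 + (-1) * p2_1 + 1 * p3_0 + (-1) * p3_1 + 1 * p4_0 + (-1) * p4_1 + 1 * p5_0 + (-1) * p5_1 + 1 * p6_0 + (-1) * p6_1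
    have g1_1 : (1/2) * (2 * B 0 2 3) + (-1) * (2 * B 4 2 4) = 0 := by
      have h : 1 * (B 0 1 1 - 2 * B 0 1 1) + 1 * (B 1 1 1 - 2 * B 1 1 1) + 1 * (B 2 1 1 - 2 * B 2 1 1) + 1 * (B 3 1 1 - 2 * B 3 1 1) + 1 * (B 4 1 1 - 2 * B 4 1 1) + 1 * (B 5 1 1 - 2 * B 5 1 1) + 1 * (B 6 1 1 - 2 * B 6 1 1) + 0 * (B 7 1 1 - 2 * B 7 1 1) = 0 := by
        have := c3 1 1
        rw [Fin.sum_univ_eight] at this
        exact this
      linear_combination (-1) * h + (-1) * p0_5 + (-1) * p1_5 + (-1) * p2_5 + (-1) * p3_5 + (-1) * p4_5 + (-1) * p5_5 + (-1) * p6_5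
    have g2_1 : (-1/2) * (2 * B 0 2 3) + (-1) * (2 * B 1 2 3) + (-2) * (2 * B 1 2 4) + 2 * (B 3 4 4) + (-1) * (2 * B 4 2 4) + (-1) * (2 * B 5 2 3) + (-2) * (2 * B 6 2 4) = 0 := by
      have h : 1 * (B 0 2 2 - 2 * B 0 2 1) + 1 * (B 1 2 2 - 2 * B 1 2 1) + 1 * (B 2 2 2 - 2 * B 2 2 1) + 1 * (B 3 2 2 - 2 * B 3 2 1) + 1 * (B 4 2 2 - 2 * B 4 2 1) + 1 * (B 5 2 2 - 2 * B 5 2 1) + 1 * (B 6 2 2 - 2 * B 6 2 1) + 0 * (B 7 2 2 - 2 * B 7 2 1) = 0 := by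
        have := c3 2 1
        rw [Fin.sum_univ_eight] at this
        exact this
      rw [hB 0 2 1, hB 1 2 1, hB 2 2 1, hB 3 2 1, hB 4 2 1, hB 5 2 1, hB 6 2 1, hB 7 2 1] at h
      linear_combination (-1) * h + (-1) * p0_6 + 1 * p0_9 + (-1) * p1_6 + 1 * p1_9 + (-1) * p2_6 + 1 * p2_9 + (-1) * p3_6 + 1 * p3_9 + (-1) * p4_6 + 1 * p4_9 + (-1) * p5_6 + 1 * p5_9 + (-1) * p6_6 + 1 * p6_9
    have g3_1 : (-1) * (B 3 3 3) + (-1) * (B 4 3 3) + (-1) * (B 6 3 3) = 0 := by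
      have h : 1 * (B 0 3 3 - 2 * B 0 3 1) + 1 * (B 1 3 3 - 2 * B 1 3 1) + 1 * (B 2 3 3 - 2 * B 2 3 1) + 1 * (B 3 3 3 - 2 * B 3 3 1) + 1 * (B 4 3 3 - 2 * B 4 3 1) + 1 * (B 5 3 3 - 2 * B 5 3 1) + 1 * (B 6 3 3 - 2 * B 6 3 1) + 0 * (B 7 3 3 - 2 * B 7 3 1) = 0 := by
        have := c3 3 1
        rw [Fin.sum_univ_eight] at this
        exact this
      rw [hB 0 3 1, hB 1 3 1, hB 2 3 1, hB 3 3 1, hB 4 3 1, hB 5 3 1, hB 6 3 1, hB 7 3 1] at h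
      linear_combination (-1) * h + (-1) * p0_7 + 1 * p0_12 + (-1) * p1_7 + 1 * p1_12 + (-1) * p2_7 + 1 * p2_12 + (-1) * p3_7 + (-1) * p4_7 + (-1) * p5_7 + 1 * p5_12 + (-1) * p6_7
    have g4_1 : (-2) * (B 0 4 4) + (-2) * (B 2 4 4) + (-2) * (B 3 4 4) = 0 := by
      have h : 1 * (B 0 4 4 - 2 * B 0 4 1) + 1 * (B 1 4 4 - 2 * B 1 4 1) + 1 * (B 2 4 4 - 2 * B 2 4 1) + 1 * (B 3 4 4 - 2 * B 3 4 1) + 1 * (B 4 4 4 - 2 * B 4 4 1) + 1 * (B 5 4 4 - 2 * B 5 4 1) + 1 * (B 6 4 4 - 2 * B 6 4 1) + 0 * (B 7 4 4 - 2 * B 7 4 1) = 0 := by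
        have := c3 4 1
        rw [Fin.sum_univ_eight] at this
        exact this
      rw [hB 0 4 1, hB 1 4 1, hB 2 4 1, hB 3 4 1, hB 4 4 1, hB 5 4 1, hB 6 4 1, hB 7 4 1] at h
      linear_combination (-1) * h + (-1) * p0_8 + (-1) * p1_8 + 1 * p1_14 + (-1) * p2_8 + (-1) * p3_8 + (-1) * p4_8 + 1 * p4_14 + (-1) * p5_8 + 1 * p5_14 + (-1) * p6_8 + 1 * p6_14
    have g0_2 : (3/2) * (2 * B 0 2 3) + (-1) * (B 3 4 4) + (-1) * (2 * B 6 2 4) = 0 := by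
      have h : 1 * (B 0 0 0 - 2 * B 0 0 2) + 0 * (B 1 0 0 - 2 * B 1 0 2) + 1 * (B 2 0 0 - 2 * B 2 0 2) + 1 * (B 3 0 0 - 2 * B 3 0 2) + (-1) * (B 4 0 0 - 2 * B 4 0 2) + 0 * (B 5 0 0 - 2 * B 5 0 2) + (-1) * (B 6 0 0 - 2 * B 6 0 2) + 0 * (B 7 0 0 - 2 * B 7 0 2) = 0 := by
        have := c3 0 2
        rw [Fin.sum_univ_eight] at this
        exact this
      linear_combination (-1) * h + 1 * p0_0 + (-1) * p0_2 + 1 * p2_0 + (-1) * p2_2 + 1 * p3_0 + (-1) * p3_2 + (-1) * p4_0 + 1 * p4_2 + (-1) * p6_0 + 1 * p6_2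
    have g1_2 : (-1/2) * (2 * B 0 2 3) + 1 * (B 3 4 4) + 1 * (2 * B 6 2 4) = 0 := by
      have h : 1 * (B 0 1 1 - 2 * B 0 1 2) + 0 * (B 1 1 1 - 2 * B 1 1 2) + 1 * (B 2 1 1 - 2 * B 2 1 2) + 1 * (B 3 1 1 - 2 * B 3 1 2) + (-1) * (B 4 1 1 - 2 * B 4 1 2) + 0 * (B 5 1 1 - 2 * B 5 1 2) + (-1) * (B 6 1 1 - 2 * B 6 1 2) + 0 * (B 7 1 1 - 2 * B 7 1 2) = 0 := by
        have := c3 1 2
        rw [Fin.sum_univ_eight] at this
        exact this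
      linear_combination (-1) * h + 1 * p0_5 + (-1) * p0_6 + 1 * p2_5 + (-1) * p2_6 + 1 * p3_5 + (-1) * p3_6 + (-1) * p4_5 + 1 * p4_6 + (-1) * p6_5 + 1 * p6_6
    have g2_2 : (1/2) * (2 * B 0 2 3) + (-1) * (B 3 4 4) + (-1) * (2 * B 6 2 4) = 0 := by
      have h : 1 * (B 0 2 2 - 2 * B 0 2 2) + 0 * (B 1 2 2 - 2 * B 1 2 2) + 1 * (B 2 2 2 - 2 * B 2 2 2) + 1 * (B 3 2 2 - 2 * B 3 2 2) + (-1) * (B 4 2 2 - 2 * B 4 2 2) + 0 * (B 5 2 2 - 2 * B 5 2 2) + (-1) * (B 6 2 2 - 2 * B 6 2 2) + 0 * (B 7 2 2 - 2 * B 7 2 2) = 0 := by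
        have := c3 2 2
        rw [Fin.sum_univ_eight] at this
        exact this
      linear_combination (-1) * h + (-1) * p0_9 + (-1) * p2_9 + (-1) * p3_9 + 1 * p4_9 + 1 * p6_9
    have g3_2 : 1 * (2 * B 0 2 3) + 1 * (2 * B 2 2 3) + (1/2) * (B 4 3 3) + (1/2) * (B 6 3 3) = 0 := by
      have h : 1 * (B 0 3 3 - 2 * B 0 3 2) + 0 * (B 1 3 3 - 2 * B 1 3 2) + 1 * (B 2 3 3 - 2 * B 2 3 2) + 1 * (B 3 3 3 - 2 * B 3 3 2) + (-1) * (B 4 3 3 - 2 * B 4 3 2) + 0 * (B 5 3 3 - 2 * B 5 3 2) + (-1) * (B 6 3 3 - 2 * B 6 3 2) + 0 * (B 7 3 3 - 2 * B 7 3 2) = 0 := by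
        have := c3 3 2
        rw [Fin.sum_univ_eight] at this
        exact this
      rw [hB 0 3 2, hB 1 3 2, hB 2 3 2, hB 3 3 2, hB 4 3 2, hB 5 3 2, hB 6 3 2, hB 7 3 2] at h
      linear_combination (-1) * h + 1 * p0_12 + 1 * p2_12 + (-1) * p3_10 + 1 * p4_10 + 1 * p6_10
    have g4_2 : (-1) * (B 3 4 4) + (-1) * (2 * B 4 2 4) + (-1) * (2 * B 6 2 4) = 0 := by
      have h : 1 * (B 0 4 4 - 2 * B 0 4 2) + 0 * (B 1 4 4 - 2 * B 1 4 2) + 1 * (B 2 4 4 - 2 * B 2 4 2) + 1 * (B 3 4 4 - 2 * B 3 4 2) + (-1) * (B 4 4 4 - 2 * B 4 4 2) + 0 * (B 5 4 4 - 2 * B 5 4 2) + (-1) * (B 6 4 4 - 2 * B 6 4 2) + 0 * (B 7 4 4 - 2 * B 7 4 2) = 0 := by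
        have := c3 4 2
        rw [Fin.sum_univ_eight] at this
        exact this
      rw [hB 0 4 2, hB 1 4 2, hB 2 4 2, hB 3 4 2, hB 4 4 2, hB 5 4 2, hB 6 4 2, hB 7 4 2] at h
      linear_combination (-1) * h + (-1) * p0_11 + (-1) * p2_11 + (-1) * p3_11 + (-1) * p4_14 + (-1) * p6_14
    have g0_3 : 1 * (2 * B 1 2 3) + (-1) * (2 * B 1 2 4) + 1 * (2 * B 5 2 3) + (-1) * (2 * B 5 2 4) + (-1) * (2 * B 7 2 4) = 0 := by
      have h : (-1) * (B 0 0 0 - 2 * B 0 0 3) + 1 * (B 1 0 0 - 2 * B 1 0 3) + 0 * (B 2 0 0 - 2 * B 2 0 3) + 0 * (B 3 0 0 - 2 * B 3 0 3) + 0 * (B 4 0 0 - 2 * B 4 0 3) + 1 * (B 5 0 0 - 2 * B 5 0 3) + 0 * (B 6 0 0 - 2 * B 6 0 3) + 1 * (B 7 0 0 - 2 * B 7 0 3) = 0 := by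
        have := c3 0 3
        rw [Fin.sum_univ_eight] at this
        exact this
      linear_combination (-1) * h + (-1) * p0_0 + 1 * p0_3 + 1 * p1_0 + (-1) * p1_3 + 1 * p5_0 + (-1) * p5_3 + 1 * p7_0 + (-1) * p7_3
    have g1_3 : (1/2) * (2 * B 0 2 3) = 0 := by
      have h : (-1) * (B 0 1 1 - 2 * B 0 1 3) + 1 * (B 1 1 1 - 2 * B 1 1 3) + 0 * (B 2 1 1 - 2 * B 2 1 3) + 0 * (B 3 1 1 - 2 * B 3 1 3) + 0 * (B 4 1 1 - 2 * B 4 1 3) + 1 * (B 5 1 1 - 2 * B 5 1 3) + 0 * (B 6 1 1 - 2 * B 6 1 3) + 1 * (B 7 1 1 - 2 * B 7 1 3) = 0 := by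
        have := c3 1 3
        rw [Fin.sum_univ_eight] at this
        exact this
      linear_combination (-1) * h + (-1) * p0_5 + 1 * p0_7 + 1 * p1_5 + (-1) * p1_7 + 1 * p5_5 + (-1) * p5_7 + 1 * p7_5 + (-1) * p7_7
    have g2_3 : (-1/2) * (2 * B 0 2 3) + (-1) * (2 * B 1 2 4) + 1 * (2 * B 5 2 4) + (-1) * (2 * B 7 2 4) = 0 := by
      have h : (-1) * (B 0 2 2 - 2 * B 0 2 3) + 1 * (B 1 2 2 - 2 * B 1 2 3) + 0 * (B 2 2 2 - 2 * B 2 2 3) + 0 * (B 3 2 2 - 2 * B 3 2 3) + 0 * (B 4 2 2 - 2 * B 4 2 3) + 1 * (B 5 2 2 - 2 * B 5 2 3) + 0 * (B 6 2 2 - 2 * B 6 2 3) + 1 * (B 7 2 2 - 2 * B 7 2 3) = 0 := by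
        have := c3 2 3
        rw [Fin.sum_univ_eight] at this
        exact this
      linear_combination (-1) * h + (-1) * p0_9 + 1 * p1_9 + 1 * p5_9 + 1 * p7_9
    have g4_3 : 1 * (B 0 4 4) = 0 := by
      have h : (-1) * (B 0 4 4 - 2 * B 0 4 3) + 1 * (B 1 4 4 - 2 * B 1 4 3) + 0 * (B 2 4 4 - 2 * B 2 4 3) + 0 * (B 3 4 4 - 2 * B 3 4 3) + 0 * (B 4 4 4 - 2 * B 4 4 3) + 1 * (B 5 4 4 - 2 * B 5 4 3) + 0 * (B 6 4 4 - 2 * B 6 4 3) + 1 * (B 7 4 4 - 2 * B 7 4 3) = 0 := by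
        have := c3 4 3
        rw [Fin.sum_univ_eight] at this
        exact this
      rw [hB 0 4 3, hB 1 4 3, hB 2 4 3, hB 3 4 3, hB 4 4 3, hB 5 4 3, hB 6 4 3, hB 7 4 3] at h
      linear_combination (-1) * h + 1 * p0_13 + (-1) * p1_13 + 1 * p1_14 + (-1) * p5_13 + 1 * p5_14 + (-1) * p7_13 + 1 * p7_14
    have g0_4 : 4 * (2 * B 1 2 3) + 1 * (B 3 4 4) + 1 * (2 * B 7 2 3) = 0 := by
      have h : 0 * (B 0 0 0 - 2 * B 0 0 4) + 2 * (B 1 0 0 - 2 * B 1 0 4) + 0 * (B 2 0 0 - 2 * B 2 0 4) + 1 * (B 3 0 0 - 2 * B 3 0 4) + 0 * (B 4 0 0 - 2 * B 4 0 4) + 0 * (B 5 0 0 - 2 * B 5 0 4) + 2 * (B 6 0 0 - 2 * B 6 0 4) + 1 * (B 7 0 0 - 2 * B 7 0 4) = 0 := by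
        have := c3 0 4
        rw [Fin.sum_univ_eight] at this
        exact this
      linear_combination (-1) * h + 2 * p1_0 + (-2) * p1_4 + 1 * p3_0 + (-1) * p3_4 + 2 * p6_0 + (-2) * p6_4 + 1 * p7_0 + (-1) * p7_4
    have g1_4 : (-1) * (B 3 4 4) = 0 := by
      have h : 0 * (B 0 1 1 - 2 * B 0 1 4) + 2 * (B 1 1 1 - 2 * B 1 1 4) + 0 * (B 2 1 1 - 2 * B 2 1 4) + 1 * (B 3 1 1 - 2 * B 3 1 4) + 0 * (B 4 1 1 - 2 * B 4 1 4) + 0 * (B 5 1 1 - 2 * B 5 1 4) + 2 * (B 6 1 1 - 2 * B 6 1 4) + 1 * (B 7 1 1 - 2 * B 7 1 4) = 0 := by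
        have := c3 1 4
        rw [Fin.sum_univ_eight] at this
        exact this
      linear_combination (-1) * h + 2 * p1_5 + (-2) * p1_8 + 1 * p3_5 + (-1) * p3_8 + 2 * p6_5 + (-2) * p6_8 + 1 * p7_5 + (-1) * p7_8
    have g2_4 : (-2) * (2 * B 1 2 3) + 1 * (B 3 4 4) + (-1) * (2 * B 7 2 3) = 0 := by
      have h : 0 * (B 0 2 2 - 2 * B 0 2 4) + 2 * (B 1 2 2 - 2 * B 1 2 4) + 0 * (B 2 2 2 - 2 * B 2 2 4) + 1 * (B 3 2 2 - 2 * B 3 2 4) + 0 * (B 4 2 2 - 2 * B 4 2 4) + 0 * (B 5 2 2 - 2 * B 5 2 4) + 2 * (B 6 2 2 - 2 * B 6 2 4) + 1 * (B 7 2 2 - 2 * B 7 2 4) = 0 := by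
        have := c3 2 4
        rw [Fin.sum_univ_eight] at this
        exact this
      linear_combination (-1) * h + 2 * p1_9 + 1 * p3_9 + (-1) * p3_11 + 2 * p6_9 + 1 * p7_9
    have g3_4 : (-1) * (B 3 3 3) + (-2) * (B 6 3 3) = 0 := by
      have h : 0 * (B 0 3 3 - 2 * B 0 3 4) + 2 * (B 1 3 3 - 2 * B 1 3 4) + 0 * (B 2 3 3 - 2 * B 2 3 4) + 1 * (B 3 3 3 - 2 * B 3 3 4) + 0 * (B 4 3 3 - 2 * B 4 3 4) + 0 * (B 5 3 3 - 2 * B 5 3 4) + 2 * (B 6 3 3 - 2 * B 6 3 4) + 1 * (B 7 3 3 - 2 * B 7 3 4) = 0 := by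
        have := c3 3 4
        rw [Fin.sum_univ_eight] at this
        exact this
      linear_combination (-1) * h + 2 * p1_12 + (-2) * p1_13 + (-1) * p3_13 + (-2) * p6_13 + 1 * p7_12 + (-1) * p7_13
    have g4_4 : 1 * (B 3 4 4) = 0 := by
      have h : 0 * (B 0 4 4 - 2 * B 0 4 4) + 2 * (B 1 4 4 - 2 * B 1 4 4) + 0 * (B 2 4 4 - 2 * B 2 4 4) + 1 * (B 3 4 4 - 2 * B 3 4 4) + 0 * (B 4 4 4 - 2 * B 4 4 4) + 0 * (B 5 4 4 - 2 * B 5 4 4) + 2 * (B 6 4 4 - 2 * B 6 4 4) + 1 * (B 7 4 4 - 2 * B 7 4 4) = 0 := by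
        have := c3 4 4
        rw [Fin.sum_univ_eight] at this
        exact this
      linear_combination (-1) * h + (-2) * p1_14 + (-2) * p6_14 + (-1) * p7_14
    have z0_2_3 : B 0 2 3 = 0 := by
      linear_combination 1 * g1_3
    have z0_4_4 : B 0 4 4 = 0 := by
      linear_combination 1 * g4_3
    have z1_2_3 : B 1 2 3 = 0 := by
      linear_combination (1/4) * g0_4 + (1/4) * g2_4 + (-1/2) * g4_4
    have z1_2_4 : B 1 2 4 = 0 := by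
      linear_combination (-1/2) * g4_0 + (-1/8) * g0_1 + (-1/4) * g1_1 + (-1/8) * g2_1 + (1/4) * g1_3 + (1/2) * g4_4
    have z2_2_3 : B 2 2 3 = 0 := by
      linear_combination (-1/4) * g3_0 + (1/4) * g3_2 + (-1) * g1_3
    have z2_4_4 : B 2 4 4 = 0 := by
      linear_combination (-1/2) * g4_1 + (-1) * g4_3 + (-1) * g4_4
    have z3_3_3 : B 3 3 3 = 0 := by
      linear_combination (-1) * g3_0 + (-1) * g3_1 + (-1) * g3_2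
    have z3_4_4 : B 3 4 4 = 0 := by
      linear_combination 1 * g4_4
    have z4_2_4 : B 4 2 4 = 0 := by
      linear_combination (-1/2) * g1_1 + (1/2) * g1_3
    have z4_3_3 : B 4 3 3 = 0 := by
      linear_combination (1/2) * g3_0 + (-1/2) * g3_1 + (1/2) * g3_2 + (1/2) * g3_4
    have z5_2_3 : B 5 2 3 = 0 := by
      linear_combination (1/4) * g0_1 + (-1/4) * g2_1 + (-1/2) * g1_3 + (-1/4) * g0_4 + (-1/4) * g2_4 + (1/2) * g4_4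
    have z5_2_4 : B 5 2 4 = 0 := by
      linear_combination (1/8) * g0_1 + (-1/8) * g2_1 + (-1/4) * g0_3 + (1/4) * g2_3
    have z6_2_4 : B 6 2 4 = 0 := by
      linear_combination (1/2) * g4_0 + (1/2) * g1_1 + (-1/2) * g1_3
    have z6_3_3 : B 6 3 3 = 0 := by
      linear_combination (1/2) * g3_0 + (1/2) * g3_1 + (1/2) * g3_2 + (-1/2) * g3_4
    have z7_2_3 : B 7 2 3 = 0 := by
      linear_combination (-1/2) * g0_4 + (-1) * g2_4 + (3/2) * g4_4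
    have z7_2_4 : B 7 2 4 = 0 := by
      linear_combination (1/2) * g4_0 + (1/4) * g0_1 + (1/4) * g1_1 + (-1/4) * g0_3 + (-3/4) * g1_3 + (-1/4) * g2_3 + (-1/2) * g4_4
    have z0_0_0 : B 0 0 0 = 0 := by
      linear_combination 1 * p0_0 + (-2) * z0_2_3
    have z0_0_1 : B 0 0 1 = 0 := by
      linear_combination (1/2) * p0_1 + (-1/2) * z0_2_3
    have z0_0_2 : B 0 0 2 = 0 := by
      linear_combination (1/2) * p0_2 + (1/2) * z0_2_3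
    have z0_0_3 : B 0 0 3 = 0 := by
      linear_combination (1/2) * p0_3 + (-1) * z0_2_3
    have z0_0_4 : B 0 0 4 = 0 := by
      linear_combination (1/2) * p0_4 + (1/2) * z0_4_4
    have z0_1_1 : B 0 1 1 = 0 := by
      linear_combination 1 * p0_5 + 1 * z0_2_3
    have z0_1_2 : B 0 1 2 = 0 := by
      linear_combination (1/2) * p0_6
    have z0_1_3 : B 0 1 3 = 0 := by
      linear_combination (1/2) * p0_7
    have z0_1_4 : B 0 1 4 = 0 := by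
      linear_combination (1/2) * p0_8 + (-1/2) * z0_4_4
    have z0_2_2 : B 0 2 2 = 0 := by
      linear_combination 1 * p0_9 + 1 * z0_2_3
    have z0_2_4 : B 0 2 4 = 0 := by
      linear_combination (1/2) * p0_11 + (1/2) * z0_4_4
    have z0_3_3 : B 0 3 3 = 0 := by
      linear_combination 1 * p0_12
    have z0_3_4 : B 0 3 4 = 0 := by
      linear_combination (1/2) * p0_13
    have z1_0_0 : B 1 0 0 = 0 := by
      linear_combination 1 * p1_0 + (-4) * z1_2_3 + 2 * z1_2_4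
    have z1_0_1 : B 1 0 1 = 0 := by
      linear_combination (1/2) * p1_1 + (-1) * z1_2_3 + (-1) * z1_2_4
    have z1_0_2 : B 1 0 2 = 0 := by
      linear_combination (1/2) * p1_2 + 1 * z1_2_3 + 2 * z1_2_4
    have z1_0_3 : B 1 0 3 = 0 := by
      linear_combination (1/2) * p1_3 + (-1) * z1_2_3
    have z1_0_4 : B 1 0 4 = 0 := by
      linear_combination (1/2) * p1_4 + 1 * z1_2_4
    have z1_1_1 : B 1 1 1 = 0 := by
      linear_combination 1 * p1_5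
    have z1_1_2 : B 1 1 2 = 0 := by
      linear_combination (1/2) * p1_6 + (-1) * z1_2_4
    have z1_1_3 : B 1 1 3 = 0 := by
      linear_combination (1/2) * p1_7
    have z1_1_4 : B 1 1 4 = 0 := by
      linear_combination (1/2) * p1_8
    have z1_2_2 : B 1 2 2 = 0 := by
      linear_combination 1 * p1_9 + 2 * z1_2_3 + 2 * z1_2_4
    have z1_3_3 : B 1 3 3 = 0 := by
      linear_combination 1 * p1_12
    have z1_3_4 : B 1 3 4 = 0 := by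
      linear_combination (1/2) * p1_13
    have z1_4_4 : B 1 4 4 = 0 := by
      linear_combination 1 * p1_14
    have z2_0_0 : B 2 0 0 = 0 := by
      linear_combination 1 * p2_0
    have z2_0_1 : B 2 0 1 = 0 := by
      linear_combination (1/2) * p2_1
    have z2_0_2 : B 2 0 2 = 0 := by
      linear_combination (1/2) * p2_2
    have z2_0_3 : B 2 0 3 = 0 := by
      linear_combination (1/2) * p2_3 + (-1) * z2_2_3
    have z2_0_4 : B 2 0 4 = 0 := by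
      linear_combination (1/2) * p2_4 + (1/2) * z2_4_4
    have z2_1_1 : B 2 1 1 = 0 := by
      linear_combination 1 * p2_5
    have z2_1_2 : B 2 1 2 = 0 := by
      linear_combination (1/2) * p2_6
    have z2_1_3 : B 2 1 3 = 0 := by
      linear_combination (1/2) * p2_7
    have z2_1_4 : B 2 1 4 = 0 := by
      linear_combination (1/2) * p2_8 + (-1/2) * z2_4_4
    have z2_2_2 : B 2 2 2 = 0 := by
      linear_combination 1 * p2_9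
    have z2_2_4 : B 2 2 4 = 0 := by
      linear_combination (1/2) * p2_11 + (1/2) * z2_4_4
    have z2_3_3 : B 2 3 3 = 0 := by
      linear_combination 1 * p2_12
    have z2_3_4 : B 2 3 4 = 0 := by
      linear_combination (1/2) * p2_13
    have z3_0_0 : B 3 0 0 = 0 := by
      linear_combination 1 * p3_0 + (-1) * z3_4_4
    have z3_0_1 : B 3 0 1 = 0 := by
      linear_combination (1/2) * p3_1 + (1/2) * z3_4_4
    have z3_0_2 : B 3 0 2 = 0 := by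
      linear_combination (1/2) * p3_2 + (-1) * z3_4_4
    have z3_0_3 : B 3 0 3 = 0 := by
      linear_combination (1/2) * p3_3 + (1/2) * z3_3_3
    have z3_0_4 : B 3 0 4 = 0 := by
      linear_combination (1/2) * p3_4
    have z3_1_1 : B 3 1 1 = 0 := by
      linear_combination 1 * p3_5
    have z3_1_2 : B 3 1 2 = 0 := by
      linear_combination (1/2) * p3_6 + (1/2) * z3_4_4
    have z3_1_3 : B 3 1 3 = 0 := by
      linear_combination (1/2) * p3_7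
    have z3_1_4 : B 3 1 4 = 0 := by
      linear_combination (1/2) * p3_8 + (-1/2) * z3_4_4
    have z3_2_2 : B 3 2 2 = 0 := by
      linear_combination 1 * p3_9 + (-1) * z3_4_4
    have z3_2_3 : B 3 2 3 = 0 := by
      linear_combination (1/2) * p3_10 + (1/2) * z3_3_3
    have z3_2_4 : B 3 2 4 = 0 := by
      linear_combination (1/2) * p3_11
    have z3_3_4 : B 3 3 4 = 0 := by
      linear_combination (1/2) * p3_13
    have z4_0_0 : B 4 0 0 = 0 := by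
      linear_combination 1 * p4_0 + 2 * z4_2_4
    have z4_0_1 : B 4 0 1 = 0 := by
      linear_combination (1/2) * p4_1
    have z4_0_2 : B 4 0 2 = 0 := by
      linear_combination (1/2) * p4_2 + 1 * z4_2_4
    have z4_0_3 : B 4 0 3 = 0 := by
      linear_combination (1/2) * p4_3 + (3/4) * z4_3_3
    have z4_0_4 : B 4 0 4 = 0 := by
      linear_combination (1/2) * p4_4 + 1 * z4_2_4
    have z4_1_1 : B 4 1 1 = 0 := by
      linear_combination 1 * p4_5 + (-2) * z4_2_4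
    have z4_1_2 : B 4 1 2 = 0 := by
      linear_combination (1/2) * p4_6 + (-1) * z4_2_4
    have z4_1_3 : B 4 1 3 = 0 := by
      linear_combination (1/2) * p4_7
    have z4_1_4 : B 4 1 4 = 0 := by
      linear_combination (1/2) * p4_8
    have z4_2_2 : B 4 2 2 = 0 := by
      linear_combination 1 * p4_9
    have z4_2_3 : B 4 2 3 = 0 := by
      linear_combination (1/2) * p4_10 + (1/4) * z4_3_3
    have z4_3_4 : B 4 3 4 = 0 := by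
      linear_combination (1/2) * p4_13
    have z4_4_4 : B 4 4 4 = 0 := by
      linear_combination 1 * p4_14
    have z5_0_0 : B 5 0 0 = 0 := by
      linear_combination 1 * p5_0 + (-4) * z5_2_3 + 2 * z5_2_4
    have z5_0_1 : B 5 0 1 = 0 := by
      linear_combination (1/2) * p5_1 + (-1) * z5_2_3 + 1 * z5_2_4
    have z5_0_2 : B 5 0 2 = 0 := by
      linear_combination (1/2) * p5_2 + 1 * z5_2_3
    have z5_0_3 : B 5 0 3 = 0 := by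
      linear_combination (1/2) * p5_3 + (-1) * z5_2_3
    have z5_0_4 : B 5 0 4 = 0 := by
      linear_combination (1/2) * p5_4 + 1 * z5_2_4
    have z5_1_1 : B 5 1 1 = 0 := by
      linear_combination 1 * p5_5
    have z5_1_2 : B 5 1 2 = 0 := by
      linear_combination (1/2) * p5_6 + (-1) * z5_2_4
    have z5_1_3 : B 5 1 3 = 0 := by
      linear_combination (1/2) * p5_7
    have z5_1_4 : B 5 1 4 = 0 := by
      linear_combination (1/2) * p5_8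
    have z5_2_2 : B 5 2 2 = 0 := by
      linear_combination 1 * p5_9 + 2 * z5_2_3 + (-2) * z5_2_4
    have z5_3_3 : B 5 3 3 = 0 := by
      linear_combination 1 * p5_12
    have z5_3_4 : B 5 3 4 = 0 := by
      linear_combination (1/2) * p5_13
    have z5_4_4 : B 5 4 4 = 0 := by
      linear_combination 1 * p5_14
    have z6_0_0 : B 6 0 0 = 0 := by
      linear_combination 1 * p6_0 + 2 * z6_2_4
    have z6_0_1 : B 6 0 1 = 0 := by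
      linear_combination (1/2) * p6_1 + (-1) * z6_2_4
    have z6_0_2 : B 6 0 2 = 0 := by
      linear_combination (1/2) * p6_2 + 2 * z6_2_4
    have z6_0_3 : B 6 0 3 = 0 := by
      linear_combination (1/2) * p6_3 + (3/4) * z6_3_3
    have z6_0_4 : B 6 0 4 = 0 := by
      linear_combination (1/2) * p6_4 + 1 * z6_2_4
    have z6_1_1 : B 6 1 1 = 0 := by
      linear_combination 1 * p6_5
    have z6_1_2 : B 6 1 2 = 0 := by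
      linear_combination (1/2) * p6_6 + (-1) * z6_2_4
    have z6_1_3 : B 6 1 3 = 0 := by
      linear_combination (1/2) * p6_7
    have z6_1_4 : B 6 1 4 = 0 := by
      linear_combination (1/2) * p6_8
    have z6_2_2 : B 6 2 2 = 0 := by
      linear_combination 1 * p6_9 + 2 * z6_2_4
    have z6_2_3 : B 6 2 3 = 0 := by
      linear_combination (1/2) * p6_10 + (1/4) * z6_3_3
    have z6_3_4 : B 6 3 4 = 0 := by
      linear_combination (1/2) * p6_13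
    have z6_4_4 : B 6 4 4 = 0 := by
      linear_combination 1 * p6_14
    have z7_0_0 : B 7 0 0 = 0 := by
      linear_combination 1 * p7_0 + (-2) * z7_2_3 + 2 * z7_2_4
    have z7_0_1 : B 7 0 1 = 0 := by
      linear_combination (1/2) * p7_1 + (-1) * z7_2_3 + (-1) * z7_2_4
    have z7_0_2 : B 7 0 2 = 0 := by
      linear_combination (1/2) * p7_2 + 1 * z7_2_3 + 2 * z7_2_4
    have z7_0_3 : B 7 0 3 = 0 := by
      linear_combination (1/2) * p7_3 + (-1) * z7_2_3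
    have z7_0_4 : B 7 0 4 = 0 := by
      linear_combination (1/2) * p7_4 + 1 * z7_2_4
    have z7_1_1 : B 7 1 1 = 0 := by
      linear_combination 1 * p7_5
    have z7_1_2 : B 7 1 2 = 0 := by
      linear_combination (1/2) * p7_6 + (-1) * z7_2_4
    have z7_1_3 : B 7 1 3 = 0 := by
      linear_combination (1/2) * p7_7
    have z7_1_4 : B 7 1 4 = 0 := by
      linear_combination (1/2) * p7_8
    have z7_2_2 : B 7 2 2 = 0 := by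
      linear_combination 1 * p7_9 + 2 * z7_2_3 + 2 * z7_2_4
    have z7_3_3 : B 7 3 3 = 0 := by
      linear_combination 1 * p7_12
    have z7_3_4 : B 7 3 4 = 0 := by
      linear_combination (1/2) * p7_13
    have z7_4_4 : B 7 4 4 = 0 := by
      linear_combination 1 * p7_14
    intro a i j
    fin_cases a
    · exact all5 (B 0) (hB 0) z0_0_0 z0_0_1 z0_0_2 z0_0_3 z0_0_4 z0_1_1 z0_1_2 z0_1_3 z0_1_4 z0_2_2 z0_2_3 z0_2_4 z0_3_3 z0_3_4 z0_4_4 i j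
    · exact all5 (B 1) (hB 1) z1_0_0 z1_0_1 z1_0_2 z1_0_3 z1_0_4 z1_1_1 z1_1_2 z1_1_3 z1_1_4 z1_2_2 z1_2_3 z1_2_4 z1_3_3 z1_3_4 z1_4_4 i j
    · exact all5 (B 2) (hB 2) z2_0_0 z2_0_1 z2_0_2 z2_0_3 z2_0_4 z2_1_1 z2_1_2 z2_1_3 z2_1_4 z2_2_2 z2_2_3 z2_2_4 z2_3_3 z2_3_4 z2_4_4 i j
    · exact all5 (B 3) (hB 3) z3_0_0 z3_0_1 z3_0_2 z3_0_3 z3_0_4 z3_1_1 z3_1_2 z3_1_3 z3_1_4 z3_2_2 z3_2_3 z3_2_4 z3_3_3 z3_3_4 z3_4_4 i j
    · exact all5 (B 4) (hB 4) z4_0_0 z4_0_1 z4_0_2 z4_0_3 z4_0_4 z4_1_1 z4_1_2 z4_1_3 z4_1_4 z4_2_2 z4_2_3 z4_2_4 z4_3_3 z4_3_4 z4_4_4 i j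
    · exact all5 (B 5) (hB 5) z5_0_0 z5_0_1 z5_0_2 z5_0_3 z5_0_4 z5_1_1 z5_1_2 z5_1_3 z5_1_4 z5_2_2 z5_2_3 z5_2_4 z5_3_3 z5_3_4 z5_4_4 i j
    · exact all5 (B 6) (hB 6) z6_0_0 z6_0_1 z6_0_2 z6_0_3 z6_0_4 z6_1_1 z6_1_2 z6_1_3 z6_1_4 z6_2_2 z6_2_3 z6_2_4 z6_3_3 z6_3_4 z6_4_4 i j
    · exact all5 (B 7) (hB 7) z7_0_0 z7_0_1 z7_0_2 z7_0_3 z7_0_4 z7_1_1 z7_1_2 z7_1_3 z7_1_4 z7_2_2 z7_2_3 z7_2_4 z7_3_3 z7_3_4 z7_4_4 i j

end Pool.Agent.HilbPts
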