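import Pool.Agent.HilbPts.Sys

set_option autoImplicit false
set_option linter.all false

namespace Pool.Agent.HilbPts

variable {k : Type*} [Field k]

/-- Expanded quadratic form. -/
def vform (B : Fin 5 → Fin 5 → k) (x0 x1 x2 x3 x4 : k) : k :=
  B 0 0 * (x0 * x0 - x0) +
    2 * B 0 1 * (x0 * x1) +
    2 * B 0 2 * (x0 * x2) +
    2 * B 0 3 * (x0 * x3) +
    2 * B 0 4 * (x0 * x4) +
    B 1 1 * (x1 * x1 - x1) +
    2 * B 1 2 * (x1 * x2) +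
    2 * B 1 3 * (x1 * x3) +
    2 * B 1 4 * (x1 * x4) +
    B 2 2 * (x2 * x2 - x2) +
    2 * B 2 3 * (x2 * x3) +
    2 * B 2 4 * (x2 * x4) +
    B 3 3 * (x3 * x3 - x3) +
    2 * B 3 4 * (x3 * x4) +
    B 4 4 * (x4 * x4 - x4)

/-- Expanded gradient. -/
def wform (B : Fin 5 → Fin 5 → k) (m : Fin 5) (x0 x1 x2 x3 x4 : k) : k :=
  2 * (B m 0 * x0 + B m 1 * x1 + B m 2 * x2 + B m 3 * x3 + B m 4 * x4) - B m m

theorem vform_eq (B : Fin 5 → Fin 5 → k) (hB : ∀ i j, B i j = B j i) (x : Fin 5 → k)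
    {x0 x1 x2 x3 x4 : k} (c : k) (h : qfun B x = c) (h0 : x 0 = x0) (h1 : x 1 = x1)
    (h2 : x 2 = x2) (h3 : x 3 = x3) (h4 : x 4 = x4) : vform B x0 x1 x2 x3 x4 = c := by
  subst h0 h1 h2 h3 h4
  rw [← h]
  simp only [qfun, Fin.sum_univ_five, vform]
  rw [hB 1 0, hB 2 0, hB 3 0, hB 4 0, hB 2 1, hB 3 1, hB 4 1, hB 3 2, hB 4 2, hB 4 3]
  ring

theorem wform_eq (B : Fin 5 → Fin 5 → k) (m : Fin 5) (x : Fin 5 → k)
    {x0 x1 x2 x3 x4 : k} (h : 2 * ∑ i, B m i * x i - B m m = 0) (h0 : x 0 = x0) (h1 : x 1 = x1)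
    (h2 : x 2 = x2) (h3 : x 3 = x3) (h4 : x 4 = x4) : wform B m x0 x1 x2 x3 x4 = 0 := by
  subst h0 h1 h2 h3 h4
  rw [← h]
  simp only [Fin.sum_univ_five, wform]

theorem all5 (B : Fin 5 → Fin 5 → k) (hB : ∀ i j, B i j = B j i) (z00 : B 0 0 = 0)
    (z01 : B 0 1 = 0)
    (z02 : B 0 2 = 0)
    (z03 : B 0 3 = 0)
    (z04 : B 0 4 = 0)
    (z11 : B 1 1 = 0)
    (z12 : B 1 2 = 0)
    (z13 : B 1 3 = 0)
    (z14 : B 1 4 = 0)
    (z22 : B 2 2 = 0)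
    (z23 : B 2 3 = 0)
    (z24 : B 2 4 = 0)
    (z33 : B 3 3 = 0)
    (z34 : B 3 4 = 0)
    (z44 : B 4 4 = 0) (i j : Fin 5) : B i j = 0 := by
  fin_cases i <;> fin_cases j <;> first | assumption | (rw [hB]; assumption)

end Pool.Agent.HilbPts
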