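import Pool.Agent.HilbPts.DC

set_option autoImplicit false

namespace Pool.Agent.HilbPts

open MvPolynomial Matrix

variable {n r : ℕ} {k : Type*} [Field k]

/-- Affine functions. -/
def IsAff (f : (Fin n → k) → k) : Prop :=
  ∃ (c : k) (a : Fin n → k), ∀ x, f x = c + ∑ i, a i * x i

theorem IsAff.isQuad {f : (Fin n → k) → k} (hf : IsAff f) : IsQuad f := by
  obtain ⟨c, a, h⟩ := hf
  exact ⟨c, a, 0, fun x => by rw [h]; simp⟩

theorem IsAff.mul {f g : (Fin n → k) → k} (hf : IsAff f) (hg : IsAff g) :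
    IsQuad fun x => f x * g x := by
  obtain ⟨c, a, h⟩ := hf
  obtain ⟨c', a', h'⟩ := hg
  refine ⟨c * c', fun i => c * a' i + c' * a i, fun i j => a i * a' j, fun x => ?_⟩
  beta_reduce
  rw [h, h']
  have e1 : ∑ i, ∑ j, a i * a' j * (x i * x j) = (∑ i, a i * x i) * ∑ j, a' j * x j := by
    rw [Finset.sum_mul_sum]
    exact Finset.sum_congr rfl fun i _ => Finset.sum_congr rfl fun j _ => by ring
  have e2 : ∑ i, (c * a' i + c' * a i) * x i = c * ∑ i, a' i * x i + c' * ∑ i, a i * x i := by
    simp only [add_mul, Finset.sum_add_distrib, Finset.mul_sum, mul_assoc]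
  rw [e1, e2]
  ring

theorem IsAff.const (c : k) : IsAff fun _ : Fin n → k => c := ⟨c, 0, fun x => by simp⟩

theorem IsQuad.const (c : k) : IsQuad fun _ : Fin n → k => c := (IsAff.const c).isQuad

theorem IsQuad.neg {f : (Fin n → k) → k} (hf : IsQuad f) : IsQuad fun x => - f x := by
  have := hf.smul (-1)
  simpa using this

theorem IsQuad.sub {f g : (Fin n → k) → k} (hf : IsQuad f) (hg : IsQuad g) :
    IsQuad fun x => f x - g x := by
  have := hf.add hg.neg
  simpa [sub_eq_add_neg] using this

theorem IsQuad.comp {m : ℕ} {f : (Fin n → k) → k} (hf : IsQuad f) (h : (Fin m → k) → Fin n → k)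
    (hh : ∀ i, IsAff fun x => h x i) : IsQuad fun x => f (h x) := by
  obtain ⟨c, a, B, hf⟩ := hf
  simp only [hf]
  refine ((IsQuad.const c).add ?_).add ?_
  · exact IsQuad.sum _ fun i => (hh i).isQuad.smul _
  · exact IsQuad.sum _ fun i => IsQuad.sum _ fun j => ((hh i).mul (hh j)).smul _

/-- The general criterion. -/
theorem VC_subset_of_DC [CharZero k] {ι : Type*} [Fintype ι] (hcard : Fintype.card ι = 1 + n + r)
    (P : ι → Fin n → k) (hinj : Function.Injective P)
    (hsp : ∀ (c : k) (a : Fin n → k), (∀ l, c + ∑ i, a i * P l i = 0) → c = 0 ∧ a = 0)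
    (hDC : DC P) : VC n (1 + n + r) k ⊆ Smoothable n (1 + n + r) k := by
  classical
  -- the homogeneous coordinate vectors
  let u : ι → (Unit ⊕ Fin n → k) := fun l => Sum.elim (fun _ => 1) (P l)
  have hspan : Submodule.span k (Set.range u) = ⊤ := by
    by_contra hne
    obtain ⟨φ, hφ0, hφ⟩ := Submodule.exists_le_ker_of_lt_top _ (lt_top_iff_ne_top.2 hne)
    apply hφ0
    have hval : ∀ y : Unit ⊕ Fin n → k, φ y = y (Sum.inl ()) * φ (Pi.single (Sum.inl ()) 1) +
        ∑ i, φ (Pi.single (Sum.inr i) 1) * y (Sum.inr i) := by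
      intro y
      have hy : y = ∑ s, y s • (Pi.single s 1 : Unit ⊕ Fin n → k) := by
        funext t
        simp [Finset.sum_apply, Pi.single_apply]
      conv_lhs => rw [hy]
      rw [map_sum, Fintype.sum_sum_type]
      simp only [map_smul, smul_eq_mul, Finset.univ_unique, Finset.sum_singleton]
      congr 1
      exact Finset.sum_congr rfl fun i _ => mul_comm _ _
    obtain ⟨h1, h2⟩ := hsp (φ (Pi.single (Sum.inl ()) 1)) (fun i => φ (Pi.single (Sum.inr i) 1))
      (by
        intro l
        have h3 : φ (u l) = 0 := hφ (Submodule.subset_span ⟨l, rfl⟩)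
        rw [hval] at h3
        simpa [u] using h3)
    apply LinearMap.ext
    intro y
    rw [hval, h1]
    have h4 : ∀ i, φ (Pi.single (Sum.inr i) 1) = 0 := fun i => congrFun h2 i
    simp [h4]
  obtain ⟨κ, a, ha, hsp2, hli⟩ := exists_linearIndependent' k u
  rw [hspan] at hsp2
  let bas : Module.Basis κ k (Unit ⊕ Fin n → k) := Module.Basis.mk hli hsp2.ge
  have : Fintype κ := FiniteDimensional.fintypeBasisIndex bas
  have hκ : Fintype.card κ = 1 + n := by
    rw [← Module.finrank_eq_card_basis bas, Module.finrank_fintype_fun_eq_card]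
    simp
  obtain ⟨e1⟩ : Nonempty (Unit ⊕ Fin n ≃ κ) := ⟨Fintype.equivOfCardEq (by rw [hκ]; simp)⟩
  let a' : Unit ⊕ Fin n → ι := a ∘ e1
  have ha' : Function.Injective a' := ha.comp e1.injective
  have hli' : LinearIndependent k (u ∘ a') := hli.comp _ e1.injective
  have hcompl : Fintype.card ((Set.range a')ᶜ : Set ι) = r := by
    rw [Fintype.card_compl_set, Set.card_range_of_injective ha', hcard]
    simp
  obtain ⟨e2⟩ : Nonempty (Fin r ≃ ((Set.range a')ᶜ : Set ι)) :=
    ⟨Fintype.equivOfCardEq (by rw [hcompl]; simp)⟩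
  let e : Unit ⊕ Fin n ⊕ Fin r ≃ ι :=
    (Equiv.sumAssoc _ _ _).symm.trans
      ((Equiv.sumCongr (Equiv.ofInjective a' ha') e2).trans (Equiv.Set.sumCompl (Set.range a')))
  have he0 : e (Sum.inl ()) = a' (Sum.inl ()) := by simp [e]
  have hei : ∀ i, e (Sum.inr (Sum.inl i)) = a' (Sum.inr i) := fun i => by simp [e]
  -- the frame matrix
  let b : Fin n → k := P (a' (Sum.inl ()))
  let g : Matrix (Fin n) (Fin n) k := Matrix.of fun i m => P (a' (Sum.inr m)) i - b i
  have hg : IsUnit g.det := by
    rw [isUnit_iff_ne_zero]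
    intro hdet
    obtain ⟨v, hv0, hv⟩ := Matrix.exists_mulVec_eq_zero_iff.2 hdet
    apply hv0
    rw [Fintype.linearIndependent_iff] at hli'
    have h5 := hli' (Sum.elim (fun _ => - ∑ m, v m) v) (by
      rw [Fintype.sum_sum_type]
      funext s
      simp only [Finset.univ_unique, Finset.sum_singleton, Sum.elim_inl, Sum.elim_inr,
        Pi.add_apply, Pi.smul_apply, Finset.sum_apply, smul_eq_mul, Function.comp, Pi.zero_apply]
      rcases s with ⟨⟩ | i
      · simp [u]
      · have h6 := congrFun hv i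
        simp only [Matrix.mulVec, dotProduct, g, Matrix.of_apply, sub_mul, Pi.zero_apply,
          Finset.sum_sub_distrib] at h6
        simp only [u, Sum.elim_inr]
        change -(∑ m, v m) * b i + _ = 0
        rw [← h6, ← Finset.mul_sum]
        have : ∑ x, P (a' (Sum.inr x)) i * v x = ∑ x, v x * P (a' (Sum.inr x)) i :=
          Finset.sum_congr rfl fun x _ => mul_comm _ _
        rw [this]
        ring)
    funext m
    exact h5 (Sum.inr m)
  have hgg : g⁻¹ * g = 1 := Matrix.nonsing_inv_mul g hg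
  have hgg' : g * g⁻¹ = 1 := Matrix.mul_nonsing_inv g hg
  let Q : Fin r → Fin n → k := fun s => g⁻¹ *ᵥ (P (e (Sum.inr (Sum.inr s))) - b)
  have hstd : ∀ l, stdPts Q l = g⁻¹ *ᵥ (P (e l) - b) := by
    intro l
    rcases l with ⟨⟩ | m | s
    · rw [he0]
      simp [stdPts, b]
    · rw [hei]
      have h7 : P (a' (Sum.inr m)) - b = g *ᵥ Pi.single m 1 := by
        rw [Matrix.mulVec_single_one]
        rfl
      rw [h7, Matrix.mulVec_mulVec, hgg, Matrix.one_mulVec]
      rfl
    · rfl
  have hstd' : ∀ l, P (e l) = b + g *ᵥ stdPts Q l := by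
    intro l
    rw [hstd, Matrix.mulVec_mulVec, hgg', Matrix.one_mulVec]
    simp
  refine VC_subset_of_DC_std Q ?_ ?_
  · intro l m hlm
    apply e.injective
    apply hinj
    rw [hstd', hstd', hlm]
  · intro ξ hq hv hs h0 h1
    have hξ := hDC (fun l x => ξ (e.symm l) (g⁻¹ *ᵥ (x - b))) (by
        intro l
        refine (hq _).comp (fun x => g⁻¹ *ᵥ (x - b)) fun i => ?_
        refine ⟨- ∑ j, g⁻¹ i j * b j, fun j => g⁻¹ i j, fun x => ?_⟩
        simp only [Matrix.mulVec, dotProduct, Pi.sub_apply, mul_sub, Finset.sum_sub_distrib]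
        ring) (by
        intro l m
        have := hv (e.symm l) (e.symm m)
        rwa [hstd, Equiv.apply_symm_apply] at this) (by
        intro l v
        have := hs (e.symm l) (g⁻¹ *ᵥ v)
        rw [hstd, Equiv.apply_symm_apply, ← Matrix.mulVec_add, ← Matrix.mulVec_sub] at this
        have e3 : P l + v - b = P l - b + v := by abel
        have e4 : P l - v - b = P l - b - v := by abel
        simp only [e3, e4, this]) (by
        intro x
        rw [← h0 (g⁻¹ *ᵥ (x - b))]
        exact Equiv.sum_comp e.symm fun l => ξ l (g⁻¹ *ᵥ (x - b))) (by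
        intro x i
        have h8 : ∑ l, P l i * ξ (e.symm l) (g⁻¹ *ᵥ (x - b)) =
            ∑ l, P (e l) i * ξ l (g⁻¹ *ᵥ (x - b)) := by
          rw [← Equiv.sum_comp e]
          simp
        rw [h8]
        simp only [hstd', Pi.add_apply, add_mul, Finset.sum_add_distrib, ← Finset.mul_sum, h0,
          mul_zero, zero_add]
        simp only [Matrix.mulVec, dotProduct, Finset.sum_mul]
        rw [Finset.sum_comm]
        refine Finset.sum_eq_zero fun m _ => ?_
        have h9 := h1 (g⁻¹ *ᵥ (x - b)) m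
        simp only [mul_assoc, ← Finset.mul_sum]
        rw [h9, mul_zero])
    intro l x
    have := hξ (e l) (b + g *ᵥ x)
    simpa [Matrix.mulVec_mulVec, hgg] using this

end Pool.Agent.HilbPts
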