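import Mathlib

set_option autoImplicit false

namespace Pool.Agent.HilbPts

open MvPolynomial

variable {n : ℕ} {k : Type*} [Field k]

theorem finrank_homogeneousSubmodule (n j : ℕ) (k : Type*) [Field k] :
    Module.finrank k (homogeneousSubmodule (Fin n) k j) = (n + j - 1).choose j := by
  classical
  have e : homogeneousSubmodule (Fin n) k j ≃ₗ[k]
      ({d : Fin n →₀ ℕ | d.degree = j} →₀ k) :=
    (LinearEquiv.ofEq _ _ (homogeneousSubmodule_eq_finsupp_supported (Fin n) k j)).trans
      (AddMonoidAlgebra.supportedEquivFinsupp _)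
  rw [e.finrank_eq]
  have hs : {d : Fin n →₀ ℕ | d.degree = j} = (Finset.univ : Finset (Fin n)).finsuppAntidiag j := by
    ext d
    simp [Finset.mem_finsuppAntidiag, Finsupp.degree_eq_sum]
  have hcard : Nat.card {d : Fin n →₀ ℕ | d.degree = j} = (n + j - 1).choose j := by
    rw [hs, Nat.card_coe_set_eq, Set.ncard_coe_finset, Finset.card_finsuppAntidiag_nat_eq_choose,
      Finset.card_univ, Fintype.card_fin]
  have : Finite {d : Fin n →₀ ℕ | d.degree = j} := by
    rw [hs]; infer_instance
  have : Fintype {d : Fin n →₀ ℕ | d.degree = j} := Fintype.ofFinite _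
  rw [← hcard, Module.finrank_finsupp_self, Nat.card_eq_fintype_card]

instance (j : ℕ) : Module.Finite k (homogeneousSubmodule (Fin n) k j) :=
  Module.Finite.iff_fg.2 (homogeneousSubmodule_fg _ _ _)

theorem homogeneousComponent_X_mul (j : ℕ) (i : Fin n) (f : MvPolynomial (Fin n) k) :
    homogeneousComponent (j + 1) (X i * f) = X i * homogeneousComponent j f := by
  classical
  ext d
  rw [coeff_homogeneousComponent, coeff_X_mul', coeff_X_mul', coeff_homogeneousComponent]
  by_cases hd : i ∈ d.support
  · have h1 : d = (d - Finsupp.single i 1) + Finsupp.single i 1 := by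
      ext a
      have := Finsupp.mem_support_iff.1 hd
      by_cases h : i = a
      · subst h; simp; lia
      · simp [Finsupp.single_eq_of_ne' h]
    have h2 : d.degree = (d - Finsupp.single i 1).degree + 1 := by
      conv_lhs => rw [h1]
      simp
    simp [hd, h2]
  · simp [hd]

end Pool.Agent.HilbPts
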