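import Pool.Agent.HilbPts.PresOf

set_option autoImplicit false

namespace Pool.Agent.HilbPts

open MvPolynomial Matrix

variable {n d : ℕ} {k : Type*} [Field k] {ι : Type*} [Fintype ι] [DecidableEq ι]

/-- Interpolation at distinct points. -/
theorem exists_interp (P : ι → Fin n → k) (hP : Function.Injective P) (c : ι → k) :
    ∃ f : MvPolynomial (Fin n) k, ∀ l, eval (P l) f = c l := by
  classical
  have h1 : ∀ l m : ι, ∃ g : MvPolynomial (Fin n) k, l ≠ m → eval (P l) g = 1 ∧ eval (P m) g = 0 := by
    intro l m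
    by_cases h : l = m
    · exact ⟨0, fun h' => absurd h h'⟩
    · obtain ⟨i, hi⟩ := Function.ne_iff.1 (fun h' => h (hP h') : P l ≠ P m)
      refine ⟨C ((P l i - P m i)⁻¹) * (X i - C (P m i)), fun _ => ⟨?_, ?_⟩⟩
      · simp [inv_mul_cancel₀ (sub_ne_zero.2 hi)]
      · simp
  choose g hg using h1
  refine ⟨∑ l, C (c l) * ∏ m ∈ Finset.univ.erase l, g l m, fun l => ?_⟩
  rw [map_sum, Finset.sum_eq_single l]
  · rw [map_mul, eval_C, map_prod, Finset.prod_eq_one, mul_one]
    intro m hm
    exact (hg l m (Finset.ne_of_mem_erase hm).symm).1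
  · intro m _ hm
    rw [map_mul, map_prod, Finset.prod_eq_zero (i := l), mul_zero]
    · exact Finset.mem_erase.2 ⟨hm.symm, Finset.mem_univ _⟩
    · exact (hg m l hm).2
  · simp

/-- Evaluation at the points as a linear map. -/
noncomputable def evalPts (P : ι → Fin n → k) : MvPolynomial (Fin n) k →ₗ[k] (ι → k) :=
  LinearMap.pi fun l => (aeval (P l) : MvPolynomial (Fin n) k →ₐ[k] k).toLinearMap

omit [Fintype ι] [DecidableEq ι] in
theorem evalPts_apply (P : ι → Fin n → k) (f : MvPolynomial (Fin n) k) (l : ι) :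
    evalPts P f l = eval (P l) f := by
  simp [evalPts, aeval_eq_eval]

/-- Presentations of the ideals of finite sets of points. -/
theorem exists_pres_points (e : Fin d ≃ ι) (P : ι → Fin n → k) (hP : Function.Injective P)
    (T : (ι → k) ≃ₗ[k] (ι → k)) (M : Fin n → Matrix ι ι k)
    (hM : ∀ i u, T (fun l => P l i * u l) = M i *ᵥ T u) :
    ∃ Q : Pres n d k, Q.ideal.IsRadical ∧ (∀ f, f ∈ Q.ideal ↔ ∀ l, eval (P l) f = 0) ∧
      (∀ f a, Q.basis (Ideal.Quotient.mk _ f) a = T (evalPts P f) (e a)) ∧
      Q.coord = fun s => cvec M (T 1) (cIdx e s) := by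
  have hs : Function.Surjective (T.toLinearMap ∘ₗ evalPts P) := by
    refine T.surjective.comp ?_
    intro c
    obtain ⟨f, hf⟩ := exists_interp P hP c
    exact ⟨f, funext fun l => by rw [evalPts_apply, hf]⟩
  obtain ⟨Q, h1, h2, h3⟩ := exists_pres e (T.toLinearMap ∘ₗ evalPts P) hs M (by
    intro i f
    change T (evalPts P (X i * f)) = M i *ᵥ T (evalPts P f)
    rw [← hM]
    congr 1
    funext l
    rw [evalPts_apply, evalPts_apply, map_mul, eval_X])
  have h1' : ∀ f, f ∈ Q.ideal ↔ ∀ l, eval (P l) f = 0 := by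
    intro f
    rw [h1]
    change T (evalPts P f) = 0 ↔ _
    rw [LinearEquiv.map_eq_zero_iff]
    constructor
    · intro h l
      rw [← evalPts_apply P f l, h]; rfl
    · intro h
      funext l
      rw [evalPts_apply, h]; rfl
  refine ⟨Q, ?_, h1', h2, ?_⟩
  · intro f hf
    obtain ⟨m, hm⟩ := hf
    rw [h1'] at hm ⊢
    intro l
    have := hm l
    rw [map_pow] at this
    exact eq_zero_of_pow_eq_zero this
  · rw [h3]
    funext s
    have : (T.toLinearMap ∘ₗ evalPts P) 1 = T 1 := by
      change T (evalPts P 1) = T 1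
      congr 1
      funext l
      rw [evalPts_apply, map_one]; rfl
    rw [this]

/-- Radical ideals of finite colength are ideals of finite sets of points. -/
theorem exists_points_of_radical [IsAlgClosed k] (P : Pres n d k) (h : P.ideal.IsRadical) :
    ∃ p : Fin d → Fin n → k, Function.Injective p ∧ ∀ f, f ∈ P.ideal ↔ ∀ l, eval (p l) f = 0 := by
  classical
  have hfin : Module.Finite k (MvPolynomial (Fin n) k ⧸ P.ideal) := Module.Finite.equiv P.basis.symm
  have hI : ∀ f, f ∈ P.ideal ↔ ∀ x ∈ zeroLocus k P.ideal, eval x f = 0 := by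
    intro f
    conv_lhs => rw [← h.radical, ← vanishingIdeal_zeroLocus_eq_radical (K := k)]
    rw [mem_vanishingIdeal_iff]
    simp [aeval_eq_eval]
  -- finite subsets of the zero locus have at most `d` elements
  have hle : ∀ (s : Finset (Fin n → k)), (s : Set (Fin n → k)) ⊆ zeroLocus k P.ideal →
      s.card ≤ d := by
    intro s hs
    let θ : MvPolynomial (Fin n) k →ₗ[k] (s → k) := evalPts fun x : s => (x : Fin n → k)
    have hθs : Function.Surjective θ := by
      intro c
      obtain ⟨f, hf⟩ := exists_interp (fun x : s => (x : Fin n → k)) Subtype.val_injective c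
      exact ⟨f, funext fun l => by rw [evalPts_apply, hf]⟩
    have hker : P.ideal.restrictScalars k ≤ LinearMap.ker θ := by
      intro f hf
      rw [LinearMap.mem_ker]
      funext l
      rw [evalPts_apply]
      exact (hI f).1 hf _ (hs l.2)
    have hfr := finrank_quot P
    have h5 : Module.finrank k (s → k) ≤ Module.finrank k (MvPolynomial (Fin n) k ⧸ P.ideal) := by
      let ψ : (MvPolynomial (Fin n) k ⧸ P.ideal) →ₗ[k] (s → k) :=
        (Submodule.liftQ (P.ideal.restrictScalars k) θ hker) ∘ₗ
          (Submodule.Quotient.restrictScalarsEquiv k P.ideal).symm.toLinearMap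
      refine LinearMap.finrank_le_finrank_of_surjective (f := ψ) ?_
      intro c
      obtain ⟨f, hf⟩ := hθs c
      exact ⟨Ideal.Quotient.mk _ f, hf⟩
    rw [hfr, Module.finrank_fintype_fun_eq_card, Fintype.card_coe] at h5
    exact h5
  have hfinite : (zeroLocus k P.ideal).Finite := by
    by_contra hinf
    obtain ⟨s, hs, hc⟩ := Set.Infinite.exists_subset_card_eq (hinf : (zeroLocus k P.ideal).Infinite)
      (d + 1)
    have := hle s hs
    lia
  obtain ⟨s, hs⟩ : ∃ s : Finset (Fin n → k), (s : Set (Fin n → k)) = zeroLocus k P.ideal :=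
    ⟨hfinite.toFinset, by simp⟩
  have hcard : s.card = d := by
    refine le_antisymm (hle s hs.le) ?_
    let θ : MvPolynomial (Fin n) k →ₗ[k] (s → k) := evalPts fun x : s => (x : Fin n → k)
    have hker : P.ideal.restrictScalars k ≤ LinearMap.ker θ := by
      intro f hf
      rw [LinearMap.mem_ker]
      funext l
      rw [evalPts_apply]
      exact (hI f).1 hf _ (hs ▸ l.2)
    let ψ : (MvPolynomial (Fin n) k ⧸ P.ideal) →ₗ[k] (s → k) :=
      (Submodule.liftQ (P.ideal.restrictScalars k) θ hker) ∘ₗ
        (Submodule.Quotient.restrictScalarsEquiv k P.ideal).symm.toLinearMap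
    have hinj : Function.Injective ψ := by
      rw [injective_iff_map_eq_zero]
      intro y hy
      obtain ⟨f, rfl⟩ := Ideal.Quotient.mk_surjective y
      rw [Ideal.Quotient.eq_zero_iff_mem, hI]
      intro x hx
      have h6 : θ f = 0 := hy
      have h7 := congrFun h6 ⟨x, by
        have : x ∈ (s : Set (Fin n → k)) := hs ▸ hx
        exact this⟩
      rwa [evalPts_apply] at h7
    have := LinearMap.finrank_le_finrank_of_injective hinj
    rw [finrank_quot P, Module.finrank_fintype_fun_eq_card, Fintype.card_coe] at this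
    exact this
  obtain ⟨e⟩ : Nonempty (Fin d ≃ s) := ⟨(s.equivFinOfCardEq hcard).symm⟩
  refine ⟨fun l => (e l : Fin n → k), fun a b hab => e.injective (Subtype.ext hab), fun f => ?_⟩
  rw [hI, ← hs]
  constructor
  · intro h l
    exact h _ (e l).2
  · intro h x hx
    have := h (e.symm ⟨x, hx⟩)
    simpa using this

end Pool.Agent.HilbPts
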