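import Pool.Agent.HilbPts.Family

set_option autoImplicit false

namespace Pool.Agent.HilbPts

open MvPolynomial

variable {k : Type*} [Field k]

theorem aeval_mul_homog {R : Type*} [CommRing R] [Algebra k R] {σ : Type*} {φ : MvPolynomial σ k}
    {m : ℕ} (h : φ.IsHomogeneous m) (μ : R) (y : σ → R) :
    aeval (fun x => μ * y x) φ = μ ^ m * aeval y φ := by
  rw [aeval_def, aeval_def, eval₂_eq, eval₂_eq, Finset.mul_sum]
  refine Finset.sum_congr rfl fun d hd => ?_
  have h1 : ∑ i ∈ d.support, d i = m := by
    have := h (mem_support_iff.1 hd)
    rw [← this]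
    simp [Finsupp.weight_apply, Finsupp.sum]
  simp only [mul_pow, Finset.prod_mul_distrib, Finset.prod_pow_eq_pow_sum, h1]
  ring

theorem eval_aeval_poly {σ : Type*} (c : σ → Polynomial k) (G : MvPolynomial σ k) (t : k) :
    (aeval c G).eval t = eval (fun i => (c i).eval t) G := by
  induction G using MvPolynomial.induction_on with
  | C a => simp
  | add p q hp hq => rw [map_add, Polynomial.eval_add, map_add, hp, hq]
  | mul_X p i hp => rw [map_mul, Polynomial.eval_mul, map_mul, hp, aeval_X, eval_X]

/-- A polynomial vanishing along curves through a point in all directions is zero. -/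
theorem eq_zero_of_curves [Infinite k] {σ : Type*} (G : MvPolynomial σ k) (y₀ : σ → k)
    (h : ∀ δ : σ → k, ∃ c : σ → Polynomial k, (∀ i, (c i).coeff 0 = y₀ i) ∧
      (∀ i, (c i).coeff 1 = δ i) ∧ aeval c G = 0) : G = 0 := by
  -- shift the base point to the origin
  let G' : MvPolynomial σ k := aeval (fun i => X i + C (y₀ i)) G
  have hshift : ∀ {R : Type _} [CommRing R] [Algebra k R] (c : σ → R),
      aeval c G' = aeval (fun i => c i + algebraMap k R (y₀ i)) G := by
    intro R _ _ c
    have : (aeval c).comp (aeval fun i => X i + C (y₀ i)) =
        (aeval (fun i => c i + algebraMap k R (y₀ i)) : MvPolynomial σ k →ₐ[k] R) := by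
      ext i
      simp [algHom_C]
    exact DFunLike.congr_fun this G
  have hG' : ∀ j, homogeneousComponent j G' = 0 := by
    intro j
    induction j using Nat.strong_induction_on with
    | _ m ih =>
      refine MvPolynomial.funext fun δ => ?_
      rw [map_zero]
      obtain ⟨c, h0, h1, h2⟩ := h δ
      let c' : σ → Polynomial k := fun i => (c i).divX
      have hc : ∀ i, c i = Polynomial.X * c' i + Polynomial.C (y₀ i) := by
        intro i
        rw [← h0 i]
        exact (Polynomial.X_mul_divX_add (c i)).symm
      have h3 : aeval (fun i => Polynomial.X * c' i) G' = 0 := by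
        rw [hshift, ← h2]
        congr 2
        funext i
        rw [hc i]
        rfl
      have h4 : ∑ j ∈ Finset.range (G'.totalDegree + 1),
          Polynomial.X ^ j * aeval c' (homogeneousComponent j G') = 0 := by
        rw [← h3]
        conv_rhs => rw [← sum_homogeneousComponent G', map_sum]
        exact Finset.sum_congr rfl fun j _ =>
          (aeval_mul_homog (homogeneousComponent_isHomogeneous j G') _ _).symm
      by_cases hm : m < G'.totalDegree + 1
      · have h5 : (∑ j ∈ Finset.range (G'.totalDegree + 1),
            Polynomial.X ^ j * aeval c' (homogeneousComponent j G')).coeff m = 0 := by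
          rw [h4, Polynomial.coeff_zero]
        rw [Polynomial.finsetSum_coeff, Finset.sum_eq_single m] at h5
        · rw [Polynomial.coeff_X_pow_mul', if_pos le_rfl, Nat.sub_self,
            Polynomial.coeff_zero_eq_eval_zero, eval_aeval_poly] at h5
          rw [← h5]
          congr 2
          funext i
          rw [← Polynomial.coeff_zero_eq_eval_zero, Polynomial.coeff_divX, ← h1 i]
        · intro j _ hj
          rcases lt_or_gt_of_ne hj with hlt | hgt
          · rw [ih j hlt, map_zero, mul_zero, Polynomial.coeff_zero]
          · rw [Polynomial.coeff_X_pow_mul', if_neg (by lia)]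
        · intro hcon
          exact absurd (Finset.mem_range.2 hm) hcon
      · rw [homogeneousComponent_eq_zero _ _ (by lia), map_zero]
  have hz : G' = 0 := by
    rw [← sum_homogeneousComponent G']
    exact Finset.sum_eq_zero fun j _ => hG' j
  refine MvPolynomial.funext fun y => ?_
  have := hshift (R := k) (fun i => y i - y₀ i)
  rw [hz, map_zero] at this
  simp only [Algebra.algebraMap_self, RingHom.id_apply, sub_add_cancel] at this
  rw [map_zero, ← aeval_eq_eval]
  exact this.symm

end Pool.Agent.HilbPts
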