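import Pool.Agent.HilbPts.Depend
import Pool.Agent.HilbPts.Pairs

set_option autoImplicit false

namespace Pool.Agent.HilbPts

open MvPolynomial Matrix TopologicalSpace Topology

variable {n r : ℕ} {k : Type*} [Field k]

/-- The determinant of the classes of the monomials in a presentation. -/
noncomputable def delta (e : Fin (1 + n + r) ≃ Unit ⊕ Fin n ⊕ Fin r) (P : Pres n (1 + n + r) k)
    (b : Fin r → Fin n × Fin n) : k :=
  (Matrix.of fun a c : Unit ⊕ Fin n ⊕ Fin r =>
    P.basis (Ideal.Quotient.mk _ (mon b c)) (e.symm a)).det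

/-- The determinants as polynomials in the coordinates. -/
noncomputable def deltaPoly (e : Fin (1 + n + r) ≃ Unit ⊕ Fin n ⊕ Fin r) (k : Type*) [Field k]
    (b : Fin r → Fin n × Fin n) :
    MvPolynomial ((Fin n × Fin (1 + n + r) × Fin (1 + n + r)) ⊕ Fin (1 + n + r)) k :=
  (Matrix.of fun a c : Unit ⊕ Fin n ⊕ Fin r =>
    (match c with
      | Sum.inl _ => fun a => X (Sum.inr a)
      | Sum.inr (Sum.inl i) =>
        (Matrix.of fun a b => X (Sum.inl (i, a, b)) : Matrix _ _ (MvPolynomial _ k)) *ᵥ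
          fun a => X (Sum.inr a)
      | Sum.inr (Sum.inr s) =>
        (Matrix.of fun x y => X (Sum.inl ((b s).1, x, y)) : Matrix _ _ (MvPolynomial _ k)) *ᵥ
        ((Matrix.of fun x y => X (Sum.inl ((b s).2, x, y)) : Matrix _ _ (MvPolynomial _ k)) *ᵥ
          fun a => X (Sum.inr a)) :
      Fin (1 + n + r) → MvPolynomial _ k) (e.symm a)).det

theorem eval_deltaPoly (e : Fin (1 + n + r) ≃ Unit ⊕ Fin n ⊕ Fin r) (P : Pres n (1 + n + r) k)
    (b : Fin r → Fin n × Fin n) : eval P.coord (deltaPoly e k b) = delta e P b := by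
  have hmv : ∀ (i : Fin n) (u : Fin (1 + n + r) → MvPolynomial _ k)
      (y : MvPolynomial (Fin n) k ⧸ P.ideal), (∀ a, eval P.coord (u a) = P.basis y a) →
      ∀ a, eval P.coord (((Matrix.of fun x z => X (Sum.inl (i, x, z)) :
        Matrix _ _ (MvPolynomial _ k)) *ᵥ u) a) =
        P.basis (Ideal.Quotient.mk _ (X i) * y) a := by
    intro i u y hu a
    rw [P.basis_mul]
    simp only [Matrix.mulVec, dotProduct, map_sum, map_mul, Matrix.of_apply, eval_X, Pres.mat, hu]
  have hv : ∀ a, eval P.coord (X (Sum.inr a)) = P.basis 1 a := by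
    intro a; simp [Pres.coord]
  rw [deltaPoly, delta, RingHom.map_det]
  congr 1
  ext a c
  rcases c with c | i | s
  · simp only [RingHom.mapMatrix_apply, Matrix.map_apply, Matrix.of_apply, mon, map_one]
    exact hv _
  · simp only [RingHom.mapMatrix_apply, Matrix.map_apply, Matrix.of_apply, mon]
    rw [hmv i _ 1 hv, mul_one]
  · simp only [RingHom.mapMatrix_apply, Matrix.map_apply, Matrix.of_apply, mon]
    rw [hmv _ _ _ (hmv _ _ 1 hv), mul_one, ← map_mul]

/-- Changing the basis multiplies all the determinants by the same factor. -/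
theorem delta_change (e : Fin (1 + n + r) ≃ Unit ⊕ Fin n ⊕ Fin r) (P Q : Pres n (1 + n + r) k)
    (h : P.toHilb = Q.toHilb) : ∃ κ : k, ∀ b, delta e P b = κ * delta e Q b := by
  obtain ⟨I, u⟩ := P
  obtain ⟨J, v⟩ := Q
  have hIJ : I = J := congrArg Subtype.val h
  subst hIJ
  let w : (Fin (1 + n + r) → k) →ₗ[k] (Fin (1 + n + r) → k) := (v.symm ≪≫ₗ u).toLinearMap
  let W : Matrix (Unit ⊕ Fin n ⊕ Fin r) (Unit ⊕ Fin n ⊕ Fin r) k :=
    Matrix.of fun a b => w (Pi.single (e.symm b) 1) (e.symm a)
  refine ⟨W.det, fun b => ?_⟩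
  rw [delta, delta, ← Matrix.det_mul]
  congr 1
  ext a c
  rw [Matrix.mul_apply]
  simp only [Matrix.of_apply, W]
  have h1 : u (Ideal.Quotient.mk _ (mon b c)) = w (v (Ideal.Quotient.mk _ (mon b c))) := by
    simp [w]
  have h2 : ∀ y : Fin (1 + n + r) → k, w y = ∑ x, y x • w (Pi.single x 1) := by
    intro y
    have : y = ∑ x, y x • (Pi.single x 1 : Fin (1 + n + r) → k) := by
      funext z
      simp [Pi.single_apply]
    conv_lhs => rw [this]
    rw [map_sum]
    simp only [map_smul]
  rw [h1, h2, Finset.sum_apply]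
  rw [← Equiv.sum_comp e.symm]
  exact Finset.sum_congr rfl fun x _ => by
    simp only [Pi.smul_apply, smul_eq_mul]
    exact mul_comm _ _

theorem delta_radical [IsAlgClosed k] (e : Fin (1 + n + r) ≃ Unit ⊕ Fin n ⊕ Fin r)
    (P : Pres n (1 + n + r) k) (h : P.ideal.IsRadical) :
    ∃ (κ : k) (p : Unit ⊕ Fin n ⊕ Fin r → Fin n → k), ∀ b, delta e P b = κ * (evMat b p).det := by
  obtain ⟨p, hp, hmem⟩ := exists_points_of_radical P h
  obtain ⟨Q, -, q2, q3, -⟩ := exists_pres_points e (fun l => p (e.symm l))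
    (hp.comp e.symm.injective) (LinearEquiv.refl k _)
    (fun i => Matrix.diagonal fun l => p (e.symm l) i) (by
      intro i u
      funext l
      rw [Matrix.mulVec_diagonal]
      rfl)
  have hPQ : P.toHilb = Q.toHilb := by
    apply Subtype.ext
    change P.ideal = Q.ideal
    ext f
    rw [hmem, q2]
    exact ⟨fun h l => h _, fun h l => by simpa using h (e l)⟩
  obtain ⟨κ, hκ⟩ := delta_change e P Q hPQ
  refine ⟨κ, fun l => p (e.symm l), fun b => ?_⟩
  rw [hκ]
  congr 1
  rw [delta, evMat]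
  congr 1
  ext a c
  simp only [Matrix.of_apply]
  rw [q3]
  simp only [LinearEquiv.refl_apply, Equiv.apply_symm_apply]
  rw [evalPts_apply, eval_mon]

/-- The closed set cut out by a homogeneous relation. -/
def RelSet {K : Type*} (e : Fin (1 + n + r) ≃ Unit ⊕ Fin n ⊕ Fin r)
    (bx : K → Fin r → Fin n × Fin n) (H : MvPolynomial K k) : Set (Hilb n (1 + n + r) k) :=
  {x | ∀ P : Pres n (1 + n + r) k, P.toHilb = x → eval (fun x => delta e P (bx x)) H = 0}

theorem mem_relSet_iff {K : Type*} (e : Fin (1 + n + r) ≃ Unit ⊕ Fin n ⊕ Fin r)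
    (bx : K → Fin r → Fin n × Fin n) {H : MvPolynomial K k} {m : ℕ} (hH : H.IsHomogeneous m)
    (P : Pres n (1 + n + r) k) :
    P.toHilb ∈ RelSet e bx H ↔ eval (fun x => delta e P (bx x)) H = 0 := by
  constructor
  · intro h
    exact h P rfl
  · intro h Q hQ
    obtain ⟨κ, hκ⟩ := delta_change e Q P hQ
    have h1 : (fun x => delta e Q (bx x)) = fun x => κ * delta e P (bx x) :=
      funext fun x => hκ _
    rw [h1, eval_mul_homog hH, h, mul_zero]

theorem isClosed_relSet {K : Type*} (e : Fin (1 + n + r) ≃ Unit ⊕ Fin n ⊕ Fin r)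
    (bx : K → Fin r → Fin n × Fin n) {H : MvPolynomial K k} {m : ℕ} (hH : H.IsHomogeneous m) :
    IsClosed (RelSet e bx H) := by
  rw [isClosed_hilb_iff]
  refine ⟨{aeval (fun x => deltaPoly e k (bx x)) H}, fun P => ?_⟩
  rw [mem_relSet_iff e bx hH]
  simp only [Set.mem_singleton_iff, forall_eq]
  rw [eval_aeval_aux]
  simp only [eval_deltaPoly]

theorem smoothable_subset_relSet [IsAlgClosed k] {K : Type*}
    (e : Fin (1 + n + r) ≃ Unit ⊕ Fin n ⊕ Fin r)
    (bx : K → Fin r → Fin n × Fin n) {H : MvPolynomial K k} {m : ℕ} (hH : H.IsHomogeneous m)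
    (h : ∀ P : Unit ⊕ Fin n ⊕ Fin r → Fin n → k, eval (fun x => (evMat (bx x) P).det) H = 0) :
    Smoothable n (1 + n + r) k ⊆ RelSet e bx H := by
  refine closure_minimal ?_ (isClosed_relSet e bx hH)
  intro x hx
  obtain ⟨P, rfl⟩ := toHilb_surjective x
  rw [mem_relSet_iff e bx hH]
  obtain ⟨κ, p, hp⟩ := delta_radical e P hx
  have h1 : (fun x => delta e P (bx x)) = fun x => κ * (evMat (bx x) p).det :=
    funext fun x => hp _
  rw [h1, eval_mul_homog hH, h, mul_zero]

/-- The family of choices of quadratic monomials. -/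
def bxFam (b₀ : Fin r → {x : Fin n × Fin n // x.1 ≤ x.2}) :
    Option ({x : {x : Fin n × Fin n // x.1 ≤ x.2} // x ∉ Set.range b₀} × Fin r) →
      Fin r → Fin n × Fin n
  | none => fun s => (b₀ s).1
  | some (m, s) => Function.update (fun s => ((b₀ s).1 : Fin n × Fin n)) s m.1.1

theorem exists_vc_values [CharZero k] (e : Fin (1 + n + r) ≃ Unit ⊕ Fin n ⊕ Fin r)
    (b₀ : Fin r → {x : Fin n × Fin n // x.1 ≤ x.2}) (hb : Function.Injective b₀)
    (c : Option ({x : {x : Fin n × Fin n // x.1 ≤ x.2} // x ∉ Set.range b₀} × Fin r) → k)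
    (hc : c none = 1) :
    ∃ P : Pres n (1 + n + r) k, P.toHilb ∈ VC n (1 + n + r) k ∧
      ∀ x, delta e P (bxFam b₀ x) = c x := by
  classical
  let γ : Fin r → {x : Fin n × Fin n // x.1 ≤ x.2} → k := fun s x =>
    if h : x ∈ Set.range b₀ then (if x = b₀ s then 1 else 0) else c (some (⟨x, h⟩, s))
  let g : Fin r → Fin n → Fin n → k := fun s i j => γ s (sortP i j)
  have hg : ∀ s i j, g s i j = g s j i := fun s i j => by
    change γ s _ = γ s _
    rw [sortP_comm]
  have hgb : ∀ s s', g s (b₀ s').1.1 (b₀ s').1.2 = if s' = s then 1 else 0 := by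
    intro s s'
    change γ s _ = _
    rw [sortP_self]
    simp only [γ, Set.mem_range_self, dif_pos, hb.eq_iff]
  have hgm : ∀ (x : {x : {x : Fin n × Fin n // x.1 ≤ x.2} // x ∉ Set.range b₀}) s,
      g s x.1.1.1 x.1.1.2 = c (some (x, s)) := by
    intro x s
    change γ s _ = _
    rw [sortP_self]
    simp only [γ, dif_neg x.2]
  obtain ⟨P, h1, h2, -⟩ := exists_vc e 0 g hg (by
    intro x
    refine ⟨fun a b => ∑ s, if ((b₀ s).1.1 = a ∧ (b₀ s).1.2 = b) then x s else 0, fun s => ?_⟩
    simp only [Finset.sum_mul]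
    have : ∀ a b : Fin n, ∑ i, (if (b₀ i).1.1 = a ∧ (b₀ i).1.2 = b then x i else 0) * g s a b =
        ∑ i, if (b₀ i).1.1 = a then (if (b₀ i).1.2 = b then x i * g s a b else 0) else 0 := by
      intro a b
      refine Finset.sum_congr rfl fun i _ => ?_
      split_ifs <;> simp_all
    simp only [this]
    have h3 : ∀ a : Fin n, ∑ b, ∑ i, (if (b₀ i).1.1 = a then
        (if (b₀ i).1.2 = b then x i * g s a b else 0) else 0) =
        ∑ i, if (b₀ i).1.1 = a then x i * g s a (b₀ i).1.2 else 0 := by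
      intro a
      rw [Finset.sum_comm]
      refine Finset.sum_congr rfl fun i _ => ?_
      by_cases h : (b₀ i).1.1 = a <;> simp [h]
    simp only [h3]
    rw [Finset.sum_comm]
    simp [hgb])
  refine ⟨P, h1, ?_⟩
  have hth : ∀ (b : Fin r → Fin n × Fin n) (a c' : Unit ⊕ Fin n ⊕ Fin r),
      P.basis (Ideal.Quotient.mk _ (mon b c')) (e.symm a) = vcTheta 0 g (mon b c') a := by
    intro b a c'
    rw [h2, Equiv.apply_symm_apply]
  have hq : ∀ (i j : Fin n) (a : Unit ⊕ Fin n ⊕ Fin r),
      vcTheta (0 : Fin n → k) g (X i * X j) a =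
        (Sum.elim (fun _ => 0) (Sum.elim (fun _ => 0) fun s => g s i j) :
          Unit ⊕ Fin n ⊕ Fin r → k) a := by
    intro i j a
    rcases a with a | l | s
    · simp [vcTheta]
    · simp [vcTheta, D1_mul]
    · simp only [vcTheta, LinearMap.coe_mk, AddHom.coe_mk, D2_mul, D1_X, D2_X, eval_X,
        Pi.zero_apply, Sum.elim_inr]
      have e1 : ∀ a b : Fin n, 2⁻¹ * (0 * 0 + (if i = a then 1 else 0) * (if j = b then 1 else 0) +
          (if i = b then 1 else 0) * (if j = a then 1 else 0) + 0 * 0) * g s a b =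
          (if i = a then (if j = b then 2⁻¹ * g s a b else 0) else 0) +
          (if j = a then (if i = b then 2⁻¹ * g s a b else 0) else 0) := by
        intro a b
        split_ifs <;> ring
      simp only [e1, Finset.sum_add_distrib]
      have e2 : ∀ (i j : Fin n), ∑ a, ∑ b, (if i = a then (if j = b then 2⁻¹ * g s a b else 0)
          else 0) = 2⁻¹ * g s i j := by
        intro i j
        rw [Finset.sum_eq_single i]
        · simp
        · intro x _ hx
          simp [hx.symm]
        · simp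
      rw [e2, e2, hg s j i, ← two_mul, ← mul_assoc, mul_inv_cancel₀ two_ne_zero, one_mul]
  have hlow : ∀ (b : Fin r → Fin n × Fin n) (a : Unit ⊕ Fin n ⊕ Fin r),
      (vcTheta (0 : Fin n → k) g (mon b (Sum.inl ())) a =
        (1 : Matrix (Unit ⊕ Fin n ⊕ Fin r) (Unit ⊕ Fin n ⊕ Fin r) k) a (Sum.inl ())) ∧
      ∀ i, vcTheta (0 : Fin n → k) g (mon b (Sum.inr (Sum.inl i))) a =
        (1 : Matrix (Unit ⊕ Fin n ⊕ Fin r) (Unit ⊕ Fin n ⊕ Fin r) k) a (Sum.inr (Sum.inl i)) := by
    intro b a
    constructor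
    · rw [mon, vcTheta_one, Matrix.one_apply, Pi.single_apply]
    · intro i
      rw [mon]
      rcases a with a | j | s
      · simp [vcTheta]
      · simp [vcTheta, D1_X, Matrix.one_apply, eq_comm]
      · simp [vcTheta, D2_X]
  intro x
  rw [delta]
  rcases x with _ | ⟨m, s⟩
  · rw [hc]
    convert Matrix.det_one (R := k) (n := Unit ⊕ Fin n ⊕ Fin r) using 2
    ext a c'
    rw [Matrix.of_apply, hth]
    rcases c' with ⟨⟩ | i | s
    · exact (hlow _ a).1
    · exact (hlow _ a).2 i
    · rw [mon, hq]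
      rcases a with a | j | s'
      · simp
      · simp
      · simp only [Sum.elim_inr, bxFam, hgb, Matrix.one_apply, Sum.inr.injEq]
        simp only [eq_comm]
  · have hcr : (Matrix.of fun a c' : Unit ⊕ Fin n ⊕ Fin r =>
        P.basis (Ideal.Quotient.mk _ (mon (bxFam b₀ (some (m, s))) c')) (e.symm a)) =
        (1 : Matrix (Unit ⊕ Fin n ⊕ Fin r) (Unit ⊕ Fin n ⊕ Fin r) k).updateCol
          (Sum.inr (Sum.inr s)) (Sum.elim (fun _ => 0) (Sum.elim (fun _ => 0)
            fun s' => c (some (m, s')))) := by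
      ext a c'
      rw [Matrix.of_apply, hth, Matrix.updateCol_apply]
      rcases c' with ⟨⟩ | i | s'
      · rw [if_neg (by simp)]
        exact (hlow _ a).1
      · rw [if_neg (by simp)]
        exact (hlow _ a).2 i
      · rw [mon, hq]
        by_cases hss : s' = s
        · subst hss
          rw [if_pos rfl]
          rcases a with a | j | s''
          · simp
          · simp
          · simp only [Sum.elim_inr, bxFam, Function.update_self]
            exact hgm m s''
        · rw [if_neg (by simpa using hss)]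
          rcases a with a | j | s''
          · simp
          · simp
          · simp only [Sum.elim_inr, bxFam, Function.update_of_ne hss, hgb, Matrix.one_apply,
              Sum.inr.injEq]
            simp only [eq_comm]
    rw [hcr, ← Matrix.cramer_apply, Matrix.cramer_one]
    rfl

/-- **Non-smoothability.**  If `r (n (n-1) / 2 - r) ≥ n ^ 2` then the general very compressed
algebra with Hilbert function `(1, n, r)` is not smoothable. -/
theorem VC_not_subset_smoothable [IsAlgClosed k] [CharZero k] (hn : 0 < n)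
    (hr : r ≤ (n + 1).choose 2) (h : n * (n + r) ≤ r * ((n + 1).choose 2 - r)) :
    ¬ VC n (1 + n + r) k ⊆ Smoothable n (1 + n + r) k := by
  classical
  obtain ⟨e⟩ : Nonempty (Fin (1 + n + r) ≃ Unit ⊕ Fin n ⊕ Fin r) :=
    ⟨Fintype.equivOfCardEq (by simp; ring)⟩
  obtain ⟨b₀⟩ : Nonempty (Fin r ↪ {x : Fin n × Fin n // x.1 ≤ x.2}) :=
    Function.Embedding.nonempty_of_card_le (by rw [card_pairs, Fintype.card_fin]; exact hr)
  have hcard : Fintype.card (Option ({x : {x : Fin n × Fin n // x.1 ≤ x.2} //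
      x ∉ Set.range b₀} × Fin r)) = ((n + 1).choose 2 - r) * r + 1 := by
    rw [Fintype.card_option, Fintype.card_prod, Fintype.card_fin]
    congr 2
    have h1 := Fintype.card_compl_set (Set.range b₀)
    rw [card_pairs, Set.card_range_of_injective b₀.injective, Fintype.card_fin] at h1
    exact h1
  obtain ⟨H, m, hH0, hH, hvan⟩ := exists_homog_relation (bxFam b₀) (by
    rw [hcard]; lia) hn k
  intro hsub
  have : Infinite k := IsAlgClosed.instInfinite
  have hne : H * X none ≠ 0 := mul_ne_zero hH0 (X_ne_zero none)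
  obtain ⟨y, hy⟩ : ∃ y, eval y (H * X none) ≠ 0 := by
    by_contra hcon
    push Not at hcon
    exact hne (MvPolynomial.funext fun y => by rw [hcon, map_zero])
  rw [map_mul, eval_X] at hy
  have hy0 : y none ≠ 0 := right_ne_zero_of_mul hy
  obtain ⟨P, hP, hδ⟩ := exists_vc_values e b₀ b₀.injective (fun x => (y none)⁻¹ * y x)
    (inv_mul_cancel₀ hy0)
  have h1 := smoothable_subset_relSet e (bxFam b₀) hH hvan (hsub hP)
  rw [mem_relSet_iff e _ hH] at h1
  have h2 : (fun x => delta e P (bxFam b₀ x)) = fun x => (y none)⁻¹ * y x := funext hδ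
  rw [h2, eval_mul_homog hH] at h1
  exact mul_ne_zero (pow_ne_zero _ (inv_ne_zero hy0)) (left_ne_zero_of_mul hy) h1

end Pool.Agent.HilbPts
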