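import Pool.Agent.HilbPts.Deform

set_option autoImplicit false

namespace Pool.Agent.HilbPts

open MvPolynomial TopologicalSpace Topology

variable {n d : ℕ} {k : Type*} [Field k]

/-- If a nonempty open set contains a point with a deformation, it contains a nontrivial member of
the deformation. -/
theorem exists_ne_zero_mem_open [Infinite k] (U : Set (Hilb n d k)) (hU : IsOpen U)
    (P : Pres n d k) (hP : P.toHilb ∈ U) {p : Fin n → k} (D : DefData P.ideal p) :
    ∃ t : k, t ≠ 0 ∧ ∃ Pt : Pres n d k, Pt.ideal = D.ideal t ∧ Pt.toHilb ∈ U := by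
  classical
  obtain ⟨S, hS⟩ := (isClosed_hilb_iff Uᶜ).1 hU.isClosed_compl
  have h1 : ¬ ∀ s ∈ S, eval P.coord s = 0 := by
    rw [← hS]; simpa using hP
  push Not at h1
  obtain ⟨s, hs, hs0⟩ := h1
  obtain ⟨c, hc⟩ := exists_family P D
  let u : Polynomial k :=
    aeval (fun j => Polynomial.C (P.coord j) + Polynomial.X * Polynomial.C (c j)) s
  have hu : ∀ t, u.eval t = eval (fun j => P.coord j + t * c j) s := by
    intro t
    have : u.eval t = (Polynomial.evalRingHom t) u := rfl
    rw [this]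
    simp only [u]
    rw [MvPolynomial.aeval_def, MvPolynomial.hom_eval₂]
    change _ = MvPolynomial.eval₂ (RingHom.id k) (fun j => P.coord j + t * c j) s
    congr 1
    · ext a; simp
    · funext j
      simp only [Polynomial.coe_evalRingHom, Polynomial.eval_add, Polynomial.eval_C,
        Polynomial.eval_mul, Polynomial.eval_X]
  have hu0 : u ≠ 0 := by
    intro h0
    apply hs0
    have := hu 0
    rw [h0] at this
    simpa using this.symm
  have hfin : Set.Finite ((u * Polynomial.X).roots.toFinset : Set k) := Finset.finite_toSet _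
  obtain ⟨t, ht⟩ := hfin.infinite_compl.nonempty
  have hne : u * Polynomial.X ≠ 0 := mul_ne_zero hu0 Polynomial.X_ne_zero
  simp only [Set.mem_compl_iff, Finset.mem_coe, Multiset.mem_toFinset,
    Polynomial.mem_roots hne, Polynomial.IsRoot.def, Polynomial.eval_mul, Polynomial.eval_X,
    mul_eq_zero, not_or] at ht
  obtain ⟨Pt, hPt, hcoord⟩ := hc t
  refine ⟨t, ht.2, Pt, hPt, ?_⟩
  by_contra hcon
  have h2 : Pt.toHilb ∈ Uᶜ := hcon
  rw [hS] at h2
  apply ht.1
  rw [hu, ← hcoord]
  exact h2 s hs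

theorem closure_not_mem_irreducibleComponents [Infinite k] (A F : Set (Hilb n d k))
    (hF : IsClosed F) (hAF : A ⊆ F)
    (h : ∀ P : Pres n d k, P.toHilb ∈ A → ∃ p : Fin n → k, ∃ D : DefData P.ideal p,
      ∀ t : k, t ≠ 0 → ∀ Pt : Pres n d k, Pt.ideal = D.ideal t → Pt.toHilb ∉ F) :
    closure A ∉ irreducibleComponents (Hilb n d k) := by
  intro hcomp
  obtain ⟨U, hUo, hUne, hUsub⟩ :=
    NoetherianSpace.exists_isOpen_nonempty_subset_irreducibleComponent _ hcomp
  obtain ⟨y, hy⟩ := hUne
  obtain ⟨x, hxU, hxA⟩ := mem_closure_iff.1 (hUsub hy) U hUo hy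
  obtain ⟨P, rfl⟩ := toHilb_surjective x
  obtain ⟨p, D, hD⟩ := h P hxA
  obtain ⟨t, ht, Pt, hPt, hPU⟩ := exists_ne_zero_mem_open U hUo P hxU D
  exact hD t ht Pt hPt (closure_minimal hAF hF (hUsub hPU))

end Pool.Agent.HilbPts
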