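import Pool.Agent.HilbPts.Translate

set_option autoImplicit false

namespace Pool.Agent.HilbPts

open MvPolynomial

/-- Very compressed algebras with `3 r ≥ n ^ 2` (that is `r > (n ^ 2 - 1) / 3`) and `r > n` never
form a component. -/
theorem closure_VC_not_component (n r : ℕ) (k : Type*) [Field k] [CharZero k] (hr : n < r)
    (hr3 : n ^ 2 ≤ 3 * r) :
    closure (VC n (1 + n + r) k) ∉ irreducibleComponents (Hilb n (1 + n + r) k) := by
  refine closure_not_mem_irreducibleComponents _ (TrCond n (1 + n + r) k) isClosed_trCond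
    VC_subset_trCond ?_
  intro P hP
  obtain ⟨p, h3, h2⟩ := hP
  obtain ⟨D, hq, hc⟩ := exists_defData P p h3 h2 hr hr3
  exact ⟨p, D, fun t ht Pt hPt => not_mem_trCond P D (by lia) h3 hq hc t ht Pt hPt⟩

end Pool.Agent.HilbPts
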