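import Pool.Agent.HilbPts.NonCont
import Pool.Agent.HilbPts.Configs
import Pool.Agent.HilbPts.ConfigA
import Pool.Agent.HilbPts.ChainVC
import Pool.Agent.HilbPts.Five6
import Pool.Agent.HilbPts.Five7
import Pool.Agent.HilbPts.Five8

set_option autoImplicit false

namespace Pool.Agent.HilbPts

theorem choose_succ_two (n : ℕ) : (n + 1).choose 2 = n + n.choose 2 := by
  rw [Nat.choose_succ_succ' n 1, Nat.choose_one_right]

theorem two_mul_choose (n : ℕ) : 2 * n.choose 2 + n = n * n := by
  have := Nat.triangle_succ n
  induction n with
  | zero => rfl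
  | succ n ih =>
    have h := ih (Nat.triangle_succ n)
    rw [choose_succ_two]
    nlinarith

/-- Which very compressed algebras are smoothable, in the gap range. -/
theorem VC_subset_smoothable_iff (n r : ℕ) (hn : 4 ≤ n) (h1 : (n - 1) * (n - 2) + 12 < 6 * r)
    (h2 : r ≤ (n + 1).choose 2) (k : Type*) [Field k] [IsAlgClosed k] [CharZero k] :
    VC n (1 + n + r) k ⊆ Smoothable n (1 + n + r) k ↔ r * n.choose 2 < n ^ 2 + r ^ 2 := by
  have hc := choose_succ_two n
  have hcc := two_mul_choose n
  constructor
  · intro hsub
    by_contra hcon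
    refine VC_not_subset_smoothable (k := k) (by lia) h2 ?_ hsub
    rw [hc]
    obtain ⟨m, hm⟩ : ∃ m, n + n.choose 2 = r + m := ⟨n + n.choose 2 - r, by lia⟩
    rw [hm, Nat.add_sub_cancel_left]
    have h3 : r * n.choose 2 + r * n = r * r + r * m := by
      have : r * (n + n.choose 2) = r * (r + m) := by rw [hm]
      lia
    nlinarith
  · intro hlt
    by_cases hbig : n.choose 2 ≤ r
    · exact VC_subset_many ((n + 1).choose 2 - r) (by lia) (by lia)
    · have hr : r < n.choose 2 := by lia
      -- the codimension
      obtain ⟨s, hs⟩ : ∃ s, n.choose 2 = r + s := ⟨n.choose 2 - r, by lia⟩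
      have hs1 : 1 ≤ s := by lia
      have hrs : r * s < n ^ 2 := by
        rw [hs] at hlt
        nlinarith
      by_cases hs2 : s = 1
      · exact VC_subset_one (by lia) (by lia)
      · rcases Nat.lt_or_ge n 6 with h6 | h6
        · obtain rfl | rfl : n = 4 ∨ n = 5 := by lia
          · have hch : Nat.choose 4 2 = 6 := rfl
            obtain rfl : r = 4 := by lia
            exact VC_subset_four
          · have hch : Nat.choose 5 2 = 10 := rfl
            have : r = 5 ∨ r = 6 ∨ r = 7 ∨ r = 8 := by lia
            rcases this with rfl | rfl | rfl | rfl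
            · lia
            · exact VC_five_6
            · exact VC_five_7
            · exact VC_five_8
        · by_cases hs3 : s = 2
          · exact VC_subset_two h6 (by lia)
          · exfalso
            have hs4 : 3 ≤ s := by lia
            have hr3 : 3 ≤ r := by nlinarith
            -- r * s ≥ 3 * (r + s) - 9 ≥ n ^ 2
            have h5 : 3 * (r + s) ≤ r * s + 9 := by
              obtain ⟨a, rfl⟩ := Nat.exists_eq_add_of_le hs4
              obtain ⟨b, rfl⟩ := Nat.exists_eq_add_of_le hr3
              nlinarith
            nlinarith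

end Pool.Agent.HilbPts
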