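import Pool.Agent.HilbPts.Basic

set_option autoImplicit false

namespace Pool.Agent.HilbPts

open MvPolynomial Matrix

variable {n d : ℕ} {k : Type*} [Field k] {ι : Type*} [Fintype ι] [DecidableEq ι]

/-- Reindexing of the coordinates along a bijection of `Fin d` with a finite type. -/
def cIdx (e : Fin d ≃ ι) : (Fin n × Fin d × Fin d) ⊕ Fin d → (Fin n × ι × ι) ⊕ ι
  | Sum.inl (i, a, b) => Sum.inl (i, e a, e b)
  | Sum.inr a => Sum.inr (e a)

/-- The coordinate vector of a tuple of matrices and a vector. -/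
def cvec (M : Fin n → Matrix ι ι k) (v : ι → k) : (Fin n × ι × ι) ⊕ ι → k
  | Sum.inl (i, a, b) => M i a b
  | Sum.inr a => v a

/-- A presentation from a linear map to `k ^ ι` compatible with multiplication by variables. -/
theorem exists_pres (e : Fin d ≃ ι) (θ : MvPolynomial (Fin n) k →ₗ[k] (ι → k))
    (hθ : Function.Surjective θ) (M : Fin n → Matrix ι ι k)
    (h : ∀ i f, θ (X i * f) = M i *ᵥ θ f) :
    ∃ P : Pres n d k, (∀ f, f ∈ P.ideal ↔ θ f = 0) ∧
      (∀ f a, P.basis (Ideal.Quotient.mk _ f) a = θ f (e a)) ∧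
      P.coord = fun s => cvec M (θ 1) (cIdx e s) := by
  classical
  let I : Ideal (MvPolynomial (Fin n) k) :=
    { carrier := {f | θ f = 0}
      add_mem' := by
        intro a b ha hb
        simp only [Set.mem_ofPred_eq] at *
        rw [map_add, ha, hb, add_zero]
      zero_mem' := by simp
      smul_mem' := by
        intro g f hf
        simp only [Set.mem_ofPred_eq, smul_eq_mul] at *
        induction g using MvPolynomial.induction_on with
        | C a => rw [← MvPolynomial.smul_eq_C_mul, map_smul, hf, smul_zero]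
        | add p q hp hq => rw [add_mul, map_add, hp, hq, add_zero]
        | mul_X p i hp => rw [mul_comm p, mul_assoc, h, hp, Matrix.mulVec_zero] }
  have hI : ∀ f, f ∈ I ↔ θ f = 0 := fun f => Iff.rfl
  obtain ⟨E, hE⟩ : ∃ E : (MvPolynomial (Fin n) k ⧸ I) ≃ₗ[k] (ι → k),
      ∀ f, E (Ideal.Quotient.mk I f) = θ f :=
    ⟨(Submodule.Quotient.restrictScalarsEquiv k I).symm ≪≫ₗ
      Submodule.quotEquivOfEq _ _ (by ext f; simp [hI]) ≪≫ₗ
      θ.quotKerEquivOfSurjective hθ, fun f => rfl⟩
  obtain ⟨F, hF⟩ : ∃ F : (ι → k) ≃ₗ[k] (Fin d → k), ∀ x a, F x a = x (e a) :=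
    ⟨LinearEquiv.funCongrLeft k k e, fun x a => rfl⟩
  have hM : ∀ i y, E (Ideal.Quotient.mk I (X i) * y) = M i *ᵥ E y := by
    intro i y
    obtain ⟨f, rfl⟩ := Ideal.Quotient.mk_surjective y
    rw [← map_mul, hE, h, hE]
  refine ⟨⟨I, E ≪≫ₗ F⟩, hI, fun f a => ?_, ?_⟩
  · rw [LinearEquiv.trans_apply, hF, hE]
  · funext s
    rcases s with ⟨i, a, b⟩ | a
    · simp only [Pres.coord, cIdx, cvec]
      rw [LinearEquiv.trans_apply, hF, hM]
      have h1 : E ((E ≪≫ₗ F).symm (Pi.single b 1)) = Pi.single (e b) 1 := by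
        rw [LinearEquiv.trans_symm, LinearEquiv.trans_apply, LinearEquiv.apply_symm_apply,
          LinearEquiv.symm_apply_eq]
        funext x
        rw [hF]
        simp [Pi.single_apply]
      rw [h1, Matrix.mulVec_single_one]
      rfl
    · simp only [Pres.coord, cIdx, cvec]
      rw [LinearEquiv.trans_apply, hF, ← map_one (Ideal.Quotient.mk I), hE]

omit [Fintype ι] [DecidableEq ι] in
/-- Polynomials in the coordinates, reindexed. -/
theorem eval_cIdx (e : Fin d ≃ ι) (F : MvPolynomial ((Fin n × Fin d × Fin d) ⊕ Fin d) k)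
    (c : (Fin n × ι × ι) ⊕ ι → k) :
    eval (fun s => c (cIdx e s)) F = eval c (rename (cIdx e) F) := by
  rw [eval_rename]
  rfl

end Pool.Agent.HilbPts
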