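import Pool.Agent.HilbPts.DC

set_option autoImplicit false

namespace Pool.Agent.HilbPts

open MvPolynomial Matrix

variable {n r : ℕ} {k : Type*} [Field k]

/-- Smoothability from the triviality of an explicit linear system. -/
theorem VC_subset_of_sys [CharZero k] (Q : Fin r → Fin n → k)
    (hP : Function.Injective (stdPts Q))
    (hsys : ∀ B : Fin r → Fin n → Fin n → k, (∀ a i j, B a i j = B a j i) →
      (∀ a s, qfun (B a) (Q s) = 0) → (∀ a m, 2 * ∑ i, B a m i * Q a i - B a m m = 0) →
      (∀ j m, ∑ a, Q a m * (B a j j - 2 * B a j m) = 0) → ∀ a i j, B a i j = 0) :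
    VC n (1 + n + r) k ⊆ Smoothable n (1 + n + r) k := by
  classical
  refine VC_subset_of_tanMap Q hP fun δ hδ => ?_
  by_contra hcon
  have hnot : δ ∉ LinearMap.range (tanMap Q) := fun ⟨u, hu⟩ => hcon ⟨u, hu⟩
  obtain ⟨φ, hφδ, hφ⟩ := Submodule.exists_dual_map_eq_bot_of_notMem hnot inferInstance
  have hφ0 : ∀ u, φ (tanMap Q u) = 0 := by
    intro u
    have : φ (tanMap Q u) ∈ (LinearMap.range (tanMap Q)).map φ := ⟨_, ⟨u, rfl⟩, rfl⟩
    rw [hφ] at this
    exact (Submodule.mem_bot k).1 this
  let w : Fin r → Fin n → Fin n → k := fun a i j =>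
    φ (Pi.single a (Pi.single i (Pi.single j 1)))
  have hw : ∀ y, φ y = ∑ a, ∑ i, ∑ j, y a i j * w a i j := by
    intro y
    have hy : y = ∑ a, ∑ i, ∑ j, y a i j •
        (Pi.single a (Pi.single i (Pi.single j 1)) : Fin r → Fin n → Fin n → k) := by
      funext a' i' j'
      simp only [Finset.sum_apply, Pi.smul_apply, smul_eq_mul]
      rw [Finset.sum_eq_single a', Finset.sum_eq_single i', Finset.sum_eq_single j']
      · simp
      · intro b _ hb
        simp [hb.symm]
      · simp
      · intro b _ hb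
        refine Finset.sum_eq_zero fun c _ => ?_
        simp [hb.symm]
      · simp
      · intro b _ hb
        refine Finset.sum_eq_zero fun c _ => Finset.sum_eq_zero fun c' _ => ?_
        simp [hb.symm]
      · simp
    conv_lhs => rw [hy]
    simp only [map_sum, map_smul, smul_eq_mul]
    rfl
  let B : Fin r → Fin n → Fin n → k := fun a i j => 2⁻¹ * (w a i j + w a j i)
  have hB : ∀ a i j, B a i j = B a j i := fun a i j => by simp only [B]; ring
  have hBy : ∀ y : Fin r → Fin n → Fin n → k, (∀ a i j, y a i j = y a j i) →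
      φ y = ∑ a, ∑ i, ∑ j, y a i j * B a i j := by
    intro y hy
    rw [hw]
    refine Finset.sum_congr rfl fun a _ => ?_
    have h1 : ∑ i, ∑ j, y a i j * w a j i = ∑ i, ∑ j, y a i j * w a i j := by
      rw [Finset.sum_comm]
      exact Finset.sum_congr rfl fun i _ => Finset.sum_congr rfl fun j _ => by rw [hy a j i]
    have h2 : ∑ i, ∑ j, y a i j * B a i j =
        2⁻¹ * (∑ i, ∑ j, y a i j * w a i j + ∑ i, ∑ j, y a i j * w a j i) := by
      simp only [B, mul_add, Finset.sum_add_distrib, Finset.mul_sum]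
      congr 1 <;>
        exact Finset.sum_congr rfl fun i _ => Finset.sum_congr rfl fun j _ => by ring
    rw [h2, h1, ← two_mul, ← mul_assoc, inv_mul_cancel₀ two_ne_zero, one_mul]
  obtain ⟨c1, c2, c3⟩ := pairing_conditions Q B hB fun u => by
    rw [← hBy _ fun a i j => tanMap_symm Q u a i j, hφ0]
  have c3' : ∀ j m, ∑ a, Q a m * (B a j j - 2 * B a j m) = 0 := by
    intro j m
    have h1 : ∀ a, Q a m * (B a j j - 2 * B a j m) =
        2 * (Q a m * (∑ i, B a j i * Q a i - B a j m)) := by
      intro a
      have := c2 a j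
      rw [sub_eq_zero] at this
      rw [← this]; ring
    simp only [h1, ← Finset.mul_sum, c3, mul_zero]
  have hB0 := hsys B hB c1 c2 c3'
  apply hφδ
  rw [hBy δ hδ]
  simp [hB0]

theorem stdPts_injective_of_int [CharZero k] (Q : Fin r → Fin n → k) (Z : Fin r → Fin n → ℤ)
    (h : ∀ s m, Q s m = ((Z s m : ℤ) : k)) (hZ : Function.Injective (stdPts Z)) :
    Function.Injective (stdPts Q) := by
  have h1 : ∀ l i, stdPts Q l i = ((stdPts Z l i : ℤ) : k) := by
    intro l i
    rcases l with ⟨⟩ | m | s
    · simp [stdPts]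
    · simp only [stdPts, Pi.single_apply]
      split_ifs <;> simp
    · exact h s i
  intro a b hab
  apply hZ
  funext i
  have := congrFun hab i
  rw [h1, h1] at this
  exact Int.cast_injective this

end Pool.Agent.HilbPts
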