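import Pool.Agent.HilbPts.Exist

set_option autoImplicit false

namespace Pool.Agent.HilbPts

open MvPolynomial

variable {n d : ℕ} {k : Type*} [Field k]

/-- Translation `x_i ↦ x_i - p_i`. -/
noncomputable def trSub (p : Fin n → k) : MvPolynomial (Fin n) k →ₐ[k] MvPolynomial (Fin n) k :=
  aeval fun i => X i - C (p i)

/-- Translation `x_i ↦ x_i + p_i`. -/
noncomputable def trAdd (p : Fin n → k) : MvPolynomial (Fin n) k →ₐ[k] MvPolynomial (Fin n) k :=
  aeval fun i => X i + C (p i)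

theorem trSub_trAdd (p : Fin n → k) (f : MvPolynomial (Fin n) k) : trSub p (trAdd p f) = f := by
  have : (trSub p).comp (trAdd p) = AlgHom.id k _ := by
    ext i; simp [trSub, trAdd, algHom_C]
  exact DFunLike.congr_fun this f

theorem trAdd_trSub (p : Fin n → k) (f : MvPolynomial (Fin n) k) : trAdd p (trSub p f) = f := by
  have : (trAdd p).comp (trSub p) = AlgHom.id k _ := by
    ext i; simp [trSub, trAdd, algHom_C]
  exact DFunLike.congr_fun this f

/-- The translation automorphism. -/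
noncomputable def trEquiv (p : Fin n → k) : MvPolynomial (Fin n) k ≃ₐ[k] MvPolynomial (Fin n) k :=
  AlgEquiv.ofAlgHom (trSub p) (trAdd p) (by ext i; simp [trSub, trAdd, algHom_C])
    (by ext i; simp [trSub, trAdd, algHom_C])

theorem trSub_mem (p : Fin n → k) (j : ℕ) {f : MvPolynomial (Fin n) k}
    (hf : f ∈ idealOfVars (Fin n) k ^ j) : trSub p f ∈ maxIdealAt p ^ j := by
  have h1 : Ideal.map (trSub p) (idealOfVars (Fin n) k) ≤ maxIdealAt p := by
    rw [Ideal.map_span, Ideal.span_le]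
    rintro _ ⟨_, ⟨i, rfl⟩, rfl⟩
    simp only [trSub, SetLike.mem_coe, RingHom.coe_coe, aeval_X]
    exact X_sub_mem p i
  have h2 : Ideal.map (trSub p) (idealOfVars (Fin n) k ^ j) ≤ maxIdealAt p ^ j := by
    rw [Ideal.map_pow]
    exact Ideal.pow_right_mono h1 j
  exact h2 (Ideal.mem_map_of_mem _ hf)

theorem trAdd_mem (p : Fin n → k) (j : ℕ) {f : MvPolynomial (Fin n) k}
    (hf : f ∈ maxIdealAt p ^ j) : trAdd p f ∈ idealOfVars (Fin n) k ^ j := by
  have h1 : Ideal.map (trAdd p) (maxIdealAt p) ≤ idealOfVars (Fin n) k := by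
    rw [maxIdealAt, Ideal.map_span, Ideal.span_le]
    rintro _ ⟨_, ⟨i, rfl⟩, rfl⟩
    have : trAdd p (X i - C (p i)) = X i := by simp [trAdd, algHom_C]
    simp only [SetLike.mem_coe, RingHom.coe_coe, this]
    exact Ideal.subset_span ⟨i, rfl⟩
  have h2 : Ideal.map (trAdd p) (maxIdealAt p ^ j) ≤ idealOfVars (Fin n) k ^ j := by
    rw [Ideal.map_pow]
    exact Ideal.pow_right_mono h1 j
  exact h2 (Ideal.mem_map_of_mem _ hf)

theorem trEquiv_apply (p : Fin n → k) (f : MvPolynomial (Fin n) k) :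
    trEquiv p f = trSub p f := rfl

theorem finrank_comap (p : Fin n → k) (I : Ideal (MvPolynomial (Fin n) k)) :
    Module.finrank k (MvPolynomial (Fin n) k ⧸ Ideal.comap (trEquiv p) I) =
      Module.finrank k (MvPolynomial (Fin n) k ⧸ I) := by
  have e : (MvPolynomial (Fin n) k ⧸ Ideal.comap (trEquiv p) I) ≃ₐ[k]
      (MvPolynomial (Fin n) k ⧸ I) :=
    Ideal.quotientEquivAlg _ I (trEquiv p)
      (Ideal.map_comap_of_surjective _ (trEquiv p).surjective I).symm
  exact e.toLinearEquiv.finrank_eq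

theorem count_lt_aux (n r w A B : ℤ) (hn : 0 < n) (h4 : w + r ≤ A) (c1 : (n + 2) * A = B * 3)
    (c2 : (n + 1) * n = A * 2) (hr3 : n ^ 2 ≤ 3 * r) : n * w < B := by
  nlinarith

theorem count_lt (n r w : ℕ) (h4 : w + r ≤ (n + 1).choose 2) (hr3 : n ^ 2 ≤ 3 * r) (hr : n < r) :
    n * w < (n + 2).choose 3 := by
  have c1 : (n + 2) * (n + 1).choose 2 = (n + 2).choose 3 * 3 := Nat.add_one_mul_choose_eq (n + 1) 2
  have c2 : (n + 1) * n = (n + 1).choose 2 * 2 := by
    have := Nat.add_one_mul_choose_eq n 1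
    rwa [Nat.choose_one_right] at this
  rcases Nat.eq_zero_or_pos n with hn | hn
  · subst hn
    simp at h4
    lia
  · have := count_lt_aux n r w ((n + 1).choose 2 : ℕ) ((n + 2).choose 3 : ℕ) (by exact_mod_cast hn)
      (by exact_mod_cast h4) (by exact_mod_cast c1) (by exact_mod_cast c2) (by exact_mod_cast hr3)
    exact_mod_cast this

theorem exists_defData {r : ℕ} (P : Pres n (1 + n + r) k) (p : Fin n → k)
    (h3 : maxIdealAt p ^ 3 ≤ P.ideal) (h2 : P.ideal ≤ maxIdealAt p ^ 2) (hr : n < r)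
    (hr3 : n ^ 2 ≤ 3 * r) :
    ∃ D : DefData P.ideal p, D.q ∉ P.ideal ∧ ∃ c ∈ maxIdealAt p ^ 3, D.lam c ≠ 0 := by
  obtain ⟨I', hI'⟩ : ∃ I', I' = Ideal.comap (trEquiv p) P.ideal := ⟨_, rfl⟩
  have hmem : ∀ g, g ∈ I' ↔ trSub p g ∈ P.ideal := fun g => by rw [hI']; rfl
  have h3' : idealOfVars (Fin n) k ^ 3 ≤ I' := fun g hg => (hmem g).2 (h3 (trSub_mem p 3 hg))
  have h2' : I' ≤ idealOfVars (Fin n) k ^ 2 := fun g hg => by
    have := trAdd_mem p 2 (h2 ((hmem g).1 hg))
    rwa [trAdd_trSub] at this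
  have hd : Module.finrank k (MvPolynomial (Fin n) k ⧸ I') = 1 + n + r := by
    rw [hI', finrank_comap, finrank_quot]
  have hlt : n * Module.finrank k (quadrics I') < (n + 2).choose 3 := by
    exact count_lt n r _ (finrank_quadrics_add_le h3' hd) hr3 hr
  obtain ⟨lam, q, a1, a2, a3, a4, c, hc, hc1⟩ := exists_lam_q h3' h2' hd hr hlt
  refine ⟨⟨lam ∘ₗ (trAdd p).toLinearMap, trSub p q, ?_, ?_, ?_, ?_⟩,
    fun h => a4 ((hmem q).2 h), trSub p c, trSub_mem p 3 hc, ?_⟩
  · intro g hg f hf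
    rw [LinearMap.comp_apply, AlgHom.toLinearMap_apply, map_mul]
    refine a1 _ ?_ _ ?_
    · simpa using trAdd_mem p 1 (by simpa using hg)
    · rw [hmem, trSub_trAdd]
      exact hf
  · intro g hg
    rw [LinearMap.comp_apply, AlgHom.toLinearMap_apply, map_mul, trAdd_trSub]
    refine a2 _ ?_
    simpa using trAdd_mem p 1 (by simpa using hg)
  · intro g hg
    have := a3 _ (show trAdd p g ∈ idealOfVars (Fin n) k by
      simpa using trAdd_mem p 1 (by simpa using hg))
    rwa [hmem, map_mul, trSub_trAdd] at this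
  · refine ⟨trSub p c, h3 (trSub_mem p 3 hc), ?_⟩
    rw [LinearMap.comp_apply, AlgHom.toLinearMap_apply, trAdd_trSub, hc1]
  · rw [LinearMap.comp_apply, AlgHom.toLinearMap_apply, trAdd_trSub, hc1]
    exact one_ne_zero

end Pool.Agent.HilbPts
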