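import Pool.Agent.HilbPts.Defs

set_option autoImplicit false

namespace Pool.Agent.HilbPts

open MvPolynomial Matrix

variable {n d r : ℕ} {k : Type*} [Field k]

/-- First derivative at a point. -/
noncomputable def D1 (p : Fin n → k) (j : Fin n) (f : MvPolynomial (Fin n) k) : k :=
  eval p (pderiv j f)

/-- Second derivative at a point. -/
noncomputable def D2 (p : Fin n → k) (a b : Fin n) (f : MvPolynomial (Fin n) k) : k :=
  eval p (pderiv a (pderiv b f))

theorem D1_add (p : Fin n → k) (j : Fin n) (f g : MvPolynomial (Fin n) k) :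
    D1 p j (f + g) = D1 p j f + D1 p j g := by simp [D1]

theorem D2_add (p : Fin n → k) (a b : Fin n) (f g : MvPolynomial (Fin n) k) :
    D2 p a b (f + g) = D2 p a b f + D2 p a b g := by simp [D2]

theorem D1_smul (p : Fin n → k) (j : Fin n) (c : k) (g : MvPolynomial (Fin n) k) :
    D1 p j (c • g) = c * D1 p j g := by
  simp [D1, MvPolynomial.smul_eq_C_mul, Derivation.leibniz]

theorem D2_smul (p : Fin n → k) (a b : Fin n) (c : k) (g : MvPolynomial (Fin n) k) :
    D2 p a b (c • g) = c * D2 p a b g := by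
  simp [D2, MvPolynomial.smul_eq_C_mul, Derivation.leibniz]

theorem D1_mul (p : Fin n → k) (j : Fin n) (f g : MvPolynomial (Fin n) k) :
    D1 p j (f * g) = D1 p j f * eval p g + eval p f * D1 p j g := by
  simp [D1, Derivation.leibniz]; ring

theorem D2_mul (p : Fin n → k) (a b : Fin n) (f g : MvPolynomial (Fin n) k) :
    D2 p a b (f * g) = D2 p a b f * eval p g + D1 p a f * D1 p b g + D1 p b f * D1 p a g +
      eval p f * D2 p a b g := by
  simp [D1, D2, Derivation.leibniz]; ring

theorem D1_X (p : Fin n → k) (i j : Fin n) : D1 p j (X i : MvPolynomial (Fin n) k) =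
    if i = j then 1 else 0 := by
  simp only [D1, pderiv_X, Pi.single_apply]
  split_ifs <;> simp

theorem D2_X (p : Fin n → k) (i a b : Fin n) : D2 p a b (X i : MvPolynomial (Fin n) k) = 0 := by
  simp only [D2, pderiv_X, Pi.single_apply]
  split_ifs <;> simp

theorem D1_C (p : Fin n → k) (j : Fin n) (c : k) : D1 p j (C c) = 0 := by simp [D1]

theorem D2_C (p : Fin n → k) (a b : Fin n) (c : k) : D2 p a b (C c) = 0 := by simp [D2]

theorem D1_sub (p : Fin n → k) (j : Fin n) (f g : MvPolynomial (Fin n) k) :
    D1 p j (f - g) = D1 p j f - D1 p j g := by simp [D1]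

theorem D2_sub (p : Fin n → k) (a b : Fin n) (f g : MvPolynomial (Fin n) k) :
    D2 p a b (f - g) = D2 p a b f - D2 p a b g := by simp [D2]

theorem D1_sum {α : Type*} (s : Finset α) (p : Fin n → k) (j : Fin n)
    (f : α → MvPolynomial (Fin n) k) :
    D1 p j (∑ x ∈ s, f x) = ∑ x ∈ s, D1 p j (f x) := by simp [D1]

theorem D2_sum {α : Type*} (s : Finset α) (p : Fin n → k) (a b : Fin n)
    (f : α → MvPolynomial (Fin n) k) :
    D2 p a b (∑ x ∈ s, f x) = ∑ x ∈ s, D2 p a b (f x) := by simp [D2]

/-- The shifted variable. -/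
noncomputable def yv (p : Fin n → k) (i : Fin n) : MvPolynomial (Fin n) k := X i - C (p i)

theorem eval_yv (p : Fin n → k) (i : Fin n) : eval p (yv p i) = 0 := by simp [yv]

theorem D1_yv (p : Fin n → k) (i j : Fin n) : D1 p j (yv p i) = if i = j then 1 else 0 := by
  rw [yv, D1_sub, D1_X, D1_C, sub_zero]

theorem D2_yv (p : Fin n → k) (i a b : Fin n) : D2 p a b (yv p i) = 0 := by
  rw [yv, D2_sub, D2_X, D2_C, sub_zero]

theorem D2_comm (p : Fin n → k) (a b : Fin n) (f : MvPolynomial (Fin n) k) :
    D2 p a b f = D2 p b a f := by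
  induction f using MvPolynomial.induction_on with
  | C c => rw [D2_C, D2_C]
  | add f g hf hg => rw [D2_add, D2_add, hf, hg]
  | mul_X f i hf => rw [D2_mul, D2_mul, hf, D2_X, D2_X]; ring

theorem yv_mem (p : Fin n → k) (i : Fin n) : yv p i ∈ maxIdealAt p := Ideal.subset_span ⟨i, rfl⟩

/-- Taylor expansion to second order. -/
theorem taylor_mem [CharZero k] (p : Fin n → k) (f : MvPolynomial (Fin n) k) :
    f - (C (eval p f) + ∑ j, C (D1 p j f) * yv p j +
      ∑ a, ∑ b, C (2⁻¹ * D2 p a b f) * (yv p a * yv p b)) ∈ maxIdealAt p ^ 3 := by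
  have hX : ∀ i, (X i : MvPolynomial (Fin n) k) = C (p i) + yv p i := by
    intro i; rw [yv]; ring
  induction f using MvPolynomial.induction_on with
  | C c => simp [D1_C, D2_C]
  | add f g hf hg =>
    have := Ideal.add_mem _ hf hg
    convert this using 1
    simp only [D1_add, D2_add, map_add, mul_add, add_mul, Finset.sum_add_distrib]
    ring
  | mul_X f i hf =>
    have h1 := Ideal.mul_mem_left _ (X i) hf
    have h2 : (∑ a, ∑ b, C (2⁻¹ * D2 p a b f) * (yv p a * yv p b)) * yv p i ∈
        maxIdealAt p ^ 3 := by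
      rw [Finset.sum_mul]
      refine Ideal.sum_mem _ fun a _ => ?_
      rw [Finset.sum_mul]
      refine Ideal.sum_mem _ fun b _ => ?_
      rw [mul_assoc]
      refine Ideal.mul_mem_left _ _ ?_
      rw [pow_succ, pow_two]
      exact Ideal.mul_mem_mul (Ideal.mul_mem_mul (yv_mem p a) (yv_mem p b)) (yv_mem p i)
    have h3 := Ideal.add_mem _ h1 h2
    convert h3 using 1
    have e1 : ∑ j, C (D1 p j (f * X i)) * yv p j =
        (∑ j, C (D1 p j f) * yv p j) * C (p i) + C (eval p f) * yv p i := by
      simp only [D1_mul, eval_X, D1_X, C_add, C_mul, add_mul, Finset.sum_add_distrib,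
        Finset.sum_mul]
      congr 1
      · exact Finset.sum_congr rfl fun j _ => by ring
      · rw [Finset.sum_eq_single i]
        · simp
        · intro j _ hj
          simp [hj.symm]
        · simp
    have e2 : ∑ a, ∑ b, C (2⁻¹ * D2 p a b (f * X i)) * (yv p a * yv p b) =
        (∑ a, ∑ b, C (2⁻¹ * D2 p a b f) * (yv p a * yv p b)) * C (p i) +
          (∑ j, C (D1 p j f) * yv p j) * yv p i := by
      have e3 : ∀ a b, C (2⁻¹ * D2 p a b (f * X i)) * (yv p a * yv p b) =
          C (2⁻¹ * D2 p a b f) * (yv p a * yv p b) * C (p i) +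
          C (2⁻¹ : k) * ((if i = b then C (D1 p a f) else 0) * (yv p a * yv p b)) +
          C (2⁻¹ : k) * ((if i = a then C (D1 p b f) else 0) * (yv p a * yv p b)) := by
        intro a b
        rw [D2_mul, D1_X, D1_X, D2_X, eval_X]
        split_ifs <;> simp only [C_mul, C_add, map_one, C_0] <;> ring
      simp only [e3, Finset.sum_add_distrib, Finset.sum_mul, ← Finset.mul_sum, ite_mul, zero_mul,
        Finset.sum_ite_eq, Finset.mem_univ, if_true]
      rw [add_assoc]
      congr 1
      have e4 : ∑ x, (if i = x then ∑ b, C (D1 p b f) * (yv p x * yv p b) else 0) =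
          ∑ x, C (D1 p x f) * (yv p x * yv p i) := by
        rw [Finset.sum_ite_eq]
        simp only [Finset.mem_univ, if_true]
        exact Finset.sum_congr rfl fun b _ => by ring
      have e5 : ∑ x, ∑ b, (if i = x then C (D1 p b f) * (yv p x * yv p b) else 0) =
          ∑ x, C (D1 p x f) * (yv p x * yv p i) := by
        rw [← e4]
        refine Finset.sum_congr rfl fun x _ => ?_
        split_ifs <;> simp
      rw [e5, ← two_mul, ← mul_assoc, ← map_ofNat C 2, ← C_mul, mul_inv_cancel₀ two_ne_zero, C_1,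
        one_mul]
      exact Finset.sum_congr rfl fun b _ => by ring
    rw [e1, e2, map_mul, eval_X, C_mul]
    rw [hX i]
    ring

/-- Structure matrices of a very compressed algebra at `p` with structure constants `g`. -/
def vcMat (p : Fin n → k) (g : Fin r → Fin n → Fin n → k) (i : Fin n) :
    Matrix (Unit ⊕ Fin n ⊕ Fin r) (Unit ⊕ Fin n ⊕ Fin r) k :=
  Matrix.of fun a b => (if a = b then p i else 0) + match a, b with
    | Sum.inr (Sum.inl j), Sum.inl _ => if i = j then 1 else 0
    | Sum.inr (Sum.inr s), Sum.inr (Sum.inl j) => g s i j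
    | _, _ => 0

/-- The linear map presenting a very compressed algebra. -/
noncomputable def vcTheta (p : Fin n → k) (g : Fin r → Fin n → Fin n → k) :
    MvPolynomial (Fin n) k →ₗ[k] (Unit ⊕ Fin n ⊕ Fin r → k) where
  toFun f := fun a => match a with
    | Sum.inl _ => eval p f
    | Sum.inr (Sum.inl j) => D1 p j f
    | Sum.inr (Sum.inr s) => ∑ a, ∑ b, 2⁻¹ * D2 p a b f * g s a b
  map_add' f h := by
    funext a
    rcases a with a | j | s
    · simp
    · simp [D1_add]
    · simp [D2_add, mul_add, add_mul, Finset.sum_add_distrib]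
  map_smul' c f := by
    funext a
    rcases a with a | j | s
    · simp [MvPolynomial.smul_eq_C_mul]
    · simp [D1_smul]
    · simp only [D2_smul, RingHom.id_apply, Pi.smul_apply, smul_eq_mul, Finset.mul_sum]
      exact Finset.sum_congr rfl fun a _ => Finset.sum_congr rfl fun b _ => by ring

theorem vcTheta_X_mul [CharZero k] (p : Fin n → k) (g : Fin r → Fin n → Fin n → k)
    (hg : ∀ s i j, g s i j = g s j i) (i : Fin n) (f : MvPolynomial (Fin n) k) :
    vcTheta p g (X i * f) = vcMat p g i *ᵥ vcTheta p g f := by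
  funext a
  simp only [Matrix.mulVec, dotProduct, vcMat, Matrix.of_apply, add_mul, ite_mul, zero_mul,
    Finset.sum_add_distrib, Finset.sum_ite_eq, Finset.mem_univ, if_true]
  rw [Fintype.sum_sum_type, Fintype.sum_sum_type]
  rcases a with a | j | s
  · simp [vcTheta]
  · simp only [vcTheta, LinearMap.coe_mk, AddHom.coe_mk, D1_mul, D1_X, eval_X]
    simp
    ring
  · simp only [vcTheta, LinearMap.coe_mk, AddHom.coe_mk, D2_mul, D1_X, D2_X, eval_X]
    simp only [Finset.univ_unique, zero_mul, Finset.sum_const_zero, zero_add, add_zero,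
      ite_mul, one_mul, mul_add, add_mul, Finset.sum_add_distrib, mul_ite, mul_zero]
    have e1 : ∑ a, ∑ b, (if i = a then 2⁻¹ * D1 p b f * g s a b else 0) =
        ∑ x, 2⁻¹ * D1 p x f * g s i x := by
      rw [Finset.sum_comm]
      simp
    have e2 : ∑ a, ∑ b, (if i = b then 2⁻¹ * D1 p a f * g s a b else 0) =
        ∑ x, 2⁻¹ * D1 p x f * g s i x := by
      simp only [Finset.sum_ite_eq, Finset.mem_univ, if_true]
      exact Finset.sum_congr rfl fun x _ => by rw [hg s x i]
    rw [e1, e2, ← two_mul, Finset.mul_sum, Finset.mul_sum, add_comm]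
    congr 1
    · refine Finset.sum_congr rfl fun a _ => ?_
      rw [Finset.mul_sum]
      exact Finset.sum_congr rfl fun b _ => by ring
    · refine Finset.sum_congr rfl fun a _ => ?_
      rw [← mul_assoc, ← mul_assoc, mul_inv_cancel₀ two_ne_zero]
      ring

end Pool.Agent.HilbPts
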