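import Pool.Agent.HilbPts.VCForm
import Pool.Agent.HilbPts.Interp

set_option autoImplicit false

namespace Pool.Agent.HilbPts

open MvPolynomial Matrix

variable {n d r : ℕ} {k : Type*} [Field k]

theorem eval_of_mem {p : Fin n → k} {f : MvPolynomial (Fin n) k} (hf : f ∈ maxIdealAt p) :
    eval p f = 0 := by
  have h : maxIdealAt p ≤ RingHom.ker (eval p) := by
    rw [maxIdealAt, Ideal.span_le]
    rintro _ ⟨i, rfl⟩
    simp [RingHom.mem_ker]
  exact h hf

theorem D1_of_mem {p : Fin n → k} {f : MvPolynomial (Fin n) k} (hf : f ∈ maxIdealAt p ^ 2) :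
    eval p f = 0 ∧ ∀ j, D1 p j f = 0 := by
  rw [pow_two] at hf
  induction hf using Submodule.mul_induction_on' with
  | mem_mul_mem a ha b hb =>
    refine ⟨by rw [map_mul, eval_of_mem ha, zero_mul], fun j => ?_⟩
    rw [D1_mul, eval_of_mem ha, eval_of_mem hb]
    ring
  | add a _ b _ ha hb =>
    refine ⟨by rw [map_add, ha.1, hb.1, add_zero], fun j => ?_⟩
    rw [D1_add, ha.2, hb.2, add_zero]

theorem D2_of_mem {p : Fin n → k} {f : MvPolynomial (Fin n) k} (hf : f ∈ maxIdealAt p ^ 3) :
    (eval p f = 0 ∧ ∀ j, D1 p j f = 0) ∧ ∀ a b, D2 p a b f = 0 := by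
  refine ⟨D1_of_mem (Ideal.pow_le_pow_right (by norm_num) hf), ?_⟩
  rw [pow_succ] at hf
  induction hf using Submodule.mul_induction_on' with
  | mem_mul_mem a ha b hb =>
    intro i j
    rw [D2_mul, (D1_of_mem ha).2, (D1_of_mem ha).2, (D1_of_mem ha).1, eval_of_mem hb]
    ring
  | add a _ b _ ha hb =>
    intro i j
    rw [D2_add, ha, hb, add_zero]

/-- The polynomial with given Taylor expansion. -/
noncomputable def quadOf (p : Fin n → k) (c : k) (a : Fin n → k) (M : Fin n → Fin n → k) :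
    MvPolynomial (Fin n) k :=
  C c + ∑ j, C (a j) * yv p j + ∑ i, ∑ j, C (M i j) * (yv p i * yv p j)

theorem eval_quadOf (p : Fin n → k) (c : k) (a : Fin n → k) (M : Fin n → Fin n → k) :
    eval p (quadOf p c a M) = c := by
  simp [quadOf, eval_yv]

theorem D1_quadOf (p : Fin n → k) (c : k) (a : Fin n → k) (M : Fin n → Fin n → k) (j : Fin n) :
    D1 p j (quadOf p c a M) = a j := by
  simp [quadOf, D1_add, D1_sum, D1_mul, D1_C, D1_yv, eval_yv]

theorem D2_quadOf (p : Fin n → k) (c : k) (a : Fin n → k) (M : Fin n → Fin n → k) (x y : Fin n) :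
    D2 p x y (quadOf p c a M) = M x y + M y x := by
  simp only [quadOf, D2_add, D2_sum, D2_mul, D1_mul, D2_C, D1_C, D1_yv, D2_yv, eval_yv, eval_C,
    map_mul]
  simp only [mul_zero, zero_mul, add_zero, zero_add, Finset.sum_const_zero, mul_add,
    Finset.sum_add_distrib, mul_ite, mul_one, ite_mul]
  simp

theorem mem_sq_of_taylor [CharZero k] {p : Fin n → k} {f : MvPolynomial (Fin n) k}
    (h0 : eval p f = 0) (h1 : ∀ j, D1 p j f = 0) : f ∈ maxIdealAt p ^ 2 := by
  have h := taylor_mem p f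
  have h' := Ideal.pow_le_pow_right (I := maxIdealAt p) (show 2 ≤ 3 by norm_num) h
  rw [h0] at h'
  simp only [h1, C_0, zero_mul, Finset.sum_const_zero, zero_add] at h'
  have h2 : ∑ a, ∑ b, C (2⁻¹ * D2 p a b f) * (yv p a * yv p b) ∈ maxIdealAt p ^ 2 := by
    refine Ideal.sum_mem _ fun a _ => Ideal.sum_mem _ fun b _ => Ideal.mul_mem_left _ _ ?_
    rw [pow_two]
    exact Ideal.mul_mem_mul (yv_mem p a) (yv_mem p b)
  have := Ideal.add_mem _ h' h2
  rwa [sub_add_cancel] at this

theorem vcTheta_one (p : Fin n → k) (g : Fin r → Fin n → Fin n → k) :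
    vcTheta p g 1 = Pi.single (Sum.inl ()) 1 := by
  funext a
  rcases a with a | j | s
  · simp [vcTheta]
  · simp [vcTheta, D1]
  · simp [vcTheta, D2]

theorem vcTheta_surjective [CharZero k] (p : Fin n → k) (g : Fin r → Fin n → Fin n → k)
    (hg : ∀ s i j, g s i j = g s j i)
    (hs : ∀ x : Fin r → k, ∃ M : Fin n → Fin n → k, ∀ s, ∑ a, ∑ b, M a b * g s a b = x s) :
    Function.Surjective (vcTheta p g) := by
  intro u
  obtain ⟨M, hM⟩ := hs fun s => u (Sum.inr (Sum.inr s))
  refine ⟨quadOf p (u (Sum.inl ())) (fun j => u (Sum.inr (Sum.inl j))) M, ?_⟩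
  funext a
  rcases a with ⟨⟩ | j | s
  · simp only [vcTheta, LinearMap.coe_mk, AddHom.coe_mk, eval_quadOf]
  · simp only [vcTheta, LinearMap.coe_mk, AddHom.coe_mk, D1_quadOf]
  · simp only [vcTheta, LinearMap.coe_mk, AddHom.coe_mk, D2_quadOf]
    rw [← hM s]
    simp only [mul_add, add_mul, Finset.sum_add_distrib]
    have : ∑ a, ∑ b, 2⁻¹ * M b a * g s a b = ∑ a, ∑ b, 2⁻¹ * M a b * g s a b := by
      rw [Finset.sum_comm]
      exact Finset.sum_congr rfl fun a _ => Finset.sum_congr rfl fun b _ => by rw [hg s b a]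
    rw [this, ← two_mul, Finset.mul_sum]
    refine Finset.sum_congr rfl fun a _ => ?_
    rw [Finset.mul_sum]
    refine Finset.sum_congr rfl fun b _ => ?_
    rw [← mul_assoc, ← mul_assoc, mul_inv_cancel₀ two_ne_zero, one_mul]

/-- Very compressed algebras with given structure constants. -/
theorem exists_vc [CharZero k] (e : Fin (1 + n + r) ≃ Unit ⊕ Fin n ⊕ Fin r) (p : Fin n → k)
    (g : Fin r → Fin n → Fin n → k) (hg : ∀ s i j, g s i j = g s j i)
    (hs : ∀ x : Fin r → k, ∃ M : Fin n → Fin n → k, ∀ s, ∑ a, ∑ b, M a b * g s a b = x s) :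
    ∃ P : Pres n (1 + n + r) k, P.toHilb ∈ VC n (1 + n + r) k ∧
      (∀ f a, P.basis (Ideal.Quotient.mk _ f) a = vcTheta p g f (e a)) ∧
      P.coord = fun s => cvec (vcMat p g) (Pi.single (Sum.inl ()) 1) (cIdx e s) := by
  classical
  obtain ⟨P, h1, h2, h3⟩ := exists_pres e (vcTheta p g) (vcTheta_surjective p g hg hs) (vcMat p g)
    (vcTheta_X_mul p g hg)
  refine ⟨P, ⟨p, ?_, ?_⟩, h2, ?_⟩
  · intro f hf
    change f ∈ P.ideal
    rw [h1]
    obtain ⟨⟨a1, a2⟩, a3⟩ := D2_of_mem hf
    funext a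
    rcases a with a | j | s
    · exact a1
    · exact a2 j
    · simp [vcTheta, a3]
  · intro f hf
    change f ∈ P.ideal at hf
    rw [h1] at hf
    refine mem_sq_of_taylor ?_ ?_
    · exact congrFun hf (Sum.inl ())
    · intro j
      exact congrFun hf (Sum.inr (Sum.inl j))
  · rw [h3, vcTheta_one]

/-- Normal form of the very compressed algebras. -/
theorem vc_normal_form [CharZero k] (e : Fin (1 + n + r) ≃ Unit ⊕ Fin n ⊕ Fin r)
    (P : Pres n (1 + n + r) k) (hP : P.toHilb ∈ VC n (1 + n + r) k) :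
    ∃ (p : Fin n → k) (g : Fin r → Fin n → Fin n → k) (Q : Pres n (1 + n + r) k),
      (∀ s i j, g s i j = g s j i) ∧ Q.toHilb = P.toHilb ∧
      Q.coord = fun s => cvec (vcMat p g) (Pi.single (Sum.inl ()) 1) (cIdx e s) := by
  classical
  obtain ⟨p, h3, h2⟩ := hP
  change maxIdealAt p ^ 3 ≤ P.ideal at h3
  change P.ideal ≤ maxIdealAt p ^ 2 at h2
  have hfin : Module.Finite k (MvPolynomial (Fin n) k ⧸ P.ideal) := Module.Finite.equiv P.basis.symm
  -- the quadratic part
  let q : (Fin n → Fin n → k) →ₗ[k] (MvPolynomial (Fin n) k ⧸ P.ideal) :=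
    { toFun := fun M => Ideal.Quotient.mk _ (∑ i, ∑ j, C (M i j) * (yv p i * yv p j))
      map_add' := by
        intro M N
        rw [← map_add]
        congr 1
        simp only [Pi.add_apply, C_add, add_mul, Finset.sum_add_distrib]
      map_smul' := by
        intro c M
        rw [RingHom.id_apply, ← mk_smul]
        congr 1
        simp only [Pi.smul_apply, smul_eq_mul, C_mul, MvPolynomial.smul_eq_C_mul, Finset.mul_sum]
        exact Finset.sum_congr rfl fun a _ => Finset.sum_congr rfl fun b _ => by ring }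
  have hq : ∀ M, q M = Ideal.Quotient.mk _ (∑ i, ∑ j, C (M i j) * (yv p i * yv p j)) := fun _ => rfl
  obtain ⟨r', hr'⟩ : ∃ r', r' = Module.finrank k (LinearMap.range q) := ⟨_, rfl⟩
  let ψ : LinearMap.range q ≃ₗ[k] (Fin r' → k) :=
    LinearEquiv.ofFinrankEq _ _ (by rw [Module.finrank_fin_fun, hr'])
  let q' : (Fin n → Fin n → k) →ₗ[k] (Fin r' → k) := ψ.toLinearMap ∘ₗ q.rangeRestrict
  have hq'0 : ∀ M, q' M = 0 ↔ q M = 0 := by
    intro M
    change ψ (q.rangeRestrict M) = 0 ↔ _
    rw [LinearEquiv.map_eq_zero_iff, ← Subtype.coe_inj]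
    rfl
  have hq's : Function.Surjective q' := ψ.surjective.comp q.surjective_rangeRestrict
  let g : Fin r' → Fin n → Fin n → k := fun s a b => q' (Pi.single a (Pi.single b 1)) s
  have hgq : ∀ M s, q' M s = ∑ a, ∑ b, M a b * g s a b := by
    intro M s
    have hM : M = ∑ a, ∑ b, M a b • (Pi.single a (Pi.single b 1) : Fin n → Fin n → k) := by
      funext x y
      simp only [Finset.sum_apply, Pi.smul_apply, smul_eq_mul]
      rw [Finset.sum_eq_single x, Finset.sum_eq_single y]
      · simp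
      · intro b _ hb
        simp [hb.symm]
      · simp
      · intro a _ ha
        refine Finset.sum_eq_zero fun b _ => ?_
        simp [ha.symm]
      · simp
    conv_lhs => rw [hM]
    rw [map_sum, Finset.sum_apply]
    refine Finset.sum_congr rfl fun a _ => ?_
    rw [map_sum, Finset.sum_apply]
    refine Finset.sum_congr rfl fun b _ => ?_
    rw [map_smul]
    rfl
  have hqs : ∀ a b, q (Pi.single a (Pi.single b 1)) = Ideal.Quotient.mk _ (yv p a * yv p b) := by
    intro a b
    rw [hq]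
    congr 1
    rw [Finset.sum_eq_single a, Finset.sum_eq_single b]
    · simp
    · intro j _ hj
      simp [hj]
    · simp
    · intro i _ hi
      refine Finset.sum_eq_zero fun j _ => ?_
      simp [hi]
    · simp
  have hg : ∀ s i j, g s i j = g s j i := by
    intro s i j
    have : q' (Pi.single i (Pi.single j 1)) = q' (Pi.single j (Pi.single i 1)) := by
      rw [← sub_eq_zero, ← map_sub, hq'0, map_sub, hqs, hqs, mul_comm, sub_self]
    exact congrFun this s
  have hsurj : Function.Surjective (vcTheta p g) := by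
    refine vcTheta_surjective p g hg fun x => ?_
    obtain ⟨M, hM⟩ := hq's x
    exact ⟨M, fun s => by rw [← hgq, hM]⟩
  have hker : ∀ f, f ∈ P.ideal ↔ vcTheta p g f = 0 := by
    intro f
    have ht := taylor_mem p f
    have hs3 : ∀ f, (∀ s, vcTheta p g f (Sum.inr (Sum.inr s)) = 0) ↔
        ∑ a, ∑ b, C (2⁻¹ * D2 p a b f) * (yv p a * yv p b) ∈ P.ideal := by
      intro f
      rw [← Ideal.Quotient.eq_zero_iff_mem, ← hq (fun a b => 2⁻¹ * D2 p a b f), ← hq'0]
      rw [funext_iff]
      refine forall_congr' fun s => ?_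
      rw [hgq]
      rfl
    constructor
    · intro hf
      obtain ⟨b0, b1⟩ := D1_of_mem (h2 hf)
      have hmem : ∑ a, ∑ b, C (2⁻¹ * D2 p a b f) * (yv p a * yv p b) ∈ P.ideal := by
        have := h3 ht
        rw [b0] at this
        simp only [b1, C_0, zero_mul, Finset.sum_const_zero, zero_add] at this
        have h5 := Ideal.sub_mem _ hf this
        rwa [sub_sub_cancel] at h5
      funext a
      rcases a with a | j | s
      · exact b0
      · exact b1 j
      · exact (hs3 f).2 hmem s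
    · intro hf
      have b0 : eval p f = 0 := congrFun hf (Sum.inl ())
      have b1 : ∀ j, D1 p j f = 0 := fun j => congrFun hf (Sum.inr (Sum.inl j))
      have hmem := (hs3 f).1 fun s => congrFun hf (Sum.inr (Sum.inr s))
      have := h3 ht
      rw [b0] at this
      simp only [b1, C_0, zero_mul, Finset.sum_const_zero, zero_add] at this
      have h5 := Ideal.add_mem _ this hmem
      rwa [sub_add_cancel] at h5
  -- the dimension
  have hr : r' = r := by
    let E : (MvPolynomial (Fin n) k ⧸ P.ideal) ≃ₗ[k] (Unit ⊕ Fin n ⊕ Fin r' → k) :=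
      (Submodule.Quotient.restrictScalarsEquiv k P.ideal).symm ≪≫ₗ
        Submodule.quotEquivOfEq _ _ (by ext f; simp [hker]) ≪≫ₗ
        (vcTheta p g).quotKerEquivOfSurjective hsurj
    have h6 := E.finrank_eq
    rw [finrank_quot, Module.finrank_fintype_fun_eq_card] at h6
    simp at h6
    lia
  subst hr
  obtain ⟨Q, c1, -, c3⟩ := exists_pres e (vcTheta p g) hsurj (vcMat p g) (vcTheta_X_mul p g hg)
  refine ⟨p, g, Q, hg, ?_, ?_⟩
  · apply Subtype.ext
    change Q.ideal = P.ideal
    ext f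
    rw [c1, hker]
  · rw [c3, vcTheta_one]

end Pool.Agent.HilbPts
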